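import Mathlib

/-!
# Piece AA: linearly independent rows have a nonzero maximal minor
-/

namespace Pool.Agent.LogRel

/-- The span of the columns is everything. -/
theorem AA_span {ι Z : Type} [Fintype ι] [DecidableEq ι] (E : ι → Z → ℂ)
    (h : ∀ c : ι → ℂ, c ≠ 0 → ∃ z, ∑ i, c i * E i z ≠ 0) :
    Submodule.span ℂ (Set.range fun z : Z => fun i : ι => E i z) = ⊤ := by
  by_contra hne
  obtain ⟨f, hf0, hf⟩ := Submodule.exists_dual_map_eq_bot_of_lt_top (lt_top_iff_ne_top.2 hne)
    (inferInstance)
  set c : ι → ℂ := fun i => f (Pi.single i 1) with hc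
  have hfc : ∀ v : ι → ℂ, f v = ∑ i, c i * v i := by
    intro v
    have hv : v = ∑ i, v i • (Pi.single i (1 : ℂ) : ι → ℂ) := by
      ext j
      simp [Finset.sum_apply, Pi.single_apply]
    conv_lhs => rw [hv]
    rw [map_sum]
    refine Finset.sum_congr rfl fun i _ => ?_
    rw [map_smul, smul_eq_mul, mul_comm]
  have hc0 : c ≠ 0 := by
    intro h0
    apply hf0
    ext i
    simpa [hc] using congrFun h0 i
  obtain ⟨z, hz⟩ := h c hc0
  apply hz
  rw [← hfc (fun i => E i z)]
  have hmem : f (fun i => E i z) ∈ Submodule.map f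
      (Submodule.span ℂ (Set.range fun z : Z => fun i : ι => E i z)) :=
    Submodule.mem_map_of_mem (Submodule.subset_span ⟨z, rfl⟩)
  rw [hf] at hmem
  simpa using hmem

/-- Let `E i z`, `i ∈ ι` finite, `z ∈ Z` be complex numbers such that for each `c ≠ 0` there is a
point `z` with `∑ c_i E i z ≠ 0`. Then there are points `z_j`, `j ∈ ι`, with
`det (E i z_j) ≠ 0`.

Proof: the vectors `(E i z)_i`, `z ∈ Z`, span `ι → ℂ` (otherwise a nonzero linear form vanishes on all
of them), so they contain a basis (`Module.Basis`, `exists_linearIndependent'` or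
`Submodule.exists_...`), indexed by `ι` after a bijection; a matrix with linearly independent
columns has nonzero determinant. -/
theorem exists_minor {ι Z : Type} [Fintype ι] [DecidableEq ι] (E : ι → Z → ℂ)
    (h : ∀ c : ι → ℂ, c ≠ 0 → ∃ z, ∑ i, c i * E i z ≠ 0) :
    ∃ z : ι → Z, (Matrix.of fun i j => E i (z j)).det ≠ 0 := by
  have hspan := AA_span E h
  obtain ⟨κ, a, -, hsp, hli⟩ := exists_linearIndependent' ℂ (fun z : Z => fun i : ι => E i z)
  have htop : ⊤ ≤ Submodule.span ℂ (Set.range ((fun z : Z => fun i : ι => E i z) ∘ a)) := by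
    rw [hsp, hspan]
  let B := Module.Basis.mk hli htop
  let e : κ ≃ ι := B.indexEquiv (Pi.basisFun ℂ ι)
  refine ⟨fun j => a (e.symm j), ?_⟩
  have hli2 : LinearIndependent ℂ (fun j : ι => fun i : ι => E i (a (e.symm j))) :=
    hli.comp e.symm e.symm.injective
  have hu : IsUnit (Matrix.of fun i j => E i (a (e.symm j)) : Matrix ι ι ℂ) := by
    rw [← Matrix.linearIndependent_cols_iff_isUnit]
    exact hli2
  have hd := (Matrix.isUnit_iff_isUnit_det _).1 hu
  exact hd.ne_zero

end Pool.Agent.LogRel
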