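import Mathlib

/-!
# Piece AB: determinant of a sum of a matrix of small rank and a small matrix
-/

namespace Pool.Agent.LogRel

theorem AB_leib {ι : Type} [Fintype ι] [DecidableEq ι] (M : Matrix ι ι ℂ) (s : Finset ι) (α θ : ℝ)
    (h1 : ∀ i ∈ s, ∀ j, ‖M i j‖ ≤ α) (h2 : ∀ i, i ∉ s → ∀ j, ‖M i j‖ ≤ α * θ) :
    ‖M.det‖ ≤ ((Fintype.card ι).factorial : ℝ) * α ^ (Fintype.card ι) * θ ^ (Fintype.card ι - s.card) := by
  rw [Matrix.det_apply]
  refine (norm_sum_le _ _).trans ?_
  have key : ∀ σ ∈ (Finset.univ : Finset (Equiv.Perm ι)),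
      ‖Equiv.Perm.sign σ • ∏ i, M (σ i) i‖ ≤ α ^ (Fintype.card ι) * θ ^ (Fintype.card ι - s.card) := by
    intro σ _
    have hs : ‖Equiv.Perm.sign σ • ∏ i, M (σ i) i‖ = ‖∏ i, M (σ i) i‖ := by
      rcases Int.units_eq_one_or (Equiv.Perm.sign σ) with h | h
      · rw [h, one_smul]
      · rw [h]; simp [Units.smul_def]
    rw [hs, norm_prod]
    have hre : ∏ i, ‖M (σ i) i‖ = ∏ i, ‖M i (σ.symm i)‖ := by
      rw [← Equiv.prod_comp σ (fun i => ‖M i (σ.symm i)‖)]
      simp
    rw [hre]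
    calc ∏ i, ‖M i (σ.symm i)‖ ≤ ∏ i, (if i ∈ s then α else α * θ) := by
          refine Finset.prod_le_prod (fun i _ => norm_nonneg _) (fun i _ => ?_)
          split_ifs with h
          · exact h1 i h _
          · exact h2 i h _
      _ = α ^ (Fintype.card ι) * θ ^ (Fintype.card ι - s.card) := by
          rw [Finset.prod_ite, Finset.prod_const, Finset.prod_const, mul_pow, ← mul_assoc, ← pow_add]
          have e1 : (Finset.univ.filter (fun i => i ∈ s)) = s := by ext; simp
          have e2 : (Finset.univ.filter (fun i => i ∉ s)) = sᶜ := by ext; simp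
          rw [e1, e2, Finset.card_compl, Nat.add_sub_cancel' (Finset.card_le_univ s)]
  refine (Finset.sum_le_card_nsmul _ _ _ key).trans (le_of_eq ?_)
  rw [Finset.card_univ, Fintype.card_perm, nsmul_eq_mul, mul_assoc]

theorem AB_dep {ι : Type} [Fintype ι] [DecidableEq ι] (A B : Matrix ι ι ℂ) (r : ℕ)
    (hr : A.rank ≤ r) (s : Finset ι) (hs : r < s.card) :
    Matrix.det (s.piecewise A B : Matrix ι ι ℂ) = 0 := by
  by_contra hne
  have hli : LinearIndependent ℂ (fun i => (s.piecewise A B) i) :=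
    Matrix.linearIndependent_rows_of_det_ne_zero hne
  have hli2 : LinearIndependent ℂ (fun i : s => A i) := by
    have h := hli.comp (fun i : s => (i : ι)) Subtype.val_injective
    have he : (fun i => (s.piecewise A B) i) ∘ (fun i : s => (i : ι)) = (fun i : s => A i) := by
      funext i
      simp only [Function.comp_apply]
      rw [Finset.piecewise_eq_of_mem _ _ _ i.2]
    rwa [he] at h
  have h1 := finrank_span_eq_card hli2
  have h2 : Module.finrank ℂ (Submodule.span ℂ (Set.range (fun i : s => A i))) ≤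
      Module.finrank ℂ (Submodule.span ℂ (Set.range A.row)) := by
    refine Submodule.finrank_mono (Submodule.span_mono ?_)
    rintro _ ⟨i, rfl⟩
    exact ⟨i, rfl⟩
  rw [h1, ← Matrix.rank_eq_finrank_span_row, Fintype.card_coe] at h2
  omega

/-- Let `A` have rank `≤ r`, `‖A i j‖ ≤ α`, `‖B i j‖ ≤ α θ`, `0 ≤ θ ≤ 1`, `r ≤ n = card ι`. Then
`‖det (A + B)‖ ≤ 2^n n! α^n θ^(n-r)`.

Proof: expand by rows: `det (A+B) = ∑_{s ⊆ ι} det (rows of s from A, the others from B)`
(`Matrix.detRowAlternating`, `MultilinearMap.map_add_univ`). If `card s > r` the rows of `A` in `s` are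
linearly dependent (rank `A ≤ r`), the determinant is zero. If `card s ≤ r`, Leibniz:
`‖det‖ ≤ n! α^n θ^(n - card s) ≤ n! α^n θ^(n-r)`. There are `2^n` sets `s`. -/
theorem det_bound {ι : Type} [Fintype ι] [DecidableEq ι] (A B : Matrix ι ι ℂ) (r : ℕ)
    (hr : A.rank ≤ r) (hrn : r ≤ Fintype.card ι) (α θ : ℝ) (hα : 0 ≤ α) (hθ0 : 0 ≤ θ) (hθ1 : θ ≤ 1)
    (hA : ∀ i j, ‖A i j‖ ≤ α) (hB : ∀ i j, ‖B i j‖ ≤ α * θ) :
    ‖(A + B).det‖ ≤ 2 ^ (Fintype.card ι) * ((Fintype.card ι).factorial : ℝ) *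
      α ^ (Fintype.card ι) * θ ^ (Fintype.card ι - r) := by
  have h0 : (A + B).det = ∑ s : Finset ι, Matrix.det (s.piecewise A B : Matrix ι ι ℂ) :=
    AlternatingMap.map_add_univ (Matrix.detRowAlternating (R := ℂ) (n := ι)) A B
  rw [h0]
  refine (norm_sum_le _ _).trans ?_
  have key : ∀ s ∈ (Finset.univ : Finset (Finset ι)), ‖Matrix.det (s.piecewise A B : Matrix ι ι ℂ)‖ ≤
      ((Fintype.card ι).factorial : ℝ) * α ^ (Fintype.card ι) * θ ^ (Fintype.card ι - r) := by
    intro s _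
    rcases lt_or_ge r s.card with h | h
    · rw [AB_dep A B r hr s h, norm_zero]
      positivity
    · refine (AB_leib (s.piecewise A B) s α θ ?_ ?_).trans ?_
      · intro i hi j
        rw [Finset.piecewise_eq_of_mem _ _ _ hi]
        exact hA i j
      · intro i hi j
        rw [Finset.piecewise_eq_of_notMem _ _ _ hi]
        exact hB i j
      · refine mul_le_mul_of_nonneg_left ?_ (by positivity)
        exact pow_le_pow_of_le_one hθ0 hθ1 (by omega)
  refine (Finset.sum_le_card_nsmul _ _ _ key).trans (le_of_eq ?_)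
  rw [Finset.card_univ, Fintype.card_finset, nsmul_eq_mul]
  push_cast
  ring

end Pool.Agent.LogRel
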