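import Mathlib

/-!
# Piece AC: rank of a matrix of values of polynomials of small degree; Taylor remainder
-/

open MvPolynomial

namespace Pool.Agent.LogRel

/-- If all `g i` have total degree `< K` the matrix `(g_i (z_j))` has rank `≤ K^(card N)`.
Proof: it is a product of a matrix with `K^(card N)` columns (coefficients of the monomials with
exponents `< K`) and a matrix with `K^(card N)` rows (values of these monomials). -/
theorem rank_poly {ι N : Type} [Fintype ι] [DecidableEq ι] [Fintype N] (g : ι → MvPolynomial N ℂ)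
    (z : ι → N → ℂ) (K : ℕ) (hK : ∀ i, (g i).totalDegree < K) :
    (Matrix.of fun i j => eval (z j) (g i)).rank ≤ K ^ (Fintype.card N) := by
  classical
  let ex : (N → Fin K) → (N →₀ ℕ) := fun s => Finsupp.equivFunOnFinite.symm (fun n => (s n : ℕ))
  have hex : Function.Injective ex := by
    intro s t h
    have h1 := Finsupp.equivFunOnFinite.symm.injective h
    funext n
    exact Fin.ext (congrFun h1 n)
  let A : Matrix ι (N → Fin K) ℂ := Matrix.of fun i s => coeff (ex s) (g i)
  let B : Matrix (N → Fin K) ι ℂ := Matrix.of fun s j => ∏ n, z j n ^ (s n : ℕ)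
  have hM : (Matrix.of fun i j => eval (z j) (g i)) = A * B := by
    ext i j
    rw [Matrix.mul_apply]
    show eval (z j) (g i) = ∑ s, coeff (ex s) (g i) * ∏ n, z j n ^ (s n : ℕ)
    rw [MvPolynomial.eval_eq']
    have h1 : ∑ s, coeff (ex s) (g i) * ∏ n, z j n ^ (s n : ℕ) =
        ∑ d ∈ Finset.univ.image ex, coeff d (g i) * ∏ n, z j n ^ d n := by
      rw [Finset.sum_image (fun s _ t _ h => hex h)]
      rfl
    rw [h1]
    apply Finset.sum_subset
    · intro d hd
      rw [Finset.mem_image]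
      have hlt : ∀ n, d n < K := fun n =>
        lt_of_le_of_lt ((monomial_le_degreeOf n hd).trans (degreeOf_le_totalDegree _ _)) (hK i)
      refine ⟨fun n => ⟨d n, hlt n⟩, Finset.mem_univ _, ?_⟩
      ext n
      rfl
    · intro d _ hd
      rw [MvPolynomial.notMem_support_iff.1 hd, zero_mul]
  rw [hM]
  refine (Matrix.rank_mul_le_left A B).trans ((Matrix.rank_le_card_width A).trans ?_)
  rw [Fintype.card_fun, Fintype.card_fin]

theorem AC_real (r : ℝ) (hr : 0 ≤ r) (n : ℕ) :
    Real.exp r - ∑ k ∈ Finset.range n, r ^ k / (k.factorial : ℝ) ≤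
      r ^ n / (n.factorial : ℝ) * Real.exp r := by
  have hs : Summable fun k : ℕ => r ^ k / (k.factorial : ℝ) := Real.summable_pow_div_factorial r
  have he : Real.exp r = ∑' k : ℕ, r ^ k / (k.factorial : ℝ) := by
    rw [Real.exp_eq_exp_ℝ, NormedSpace.exp_eq_tsum_div]
  have h1 := hs.sum_add_tsum_nat_add n
  rw [← he] at h1
  have h2 : Real.exp r - ∑ k ∈ Finset.range n, r ^ k / (k.factorial : ℝ) =
      ∑' k : ℕ, r ^ (k + n) / ((k + n).factorial : ℝ) := by linarith
  rw [h2]
  rw [he]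
  rw [← tsum_mul_left]
  refine Summable.tsum_le_tsum (fun k => ?_) ((summable_nat_add_iff n).2 hs) (hs.mul_left _)
  have h3 : (n.factorial : ℝ) * k.factorial ≤ ((k + n).factorial : ℝ) := by
    have := Nat.le_of_dvd (Nat.factorial_pos _) (Nat.factorial_mul_factorial_dvd_factorial_add k n)
    have h4 : ((k.factorial * n.factorial : ℕ) : ℝ) ≤ ((k + n).factorial : ℝ) := by exact_mod_cast this
    push_cast at h4
    linarith
  have h5 : (0 : ℝ) < n.factorial := by exact_mod_cast Nat.factorial_pos n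
  have h6 : (0 : ℝ) < k.factorial := by exact_mod_cast Nat.factorial_pos k
  rw [div_mul_div_comm, pow_add, mul_comm (r ^ k)]
  exact div_le_div_of_nonneg_left (by positivity) (by positivity) h3

/-- `‖exp z - ∑_{k<n} z^k/k!‖ ≤ ‖z‖^n/n! * exp ‖z‖`.
Proof: the remainder is `∑_{k ≥ n} z^k/k!`, and `‖z‖^(n+j)/(n+j)! ≤ ‖z‖^n/n! * ‖z‖^j/j!`. -/
theorem exp_remainder (z : ℂ) (n : ℕ) :
    ‖Complex.exp z - ∑ k ∈ Finset.range n, z ^ k / (k.factorial : ℂ)‖ ≤
      ‖z‖ ^ n / (n.factorial : ℝ) * Real.exp ‖z‖ := by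
  refine (Complex.norm_exp_sub_sum_le_exp_norm_sub_sum z n).trans ?_
  exact AC_real ‖z‖ (norm_nonneg z) n

/-- `‖∑_{k<n} z^k/k!‖ ≤ exp ‖z‖` -/
theorem exp_partial (z : ℂ) (n : ℕ) :
    ‖∑ k ∈ Finset.range n, z ^ k / (k.factorial : ℂ)‖ ≤ Real.exp ‖z‖ := by
  refine (norm_sum_le _ _).trans ?_
  have h1 : ∀ k ∈ Finset.range n, ‖z ^ k / (k.factorial : ℂ)‖ = ‖z‖ ^ k / (k.factorial : ℝ) := by
    intro k _
    rw [norm_div, norm_pow, Complex.norm_natCast]
  rw [Finset.sum_congr rfl h1]
  exact Real.sum_le_exp_of_nonneg (norm_nonneg z) n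

end Pool.Agent.LogRel
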