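import Mathlib

/-!
# Piece AE: Liouville's inequality
-/

open MvPolynomial

namespace Pool.Agent.LogRel

/-- length of an integer polynomial -/
def len {σ : Type} (G : MvPolynomial σ ℤ) : ℕ := ∑ m ∈ G.support, (G.coeff m).natAbs

theorem AE_deg {σ : Type} [Fintype σ] {G : MvPolynomial σ ℤ} {D : ℕ} (hD : G.totalDegree ≤ D)
    {m : σ →₀ ℕ} (hm : m ∈ G.support) : ∑ i, m i ≤ D := by
  have h := (le_totalDegree hm).trans hD
  rwa [Finsupp.sum_fintype _ _ (fun _ => rfl)] at h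

theorem AE_eval {σ R : Type} [Fintype σ] [CommRing R] (η : σ → R) (G : MvPolynomial σ ℤ) :
    aeval η G = ∑ m ∈ G.support, ((G.coeff m : ℤ) : R) * ∏ i, η i ^ m i := by
  rw [aeval_def, eval₂_eq']
  refine Finset.sum_congr rfl fun m _ => ?_
  rw [eq_intCast]

theorem AE_bound {σ : Type} [Fintype σ] (η : σ → ℂ) {C : ℝ} (hC : 1 ≤ C) (h : ∀ i, ‖η i‖ ≤ C)
    {G : MvPolynomial σ ℤ} {D H : ℕ} (hD : G.totalDegree ≤ D) (hH : len G ≤ H) :
    ‖aeval η G‖ ≤ H * C ^ D := by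
  have hC0 : 0 ≤ C := by linarith
  have h1 : ‖aeval η G‖ ≤ (len G : ℝ) * C ^ D := by
    rw [AE_eval]
    refine (norm_sum_le _ _).trans ?_
    unfold len
    rw [Nat.cast_sum, Finset.sum_mul]
    refine Finset.sum_le_sum fun m hm => ?_
    rw [norm_mul, norm_prod]
    have h2 : ‖((G.coeff m : ℤ) : ℂ)‖ = ((G.coeff m).natAbs : ℝ) := by
      rw [Complex.norm_intCast, Nat.cast_natAbs, Int.cast_abs]
    rw [h2]
    refine mul_le_mul_of_nonneg_left ?_ (Nat.cast_nonneg _)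
    calc ∏ i, ‖η i ^ m i‖ ≤ ∏ i, C ^ m i := by
          refine Finset.prod_le_prod (fun i _ => norm_nonneg _) fun i _ => ?_
          rw [norm_pow]
          exact pow_le_pow_left₀ (norm_nonneg _) (h i) _
      _ = C ^ (∑ i, m i) := Finset.prod_pow_eq_pow_sum _ _ _
      _ ≤ C ^ D := pow_le_pow_right₀ hC (AE_deg hD hm)
  refine h1.trans (mul_le_mul_of_nonneg_right ?_ (pow_nonneg hC0 _))
  exact_mod_cast hH

theorem AE_integral {σ R : Type} [Fintype σ] [CommRing R] (η : σ → R) (δ : ℤ)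
    (h : ∀ i, IsIntegral ℤ ((δ : R) * η i)) {G : MvPolynomial σ ℤ} {D : ℕ}
    (hD : G.totalDegree ≤ D) : IsIntegral ℤ ((δ : R) ^ D * aeval η G) := by
  rw [AE_eval, Finset.mul_sum]
  refine IsIntegral.sum _ fun m hm => ?_
  have h1 : (δ : R) ^ D * (((G.coeff m : ℤ) : R) * ∏ i, η i ^ m i) =
      ((G.coeff m * δ ^ (D - ∑ i, m i) : ℤ) : R) * ∏ i, ((δ : R) * η i) ^ m i := by
    have h2 : (δ : R) ^ D = (δ : R) ^ (D - ∑ i, m i) * (δ : R) ^ (∑ i, m i) := by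
      rw [← pow_add, Nat.sub_add_cancel (AE_deg hD hm)]
    have h3 : ∏ i, ((δ : R) * η i) ^ m i = (δ : R) ^ (∑ i, m i) * ∏ i, η i ^ m i := by
      rw [← Finset.prod_pow_eq_pow_sum, ← Finset.prod_mul_distrib]
      exact Finset.prod_congr rfl fun i _ => mul_pow _ _ _
    rw [h2, h3]
    push_cast
    ring
  rw [h1]
  refine IsIntegral.mul ?_ (IsIntegral.prod _ fun i _ => (h i).pow _)
  exact isIntegral_algebraMap (R := ℤ) (A := R) (x := G.coeff m * δ ^ (D - ∑ i, m i))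

theorem AE_norm {K : Type} [Field K] [Algebra ℚ K] [FiniteDimensional ℚ K] {β : K}
    (hβ : IsIntegral ℤ β) (h0 : β ≠ 0) : (1 : ℝ) ≤ ∏ s : K →ₐ[ℚ] ℂ, ‖s β‖ := by
  have h1 : IsIntegral ℤ (Algebra.norm ℚ β) := Algebra.isIntegral_norm ℚ hβ
  obtain ⟨y, hy⟩ := IsIntegrallyClosed.isIntegral_iff.1 h1
  have h2 : Algebra.norm ℚ β ≠ 0 := Algebra.norm_ne_zero_iff.2 h0
  have hy0 : y ≠ 0 := by
    rintro rfl
    rw [map_zero] at hy
    exact h2 hy.symm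
  have h3 := Algebra.norm_eq_prod_embeddings ℚ ℂ β
  rw [← norm_prod, ← h3, ← hy]
  have h4 : algebraMap ℚ ℂ (algebraMap ℤ ℚ y) = ((y : ℤ) : ℂ) := by simp
  rw [h4, Complex.norm_intCast]
  have h5 := Int.one_le_abs hy0
  exact_mod_cast h5

/-- **Liouville's inequality.** Let `θ_1..θ_r` be algebraic numbers. There is `c ≥ 1` such that for
each integer polynomial `G` of total degree `≤ D` and length `≤ H`, `G(θ) ≠ 0` implies
`1 ≤ |G(θ)| c^D H^c`.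

Proof: let `K = ℚ(θ_1..θ_r)` (`IntermediateField.adjoin ℚ (Set.range θ)`, finite dimensional because
the generators are algebraic), `n = [K:ℚ]`, `δ ≥ 1` an integer such that all `δ θ_i` are algebraic
integers, `C ≥ 1` an integer with `|σ θ_i| ≤ C` for all embeddings `σ : K → ℂ`. Then
`β = δ^D G(θ)` is an algebraic integer of `K` (each monomial has degree `≤ D`), nonzero, so
`|Norm β| ≥ 1`, `Norm β = ∏_σ σ(β)` (`Algebra.norm_eq_prod_embeddings`, `Algebra.norm` of an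
integral element is an integer). Each `|σ β| ≤ δ^D H C^D`. Hence
`1 ≤ |β| (δ^D H C^D)^(n-1) ≤ |G(θ)| (δ C)^(D n) H^n`. Take `c = max ((δ C)^n) n`. -/
theorem liouville {σ : Type} [Fintype σ] (θ : σ → ℂ) (hθ : ∀ i, IsAlgebraic ℚ (θ i)) :
    ∃ c : ℕ, 1 ≤ c ∧ ∀ (G : MvPolynomial σ ℤ) (D H : ℕ), G.totalDegree ≤ D → len G ≤ H →
      aeval θ G ≠ 0 → 1 ≤ ‖aeval θ G‖ * (c : ℝ) ^ D * (H : ℝ) ^ c := by
  classical
  obtain ⟨K, hK⟩ : ∃ K : IntermediateField ℚ ℂ, K = IntermediateField.adjoin ℚ (Set.range θ) :=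
    ⟨_, rfl⟩
  have hfd : FiniteDimensional ℚ K := by
    rw [hK]
    apply IntermediateField.finiteDimensional_adjoin
    rintro x ⟨i, rfl⟩
    exact (hθ i).isIntegral
  have hmem : ∀ i, θ i ∈ K := fun i => by
    rw [hK]
    exact IntermediateField.subset_adjoin ℚ _ ⟨i, rfl⟩
  obtain ⟨η, hη⟩ : ∃ η : σ → K, ∀ i, ((η i : K) : ℂ) = θ i := ⟨fun i => ⟨θ i, hmem i⟩, fun i => rfl⟩
  -- the denominator
  have hint : ∀ i, ∃ y : ℤ, y ≠ 0 ∧ IsIntegral ℤ ((y : K) * η i) := by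
    intro i
    have h1 : IsAlgebraic ℚ (η i) := Algebra.IsAlgebraic.isAlgebraic _
    have h2 : IsAlgebraic ℤ (η i) := (IsFractionRing.isAlgebraic_iff ℤ ℚ K).2 h1
    obtain ⟨y, hy, hy2⟩ := h2.exists_integral_multiple
    refine ⟨y, hy, ?_⟩
    rwa [zsmul_eq_mul] at hy2
  choose y hy0 hyi using hint
  obtain ⟨δ, hδ⟩ : ∃ δ : ℤ, δ = ∏ i, y i := ⟨_, rfl⟩
  have hδ0 : δ ≠ 0 := by
    rw [hδ]
    exact Finset.prod_ne_zero_iff.2 fun i _ => hy0 i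
  have hδi : ∀ i, IsIntegral ℤ ((δ : K) * η i) := by
    intro i
    have h1 : (δ : K) * η i = ((∏ j ∈ Finset.univ.erase i, y j : ℤ) : K) * ((y i : K) * η i) := by
      rw [hδ, ← Finset.mul_prod_erase Finset.univ y (Finset.mem_univ i)]
      push_cast
      ring
    rw [h1]
    refine IsIntegral.mul ?_ (hyi i)
    exact isIntegral_algebraMap (R := ℤ) (A := K) (x := ∏ j ∈ Finset.univ.erase i, y j)
  -- the bound of the conjugates
  obtain ⟨C, hC1, hC⟩ : ∃ C : ℕ, 1 ≤ C ∧ ∀ (s : K →ₐ[ℚ] ℂ) (i : σ), ‖s (η i)‖ ≤ C := by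
    refine ⟨1 + ∑ s : K →ₐ[ℚ] ℂ, ∑ i, ⌈‖s (η i)‖⌉₊, by omega, fun s i => ?_⟩
    have h1 : ⌈‖s (η i)‖⌉₊ ≤ ∑ i, ⌈‖s (η i)‖⌉₊ :=
      Finset.single_le_sum (f := fun i => ⌈‖s (η i)‖⌉₊) (fun _ _ => Nat.zero_le _)
        (Finset.mem_univ i)
    have h2 : ∑ i, ⌈‖s (η i)‖⌉₊ ≤ ∑ s : K →ₐ[ℚ] ℂ, ∑ i, ⌈‖s (η i)‖⌉₊ :=
      Finset.single_le_sum (f := fun s : K →ₐ[ℚ] ℂ => ∑ i, ⌈‖s (η i)‖⌉₊)
        (fun _ _ => Nat.zero_le _) (Finset.mem_univ s)
    refine (Nat.le_ceil _).trans ?_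
    exact_mod_cast (by omega : ⌈‖s (η i)‖⌉₊ ≤ 1 + ∑ s : K →ₐ[ℚ] ℂ, ∑ i, ⌈‖s (η i)‖⌉₊)
  obtain ⟨n, hn⟩ : ∃ n, n = Fintype.card (K →ₐ[ℚ] ℂ) := ⟨_, rfl⟩
  have hn1 : 1 ≤ n := by
    rw [hn]
    exact Fintype.card_pos_iff.2 ⟨K.val⟩
  obtain ⟨a, ha⟩ : ∃ a : ℕ, a = δ.natAbs * C := ⟨_, rfl⟩
  have ha1 : 1 ≤ a := by
    rw [ha]
    exact Nat.mul_pos (Int.natAbs_pos.2 hδ0) hC1
  refine ⟨max (a ^ n) n, le_max_of_le_right hn1, ?_⟩
  intro G D H hD hH hG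
  have hH1 : 1 ≤ H := by
    refine le_trans ?_ hH
    by_contra hlen
    have h0 : len G = 0 := by omega
    apply hG
    rw [AE_eval]
    refine Finset.sum_eq_zero fun m hm => ?_
    unfold len at h0
    have h1 := (Finset.sum_eq_zero_iff.1 h0) m hm
    rw [Int.natAbs_eq_zero] at h1
    rw [h1, Int.cast_zero, zero_mul]
  obtain ⟨β, hβ⟩ : ∃ β : K, β = (δ : K) ^ D * aeval η G := ⟨_, rfl⟩
  have hconj : ∀ s : K →ₐ[ℚ] ℂ, s β = (δ : ℂ) ^ D * aeval (fun i => s (η i)) G := by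
    intro s
    rw [hβ, map_mul, map_pow, map_intCast]
    congr 1
    rw [AE_eval, AE_eval, map_sum]
    refine Finset.sum_congr rfl fun m _ => ?_
    rw [map_mul, map_intCast, map_prod]
    congr 1
    exact Finset.prod_congr rfl fun i _ => map_pow _ _ _
  have hval : K.val β = (δ : ℂ) ^ D * aeval θ G := by
    refine (hconj K.val).trans ?_
    congr 2
    congr 1
    funext i
    exact hη i
  have hβ0 : β ≠ 0 := by
    rintro h0
    rw [h0, map_zero] at hval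
    have h1 : (δ : ℂ) ^ D ≠ 0 := pow_ne_zero _ (by exact_mod_cast hδ0)
    exact (mul_ne_zero h1 hG) hval.symm
  have hβi : IsIntegral ℤ β := by
    rw [hβ]
    exact AE_integral η δ hδi hD
  have hN := AE_norm hβi hβ0
  have hδn : ‖(δ : ℂ)‖ = (δ.natAbs : ℝ) := by
    rw [Complex.norm_intCast, Nat.cast_natAbs, Int.cast_abs]
  have hs : ∀ s : K →ₐ[ℚ] ℂ, ‖s β‖ ≤ (H : ℝ) * (a : ℝ) ^ D := by
    intro s
    rw [hconj, norm_mul, norm_pow, hδn]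
    have h1 := AE_bound (fun i => s (η i)) (C := (C : ℝ)) (by exact_mod_cast hC1)
      (fun i => hC s i) hD hH
    calc (δ.natAbs : ℝ) ^ D * ‖aeval (fun i => s (η i)) G‖
        ≤ (δ.natAbs : ℝ) ^ D * ((H : ℝ) * (C : ℝ) ^ D) :=
          mul_le_mul_of_nonneg_left h1 (by positivity)
      _ = (H : ℝ) * (a : ℝ) ^ D := by
          rw [ha]
          push_cast
          rw [mul_pow]
          ring
  have hsplit : ∏ s : K →ₐ[ℚ] ℂ, ‖s β‖ =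
      ‖K.val β‖ * ∏ s ∈ Finset.univ.erase K.val, ‖s β‖ :=
    (Finset.mul_prod_erase Finset.univ (fun s : K →ₐ[ℚ] ℂ => ‖s β‖) (Finset.mem_univ _)).symm
  have hrest : ∏ s ∈ Finset.univ.erase K.val, ‖s β‖ ≤ ((H : ℝ) * (a : ℝ) ^ D) ^ (n - 1) := by
    calc ∏ s ∈ Finset.univ.erase K.val, ‖s β‖
        ≤ ∏ _s ∈ Finset.univ.erase K.val, ((H : ℝ) * (a : ℝ) ^ D) :=
          Finset.prod_le_prod (fun s _ => norm_nonneg _) fun s _ => hs s
      _ = ((H : ℝ) * (a : ℝ) ^ D) ^ (n - 1) := by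
          rw [Finset.prod_const, Finset.card_erase_of_mem (Finset.mem_univ _), Finset.card_univ, hn]
          rfl
  have hHr : (1 : ℝ) ≤ H := by exact_mod_cast hH1
  have har : (1 : ℝ) ≤ a := by exact_mod_cast ha1
  have hfirst : ‖K.val β‖ ≤ ‖aeval θ G‖ * (a : ℝ) ^ D := by
    rw [hval, norm_mul, norm_pow, hδn, mul_comm]
    refine mul_le_mul_of_nonneg_left ?_ (norm_nonneg _)
    refine pow_le_pow_left₀ (Nat.cast_nonneg _) ?_ _
    rw [ha]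
    exact_mod_cast Nat.le_mul_of_pos_right _ hC1
  have h1 : (1 : ℝ) ≤ (‖aeval θ G‖ * (a : ℝ) ^ D) * ((H : ℝ) * (a : ℝ) ^ D) ^ (n - 1) := by
    refine hN.trans ?_
    rw [hsplit]
    exact mul_le_mul hfirst hrest (Finset.prod_nonneg fun _ _ => norm_nonneg _) (by positivity)
  have h2 : (‖aeval θ G‖ * (a : ℝ) ^ D) * ((H : ℝ) * (a : ℝ) ^ D) ^ (n - 1) ≤
      ‖aeval θ G‖ * ((a : ℝ) ^ n) ^ D * (H : ℝ) ^ n := by
    have e1 : ((a : ℝ) ^ n) ^ D = (a : ℝ) ^ D * ((a : ℝ) ^ D) ^ (n - 1) := by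
      rw [← pow_succ', Nat.sub_add_cancel hn1, ← pow_mul, ← pow_mul, mul_comm]
    rw [e1, mul_pow]
    have e2 : (H : ℝ) ^ (n - 1) ≤ (H : ℝ) ^ n := pow_le_pow_right₀ hHr (Nat.sub_le _ _)
    calc ‖aeval θ G‖ * (a : ℝ) ^ D * ((H : ℝ) ^ (n - 1) * ((a : ℝ) ^ D) ^ (n - 1))
        = (‖aeval θ G‖ * ((a : ℝ) ^ D * ((a : ℝ) ^ D) ^ (n - 1))) * (H : ℝ) ^ (n - 1) := by ring
      _ ≤ (‖aeval θ G‖ * ((a : ℝ) ^ D * ((a : ℝ) ^ D) ^ (n - 1))) * (H : ℝ) ^ n :=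
          mul_le_mul_of_nonneg_left e2 (by positivity)
  refine h1.trans (h2.trans ?_)
  have e3 : ((a : ℝ) ^ n) ^ D ≤ ((max (a ^ n) n : ℕ) : ℝ) ^ D := by
    refine pow_le_pow_left₀ (by positivity) ?_ _
    exact_mod_cast le_max_left (a ^ n) n
  have e4 : (H : ℝ) ^ n ≤ (H : ℝ) ^ (max (a ^ n) n) := pow_le_pow_right₀ hHr (le_max_right _ _)
  exact mul_le_mul (mul_le_mul_of_nonneg_left e3 (norm_nonneg _)) e4 (by positivity) (by positivity)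

end Pool.Agent.LogRel
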