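import Pool.Agent.Lib_LogRel.AE

/-!
# Piece AF: degree and length of determinants of integer polynomials
-/

open MvPolynomial

namespace Pool.Agent.LogRel

theorem AF_len_eq {σ : Type} (f : MvPolynomial σ ℤ) (S : Finset (σ →₀ ℕ)) (h : f.support ⊆ S) :
    len f = ∑ m ∈ S, (f.coeff m).natAbs := by
  unfold len
  apply Finset.sum_subset h
  intro m _ hm
  rw [MvPolynomial.notMem_support_iff] at hm
  rw [hm, Int.natAbs_zero]

theorem len_add {σ : Type} (f g : MvPolynomial σ ℤ) : len (f + g) ≤ len f + len g := by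
  classical
  rw [AF_len_eq f (f.support ∪ g.support) Finset.subset_union_left,
    AF_len_eq g (f.support ∪ g.support) Finset.subset_union_right,
    AF_len_eq (f + g) (f.support ∪ g.support) MvPolynomial.support_add, ← Finset.sum_add_distrib]
  apply Finset.sum_le_sum
  intro m _
  rw [MvPolynomial.coeff_add]
  exact Int.natAbs_add_le _ _

theorem AF_len_zero {σ : Type} : len (0 : MvPolynomial σ ℤ) = 0 := by
  simp [len]

theorem AF_len_sum {σ κ : Type} (s : Finset κ) (f : κ → MvPolynomial σ ℤ) :
    len (∑ i ∈ s, f i) ≤ ∑ i ∈ s, len (f i) := by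
  classical
  induction s using Finset.induction_on with
  | empty => simp [AF_len_zero]
  | insert a s ha ih =>
    rw [Finset.sum_insert ha, Finset.sum_insert ha]
    exact (len_add _ _).trans (Nat.add_le_add_left ih _)

theorem AF_len_monomial {σ : Type} (m : σ →₀ ℕ) (a : ℤ) : len (monomial m a) ≤ a.natAbs := by
  classical
  rw [AF_len_eq (monomial m a) {m} MvPolynomial.support_monomial_subset]
  simp

theorem len_mul {σ : Type} (f g : MvPolynomial σ ℤ) : len (f * g) ≤ len f * len g := by
  classical
  have h : f * g = ∑ m ∈ f.support, ∑ n ∈ g.support,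
      monomial (m + n) (f.coeff m * g.coeff n) := by
    conv_lhs => rw [MvPolynomial.as_sum f, MvPolynomial.as_sum g]
    rw [Finset.sum_mul_sum]
    apply Finset.sum_congr rfl
    intro m _
    apply Finset.sum_congr rfl
    intro n _
    rw [MvPolynomial.monomial_mul]
  rw [h]
  refine (AF_len_sum _ _).trans ?_
  unfold len
  rw [Finset.sum_mul_sum]
  apply Finset.sum_le_sum
  intro m _
  refine (AF_len_sum _ _).trans ?_
  apply Finset.sum_le_sum
  intro n _
  refine (AF_len_monomial _ _).trans ?_
  rw [Int.natAbs_mul]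

theorem len_neg {σ : Type} (f : MvPolynomial σ ℤ) : len (-f) = len f := by
  unfold len
  rw [MvPolynomial.support_neg]
  apply Finset.sum_congr rfl
  intro m _
  rw [MvPolynomial.coeff_neg, Int.natAbs_neg]

theorem AF_len_C {σ : Type} (a : ℤ) : len (C a : MvPolynomial σ ℤ) ≤ a.natAbs :=
  AF_len_monomial _ _

theorem AF_len_one {σ : Type} : len (1 : MvPolynomial σ ℤ) ≤ 1 := by
  have := AF_len_C (σ := σ) 1
  simpa using this

theorem AF_len_X {σ : Type} (i : σ) : len (X i : MvPolynomial σ ℤ) ≤ 1 := by
  exact AF_len_monomial (Finsupp.single i 1) 1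

theorem len_pow {σ : Type} (f : MvPolynomial σ ℤ) (n : ℕ) : len (f ^ n) ≤ len f ^ n := by
  induction n with
  | zero => simpa using AF_len_one (σ := σ)
  | succ n ih =>
    rw [pow_succ, pow_succ]
    exact (len_mul _ _).trans (Nat.mul_le_mul_right _ ih)

theorem len_prod {σ κ : Type} (s : Finset κ) (f : κ → MvPolynomial σ ℤ) :
    len (∏ i ∈ s, f i) ≤ ∏ i ∈ s, len (f i) := by
  classical
  induction s using Finset.induction_on with
  | empty => simpa using AF_len_one (σ := σ)
  | insert a s ha ih =>
    rw [Finset.prod_insert ha, Finset.prod_insert ha]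
    exact (len_mul _ _).trans (Nat.mul_le_mul_left _ ih)

/-- degree and length of a determinant (Leibniz formula, `Matrix.det_apply`) -/
theorem det_len {σ ι : Type} [Fintype ι] [DecidableEq ι] (M : Matrix ι ι (MvPolynomial σ ℤ))
    (d h : ℕ) (hd : ∀ i j, (M i j).totalDegree ≤ d) (hl : ∀ i j, len (M i j) ≤ h) :
    M.det.totalDegree ≤ Fintype.card ι * d ∧
      len M.det ≤ (Fintype.card ι).factorial * h ^ (Fintype.card ι) := by
  classical
  have hsign : ∀ τ : Equiv.Perm ι, Equiv.Perm.sign τ • ∏ i, M (τ i) i = ∏ i, M (τ i) i ∨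
      Equiv.Perm.sign τ • ∏ i, M (τ i) i = -∏ i, M (τ i) i := by
    intro τ
    rcases Int.units_eq_one_or (Equiv.Perm.sign τ) with h1 | h1
    · left
      rw [h1, one_smul]
    · right
      rw [h1, Units.neg_smul, one_smul]
  have hdeg : ∀ τ : Equiv.Perm ι, (∏ i, M (τ i) i).totalDegree ≤ Fintype.card ι * d := by
    intro τ
    refine (MvPolynomial.totalDegree_finsetProd _ _).trans ?_
    calc ∑ i, (M (τ i) i).totalDegree ≤ ∑ _i : ι, d := Finset.sum_le_sum fun i _ => hd _ _
      _ = Fintype.card ι * d := by simp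
  have hlen : ∀ τ : Equiv.Perm ι, len (∏ i, M (τ i) i) ≤ h ^ Fintype.card ι := by
    intro τ
    refine (len_prod _ _).trans ?_
    calc ∏ i, len (M (τ i) i) ≤ ∏ _i : ι, h := Finset.prod_le_prod' fun i _ => hl _ _
      _ = h ^ Fintype.card ι := by simp
  rw [Matrix.det_apply]
  constructor
  · refine (MvPolynomial.totalDegree_finsetSum _ _).trans ?_
    apply Finset.sup_le
    intro τ _
    rcases hsign τ with h1 | h1
    · rw [h1]
      exact hdeg τ
    · rw [h1, MvPolynomial.totalDegree_neg]
      exact hdeg τ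
  · refine (AF_len_sum _ _).trans ?_
    calc ∑ τ : Equiv.Perm ι, len (Equiv.Perm.sign τ • ∏ i, M (τ i) i)
        ≤ ∑ _τ : Equiv.Perm ι, h ^ Fintype.card ι := by
          apply Finset.sum_le_sum
          intro τ _
          rcases hsign τ with h1 | h1
          · rw [h1]
            exact hlen τ
          · rw [h1, len_neg]
            exact hlen τ
      _ = (Fintype.card ι).factorial * h ^ Fintype.card ι := by
          rw [Finset.sum_const, Finset.card_univ, Fintype.card_perm, smul_eq_mul]

/-- the entry of the interpolation matrix as an integer polynomial in the coordinates of the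
generators -/
noncomputable def entPoly {P Q L : Type} [Fintype P] [Fintype Q] [Fintype L] (τ : P → ℕ)
    (μ : Q → ℕ) (s : L → ℕ) : MvPolynomial ((P × L) ⊕ (Q × L)) ℤ :=
  (∏ i, (∑ l, C (s l : ℤ) * X (Sum.inl (i, l))) ^ τ i) * ∏ i, ∏ l, X (Sum.inr (i, l)) ^ (μ i * s l)

/-- bounds for `entPoly`: `τ i ≤ T`, `μ i ≤ L₀`, `s l ≤ R`, `1 ≤ R`: total degree
`≤ p T + q * card L * (L₀ R)` and length `≤ (card L * R)^(∑ τ i) ≤ (card L * R)^(p T)` (if `L` is
empty the length is `≤ 1`; hence the factor `card L + 1`). -/
theorem entPoly_bounds {P Q L : Type} [Fintype P] [Fintype Q] [Fintype L] (τ : P → ℕ)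
    (μ : Q → ℕ) (s : L → ℕ) (T L₀ R : ℕ) (hτ : ∀ i, τ i ≤ T) (hμ : ∀ i, μ i ≤ L₀)
    (hs : ∀ l, s l ≤ R) (hR : 1 ≤ R) :
    (entPoly (P := P) (Q := Q) τ μ s).totalDegree ≤
        Fintype.card P * T + Fintype.card Q * Fintype.card L * (L₀ * R) ∧
      len (entPoly (P := P) (Q := Q) τ μ s) ≤
        ((Fintype.card L + 1) * R) ^ (Fintype.card P * T) := by
  classical
  have hlin : ∀ i : P, (∑ l, C (s l : ℤ) * X (Sum.inl (i, l)) :
      MvPolynomial ((P × L) ⊕ (Q × L)) ℤ).totalDegree ≤ 1 := by
    intro i
    refine (MvPolynomial.totalDegree_finsetSum _ _).trans ?_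
    apply Finset.sup_le
    intro l _
    refine (MvPolynomial.totalDegree_mul _ _).trans ?_
    rw [MvPolynomial.totalDegree_C, MvPolynomial.totalDegree_X]
  have hlinl : ∀ i : P, len (∑ l, C (s l : ℤ) * X (Sum.inl (i, l)) :
      MvPolynomial ((P × L) ⊕ (Q × L)) ℤ) ≤ (Fintype.card L + 1) * R := by
    intro i
    refine (AF_len_sum _ _).trans ?_
    calc ∑ l, len (C (s l : ℤ) * X (Sum.inl (i, l)) : MvPolynomial ((P × L) ⊕ (Q × L)) ℤ)
        ≤ ∑ _l : L, R := by
          apply Finset.sum_le_sum
          intro l _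
          refine (len_mul _ _).trans ?_
          calc len (C (s l : ℤ) : MvPolynomial ((P × L) ⊕ (Q × L)) ℤ) *
                len (X (Sum.inl (i, l)) : MvPolynomial ((P × L) ⊕ (Q × L)) ℤ)
              ≤ (s l : ℤ).natAbs * 1 := Nat.mul_le_mul (AF_len_C _) (AF_len_X _)
            _ = s l := by simp
            _ ≤ R := hs l
      _ = Fintype.card L * R := by simp
      _ ≤ (Fintype.card L + 1) * R := Nat.mul_le_mul_right _ (Nat.le_succ _)
  have hB : 1 ≤ (Fintype.card L + 1) * R := Nat.mul_pos (Nat.succ_pos _) hR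
  unfold entPoly
  constructor
  · refine (MvPolynomial.totalDegree_mul _ _).trans (Nat.add_le_add ?_ ?_)
    · refine (MvPolynomial.totalDegree_finsetProd _ _).trans ?_
      calc _ ≤ ∑ _i : P, T := by
            apply Finset.sum_le_sum
            intro i _
            refine (MvPolynomial.totalDegree_pow _ _).trans ?_
            calc τ i * _ ≤ τ i * 1 := Nat.mul_le_mul_left _ (hlin i)
              _ ≤ T := by rw [mul_one]; exact hτ i
        _ = Fintype.card P * T := by simp
    · refine (MvPolynomial.totalDegree_finsetProd _ _).trans ?_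
      calc _ ≤ ∑ _i : Q, ∑ _l : L, (L₀ * R) := by
            apply Finset.sum_le_sum
            intro i _
            refine (MvPolynomial.totalDegree_finsetProd _ _).trans ?_
            apply Finset.sum_le_sum
            intro l _
            refine (MvPolynomial.totalDegree_pow _ _).trans ?_
            rw [MvPolynomial.totalDegree_X, mul_one]
            exact Nat.mul_le_mul (hμ i) (hs l)
        _ = Fintype.card Q * Fintype.card L * (L₀ * R) := by
            simp [mul_assoc]
  · refine (len_mul _ _).trans ?_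
    have h1 : len (∏ i, (∑ l, C (s l : ℤ) * X (Sum.inl (i, l))) ^ τ i :
        MvPolynomial ((P × L) ⊕ (Q × L)) ℤ) ≤ ((Fintype.card L + 1) * R) ^ (Fintype.card P * T) := by
      refine (len_prod _ _).trans ?_
      calc _ ≤ ∏ _i : P, ((Fintype.card L + 1) * R) ^ T := by
            apply Finset.prod_le_prod'
            intro i _
            refine (len_pow _ _).trans ?_
            exact (Nat.pow_le_pow_left (hlinl i) _).trans (Nat.pow_le_pow_right hB (hτ i))
        _ = ((Fintype.card L + 1) * R) ^ (Fintype.card P * T) := by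
            rw [Finset.prod_const, Finset.card_univ, ← pow_mul, mul_comm T]
    have h2 : len (∏ i, ∏ l, X (Sum.inr (i, l)) ^ (μ i * s l) :
        MvPolynomial ((P × L) ⊕ (Q × L)) ℤ) ≤ 1 := by
      refine (len_prod _ _).trans ?_
      apply Finset.prod_le_one'
      intro i _
      refine (len_prod _ _).trans ?_
      apply Finset.prod_le_one'
      intro l _
      refine (len_pow _ _).trans ?_
      exact pow_le_one' (AF_len_X _) _
    calc _ ≤ ((Fintype.card L + 1) * R) ^ (Fintype.card P * T) * 1 := Nat.mul_le_mul h1 h2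
      _ = _ := mul_one _

end Pool.Agent.LogRel
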