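import Pool.Agent.Lib_LogRel.Defs
import Pool.Agent.Lib_LogRel.AB
import Pool.Agent.Lib_LogRel.AC

/-!
# Piece AG: upper bound for interpolation determinants
-/

open MvPolynomial

set_option linter.unusedSectionVars false

namespace Pool.Agent.LogRel

variable {P Q L N : Type} [Fintype P] [Fintype Q] [Fintype L] [Fintype N] [DecidableEq P]
  [DecidableEq Q] [DecidableEq L]

/-- the monomial with exponents `τ`, `μ` at the point with parameter `s` -/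
noncomputable def ent (u : P → L → ℂ) (γ : Q → L → ℂˣ) {T L₀ : ℕ}
    (r : (P → Fin T) × (Q → Fin L₀)) (s : L → ℤ) : ℂ :=
  (∏ i, ptU u s i ^ (r.1 i : ℕ)) * ∏ i, ((ptG γ s i : ℂˣ) : ℂ) ^ (r.2 i : ℕ)


/-- a linear form -/
noncomputable def AG_lin (a : N → ℂ) : MvPolynomial N ℂ := ∑ ν, C (a ν) * X ν

theorem AG_lin_eval (a ζ : N → ℂ) : eval ζ (AG_lin a) = ∑ ν, a ν * ζ ν := by
  unfold AG_lin
  simp

theorem AG_lin_deg (a : N → ℂ) : (AG_lin a).totalDegree ≤ 1 := by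
  unfold AG_lin
  refine totalDegree_finsetSum_le fun ν _ => ?_
  refine (totalDegree_mul _ _).trans ?_
  rw [totalDegree_C, totalDegree_X, zero_add]

/-- the point of `ℂ^N` -/
noncomputable def AG_zeta (y : L → N → ℂ) (s : L → ℤ) : N → ℂ := fun ν => ∑ l, (s l : ℂ) * y l ν

theorem AG_ptU {S : Type} [Fintype S] (c : S → N → ℂ) (y : L → N → ℂ) (u : S → L → ℂ)
    (hu : ∀ i l, u i l = ∑ ν, c i ν * y l ν) (s : L → ℤ) (i : S) :
    ptU u s i = eval (AG_zeta y s) (AG_lin (c i)) := by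
  rw [AG_lin_eval]
  unfold ptU AG_zeta
  simp only [hu, Finset.mul_sum]
  rw [Finset.sum_comm]
  refine Finset.sum_congr rfl fun ν _ => Finset.sum_congr rfl fun l _ => ?_
  ring

theorem AG_ptG (v : Q → L → ℂ) (γ : Q → L → ℂˣ) (hγ : ∀ i l, ((γ i l : ℂˣ) : ℂ) = Complex.exp (v i l))
    (s : L → ℤ) (i : Q) : ((ptG γ s i : ℂˣ) : ℂ) = Complex.exp (ptU v s i) := by
  unfold ptG ptU
  rw [Units.coe_prod, Complex.exp_sum]
  refine Finset.prod_congr rfl fun l _ => ?_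
  rw [Units.val_zpow_eq_zpow_val, hγ, ← Complex.exp_int_mul]

theorem AG_norm {S : Type} [Fintype S] (u : S → L → ℂ) (s : L → ℤ) (R : ℕ)
    (hs : ∀ l, 0 ≤ s l ∧ s l ≤ R) (i : S) : ‖ptU u s i‖ ≤ R * ∑ l, ‖u i l‖ := by
  unfold ptU
  refine (norm_sum_le _ _).trans ?_
  rw [Finset.mul_sum]
  refine Finset.sum_le_sum fun l _ => ?_
  rw [norm_mul]
  refine mul_le_mul_of_nonneg_right ?_ (norm_nonneg _)
  rw [Complex.norm_intCast, abs_of_nonneg (by exact_mod_cast (hs l).1)]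
  exact_mod_cast (hs l).2

/-- the exponent -/
noncomputable def AG_ell (v : Q → L → ℂ) {L₀ : ℕ} (μ : Q → Fin L₀) (s : L → ℤ) : ℂ :=
  ∑ i, ((μ i : ℕ) : ℂ) * ptU v s i

theorem AG_ent (u : P → L → ℂ) (v : Q → L → ℂ) (γ : Q → L → ℂˣ)
    (hγ : ∀ i l, ((γ i l : ℂˣ) : ℂ) = Complex.exp (v i l)) {T L₀ : ℕ}
    (r : (P → Fin T) × (Q → Fin L₀)) (s : L → ℤ) :
    ent u γ r s = (∏ i, ptU u s i ^ (r.1 i : ℕ)) * Complex.exp (AG_ell v r.2 s) := by
  unfold ent AG_ell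
  congr 1
  rw [Complex.exp_sum]
  refine Finset.prod_congr rfl fun i _ => ?_
  rw [AG_ptG v γ hγ, ← Complex.exp_nat_mul]

theorem AG_ell_norm (v : Q → L → ℂ) {L₀ : ℕ} (μ : Q → Fin L₀) (s : L → ℤ) (R : ℕ)
    (hs : ∀ l, 0 ≤ s l ∧ s l ≤ R) :
    ‖AG_ell v μ s‖ ≤ L₀ * R * ∑ i, ∑ l, ‖v i l‖ := by
  unfold AG_ell
  refine (norm_sum_le _ _).trans ?_
  rw [Finset.mul_sum]
  refine Finset.sum_le_sum fun i _ => ?_
  rw [norm_mul, Complex.norm_natCast, mul_assoc]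
  refine mul_le_mul ?_ (AG_norm v s R hs i) (norm_nonneg _) (Nat.cast_nonneg _)
  exact_mod_cast (μ i).2.le

theorem AG_pi_norm (u : P → L → ℂ) {T : ℕ} (τ : P → Fin T) (s : L → ℤ) (M : ℝ) (hM : 1 ≤ M)
    (hu : ∀ i, ‖ptU u s i‖ ≤ M) : ‖∏ i, ptU u s i ^ (τ i : ℕ)‖ ≤ M ^ (Fintype.card P * T) := by
  rw [norm_prod]
  have h1 : ∀ i ∈ (Finset.univ : Finset P), ‖ptU u s i ^ (τ i : ℕ)‖ ≤ M ^ T := by
    intro i _
    rw [norm_pow]
    calc ‖ptU u s i‖ ^ (τ i : ℕ) ≤ M ^ (τ i : ℕ) := pow_le_pow_left₀ (norm_nonneg _) (hu i) _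
      _ ≤ M ^ T := pow_le_pow_right₀ hM (τ i).2.le
  calc ∏ i, ‖ptU u s i ^ (τ i : ℕ)‖ ≤ ∏ _i : P, M ^ T :=
        Finset.prod_le_prod (fun _ _ => norm_nonneg _) h1
    _ = M ^ (Fintype.card P * T) := by
        rw [Finset.prod_const, Finset.card_univ, ← pow_mul, mul_comm]

/-- the polynomial -/
noncomputable def AG_g (c : P → N → ℂ) (w : Q → N → ℂ) {T L₀ : ℕ} (K' : ℕ)
    (r : (P → Fin T) × (Q → Fin L₀)) : MvPolynomial N ℂ :=
  (∏ i, AG_lin (c i) ^ (r.1 i : ℕ)) *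
    ∑ k ∈ Finset.range K', C ((k.factorial : ℂ)⁻¹) *
      (∑ i, C ((r.2 i : ℕ) : ℂ) * AG_lin (w i)) ^ k

theorem AG_g_eval (c : P → N → ℂ) (w : Q → N → ℂ) (y : L → N → ℂ) (u : P → L → ℂ)
    (hu : ∀ i l, u i l = ∑ ν, c i ν * y l ν) {T L₀ : ℕ} (K' : ℕ)
    (r : (P → Fin T) × (Q → Fin L₀)) (s : L → ℤ) :
    eval (AG_zeta y s) (AG_g c w K' r) = (∏ i, ptU u s i ^ (r.1 i : ℕ)) *
      ∑ k ∈ Finset.range K', AG_ell (fun i l => ∑ ν, w i ν * y l ν) r.2 s ^ k / (k.factorial : ℂ) := by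
  unfold AG_g
  rw [map_mul, map_prod, map_sum]
  congr 1
  · refine Finset.prod_congr rfl fun i _ => ?_
    rw [map_pow, AG_ptU c y u hu]
  · refine Finset.sum_congr rfl fun k _ => ?_
    rw [map_mul, map_pow, map_sum, eval_C]
    have h : ∑ i, eval (AG_zeta y s) (C ((r.2 i : ℕ) : ℂ) * AG_lin (w i)) =
        AG_ell (fun i l => ∑ ν, w i ν * y l ν) r.2 s := by
      unfold AG_ell
      refine Finset.sum_congr rfl fun i _ => ?_
      rw [map_mul, eval_C, AG_ptU w y _ (fun _ _ => rfl)]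
    rw [h]
    ring

theorem AG_g_deg (c : P → N → ℂ) (w : Q → N → ℂ) {T L₀ : ℕ} (K' : ℕ) (hK : 1 ≤ K')
    (r : (P → Fin T) × (Q → Fin L₀)) :
    (AG_g c w K' r).totalDegree < K' + Fintype.card P * T := by
  unfold AG_g
  have h1 : (∏ i, AG_lin (c i) ^ (r.1 i : ℕ)).totalDegree ≤ Fintype.card P * T := by
    refine (totalDegree_finsetProd _ _).trans ?_
    calc ∑ i, (AG_lin (c i) ^ (r.1 i : ℕ)).totalDegree ≤ ∑ _i : P, T := by
          refine Finset.sum_le_sum fun i _ => (totalDegree_pow _ _).trans ?_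
          calc (r.1 i : ℕ) * (AG_lin (c i)).totalDegree ≤ (r.1 i : ℕ) * 1 :=
                Nat.mul_le_mul_left _ (AG_lin_deg _)
            _ ≤ T := by rw [mul_one]; exact (r.1 i).2.le
      _ = Fintype.card P * T := by rw [Finset.sum_const, Finset.card_univ, smul_eq_mul]
  have h2 : (∑ k ∈ Finset.range K', C ((k.factorial : ℂ)⁻¹) *
      (∑ i, C ((r.2 i : ℕ) : ℂ) * AG_lin (w i)) ^ k).totalDegree ≤ K' - 1 := by
    refine totalDegree_finsetSum_le fun k hk => ?_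
    rw [Finset.mem_range] at hk
    refine (totalDegree_mul _ _).trans ?_
    rw [totalDegree_C, zero_add]
    refine (totalDegree_pow _ _).trans ?_
    have h3 : (∑ i, C ((r.2 i : ℕ) : ℂ) * AG_lin (w i) : MvPolynomial N ℂ).totalDegree ≤ 1 := by
      refine totalDegree_finsetSum_le fun i _ => ?_
      refine (totalDegree_mul _ _).trans ?_
      rw [totalDegree_C, zero_add]
      exact AG_lin_deg _
    calc k * (∑ i, C ((r.2 i : ℕ) : ℂ) * AG_lin (w i) : MvPolynomial N ℂ).totalDegree ≤ k * 1 :=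
          Nat.mul_le_mul_left _ h3
      _ ≤ K' - 1 := by omega
  have h4 := totalDegree_mul (∏ i, AG_lin (c i) ^ (r.1 i : ℕ)) (∑ k ∈ Finset.range K',
    C ((k.factorial : ℂ)⁻¹) * (∑ i, C ((r.2 i : ℕ) : ℂ) * AG_lin (w i)) ^ k)
  omega

theorem AG_card (P Q : Type) [Fintype P] [Fintype Q] [DecidableEq P] [DecidableEq Q] (T L₀ : ℕ) :
    Fintype.card ((P → Fin T) × (Q → Fin L₀)) = T ^ Fintype.card P * L₀ ^ Fintype.card Q := by
  rw [Fintype.card_prod, Fintype.card_fun, Fintype.card_fun, Fintype.card_fin, Fintype.card_fin]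

/-- Upper bound for the interpolation determinant. Data: `u i l = ⟨c_i, y_l⟩`,
`γ i l = exp ⟨w_i, y_l⟩` with vectors in `ℂ^N`. There is `C ≥ 1` such that for all `T, L₀, R ≥ 1`,
`K'` and points `z_j` with parameters in `{0..R}^L`, if `θ = (C L₀ R)^{K'} / K'! ≤ 1` and
`(K' + p T)^(card N) ≤ N₀ = T^p L₀^q` then
`|det| ≤ 2^{N₀} N₀! ((C R)^{p T} exp (C L₀ R))^{N₀} θ^{N₀ - (K'+pT)^{card N}}`.

Proof: for a parameter `s` put `ζ = ∑ s_l y_l ∈ ℂ^N`. Then `ptU u s i = ⟨c_i, ζ⟩` and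
`∏ (ptG γ s i)^{μ_i} = exp ⟨∑ μ_i w_i, ζ⟩`. Choose `C ≥ 1` (real bounds, then an integer) with
`|⟨c_i, ζ⟩| ≤ C R` and `|⟨∑ μ_i w_i, ζ⟩| ≤ C L₀ R` for `0 ≤ s ≤ R`, `0 ≤ μ < L₀`. The entry is
`π * exp ℓ`, `π = ∏ ⟨c_i, ζ⟩^{τ_i}`, `|π| ≤ (C R)^{pT}`, `ℓ = ⟨∑ μ_i w_i, ζ⟩`. Write it as `A + B`,
`A = π * ∑_{k<K'} ℓ^k/k!`, `B = π * (exp ℓ - ∑_{k<K'} ℓ^k/k!)`. `A` is the value at `ζ` of a polynomial
of total degree `< K' + p T` if `K' + pT ≥ 1` (degree `≤ ∑ τ_i + (K'-1)`, `τ_i ≤ T - 1`; if `K' = 0`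
`A = 0`), so its rank is `≤ (K'+pT)^{card N}` (`rank_poly`). `|A| ≤ α := (C R)^{pT} exp (C L₀ R)`
(`exp_partial`), `|B| ≤ α θ` (`exp_remainder`). Apply `det_bound`. -/
theorem det_upper (c : P → N → ℂ) (w : Q → N → ℂ) (y : L → N → ℂ) (u : P → L → ℂ)
    (γ : Q → L → ℂˣ) (hu : ∀ i l, u i l = ∑ ν, c i ν * y l ν)
    (hγ : ∀ i l, ((γ i l : ℂˣ) : ℂ) = Complex.exp (∑ ν, w i ν * y l ν)) :
    ∃ C : ℕ, 1 ≤ C ∧ ∀ (T L₀ R K' : ℕ), 1 ≤ T → 1 ≤ L₀ → 1 ≤ R →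
      ((C * (L₀ * R) : ℕ) : ℝ) ^ K' / (K'.factorial : ℝ) ≤ 1 →
      (K' + Fintype.card P * T) ^ (Fintype.card N) ≤ T ^ Fintype.card P * L₀ ^ Fintype.card Q →
      ∀ z : ((P → Fin T) × (Q → Fin L₀)) → (L → ℤ), (∀ j l, 0 ≤ z j l ∧ z j l ≤ R) →
      ‖(Matrix.of fun i j => ent u γ i (z j)).det‖ ≤
        2 ^ (T ^ Fintype.card P * L₀ ^ Fintype.card Q) *
        ((T ^ Fintype.card P * L₀ ^ Fintype.card Q).factorial : ℝ) *
        (((C * R : ℕ) : ℝ) ^ (Fintype.card P * T) * Real.exp ((C * (L₀ * R) : ℕ) : ℝ)) ^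
          (T ^ Fintype.card P * L₀ ^ Fintype.card Q) *
        (((C * (L₀ * R) : ℕ) : ℝ) ^ K' / (K'.factorial : ℝ)) ^
          (T ^ Fintype.card P * L₀ ^ Fintype.card Q - (K' + Fintype.card P * T) ^ (Fintype.card N)) := by
  set v : Q → L → ℂ := fun i l => ∑ ν, w i ν * y l ν with hv
  obtain ⟨C, hC⟩ := exists_nat_ge (max 1 (∑ i, ∑ l, ‖u i l‖ + ∑ i, ∑ l, ‖v i l‖))
  have hC1 : (1 : ℝ) ≤ C := (le_max_left _ _).trans hC
  have hC2 : ∑ i, ∑ l, ‖u i l‖ + ∑ i, ∑ l, ‖v i l‖ ≤ C := (le_max_right _ _).trans hC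
  have hu0 : 0 ≤ ∑ i, ∑ l, ‖u i l‖ := Finset.sum_nonneg fun _ _ => Finset.sum_nonneg fun _ _ => norm_nonneg _
  have hv0 : 0 ≤ ∑ i, ∑ l, ‖v i l‖ := Finset.sum_nonneg fun _ _ => Finset.sum_nonneg fun _ _ => norm_nonneg _
  refine ⟨C, by exact_mod_cast hC1, fun T L₀ R K' hT hL hR hθ hr z hz => ?_⟩
  have hR1 : (1 : ℝ) ≤ R := by exact_mod_cast hR
  have hL1 : (1 : ℝ) ≤ L₀ := by exact_mod_cast hL
  have hCR : (1 : ℝ) ≤ ((C * R : ℕ) : ℝ) := by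
    push_cast
    nlinarith
  have hUb : ∀ j i, ‖ptU u (z j) i‖ ≤ ((C * R : ℕ) : ℝ) := by
    intro j i
    refine (AG_norm u (z j) R (hz j) i).trans ?_
    have h1 : ∑ l, ‖u i l‖ ≤ ∑ i, ∑ l, ‖u i l‖ :=
      Finset.single_le_sum (f := fun i => ∑ l, ‖u i l‖)
        (fun _ _ => Finset.sum_nonneg fun _ _ => norm_nonneg _) (Finset.mem_univ i)
    push_cast
    rw [mul_comm]
    exact mul_le_mul_of_nonneg_right (by linarith) (by linarith)
  have hEb : ∀ (μ : Q → Fin L₀) j, ‖AG_ell v μ (z j)‖ ≤ ((C * (L₀ * R) : ℕ) : ℝ) := by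
    intro μ j
    refine (AG_ell_norm v μ (z j) R (hz j)).trans ?_
    push_cast
    rw [mul_comm]
    refine mul_le_mul_of_nonneg_right (by linarith) (by positivity)
  set M : ℝ := ((C * R : ℕ) : ℝ) with hM
  set E : ℝ := ((C * (L₀ * R) : ℕ) : ℝ) with hE
  have hE0 : 0 ≤ E := Nat.cast_nonneg _
  set α : ℝ := M ^ (Fintype.card P * T) * Real.exp E with hα
  have hM0 : 0 ≤ M := by linarith
  have hα0 : 0 ≤ α := by positivity
  set θ : ℝ := E ^ K' / (K'.factorial : ℝ) with hθd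
  have hθ0 : 0 ≤ θ := by positivity
  set A : Matrix ((P → Fin T) × (Q → Fin L₀)) ((P → Fin T) × (Q → Fin L₀)) ℂ :=
    Matrix.of fun i j => eval (AG_zeta y (z j)) (AG_g c w K' i) with hA
  set B : Matrix ((P → Fin T) × (Q → Fin L₀)) ((P → Fin T) × (Q → Fin L₀)) ℂ :=
    Matrix.of fun i j => (∏ k, ptU u (z j) k ^ (i.1 k : ℕ)) *
      (Complex.exp (AG_ell v i.2 (z j)) -
        ∑ k ∈ Finset.range K', AG_ell v i.2 (z j) ^ k / (k.factorial : ℂ)) with hB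
  have hAB : (Matrix.of fun i j => ent u γ i (z j)) = A + B := by
    ext i j
    rw [Matrix.add_apply, hA, hB, Matrix.of_apply, Matrix.of_apply, Matrix.of_apply,
      AG_ent u v γ hγ, AG_g_eval c w y u hu]
    ring
  have hAn : ∀ i j, ‖A i j‖ ≤ α := by
    intro i j
    rw [hA, Matrix.of_apply, AG_g_eval c w y u hu, norm_mul]
    refine mul_le_mul (AG_pi_norm u i.1 (z j) M hCR (hUb j)) ?_ (norm_nonneg _) (by positivity)
    exact (exp_partial _ _).trans (Real.exp_le_exp.2 (hEb i.2 j))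
  have hBn : ∀ i j, ‖B i j‖ ≤ α * θ := by
    intro i j
    rw [hB, Matrix.of_apply, norm_mul, hα, mul_assoc]
    refine mul_le_mul (AG_pi_norm u i.1 (z j) M hCR (hUb j)) ?_ (norm_nonneg _) (by positivity)
    refine (exp_remainder _ _).trans ?_
    rw [mul_comm (Real.exp E)]
    refine mul_le_mul ?_ (Real.exp_le_exp.2 (hEb i.2 j)) (Real.exp_pos _).le hθ0
    exact div_le_div_of_nonneg_right (pow_le_pow_left₀ (norm_nonneg _) (hEb i.2 j) _) (Nat.cast_nonneg _)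
  have hrank : A.rank ≤ (K' + Fintype.card P * T) ^ (Fintype.card N) := by
    rcases Nat.eq_zero_or_pos K' with h0 | h0
    · have hA0 : A = 0 := by
        ext i j
        rw [hA, Matrix.of_apply, h0]
        simp [AG_g]
      rw [hA0, Matrix.rank_zero]
      exact Nat.zero_le _
    · exact rank_poly (fun i => AG_g c w K' i) (fun j => AG_zeta y (z j)) _
        (fun i => AG_g_deg c w K' h0 i)
  have key := det_bound A B _ hrank (by rw [AG_card]; exact hr) α θ hα0 hθ0 hθ hAn hBn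
  rw [AG_card, ← hAB] at key
  exact key

end Pool.Agent.LogRel
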