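import Pool.Agent.Lib_LogRel.AF
import Pool.Agent.Lib_LogRel.AG

/-!
# Piece AH: lower bound for interpolation determinants
-/

open MvPolynomial

set_option linter.unusedSectionVars false

namespace Pool.Agent.LogRel

variable {P Q L : Type} [Fintype P] [Fintype Q] [Fintype L] [DecidableEq P]
  [DecidableEq Q] [DecidableEq L]

/-- the value of `entPoly` at the coordinates of the generators is the entry `ent` -/
private theorem AH_eval (u : P → L → ℂ) (γ : Q → L → ℂˣ) {T L₀ : ℕ}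
    (r : (P → Fin T) × (Q → Fin L₀)) (s : L → ℤ) (hs : ∀ l, 0 ≤ s l) :
    aeval (Sum.elim (fun x : P × L => u x.1 x.2) (fun x : Q × L => ((γ x.1 x.2 : ℂˣ) : ℂ)))
      (entPoly (fun i => (r.1 i : ℕ)) (fun i => (r.2 i : ℕ)) (fun l => (s l).toNat)) =
      ent u γ r s := by
  have hc : ∀ l, (((s l).toNat : ℕ) : ℤ) = s l := fun l => Int.toNat_of_nonneg (hs l)
  have h1 : ∀ i, ptU u s i = ∑ l, (((s l).toNat : ℕ) : ℂ) * u i l := by
    intro i
    unfold ptU
    refine Finset.sum_congr rfl fun l _ => ?_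
    congr 1
    have := congrArg (fun t : ℤ => (t : ℂ)) (hc l)
    simp only [Int.cast_natCast] at this
    exact this.symm
  have h2 : ∀ i, ((ptG γ s i : ℂˣ) : ℂ) = ∏ l, ((γ i l : ℂˣ) : ℂ) ^ (s l).toNat := by
    intro i
    unfold ptG
    rw [Units.coe_prod]
    refine Finset.prod_congr rfl fun l _ => ?_
    have : γ i l ^ s l = γ i l ^ (s l).toNat := by
      rw [← zpow_natCast, hc l]
    rw [this, Units.val_pow_eq_pow_val]
  unfold entPoly ent
  rw [map_mul, map_prod, map_prod]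
  congr 1
  · refine Finset.prod_congr rfl fun i _ => ?_
    rw [h1 i, map_pow, map_sum]
    congr 1
    refine Finset.sum_congr rfl fun l _ => ?_
    rw [map_mul, aeval_X, aeval_C, Sum.elim_inl, algebraMap_int_eq, Int.coe_castRingHom]
    show ((((s l).toNat : ℕ) : ℤ) : ℂ) * u i l = (((s l).toNat : ℕ) : ℂ) * u i l
    rw [Int.cast_natCast]
  · refine Finset.prod_congr rfl fun i _ => ?_
    rw [h2 i, map_prod, ← Finset.prod_pow]
    refine Finset.prod_congr rfl fun l _ => ?_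
    rw [map_pow, aeval_X, Sum.elim_inr, ← pow_mul, mul_comm]

/-- Lower bound for the interpolation determinant, from `liouville` (with the algebraic numbers
`u i l`, `γ i l`), `det_len` and `entPoly_bounds`: the determinant is the value at `(u, γ)` of the
determinant of the matrix of the integer polynomials `entPoly τ μ s` (`s = z j`, `s l ≥ 0`, use
`Int.toNat`), of total degree `≤ N₀ (p T + q card L L₀ R)` and length
`≤ N₀! ((card L + 1) R)^{pT N₀}`. `C` large: `C ≥ c`, `C ≥ p + q card L`,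
`C ≥ card L + 1`, `C ≥ 1`. -/
theorem det_lower (u : P → L → ℂ) (γ : Q → L → ℂˣ) (hua : ∀ i l, IsAlgebraic ℚ (u i l))
    (hγa : ∀ i l, IsAlgebraic ℚ ((γ i l : ℂˣ) : ℂ)) :
    ∃ C : ℕ, 1 ≤ C ∧ ∀ (T L₀ R : ℕ), 1 ≤ T → 1 ≤ L₀ → 1 ≤ R →
      ∀ z : ((P → Fin T) × (Q → Fin L₀)) → (L → ℤ), (∀ j l, 0 ≤ z j l ∧ z j l ≤ R) →
      (Matrix.of fun i j => ent u γ i (z j)).det ≠ 0 →
      1 ≤ ‖(Matrix.of fun i j => ent u γ i (z j)).det‖ *
        (C : ℝ) ^ (T ^ Fintype.card P * L₀ ^ Fintype.card Q * (C * (T + L₀ * R))) *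
        (((T ^ Fintype.card P * L₀ ^ Fintype.card Q).factorial : ℝ) *
          (((C * R : ℕ) : ℝ) ^ (Fintype.card P * T)) ^
            (T ^ Fintype.card P * L₀ ^ Fintype.card Q)) ^ C := by
  obtain ⟨c, hc1, hc⟩ := liouville
    (Sum.elim (fun x : P × L => u x.1 x.2) (fun x : Q × L => ((γ x.1 x.2 : ℂˣ) : ℂ)))
    (by
      rintro (x | x)
      · exact hua x.1 x.2
      · exact hγa x.1 x.2)
  set p := Fintype.card P with hp
  set q := Fintype.card Q with hq
  set ℓ := Fintype.card L with hℓ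
  refine ⟨c + (p + q * ℓ) + (ℓ + 1), by omega, ?_⟩
  intro T L₀ R hT hL₀ hR z hz hdet
  set C := c + (p + q * ℓ) + (ℓ + 1) with hC
  set M : Matrix ((P → Fin T) × (Q → Fin L₀)) ((P → Fin T) × (Q → Fin L₀))
    (MvPolynomial ((P × L) ⊕ (Q × L)) ℤ) := Matrix.of fun i j =>
      entPoly (fun k => (i.1 k : ℕ)) (fun k => (i.2 k : ℕ)) (fun l => (z j l).toNat) with hM
  have hcard : Fintype.card ((P → Fin T) × (Q → Fin L₀)) = T ^ p * L₀ ^ q := by
    simp [hp, hq]
  set N₀ := T ^ p * L₀ ^ q with hN₀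
  have hval : aeval (Sum.elim (fun x : P × L => u x.1 x.2)
      (fun x : Q × L => ((γ x.1 x.2 : ℂˣ) : ℂ))) M.det =
      (Matrix.of fun i j => ent u γ i (z j)).det := by
    rw [AlgHom.map_det]
    congr 1
    ext i j
    simp only [AlgHom.mapMatrix_apply, Matrix.map_apply, hM, Matrix.of_apply]
    exact AH_eval u γ i (z j) fun l => (hz j l).1
  have hb : ∀ i j, (M i j).totalDegree ≤ p * T + q * ℓ * (L₀ * R) ∧
      len (M i j) ≤ ((ℓ + 1) * R) ^ (p * T) := by
    intro i j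
    exact entPoly_bounds _ _ _ T L₀ R (fun k => (i.1 k).2.le) (fun k => (i.2 k).2.le)
      (fun l => by
        have := (hz j l).2
        omega) hR
  obtain ⟨hd, hl⟩ := det_len M (p * T + q * ℓ * (L₀ * R)) (((ℓ + 1) * R) ^ (p * T))
    (fun i j => (hb i j).1) (fun i j => (hb i j).2)
  rw [hcard] at hd hl
  have h0 := hc M.det _ _ hd hl (by rw [hval]; exact hdet)
  rw [hval] at h0
  have hC1 : 1 ≤ C := by omega
  have hcC : c ≤ C := by omega
  have hdC : N₀ * (p * T + q * ℓ * (L₀ * R)) ≤ N₀ * (C * (T + L₀ * R)) := by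
    refine Nat.mul_le_mul_left _ ?_
    have hpC : p ≤ C := by omega
    have hqC : q * ℓ ≤ C := by omega
    calc p * T + q * ℓ * (L₀ * R) ≤ C * T + C * (L₀ * R) :=
          Nat.add_le_add (Nat.mul_le_mul_right _ hpC) (Nat.mul_le_mul_right _ hqC)
      _ = C * (T + L₀ * R) := by ring
  have h1 : (c : ℝ) ^ (N₀ * (p * T + q * ℓ * (L₀ * R))) ≤ (C : ℝ) ^ (N₀ * (C * (T + L₀ * R))) := by
    have h1' : c ^ (N₀ * (p * T + q * ℓ * (L₀ * R))) ≤ C ^ (N₀ * (C * (T + L₀ * R))) :=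
      (Nat.pow_le_pow_left hcC _).trans (Nat.pow_le_pow_right hC1 hdC)
    exact_mod_cast h1'
  have h2 : ((N₀.factorial * (((ℓ + 1) * R) ^ (p * T)) ^ N₀ : ℕ) : ℝ) ^ c ≤
      ((N₀.factorial : ℝ) * (((C * R : ℕ) : ℝ) ^ (p * T)) ^ N₀) ^ C := by
    have hlC : ℓ + 1 ≤ C := by omega
    have hA : N₀.factorial * (((ℓ + 1) * R) ^ (p * T)) ^ N₀ ≤
        N₀.factorial * ((C * R) ^ (p * T)) ^ N₀ := by
      refine Nat.mul_le_mul_left _ ?_
      exact Nat.pow_le_pow_left (Nat.pow_le_pow_left (Nat.mul_le_mul_right _ hlC) _) _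
    have hB : 1 ≤ N₀.factorial * ((C * R) ^ (p * T)) ^ N₀ := by
      refine Nat.one_le_iff_ne_zero.2 (Nat.mul_ne_zero (Nat.factorial_ne_zero _) ?_)
      exact pow_ne_zero _ (pow_ne_zero _ (Nat.mul_ne_zero (by omega) (by omega)))
    have h2' : (N₀.factorial * (((ℓ + 1) * R) ^ (p * T)) ^ N₀) ^ c ≤
        (N₀.factorial * ((C * R) ^ (p * T)) ^ N₀) ^ C :=
      (Nat.pow_le_pow_left hA _).trans (Nat.pow_le_pow_right hB hcC)
    have h2'' : (((N₀.factorial * (((ℓ + 1) * R) ^ (p * T)) ^ N₀) ^ c : ℕ) : ℝ) ≤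
        (((N₀.factorial * ((C * R) ^ (p * T)) ^ N₀) ^ C : ℕ) : ℝ) := Nat.cast_le.2 h2'
    push_cast at h2'' ⊢
    exact h2''
  calc (1 : ℝ) ≤ _ := h0
    _ ≤ _ := by
      refine mul_le_mul (mul_le_mul_of_nonneg_left h1 (norm_nonneg _)) h2 (by positivity) ?_
      positivity

end Pool.Agent.LogRel
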