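import Mathlib

/-!
# Piece AI: the numerical inequality
-/

namespace Pool.Agent.LogRel

private theorem AI_ev (c : ℝ) (k : ℕ) : ∃ m₀ : ℕ, ∀ m : ℕ, m₀ ≤ m →
    c * (m : ℝ) ^ k ≤ Real.exp m := by
  have h := Real.tendsto_pow_mul_exp_neg_atTop_nhds_zero k
  have h2 := h.const_mul c
  rw [mul_zero] at h2
  have h3 := h2.comp tendsto_natCast_atTop_atTop
  have h4 := h3.eventually (gt_mem_nhds (zero_lt_one' ℝ))
  obtain ⟨m₀, hm₀⟩ := Filter.eventually_atTop.1 h4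
  refine ⟨m₀, fun m hm => ?_⟩
  have h5 := hm₀ m hm
  simp only [Function.comp_apply] at h5
  have h6 : c * ((m : ℝ) ^ k * Real.exp (-(m : ℝ))) * Real.exp m ≤ 1 * Real.exp m :=
    mul_le_mul_of_nonneg_right h5.le (Real.exp_pos _).le
  have h7 : Real.exp (-(m : ℝ)) * Real.exp m = 1 := by
    rw [← Real.exp_add, neg_add_cancel, Real.exp_zero]
  calc c * (m : ℝ) ^ k = c * ((m : ℝ) ^ k * (Real.exp (-(m : ℝ)) * Real.exp m)) := by
        rw [h7, mul_one]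
    _ = c * ((m : ℝ) ^ k * Real.exp (-(m : ℝ))) * Real.exp m := by ring
    _ ≤ 1 * Real.exp m := h6
    _ = Real.exp m := one_mul _

private theorem AI_theta (C X K' : ℕ) (h : 8 * C * X ≤ K') :
    ((C * X : ℕ) : ℝ) ^ K' / (K'.factorial : ℝ) ≤ Real.exp (-(K' : ℝ)) := by
  have he : Real.exp 2 ≤ 8 := by
    have h1 : Real.exp 2 = Real.exp 1 * Real.exp 1 := by
      rw [← Real.exp_add]
      norm_num
    have h2 := Real.exp_one_lt_d9
    have h3 := Real.exp_pos 1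
    rw [h1]
    nlinarith
  have h1 := Real.pow_div_factorial_le_exp (Real.exp 2 * ((C * X : ℕ) : ℝ)) (by positivity) K'
  have h2 : Real.exp 2 * ((C * X : ℕ) : ℝ) ≤ K' := by
    have h3 : ((8 * C * X : ℕ) : ℝ) ≤ K' := by exact_mod_cast h
    have h4 : Real.exp 2 * ((C * X : ℕ) : ℝ) ≤ 8 * ((C * X : ℕ) : ℝ) :=
      mul_le_mul_of_nonneg_right he (Nat.cast_nonneg _)
    refine h4.trans (le_trans (le_of_eq ?_) h3)
    push_cast
    ring
  have h3 := h1.trans (Real.exp_le_exp.2 h2)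
  rw [mul_pow, ← Real.exp_nat_mul] at h3
  have h4 : Real.exp ((K' : ℝ) * 2) * (((C * X : ℕ) : ℝ) ^ K' / (K'.factorial : ℝ)) ≤
      Real.exp (K' : ℝ) := by
    rw [← mul_div_assoc]
    exact h3
  have h5 : Real.exp (K' : ℝ) = Real.exp ((K' : ℝ) * 2) * Real.exp (-(K' : ℝ)) := by
    rw [← Real.exp_add]
    congr 1
    ring
  rw [h5] at h4
  exact le_of_mul_le_mul_left h4 (Real.exp_pos _)

private theorem AI_core (C X N Kn K' Y : ℕ) (F θ A : ℝ) (hC : 1 ≤ C) (hX : 1 ≤ X) (hN : 1 ≤ N)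
    (hF0 : 0 ≤ F) (hF : F ≤ Real.exp (N * X)) (hA0 : 0 ≤ A) (hA : A ≤ Real.exp X)
    (hθ0 : 0 ≤ θ) (hθ : θ ≤ Real.exp (-(K' : ℝ))) (hK : 2 * Kn ≤ N)
    (hK' : (8 + 14 * C + 4 * C ^ 2) * X ≤ K') (hY : Y ≤ X) :
    (2 ^ N * F * (A * Real.exp ((C * X : ℕ) : ℝ)) ^ N * θ ^ (N - Kn)) *
      (C : ℝ) ^ (N * (C * (Y + X))) * (F * A ^ N) ^ C < 1 := by
  have hCr : (1 : ℝ) ≤ C := by exact_mod_cast hC
  have hXr : (1 : ℝ) ≤ X := by exact_mod_cast hX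
  have hNr : (1 : ℝ) ≤ N := by exact_mod_cast hN
  have b1 : (2 : ℝ) ^ N ≤ Real.exp (N * X) := by
    have h1 : (2 : ℝ) ≤ Real.exp X := by
      have := Real.add_one_le_exp (X : ℝ)
      linarith
    rw [Real.exp_nat_mul]
    exact pow_le_pow_left₀ (by norm_num) h1 N
  have b2 : (A * Real.exp ((C * X : ℕ) : ℝ)) ^ N ≤ Real.exp (N * (X + C * X)) := by
    rw [Real.exp_nat_mul]
    refine pow_le_pow_left₀ (mul_nonneg hA0 (Real.exp_pos _).le) ?_ N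
    rw [Real.exp_add]
    push_cast
    exact mul_le_mul_of_nonneg_right hA (Real.exp_pos _).le
  have b3 : θ ^ (N - Kn) ≤ Real.exp (-(N * ((4 + 7 * C + 2 * C ^ 2) * X))) := by
    have h1 : θ ^ (N - Kn) ≤ Real.exp (-(K' : ℝ)) ^ (N - Kn) := pow_le_pow_left₀ hθ0 hθ _
    refine h1.trans ?_
    rw [← Real.exp_nat_mul]
    apply Real.exp_le_exp.2
    have h2 : Kn ≤ N := by omega
    rw [Nat.cast_sub h2]
    have h3 : (2 : ℝ) * Kn ≤ N := by exact_mod_cast hK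
    have h4 : (8 + 14 * (C : ℝ) + 4 * (C : ℝ) ^ 2) * X ≤ K' := by exact_mod_cast hK'
    have h5 : (0 : ℝ) ≤ (8 + 14 * (C : ℝ) + 4 * (C : ℝ) ^ 2) * X := by positivity
    have h6 : (N : ℝ) / 2 ≤ N - Kn := by linarith
    have h7 : (N : ℝ) / 2 * ((8 + 14 * (C : ℝ) + 4 * (C : ℝ) ^ 2) * X) ≤ (N - Kn) * K' :=
      mul_le_mul h6 h4 h5 (by linarith)
    nlinarith
  have b4 : (C : ℝ) ^ (N * (C * (Y + X))) ≤ Real.exp (N * (2 * C ^ 2 * X)) := by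
    have h1 : (C : ℝ) ≤ Real.exp C := by
      have := Real.add_one_le_exp (C : ℝ)
      linarith
    refine (pow_le_pow_left₀ (by linarith) h1 _).trans ?_
    rw [← Real.exp_nat_mul]
    apply Real.exp_le_exp.2
    push_cast
    have h2 : (Y : ℝ) ≤ X := by exact_mod_cast hY
    have h3 : (0 : ℝ) ≤ N * (C * C) := by positivity
    have h4 : (N : ℝ) * (C * C) * (Y + X) ≤ N * (C * C) * (2 * X) :=
      mul_le_mul_of_nonneg_left (by linarith) h3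
    nlinarith
  have b5 : (F * A ^ N) ^ C ≤ Real.exp (N * (2 * C * X)) := by
    have h1 : F * A ^ N ≤ Real.exp (N * X) * Real.exp (N * X) := by
      refine mul_le_mul hF ?_ (pow_nonneg hA0 _) (Real.exp_pos _).le
      rw [Real.exp_nat_mul]
      exact pow_le_pow_left₀ hA0 hA N
    refine (pow_le_pow_left₀ (mul_nonneg hF0 (pow_nonneg hA0 _)) h1 _).trans ?_
    rw [← Real.exp_add, ← Real.exp_nat_mul]
    apply Real.exp_le_exp.2
    apply le_of_eq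
    ring
  have p1 : 2 ^ N * F ≤ Real.exp (N * X) * Real.exp (N * X) :=
    mul_le_mul b1 hF hF0 (Real.exp_pos _).le
  have p2 := mul_le_mul p1 b2 (pow_nonneg (mul_nonneg hA0 (Real.exp_pos _).le) _) (by positivity)
  have p3 := mul_le_mul p2 b3 (pow_nonneg hθ0 _) (by positivity)
  have p4 := mul_le_mul p3 b4 (by positivity) (by positivity)
  have p5 := mul_le_mul p4 b5 (pow_nonneg (mul_nonneg hF0 (pow_nonneg hA0 _)) _) (by positivity)
  refine lt_of_le_of_lt p5 ?_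
  rw [← Real.exp_add, ← Real.exp_add, ← Real.exp_add, ← Real.exp_add, ← Real.exp_add,
    Real.exp_lt_one_iff]
  have h1 : (0 : ℝ) < N * X := by positivity
  have h2 : (N : ℝ) * X + N * X + N * (X + C * X) + -(N * ((4 + 7 * C + 2 * C ^ 2) * X)) +
      N * (2 * C ^ 2 * X) + N * (2 * C * X) = -(N * X * (1 + 4 * C)) := by ring
  rw [h2]
  have h3 : (0 : ℝ) < N * X * (1 + 4 * C) := by positivity
  linarith

/-- Choice of the parameters. `X = m^(a+b)`, `N₀ = m^E` with `E = (a+b-1) p + b q > (a+b) n`,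
`K = k₀ X`, `κ = p m^(a+b-1)`, `K' = K - κ`, `θ = (C X)^{K'}/K'!`. For every constant `C` there are
`k₀` and `m₀` such that for all `m ≥ m₀` the five statements hold.

Proof. Let `k₀` be large (depending on `C`, see below), and then `m` large. `κ ≤ X` if `m ≥ p`.
`2 K^n = 2 k₀^n X^n ≤ N₀` if `m ≥ 2 k₀^n`, since `E ≥ (a+b) n + 1`. `K' ≥ (k₀-1) X`. By
`K'! ≥ (K'/e)^{K'}`: `θ ≤ (e C X / K')^{K'} ≤ e^{-K'}` if `k₀ - 1 ≥ e² C`. For `m` large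
`log N₀ = E log m ≤ X`, `κ log (C m^a) ≤ X` (because `κ = p m^{a+b-1}` and
`p log (C m^a) ≤ m`), `log (N₀!) ≤ N₀ log N₀ ≤ N₀ X`. So the logarithm of the left side of
the last inequality is at most
`N₀ (log 2 + X + X + C X) + C N₀ * 2 X log C + C (N₀ X + N₀ X) - (N₀/2) (k₀-1) X < 0` if `k₀` is
large in terms of `C` (`N₀ - K^n ≥ N₀/2`, `m^(a+b-1) + X ≤ 2 X`). -/
theorem numeric (p q n a b C : ℕ) (hn : 1 ≤ n) (ha : 1 ≤ a) (hb : 1 ≤ b) (hC : 1 ≤ C)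
    (hE : (a + b) * n < (a + b - 1) * p + b * q) :
    ∃ k₀ m₀ : ℕ, ∀ m : ℕ, m₀ ≤ m →
      1 ≤ m ∧
      2 * (k₀ * m ^ (a + b)) ^ n ≤ m ^ ((a + b - 1) * p + b * q) ∧
      p * m ^ (a + b - 1) ≤ k₀ * m ^ (a + b) ∧
      ((C * m ^ (a + b) : ℕ) : ℝ) ^ (k₀ * m ^ (a + b) - p * m ^ (a + b - 1)) /
        ((k₀ * m ^ (a + b) - p * m ^ (a + b - 1)).factorial : ℝ) ≤ 1 ∧
      (2 ^ (m ^ ((a + b - 1) * p + b * q)) * ((m ^ ((a + b - 1) * p + b * q)).factorial : ℝ) *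
        (((C * m ^ a : ℕ) : ℝ) ^ (p * m ^ (a + b - 1)) * Real.exp ((C * m ^ (a + b) : ℕ) : ℝ)) ^
          (m ^ ((a + b - 1) * p + b * q)) *
        (((C * m ^ (a + b) : ℕ) : ℝ) ^ (k₀ * m ^ (a + b) - p * m ^ (a + b - 1)) /
          ((k₀ * m ^ (a + b) - p * m ^ (a + b - 1)).factorial : ℝ)) ^
          (m ^ ((a + b - 1) * p + b * q) - (k₀ * m ^ (a + b)) ^ n)) *
        (C : ℝ) ^ (m ^ ((a + b - 1) * p + b * q) * (C * (m ^ (a + b - 1) + m ^ (a + b)))) *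
        (((m ^ ((a + b - 1) * p + b * q)).factorial : ℝ) *
          (((C * m ^ a : ℕ) : ℝ) ^ (p * m ^ (a + b - 1))) ^ (m ^ ((a + b - 1) * p + b * q))) ^ C < 1 := by
  obtain ⟨k₀, hk₀⟩ : ∃ k₀ : ℕ, k₀ = 9 + 14 * C + 4 * C ^ 2 := ⟨_, rfl⟩
  obtain ⟨E, hEdef⟩ : ∃ E : ℕ, E = (a + b - 1) * p + b * q := ⟨_, rfl⟩
  rw [← hEdef] at hE ⊢
  obtain ⟨m1, hm1⟩ := AI_ev 1 E
  obtain ⟨m2, hm2⟩ := AI_ev ((C : ℝ) ^ p) (a * p)
  refine ⟨k₀, 1 + p + 2 * k₀ ^ n + m1 + m2, fun m hm => ?_⟩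
  have hm0 : 1 ≤ m := by omega
  have hmp : p ≤ m := by omega
  have hmk : 2 * k₀ ^ n ≤ m := by omega
  have e1 := hm1 m (by omega)
  have e2 := hm2 m (by omega)
  -- abbreviations
  obtain ⟨X, hX⟩ : ∃ X : ℕ, X = m ^ (a + b) := ⟨_, rfl⟩
  obtain ⟨Y, hY⟩ : ∃ Y : ℕ, Y = m ^ (a + b - 1) := ⟨_, rfl⟩
  obtain ⟨N, hN⟩ : ∃ N : ℕ, N = m ^ E := ⟨_, rfl⟩
  have hXY : X = Y * m := by
    rw [hX, hY, ← pow_succ]
    congr 1
    omega
  rw [← hX, ← hY, ← hN]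
  have hX1 : 1 ≤ X := by rw [hX]; exact Nat.one_le_pow _ _ hm0
  have hY1 : 1 ≤ Y := by rw [hY]; exact Nat.one_le_pow _ _ hm0
  have hN1 : 1 ≤ N := by rw [hN]; exact Nat.one_le_pow _ _ hm0
  have hYX : Y ≤ X := by rw [hXY]; exact Nat.le_mul_of_pos_right _ hm0
  have hmX : m ≤ X := by rw [hXY]; exact Nat.le_mul_of_pos_left _ hY1
  have hκ : p * Y ≤ X := by
    rw [hXY, mul_comm]
    exact Nat.mul_le_mul_left _ hmp
  have hK2 : 2 * (k₀ * X) ^ n ≤ N := by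
    have h1 : (k₀ * X) ^ n = k₀ ^ n * m ^ ((a + b) * n) := by
      rw [mul_pow, hX, ← pow_mul]
    have h2 : m ^ ((a + b) * n + 1) ≤ N := by
      rw [hN]
      exact Nat.pow_le_pow_right hm0 hE
    rw [h1]
    calc 2 * (k₀ ^ n * m ^ ((a + b) * n)) = 2 * k₀ ^ n * m ^ ((a + b) * n) := by ring
      _ ≤ m * m ^ ((a + b) * n) := Nat.mul_le_mul_right _ hmk
      _ = m ^ ((a + b) * n + 1) := by ring
      _ ≤ N := h2
  have hκK : p * Y ≤ k₀ * X := by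
    refine hκ.trans (Nat.le_mul_of_pos_left _ ?_)
    omega
  obtain ⟨K', hK'⟩ : ∃ K' : ℕ, K' = k₀ * X - p * Y := ⟨_, rfl⟩
  rw [← hK']
  have hKK : (8 + 14 * C + 4 * C ^ 2) * X ≤ K' := by
    have h1 : k₀ * X = (8 + 14 * C + 4 * C ^ 2) * X + X := by rw [hk₀]; ring
    omega
  have h8 : 8 * C * X ≤ K' := by
    refine le_trans (Nat.mul_le_mul_right _ ?_) hKK
    have : 0 ≤ C ^ 2 := Nat.zero_le _
    omega
  have hθ := AI_theta C X K' h8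
  have hθ0 : 0 ≤ ((C * X : ℕ) : ℝ) ^ K' / (K'.factorial : ℝ) := by positivity
  refine ⟨hm0, hK2, hκK, ?_, ?_⟩
  · refine hθ.trans ?_
    rw [Real.exp_le_one_iff]
    have : (0 : ℝ) ≤ K' := Nat.cast_nonneg _
    linarith
  · refine AI_core C X N ((k₀ * X) ^ n) K' Y _ _ _ hC hX1 hN1 (Nat.cast_nonneg _) ?_
      (by positivity) ?_ hθ0 hθ hK2 hKK hYX
    · have h1 : (N.factorial : ℝ) ≤ (N : ℝ) ^ N := by exact_mod_cast Nat.factorial_le_pow N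
      refine h1.trans ?_
      rw [Real.exp_nat_mul]
      refine pow_le_pow_left₀ (Nat.cast_nonneg _) ?_ N
      have h2 : (N : ℝ) = (m : ℝ) ^ E := by rw [hN]; push_cast; rfl
      rw [h2]
      rw [one_mul] at e1
      refine e1.trans (Real.exp_le_exp.2 ?_)
      exact_mod_cast hmX
    · -- (C m^a)^(p Y) ≤ exp X
      have h1 : ((C * m ^ a : ℕ) : ℝ) ^ (p * Y) = ((C : ℝ) ^ p * (m : ℝ) ^ (a * p)) ^ Y := by
        push_cast
        rw [pow_mul, mul_pow, ← pow_mul]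
      rw [h1]
      refine (pow_le_pow_left₀ (by positivity) e2 Y).trans ?_
      rw [← Real.exp_nat_mul]
      apply Real.exp_le_exp.2
      rw [hXY]
      push_cast
      exact le_refl _

end Pool.Agent.LogRel
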