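import Pool.Agent.Lib_LogRel.AA
import Pool.Agent.Lib_LogRel.AH
import Pool.Agent.Lib_LogRel.AI

/-!
# Piece AJ: existence of the auxiliary polynomial (assembly)
-/

open MvPolynomial

set_option linter.unusedSectionVars false

namespace Pool.Agent.LogRel

variable {P Q L N : Type} [Fintype P] [Fintype Q] [Fintype L] [Fintype N] [DecidableEq P]
  [DecidableEq Q] [DecidableEq L]

/-- the exponent vector with index `r` -/
noncomputable def AJ_e {T L₀ : ℕ} (r : (P → Fin T) × (Q → Fin L₀)) : (P ⊕ Q) →₀ ℕ :=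
  Finsupp.equivFunOnFinite.symm (Sum.elim (fun i => (r.1 i : ℕ)) (fun i => (r.2 i : ℕ)))

theorem AJ_e_inl {T L₀ : ℕ} (r : (P → Fin T) × (Q → Fin L₀)) (i : P) :
    AJ_e r (Sum.inl i) = (r.1 i : ℕ) := rfl

theorem AJ_e_inr {T L₀ : ℕ} (r : (P → Fin T) × (Q → Fin L₀)) (i : Q) :
    AJ_e r (Sum.inr i) = (r.2 i : ℕ) := rfl

theorem AJ_e_inj {T L₀ : ℕ} : Function.Injective (AJ_e (P := P) (Q := Q) (T := T) (L₀ := L₀)) := by
  rintro ⟨a, b⟩ ⟨a', b'⟩ h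
  rw [Prod.mk.injEq]
  constructor
  · funext i
    have := DFunLike.congr_fun h (Sum.inl i)
    rw [AJ_e_inl, AJ_e_inl] at this
    exact Fin.ext this
  · funext i
    have := DFunLike.congr_fun h (Sum.inr i)
    rw [AJ_e_inr, AJ_e_inr] at this
    exact Fin.ext this

/-- the polynomial with coefficients `c` -/
noncomputable def AJ_f {T L₀ : ℕ} (c : (P → Fin T) × (Q → Fin L₀) → ℂ) : MvPolynomial (P ⊕ Q) ℂ :=
  ∑ r, monomial (AJ_e r) (c r)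

theorem AJ_f_mem {T L₀ : ℕ} (c : (P → Fin T) × (Q → Fin L₀) → ℂ) : AJ_f c ∈ box ℂ P Q T L₀ := by
  unfold AJ_f
  refine Submodule.sum_mem _ fun r _ => ?_
  unfold box
  rw [monomial_mem_restrictSupport]
  left
  exact ⟨fun i => (r.1 i).2, fun i => (r.2 i).2⟩

theorem AJ_f_ne {T L₀ : ℕ} {c : (P → Fin T) × (Q → Fin L₀) → ℂ} (hc : c ≠ 0) : AJ_f c ≠ 0 := by
  classical
  intro h
  apply hc
  funext r
  have h1 := congrArg (coeff (AJ_e r)) h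
  unfold AJ_f at h1
  rw [coeff_sum] at h1
  simp only [coeff_monomial, coeff_zero] at h1
  rw [Finset.sum_eq_single r] at h1
  · simpa using h1
  · intro r' _ hr'
    rw [if_neg]
    intro h2
    exact hr' (AJ_e_inj h2)
  · intro h2
    exact absurd (Finset.mem_univ r) h2

theorem AJ_f_eval (u : P → L → ℂ) (γ : Q → L → ℂˣ) {T L₀ : ℕ}
    (c : (P → Fin T) × (Q → Fin L₀) → ℂ) (s : L → ℤ) :
    eval (Sum.elim (ptU u s) (fun i => ((ptG γ s i : ℂˣ) : ℂ))) (AJ_f c) =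
      ∑ r, c r * ent u γ r s := by
  unfold AJ_f
  rw [map_sum]
  refine Finset.sum_congr rfl fun r _ => ?_
  rw [eval_monomial, Finsupp.prod_fintype _ _ (fun i => pow_zero _), Fintype.prod_sum_type]
  rfl

/-- For `m` large there is a nonzero polynomial with exponents `< m^(a+b-1)` (additive variables)
and `< m^b` (multiplicative variables) which vanishes at all points with parameters in
`{0..M m^a}^L`.

Proof: let `C₁`, `C₂` be the constants of `det_upper`, `det_lower` and `C = (C₁ + C₂) * M`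
(`M ≥ 1`); take `k₀`, `m₀` from `numeric` with `n = card N`. Let `m ≥ m₀`, `T = m^(a+b-1)`,
`L₀ = m^b`, `R = M m^a`, `K' = k₀ m^(a+b) - p T`, so that `T^p L₀^q = m^E`, `L₀ R = M m^(a+b)`,
`K' + p T = k₀ m^(a+b)`. If there is no such polynomial, then for each coefficient vector `c ≠ 0` the
polynomial `∑ c_{τ,μ} U^τ X^μ` (in the box) does not vanish at some point; by `exists_minor`
there are points `z_j` with nonzero determinant. `det_upper` and `det_lower`, together with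
monotonicity in the constants (replace `C₁ L₀ R`, `C₁ R`, `C₂ R`, `C₂ (T + L₀ R)` by the larger
`C m^(a+b)`, `C m^a`, `C m^a`, `C (m^(a+b-1) + m^(a+b))`), contradict `numeric`. -/
theorem aux_poly (c : P → N → ℂ) (w : Q → N → ℂ) (y : L → N → ℂ) (u : P → L → ℂ)
    (γ : Q → L → ℂˣ) (hu : ∀ i l, u i l = ∑ ν, c i ν * y l ν)
    (hγ : ∀ i l, ((γ i l : ℂˣ) : ℂ) = Complex.exp (∑ ν, w i ν * y l ν))
    (hua : ∀ i l, IsAlgebraic ℚ (u i l)) (hγa : ∀ i l, IsAlgebraic ℚ ((γ i l : ℂˣ) : ℂ))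
    (a b M : ℕ) (ha : 1 ≤ a) (hb : 1 ≤ b) (hM : 1 ≤ M) (hN : 1 ≤ Fintype.card N)
    (hcond : (a + b) * Fintype.card N < (a + b - 1) * Fintype.card P + b * Fintype.card Q) :
    ∃ m₀ : ℕ, ∀ m : ℕ, m₀ ≤ m → ∃ f ∈ box ℂ P Q (m ^ (a + b - 1)) (m ^ b), f ≠ 0 ∧
      ∀ s : L → ℤ, (∀ l, 0 ≤ s l ∧ s l ≤ (M : ℤ) * (m : ℤ) ^ a) →
        eval (Sum.elim (ptU u s) (fun i => ((ptG γ s i : ℂˣ) : ℂ))) f = 0 := by
  obtain ⟨C₁, hC₁, hup⟩ := det_upper c w y u γ hu hγ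
  obtain ⟨C₂, hC₂, hlow⟩ := det_lower u γ hua hγa
  obtain ⟨C, hCdef⟩ : ∃ C : ℕ, C = (C₁ + C₂) * M := ⟨_, rfl⟩
  have hC : 1 ≤ C := by
    rw [hCdef]
    exact Nat.mul_pos (by omega) hM
  have hC1M : C₁ * M ≤ C := by
    rw [hCdef]
    exact Nat.mul_le_mul_right _ (by omega)
  have hC2M : C₂ * M ≤ C := by
    rw [hCdef]
    exact Nat.mul_le_mul_right _ (by omega)
  have hC2 : C₂ ≤ C := (Nat.le_mul_of_pos_right _ hM).trans hC2M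
  obtain ⟨k₀, m₀, hnum⟩ := numeric (Fintype.card P) (Fintype.card Q) (Fintype.card N) a b C hN ha hb
    hC hcond
  refine ⟨m₀, fun m hm => ?_⟩
  obtain ⟨hm1, hn2, hn3, hn4, hn5⟩ := hnum m hm
  obtain ⟨T, hT⟩ : ∃ T : ℕ, T = m ^ (a + b - 1) := ⟨_, rfl⟩
  obtain ⟨L₀, hL₀⟩ : ∃ L₀ : ℕ, L₀ = m ^ b := ⟨_, rfl⟩
  obtain ⟨R, hR⟩ : ∃ R : ℕ, R = M * m ^ a := ⟨_, rfl⟩
  obtain ⟨X, hX⟩ : ∃ X : ℕ, X = m ^ (a + b) := ⟨_, rfl⟩
  obtain ⟨N₀, hN₀⟩ : ∃ N₀ : ℕ, N₀ = m ^ ((a + b - 1) * Fintype.card P + b * Fintype.card Q) :=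
    ⟨_, rfl⟩
  have hN₀' : T ^ Fintype.card P * L₀ ^ Fintype.card Q = N₀ := by
    rw [hT, hL₀, hN₀, ← pow_mul, ← pow_mul, ← pow_add]
  have hLR : L₀ * R = M * X := by
    rw [hL₀, hR, hX, pow_add]
    ring
  rw [← hX, ← hN₀] at hn2
  rw [← hX, ← hT] at hn3
  rw [← hX, ← hT] at hn4
  rw [← hX, ← hT, ← hN₀] at hn5
  rw [← hT, ← hL₀]
  obtain ⟨K', hK'⟩ : ∃ K' : ℕ, K' = k₀ * X - Fintype.card P * T := ⟨_, rfl⟩
  rw [← hK'] at hn4 hn5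
  have hKT : K' + Fintype.card P * T = k₀ * X := by omega
  have hT1 : 1 ≤ T := by rw [hT]; exact Nat.one_le_pow _ _ hm1
  have hL1 : 1 ≤ L₀ := by rw [hL₀]; exact Nat.one_le_pow _ _ hm1
  have hma : 1 ≤ m ^ a := Nat.one_le_pow _ _ hm1
  have hR1 : 1 ≤ R := by rw [hR]; exact Nat.mul_pos hM hma
  -- contradiction
  by_contra hcon
  push Not at hcon
  obtain ⟨z, hz⟩ := exists_minor (ι := (P → Fin T) × (Q → Fin L₀))
    (Z := {s : L → ℤ // ∀ l, 0 ≤ s l ∧ s l ≤ (M : ℤ) * (m : ℤ) ^ a})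
    (fun r s => ent u γ r s.1) (by
      intro c hc
      obtain ⟨s, hs, hs'⟩ := hcon (AJ_f c) (AJ_f_mem c) (AJ_f_ne hc)
      refine ⟨⟨s, hs⟩, ?_⟩
      rwa [AJ_f_eval] at hs')
  have hzR : ∀ j l, 0 ≤ (z j).1 l ∧ (z j).1 l ≤ (R : ℤ) := by
    intro j l
    have h1 := (z j).2 l
    rw [hR]
    push_cast
    exact h1
  have hθ₁ : ((C₁ * (L₀ * R) : ℕ) : ℝ) ^ K' / (K'.factorial : ℝ) ≤
      ((C * X : ℕ) : ℝ) ^ K' / (K'.factorial : ℝ) := by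
    have h1 : ((C₁ * (L₀ * R) : ℕ) : ℝ) ≤ ((C * X : ℕ) : ℝ) := by
      have : C₁ * (L₀ * R) ≤ C * X := by
        rw [hLR, ← mul_assoc]
        exact Nat.mul_le_mul_right _ hC1M
      exact_mod_cast this
    gcongr
  have hu1 := hup T L₀ R K' hT1 hL1 hR1 (hθ₁.trans hn4) (by
    rw [hKT, hN₀']
    omega) (fun j => (z j).1) hzR
  have hl1 := hlow T L₀ R hT1 hL1 hR1 (fun j => (z j).1) hzR hz
  rw [hN₀'] at hu1 hl1
  rw [hKT] at hu1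
  obtain ⟨Δ, hΔ⟩ : ∃ Δ : ℝ, Δ = ‖(Matrix.of fun (i j : (P → Fin T) × (Q → Fin L₀)) =>
    ent u γ i (z j).1).det‖ := ⟨_, rfl⟩
  rw [← hΔ] at hu1 hl1
  have hΔ0 : 0 ≤ Δ := by rw [hΔ]; exact norm_nonneg _
  obtain ⟨θ, hθ⟩ : ∃ θ : ℝ, θ = ((C * X : ℕ) : ℝ) ^ K' / (K'.factorial : ℝ) := ⟨_, rfl⟩
  obtain ⟨θ₁, hθ₁'⟩ : ∃ θ₁ : ℝ, θ₁ = ((C₁ * (L₀ * R) : ℕ) : ℝ) ^ K' / (K'.factorial : ℝ) := ⟨_, rfl⟩
  rw [← hθ, ← hθ₁'] at hθ₁
  rw [← hθ] at hn5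
  rw [← hθ₁'] at hu1
  have hθ₁0 : 0 ≤ θ₁ := by rw [hθ₁']; positivity
  have hCR1 : ((C₁ * R : ℕ) : ℝ) ≤ ((C * m ^ a : ℕ) : ℝ) := by
    have : C₁ * R ≤ C * m ^ a := by
      rw [hR, ← mul_assoc]
      exact Nat.mul_le_mul_right _ hC1M
    exact_mod_cast this
  have hCR2 : ((C₂ * R : ℕ) : ℝ) ≤ ((C * m ^ a : ℕ) : ℝ) := by
    have : C₂ * R ≤ C * m ^ a := by
      rw [hR, ← mul_assoc]
      exact Nat.mul_le_mul_right _ hC2M
    exact_mod_cast this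
  have hCX : ((C₁ * (L₀ * R) : ℕ) : ℝ) ≤ ((C * X : ℕ) : ℝ) := by
    have : C₁ * (L₀ * R) ≤ C * X := by
      rw [hLR, ← mul_assoc]
      exact Nat.mul_le_mul_right _ hC1M
    exact_mod_cast this
  have hup2 : Δ ≤ 2 ^ N₀ * (N₀.factorial : ℝ) *
      (((C * m ^ a : ℕ) : ℝ) ^ (Fintype.card P * T) * Real.exp ((C * X : ℕ) : ℝ)) ^ N₀ *
        θ ^ (N₀ - (k₀ * X) ^ Fintype.card N) := by
    refine hu1.trans ?_
    have h1 : Real.exp ((C₁ * (L₀ * R) : ℕ) : ℝ) ≤ Real.exp ((C * X : ℕ) : ℝ) :=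
      Real.exp_le_exp.2 hCX
    have h2 : ((C₁ * R : ℕ) : ℝ) ^ (Fintype.card P * T) ≤
        ((C * m ^ a : ℕ) : ℝ) ^ (Fintype.card P * T) :=
      pow_le_pow_left₀ (Nat.cast_nonneg _) hCR1 _
    have h3 : ((C₁ * R : ℕ) : ℝ) ^ (Fintype.card P * T) * Real.exp ((C₁ * (L₀ * R) : ℕ) : ℝ) ≤
        ((C * m ^ a : ℕ) : ℝ) ^ (Fintype.card P * T) * Real.exp ((C * X : ℕ) : ℝ) :=
      mul_le_mul h2 h1 (Real.exp_pos _).le (by positivity)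
    have h4 := pow_le_pow_left₀ (by positivity) h3 N₀
    have h5 := pow_le_pow_left₀ hθ₁0 hθ₁ (N₀ - (k₀ * X) ^ Fintype.card N)
    exact mul_le_mul (mul_le_mul_of_nonneg_left h4 (by positivity)) h5 (by positivity)
      (by positivity)
  have hlow2 : (C₂ : ℝ) ^ (N₀ * (C₂ * (T + L₀ * R))) ≤ (C : ℝ) ^ (N₀ * (C * (T + X))) := by
    have h1 : (C₂ : ℝ) ≤ C := by exact_mod_cast hC2
    have h2 : (1 : ℝ) ≤ C := by exact_mod_cast hC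
    have h3 : N₀ * (C₂ * (T + L₀ * R)) ≤ N₀ * (C * (T + X)) := by
      refine Nat.mul_le_mul_left _ ?_
      have h4 : T + L₀ * R ≤ M * (T + X) := by
        rw [hLR, mul_add]
        have : T ≤ M * T := Nat.le_mul_of_pos_left _ hM
        omega
      calc C₂ * (T + L₀ * R) ≤ C₂ * (M * (T + X)) := Nat.mul_le_mul_left _ h4
        _ = C₂ * M * (T + X) := by ring
        _ ≤ C * (T + X) := Nat.mul_le_mul_right _ hC2M
    exact (pow_le_pow_left₀ (Nat.cast_nonneg _) h1 _).trans (pow_le_pow_right₀ h2 h3)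
  have hlow3 : ((N₀.factorial : ℝ) * (((C₂ * R : ℕ) : ℝ) ^ (Fintype.card P * T)) ^ N₀) ^ C₂ ≤
      ((N₀.factorial : ℝ) * (((C * m ^ a : ℕ) : ℝ) ^ (Fintype.card P * T)) ^ N₀) ^ C := by
    have h1 : ((C₂ * R : ℕ) : ℝ) ^ (Fintype.card P * T) ≤
        ((C * m ^ a : ℕ) : ℝ) ^ (Fintype.card P * T) :=
      pow_le_pow_left₀ (Nat.cast_nonneg _) hCR2 _
    have h2 := pow_le_pow_left₀ (by positivity) h1 N₀
    have h3 : (N₀.factorial : ℝ) * (((C₂ * R : ℕ) : ℝ) ^ (Fintype.card P * T)) ^ N₀ ≤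
        (N₀.factorial : ℝ) * (((C * m ^ a : ℕ) : ℝ) ^ (Fintype.card P * T)) ^ N₀ :=
      mul_le_mul_of_nonneg_left h2 (by positivity)
    have h4 := pow_le_pow_left₀ (by positivity) h3 C₂
    refine h4.trans (pow_le_pow_right₀ ?_ hC2)
    have h5 : (1 : ℝ) ≤ (N₀.factorial : ℝ) := by exact_mod_cast Nat.factorial_pos N₀
    have h6 : (1 : ℝ) ≤ ((C * m ^ a : ℕ) : ℝ) := by
      have : 1 ≤ C * m ^ a := Nat.mul_pos hC hma
      exact_mod_cast this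
    have h7 := one_le_pow₀ (one_le_pow₀ h6 (n := Fintype.card P * T)) (n := N₀)
    calc (1 : ℝ) = 1 * 1 := (one_mul _).symm
      _ ≤ _ := mul_le_mul h5 h7 zero_le_one (by positivity)
  have h8 : Δ * (C₂ : ℝ) ^ (N₀ * (C₂ * (T + L₀ * R))) *
      ((N₀.factorial : ℝ) * (((C₂ * R : ℕ) : ℝ) ^ (Fintype.card P * T)) ^ N₀) ^ C₂ ≤
      (2 ^ N₀ * (N₀.factorial : ℝ) *
      (((C * m ^ a : ℕ) : ℝ) ^ (Fintype.card P * T) * Real.exp ((C * X : ℕ) : ℝ)) ^ N₀ *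
        θ ^ (N₀ - (k₀ * X) ^ Fintype.card N)) * (C : ℝ) ^ (N₀ * (C * (T + X))) *
      ((N₀.factorial : ℝ) * (((C * m ^ a : ℕ) : ℝ) ^ (Fintype.card P * T)) ^ N₀) ^ C := by
    have hθ0 : 0 ≤ θ := hθ₁0.trans hθ₁
    refine mul_le_mul (mul_le_mul hup2 hlow2 (by positivity) (by positivity)) hlow3
      (by positivity) (by positivity)
  exact absurd (lt_of_le_of_lt (hl1.trans h8) hn5) (lt_irrefl _)

end Pool.Agent.LogRel
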