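import Mathlib

/-!
# Piece BA: the canonical minimiser of a submodular function is stable
-/

set_option linter.unusedSectionVars false

namespace Pool.Agent.LogRel

/-- Let `V` be a `K`-vector space, finite dimensional over `ℚ`, and `G` an integer valued function on
the `ℚ`-subspaces which is submodular, invariant under multiplication by elements of `K^×`, bounded
below, `≥ 0` at `⊤`, and `> 0` at all `K`-stable subspaces `≠ ⊤`. Then `G > 0` at all subspaces `≠ ⊤`.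

Proof: suppose `G Ψ₁ ≤ 0`, `Ψ₁ ≠ ⊤`. Let `μ ≤ 0` be the minimum of `G` and `Ψ` a minimiser of the
smallest dimension. For `κ ≠ 0` the subspace `κ Ψ` is a minimiser of the same dimension, and
`G (Ψ ⊓ κΨ) + G (Ψ ⊔ κΨ) ≤ 2 μ` shows that `Ψ ⊓ κΨ` is a minimiser, so `Ψ ⊓ κΨ = Ψ = κΨ` by the choice of
`Ψ`. So `Ψ` is `K`-stable. If `Ψ ≠ ⊤` then `G Ψ > 0`, contradiction to `μ ≤ 0`. If `Ψ = ⊤` then
`μ = G ⊤ ≥ 0`, so `μ = 0` and `Ψ₁` is a minimiser of smaller dimension, contradiction. -/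
theorem hn_abstract {K V : Type} [Field K] [Algebra ℚ K] [AddCommGroup V] [Module ℚ V] [Module K V]
    [SMulCommClass K ℚ V] [FiniteDimensional ℚ V] (G : Submodule ℚ V → ℤ)
    (hsub : ∀ A B, G (A ⊔ B) + G (A ⊓ B) ≤ G A + G B)
    (hinv : ∀ κ : K, κ ≠ 0 → ∀ A : Submodule ℚ V,
      G (A.map (DistribSMul.toLinearMap ℚ V κ)) = G A)
    (hbdd : ∃ c : ℤ, ∀ A, c ≤ G A) (htop : 0 ≤ G ⊤)
    (hK : ∀ A : Submodule ℚ V, A ≠ ⊤ → (∀ κ : K, ∀ v ∈ A, κ • v ∈ A) → 0 < G A) :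
    ∀ A : Submodule ℚ V, A ≠ ⊤ → 0 < G A := by
  classical
  intro Ψ₁ hΨ₁
  by_contra hneg
  have hneg : G Ψ₁ ≤ 0 := not_lt.1 hneg
  obtain ⟨c, hc⟩ := hbdd
  obtain ⟨μ, ⟨Ψ₀, hΨ₀⟩, hμ⟩ := Int.exists_least_of_bdd (P := fun z : ℤ => ∃ A, G A = z)
    ⟨c, by rintro z ⟨A, rfl⟩; exact hc A⟩ ⟨G ⊤, ⊤, rfl⟩
  have hmin : ∀ A, μ ≤ G A := fun A => hμ _ ⟨A, rfl⟩
  have hex : ∃ d : ℕ, ∃ A : Submodule ℚ V, G A = μ ∧ Module.finrank ℚ A = d := ⟨_, Ψ₀, hΨ₀, rfl⟩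
  obtain ⟨Ψ, hΨ, hΨd⟩ := Nat.find_spec hex
  have hdim : ∀ A : Submodule ℚ V, G A = μ → Module.finrank ℚ Ψ ≤ Module.finrank ℚ A := by
    intro A hA
    rw [hΨd]
    exact Nat.find_min' hex ⟨A, hA, rfl⟩
  have hst : ∀ κ : K, ∀ v ∈ Ψ, κ • v ∈ Ψ := by
    intro κ v hv
    by_cases hκ : κ = 0
    · rw [hκ, zero_smul]
      exact Ψ.zero_mem
    · set f : V →ₗ[ℚ] V := DistribSMul.toLinearMap ℚ V κ with hf
      have hfi : Function.Injective f := by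
        intro x y hxy
        have hxy' : κ • x = κ • y := hxy
        have h2 := congrArg (fun z => κ⁻¹ • z) hxy'
        simpa [smul_smul, inv_mul_cancel₀ hκ] using h2
      have hfr : Module.finrank ℚ (Ψ.map f) = Module.finrank ℚ Ψ :=
        (Submodule.equivMapOfInjective f hfi Ψ).finrank_eq.symm
      have h1 := hsub Ψ (Ψ.map f)
      rw [hinv κ hκ Ψ] at h1
      have h2 := hmin (Ψ ⊔ Ψ.map f)
      have h3 := hmin (Ψ ⊓ Ψ.map f)
      have h4 : G (Ψ ⊓ Ψ.map f) = μ := by omega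
      have h5 := hdim _ h4
      have h6 : Ψ ⊓ Ψ.map f = Ψ := Submodule.eq_of_le_of_finrank_le inf_le_left h5
      have h7 : Ψ ≤ Ψ.map f := h6.ge.trans inf_le_right
      have h8 : Ψ = Ψ.map f := Submodule.eq_of_le_of_finrank_le h7 hfr.le
      rw [h8]
      exact ⟨v, hv, rfl⟩
  by_cases htopΨ : Ψ = ⊤
  · have h1 : G Ψ₁ = μ := by
      have h2 := hmin Ψ₁
      rw [htopΨ] at hΨ
      omega
    have h3 := hdim _ h1
    rw [htopΨ] at h3
    exact hΨ₁ (Submodule.eq_of_le_of_finrank_le le_top h3)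
  · have h1 := hK Ψ htopΨ hst
    have h2 := hmin Ψ₁
    omega

end Pool.Agent.LogRel
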