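import Pool.Agent.Lib_LogRel.Defs2

/-!
# Piece BB: the function `H0` (dimension of the span of the conjugates)
-/

set_option linter.unusedSectionVars false

namespace Pool.Agent.LogRel

variable (K : IntermediateField ℚ ℂ) [FiniteDimensional ℚ K]

theorem BB_card_ne {α : Type*} [Fintype α] (a : α) [Fintype {x // x ≠ a}] :
    Fintype.card {x // x ≠ a} = Fintype.card α - 1 := by
  classical
  have h := Fintype.card_subtype_compl (fun x : α => x = a)
  rw [Fintype.card_subtype_eq] at h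
  rw [← h]

/-- number of embeddings different from the inclusion (`AlgHom.card`) -/
theorem card_emb' [Fintype (Emb' K)] : Fintype.card (Emb' K) = Module.finrank ℚ K - 1 := by
  have h1 : Fintype.card (K →ₐ[ℚ] ℂ) = Module.finrank ℚ K := AlgHom.card ℚ K ℂ
  rw [← h1]
  exact BB_card_ne (α := K →ₐ[ℚ] ℂ) K.val

theorem BB_finite : Finite (Emb' K) := by
  unfold Emb'
  infer_instance

theorem H0_le (ℓ : ℕ) (Ψ : Submodule ℚ (Fin ℓ → K)) :
    H0 K ℓ Ψ ≤ (Module.finrank ℚ K - 1) * ℓ := by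
  classical
  have := BB_finite K
  have : Fintype (Emb' K) := Fintype.ofFinite _
  have h1 : H0 K ℓ Ψ ≤ Module.finrank ℂ ((Emb' K × Fin ℓ) → ℂ) := Submodule.finrank_le _
  rw [Module.finrank_fintype_fun_eq_card, Fintype.card_prod, card_emb', Fintype.card_fin] at h1
  exact h1

theorem BB_conj_add (ℓ : ℕ) (β β' : Fin ℓ → K) :
    conj' K ℓ (β + β') = conj' K ℓ β + conj' K ℓ β' := by
  funext p
  simp [conj']

/-- `span(conj' '' (Ψ ⊔ Ψ'))` is the sum of the spans and `span(conj' '' (Ψ ⊓ Ψ'))` is contained in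
their intersection. -/
theorem H0_submodular (ℓ : ℕ) (Ψ Ψ' : Submodule ℚ (Fin ℓ → K)) :
    H0 K ℓ (Ψ ⊔ Ψ') + H0 K ℓ (Ψ ⊓ Ψ') ≤ H0 K ℓ Ψ + H0 K ℓ Ψ' := by
  classical
  have := BB_finite K
  have : Fintype (Emb' K) := Fintype.ofFinite _
  unfold H0
  rw [← Submodule.finrank_sup_add_finrank_inf_eq
    (Submodule.span ℂ (conj' K ℓ '' (Ψ : Set (Fin ℓ → K))))
    (Submodule.span ℂ (conj' K ℓ '' (Ψ' : Set (Fin ℓ → K))))]
  refine add_le_add (Submodule.finrank_mono ?_) (Submodule.finrank_mono ?_)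
  · refine Submodule.span_le.2 ?_
    rintro _ ⟨β, hβ, rfl⟩
    obtain ⟨y, hy, z, hz, rfl⟩ := Submodule.mem_sup.1 hβ
    rw [BB_conj_add]
    exact Submodule.add_mem _
      (Submodule.mem_sup_left (Submodule.subset_span ⟨y, hy, rfl⟩))
      (Submodule.mem_sup_right (Submodule.subset_span ⟨z, hz, rfl⟩))
  · refine le_inf (Submodule.span_mono ?_) (Submodule.span_mono ?_)
    · exact Set.image_mono fun β hβ => hβ.1
    · exact Set.image_mono fun β hβ => hβ.2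

/-- multiplication by `κ ≠ 0` is the invertible diagonal map with entries `σ κ` on the vectors of
conjugates -/
theorem H0_smul (ℓ : ℕ) (Ψ : Submodule ℚ (Fin ℓ → K)) (κ : K) (hκ : κ ≠ 0) :
    H0 K ℓ (Ψ.map (DistribSMul.toLinearMap ℚ (Fin ℓ → K) κ)) = H0 K ℓ Ψ := by
  have hne : ∀ p : Emb' K × Fin ℓ, (p.1.1 κ : ℂ) ≠ 0 := fun p => (map_ne_zero p.1.1).2 hκ
  obtain ⟨D, hD⟩ : ∃ D : ((Emb' K × Fin ℓ) → ℂ) ≃ₗ[ℂ] ((Emb' K × Fin ℓ) → ℂ),
      ∀ v p, D v p = p.1.1 κ * v p := by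
    refine ⟨LinearEquiv.piCongrRight fun p => LinearEquiv.smulOfNeZero ℂ ℂ (p.1.1 κ) (hne p), ?_⟩
    intro v p
    simp
  unfold H0
  rw [← LinearEquiv.finrank_map_eq D (Submodule.span ℂ (conj' K ℓ '' (Ψ : Set (Fin ℓ → K)))),
    Submodule.map_span]
  have h : conj' K ℓ '' ((Ψ.map (DistribSMul.toLinearMap ℚ (Fin ℓ → K) κ) :
      Submodule ℚ (Fin ℓ → K)) : Set (Fin ℓ → K)) =
      (D : ((Emb' K × Fin ℓ) → ℂ) →ₗ[ℂ] ((Emb' K × Fin ℓ) → ℂ)) ''
        (conj' K ℓ '' (Ψ : Set (Fin ℓ → K))) := by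
    rw [Submodule.map_coe, Set.image_image, Set.image_image]
    refine Set.image_congr fun β _ => ?_
    funext p
    show conj' K ℓ (κ • β) p = D (conj' K ℓ β) p
    rw [hD]
    simp [conj']
  rw [h]

/-- `dim_ℚ Ψ = D * dim_K Ψ` -/
theorem finrank_restrict {m : ℕ} (Ψ : Submodule K (Fin m → K)) :
    Module.finrank ℚ (Ψ.restrictScalars ℚ) = Module.finrank ℚ K * Module.finrank K Ψ := by
  rw [Module.finrank_mul_finrank ℚ K Ψ]
  exact ((Submodule.restrictScalarsEquiv ℚ K (Fin m → K) Ψ).restrictScalars ℚ).finrank_eq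

end Pool.Agent.LogRel
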