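import Pool.Agent.Lib_LogRel.Defs2

/-!
# Piece BB2: `H0` of a `K`-subspace
-/

set_option linter.unusedSectionVars false

namespace Pool.Agent.LogRel

variable (K : IntermediateField ℚ ℂ) [FiniteDimensional ℚ K]

/-- the vectors of conjugates of the elements of `K` span the whole space -/
theorem BB2_top : Submodule.span ℂ (Set.range (fun α : K => (fun σ : Emb' K => σ.1 α))) = ⊤ := by
  classical
  by_contra h
  obtain ⟨f, hf, hle⟩ := Submodule.exists_le_ker_of_lt_top _ (lt_top_iff_ne_top.2 h)
  apply hf
  have hli := (linearIndependent_toLinearMap ℚ K ℂ).comp (Subtype.val : Emb' K → (K →ₐ[ℚ] ℂ))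
    Subtype.val_injective
  rw [Fintype.linearIndependent_iff] at hli
  have h1 := hli (fun σ => f (fun j => if σ = j then 1 else 0)) (by
    refine LinearMap.ext fun α => ?_
    have h2 := hle (Submodule.subset_span ⟨α, rfl⟩)
    rw [LinearMap.mem_ker, LinearMap.pi_apply_eq_sum_univ] at h2
    simp only [LinearMap.sum_apply, LinearMap.smul_apply, Function.comp_apply, AlgHom.toLinearMap_apply,
      LinearMap.zero_apply, smul_eq_mul]
    refine Eq.trans ?_ h2
    refine Finset.sum_congr rfl fun σ _ => ?_
    rw [smul_eq_mul, mul_comm])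
  refine LinearMap.ext fun x => ?_
  rw [LinearMap.pi_apply_eq_sum_univ]
  simp [h1]

/-- the span is a product of spaces attached to the embeddings -/
theorem BB2_mul (ℓ : ℕ) (Ψ : Submodule K (Fin ℓ → K)) (β : Fin ℓ → K) (hβ : β ∈ Ψ) (x : Emb' K → ℂ) :
    (fun p : Emb' K × Fin ℓ => x p.1 * p.1.1 (β p.2)) ∈
      Submodule.span ℂ (conj' K ℓ '' ((Ψ.restrictScalars ℚ : Submodule ℚ (Fin ℓ → K)) : Set (Fin ℓ → K))) := by
  have hx : x ∈ Submodule.span ℂ (Set.range (fun α : K => (fun σ : Emb' K => σ.1 α))) := by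
    rw [BB2_top]
    trivial
  induction hx using Submodule.span_induction with
  | mem x h =>
    obtain ⟨α, rfl⟩ := h
    apply Submodule.subset_span
    refine ⟨α • β, ?_, ?_⟩
    · exact Ψ.smul_mem α hβ
    · funext p
      simp [conj']
  | zero =>
    convert Submodule.zero_mem _ using 1
    funext p
    simp
  | add x y _ _ h1 h2 =>
    convert Submodule.add_mem _ h1 h2 using 1
    funext p
    simp [add_mul]
  | smul a x _ h1 =>
    convert Submodule.smul_mem _ a h1 using 1
    funext p
    simp [mul_assoc]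

/-- linear independence is kept by embeddings -/
theorem BB2_li (ℓ e : ℕ) (β : Fin e → Fin ℓ → K) (hβ : LinearIndependent K β) (σ : K →ₐ[ℚ] ℂ)
    (c : Fin e → ℂ) (hc : ∀ q, ∑ k, c k * σ (β k q) = 0) (k : Fin e) : c k = 0 := by
  classical
  obtain ⟨g, hg⟩ := LinearMap.exists_leftInverse_of_injective (Fintype.linearCombination K β) (by
    rw [LinearMap.ker_eq_bot']
    intro m hm
    rw [Fintype.linearCombination_apply] at hm
    funext i
    exact Fintype.linearIndependent_iff.1 hβ m hm i)
  have h1 : ∀ k', g (β k') = Pi.single k' 1 := by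
    intro k'
    have h2 := LinearMap.congr_fun hg (Pi.single k' 1)
    rw [LinearMap.comp_apply, Fintype.linearCombination_apply_single, one_smul] at h2
    exact h2
  have h3 : ∀ k', ∑ q, σ (β k' q) * σ (g (fun j => if q = j then 1 else 0) k) = if k' = k then 1 else 0 := by
    intro k'
    have h4 := congrFun (h1 k') k
    rw [LinearMap.pi_apply_eq_sum_univ, Finset.sum_apply] at h4
    have h5 := congrArg σ h4
    rw [map_sum] at h5
    simp only [Pi.smul_apply, smul_eq_mul, map_mul] at h5
    rw [h5, Pi.single_apply]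
    by_cases h6 : k = k'
    · subst h6
      simp
    · rw [if_neg h6, if_neg (fun h => h6 h.symm), map_zero]
  calc c k = ∑ k', c k' * (if k' = k then 1 else 0) := by simp
    _ = ∑ k', c k' * ∑ q, σ (β k' q) * σ (g (fun j => if q = j then 1 else 0) k) := by
        refine Finset.sum_congr rfl fun k' _ => ?_
        rw [h3]
    _ = ∑ q, (∑ k', c k' * σ (β k' q)) * σ (g (fun j => if q = j then 1 else 0) k) := by
        simp only [Finset.mul_sum, Finset.sum_mul]
        rw [Finset.sum_comm]
        refine Finset.sum_congr rfl fun q _ => Finset.sum_congr rfl fun k' _ => ?_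
        ring
    _ = 0 := by simp [hc]

/-- For a `K`-subspace `Ψ` of `K`-dimension `e`, `H0 = (D-1) e`.
Proof of `≥`: let `β_1..β_e` be a `K`-basis of `Ψ`. For each `k` and `t` the vector
`(σ(ω_t) σ(β_k,q))_{σ, q}` is in the span; the matrix `(σ ω_t)_{σ, t}` (all embeddings) is invertible
(`Algebra.discr` of a basis is nonzero, or linear independence of embeddings), so for each
`σ ≠ id` the vector which is `σ(β_k,q)` at `(σ, q)` and `0` elsewhere is in the span. For fixed `σ` the
vectors `σ β_k ∈ ℂ^ℓ`, `k = 1..e`, are linearly independent over `ℂ` (some `e x e` minor of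
`(β_k,q)` is nonzero and `σ` is injective). Only `≥` is needed for the application, `≤` follows from
the same description (spanning set of `(D-1) e` vectors). -/
theorem H0_K (ℓ : ℕ) (Ψ : Submodule K (Fin ℓ → K)) :
    (Module.finrank ℚ K - 1) * Module.finrank K Ψ ≤ H0 K ℓ (Ψ.restrictScalars ℚ) := by
  classical
  set e := Module.finrank K Ψ with he
  let bs : Module.Basis (Fin e) K Ψ := Module.finBasis K Ψ
  set S := Submodule.span ℂ (conj' K ℓ '' ((Ψ.restrictScalars ℚ : Submodule ℚ (Fin ℓ → K)) : Set (Fin ℓ → K)))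
    with hS
  have hcard : Fintype.card (Emb' K × Fin e) = (Module.finrank ℚ K - 1) * e := by
    rw [Fintype.card_prod, Fintype.card_fin]
    congr 1
    rw [← AlgHom.card ℚ K ℂ]
    exact Set.card_ne_eq (K.val : K →ₐ[ℚ] ℂ)
  let w : Emb' K × Fin e → S := fun a =>
    ⟨fun p => (if p.1 = a.1 then 1 else 0) * p.1.1 ((bs a.2 : Fin ℓ → K) p.2),
      BB2_mul K ℓ Ψ (bs a.2 : Fin ℓ → K) (bs a.2).2 (fun σ => if σ = a.1 then 1 else 0)⟩
  have hβ : LinearIndependent K (fun k => (bs k : Fin ℓ → K)) :=
    bs.linearIndependent.map' Ψ.subtype (Submodule.ker_subtype Ψ)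
  have hw : LinearIndependent ℂ w := by
    rw [Fintype.linearIndependent_iff]
    rintro c hc ⟨σ, k⟩
    apply BB2_li K ℓ e (fun k => (bs k : Fin ℓ → K)) hβ σ.1 (fun k => c (σ, k)) _ k
    intro q
    have h1 := congrArg (fun v : S => (v : Emb' K × Fin ℓ → ℂ) (σ, q)) hc
    simp only [w, Submodule.coe_sum, Submodule.coe_smul, Finset.sum_apply, Pi.smul_apply, smul_eq_mul,
      Submodule.coe_zero, Pi.zero_apply] at h1
    rw [← h1, Fintype.sum_prod_type]
    rw [Finset.sum_eq_single σ]
    · simp
    · intro τ _ hτ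
      apply Finset.sum_eq_zero
      intro k' _
      rw [if_neg (fun h => hτ h.symm)]
      ring
    · intro h
      exact absurd (Finset.mem_univ _) h
  rw [← hcard]
  exact hw.fintype_card_le_finrank

end Pool.Agent.LogRel
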