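import Pool.Agent.Lib_LogRel.Defs2

/-!
# Piece BC: the annihilators `AQ`
-/

set_option linter.unusedSectionVars false

namespace Pool.Agent.LogRel

variable (K : IntermediateField ℚ ℂ) [FiniteDimensional ℚ K]
variable {d n ℓ : ℕ} (lam : Fin n → ℂ) (b : Fin ℓ → Fin (d + 1) → Fin n → K)

/-- If `Tr (κ v) ∈ PQ` for all `κ ∈ K` then `v ∈ PK = K ⊗ PQ`.
Proof: let `ω_t` be a basis of `K` over `ℚ` and `ω'_t` the trace-dual basis
(`Module.Basis.traceDual`, `Algebra.traceForm` is nondegenerate); `v_j = ∑_t Tr(ω'_t v_j) ω_t`, i.e.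
`v = ∑_t ω_t • (trV (ω'_t • v))`, and `trV (ω'_t • v) ∈ PQ`. -/
theorem mem_PK_of_trace (v : Fin n → K) (h : ∀ κ : K, trV K (κ • v) ∈ PQ lam) : v ∈ PK K lam := by
  classical
  set c := (om K).traceDual with hc
  have h1 : v = ∑ t, c t • (fun j => algebraMap ℚ K (trV K (om K t • v) j)) := by
    funext j
    rw [Finset.sum_apply]
    refine (c.sum_repr (v j)).symm.trans ?_
    refine Finset.sum_congr rfl fun t _ => ?_
    rw [hc, Module.Basis.traceDual_repr_apply, Pi.smul_apply, smul_eq_mul, mul_comm (_ : K),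
      ← Algebra.smul_def]
    congr 1
    rw [Algebra.traceForm_apply]
    simp only [trV, Pi.smul_apply, smul_eq_mul]
    rw [mul_comm]
  rw [h1]
  refine Submodule.sum_mem _ fun t _ => Submodule.smul_mem _ _ (Submodule.subset_span ?_)
  exact ⟨trV K (om K t • v), h _, rfl⟩

theorem BC_trace_smul_mem (v : Fin n → K) (h : v ∈ PK K lam) :
    ∀ κ : K, trV K (κ • v) ∈ PQ lam := by
  unfold PK at h
  induction h using Submodule.span_induction with
  | mem x hx =>
    obtain ⟨r, hr, rfl⟩ := hx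
    intro κ
    have : trV K (κ • (fun j => algebraMap ℚ K (r j))) = (Algebra.trace ℚ K κ) • r := by
      funext j
      simp only [trV, Pi.smul_apply, smul_eq_mul]
      rw [mul_comm κ, ← Algebra.smul_def, map_smul, smul_eq_mul, mul_comm]
    rw [this]
    exact Submodule.smul_mem _ _ hr
  | zero =>
    intro κ
    have : trV K (κ • (0 : Fin n → K)) = 0 := by
      funext j
      simp [trV]
    rw [this]
    exact Submodule.zero_mem _
  | add x y _ _ hx hy =>
    intro κ
    have : trV K (κ • (x + y)) = trV K (κ • x) + trV K (κ • y) := by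
      funext j
      simp [trV, mul_add]
    rw [this]
    exact Submodule.add_mem _ (hx κ) (hy κ)
  | smul a x _ hx =>
    intro κ
    rw [smul_smul]
    exact hx _

/-- conversely the traces of an element of `PK` are in `PQ` -/
theorem trace_mem_PQ (v : Fin n → K) (h : v ∈ PK K lam) : trV K v ∈ PQ lam := by
  have := BC_trace_smul_mem K lam v h 1
  rwa [one_smul] at this

theorem BC_bil_add (a : Fin (d + 1) → K) (β β' : Fin ℓ → K) :
    bil K b a (β + β') = bil K b a β + bil K b a β' := by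
  funext j
  simp [bil, mul_add, add_mul, Finset.sum_add_distrib]

theorem BC_bil_add_left (a a' : Fin (d + 1) → K) (β : Fin ℓ → K) :
    bil K b (a + a') β = bil K b a β + bil K b a' β := by
  funext j
  simp [bil, add_mul, Finset.sum_add_distrib]

theorem BC_bil_smul (κ : K) (a : Fin (d + 1) → K) (β : Fin ℓ → K) :
    bil K b a (κ • β) = κ • bil K b a β := by
  funext j
  simp only [bil, Pi.smul_apply, smul_eq_mul, Finset.mul_sum]
  refine Finset.sum_congr rfl fun i _ => Finset.sum_congr rfl fun q _ => ?_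
  ring

theorem BC_bil_smul_left (κ : K) (a : Fin (d + 1) → K) (β : Fin ℓ → K) :
    bil K b (κ • a) β = κ • bil K b a β := by
  funext j
  simp only [bil, Pi.smul_apply, smul_eq_mul, Finset.mul_sum]
  refine Finset.sum_congr rfl fun i _ => Finset.sum_congr rfl fun q _ => ?_
  ring

theorem BC_trV_add {n : ℕ} (v w : Fin n → K) : trV K (v + w) = trV K v + trV K w := by
  funext j
  simp [trV]

/-- `AQ (Ψ ⊔ Ψ') = AQ Ψ ⊓ AQ Ψ'` and `AQ Ψ ⊔ AQ Ψ' ≤ AQ (Ψ ⊓ Ψ')`, hence the inequality -/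
theorem AQ_supermodular (Ψ Ψ' : Submodule ℚ (Fin ℓ → K)) :
    Module.finrank ℚ (AQ K lam b Ψ) + Module.finrank ℚ (AQ K lam b Ψ') ≤
      Module.finrank ℚ (AQ K lam b (Ψ ⊔ Ψ')) + Module.finrank ℚ (AQ K lam b (Ψ ⊓ Ψ')) := by
  have h1 : AQ K lam b (Ψ ⊔ Ψ') = AQ K lam b Ψ ⊓ AQ K lam b Ψ' := by
    apply le_antisymm
    · intro a ha
      rw [mem_AQ] at ha
      refine ⟨?_, ?_⟩
      · intro β hβ
        exact ha β (Submodule.mem_sup_left hβ)
      · intro β hβ
        exact ha β (Submodule.mem_sup_right hβ)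
    · rintro a ⟨ha, ha'⟩ β hβ
      obtain ⟨x, hx, y, hy, rfl⟩ := Submodule.mem_sup.mp hβ
      rw [BC_bil_add, BC_trV_add]
      exact Submodule.add_mem _ (ha x hx) (ha' y hy)
  have h2 : AQ K lam b Ψ ⊔ AQ K lam b Ψ' ≤ AQ K lam b (Ψ ⊓ Ψ') := by
    refine sup_le ?_ ?_
    · intro a ha β hβ
      exact ha β hβ.1
    · intro a ha β hβ
      exact ha β hβ.2
  have h3 := Submodule.finrank_sup_add_finrank_inf_eq (AQ K lam b Ψ) (AQ K lam b Ψ')
  have h4 := Submodule.finrank_mono h2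
  rw [h1]
  omega

/-- `AQ (κ Ψ) = κ⁻¹ AQ Ψ` because `bil (κ a) β = bil a (κ β)` -/
theorem AQ_smul (Ψ : Submodule ℚ (Fin ℓ → K)) (κ : K) (hκ : κ ≠ 0) :
    Module.finrank ℚ (AQ K lam b (Ψ.map (DistribSMul.toLinearMap ℚ (Fin ℓ → K) κ))) =
      Module.finrank ℚ (AQ K lam b Ψ) := by
  let e : (Fin (d + 1) → K) ≃ₗ[ℚ] (Fin (d + 1) → K) :=
    (LinearEquiv.smulOfNeZero K (Fin (d + 1) → K) κ hκ).restrictScalars ℚ
  have h1 : (AQ K lam b (Ψ.map (DistribSMul.toLinearMap ℚ (Fin ℓ → K) κ))).map e.toLinearMap =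
      AQ K lam b Ψ := by
    apply le_antisymm
    · rintro _ ⟨a, ha, rfl⟩ β hβ
      have h2 := ha (κ • β) ⟨β, hβ, rfl⟩
      have h3 : e.toLinearMap a = κ • a := rfl
      rw [h3, BC_bil_smul_left, ← BC_bil_smul]
      exact h2
    · intro a ha
      refine ⟨κ⁻¹ • a, ?_, ?_⟩
      · rintro _ ⟨β, hβ, rfl⟩
        have h3 : (DistribSMul.toLinearMap ℚ (Fin ℓ → K) κ) β = κ • β := rfl
        rw [h3, BC_bil_smul, ← BC_bil_smul_left, smul_smul, mul_inv_cancel₀ hκ, one_smul]
        exact ha β hβ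
      · show κ • κ⁻¹ • a = a
        rw [smul_smul, mul_inv_cancel₀ hκ, one_smul]
  rw [← h1]
  exact (LinearEquiv.finrank_map_eq e _).symm

/-- For a `K`-subspace `Ψ` there is a `K`-subspace `A` (namely `{a | ∀ β ∈ Ψ, bil a β ∈ PK}`) with
`AQ Ψ = A` as a set and `Ψ ≤ Bk A`; in particular `dim_ℚ (AQ Ψ) = D * dim_K A`.
Proof: `a ∈ AQ Ψ`, `β ∈ Ψ`, `κ ∈ K`: `κ β ∈ Ψ`, so `trV (κ • bil a β) = trV (bil a (κ β)) ∈ PQ`; by
`mem_PK_of_trace` `bil a β ∈ PK`. The converse is `trace_mem_PQ`. -/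
theorem AQ_K (Ψ : Submodule K (Fin ℓ → K)) :
    ∃ A : Submodule K (Fin (d + 1) → K), Ψ ≤ Bk K lam b A ∧
      A.restrictScalars ℚ = AQ K lam b (Ψ.restrictScalars ℚ) ∧
      Module.finrank ℚ (AQ K lam b (Ψ.restrictScalars ℚ)) =
        Module.finrank ℚ K * Module.finrank K A := by
  let A : Submodule K (Fin (d + 1) → K) :=
    { carrier := {a | ∀ β ∈ Ψ, bil K b a β ∈ PK K lam}
      add_mem' := by
        intro a a' h h' β hβ
        rw [BC_bil_add_left]
        exact Submodule.add_mem _ (h β hβ) (h' β hβ)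
      zero_mem' := by
        intro β _
        have : bil K b (0 : Fin (d + 1) → K) β = 0 := by
          funext j
          simp [bil]
        rw [this]
        exact Submodule.zero_mem _
      smul_mem' := by
        intro κ a h β hβ
        rw [BC_bil_smul_left]
        exact Submodule.smul_mem _ _ (h β hβ) }
  have hA : ∀ a, a ∈ A ↔ ∀ β ∈ Ψ, bil K b a β ∈ PK K lam := fun a => Iff.rfl
  have h1 : A.restrictScalars ℚ = AQ K lam b (Ψ.restrictScalars ℚ) := by
    ext a
    rw [Submodule.restrictScalars_mem, hA, mem_AQ]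
    constructor
    · intro h β hβ
      exact trace_mem_PQ K lam _ (h β hβ)
    · intro h β hβ
      apply mem_PK_of_trace
      intro κ
      rw [← BC_bil_smul]
      exact h _ (Submodule.smul_mem Ψ κ hβ)
  refine ⟨A, ?_, h1, ?_⟩
  · intro β hβ a ha
    exact ha β hβ
  · rw [← h1]
    exact (Module.finrank_mul_finrank ℚ K A).symm

end Pool.Agent.LogRel
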