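import Mathlib

/-!
# Piece BE1: numerical inequality
-/

namespace Pool.Agent.LogRel

/-- the case of `K`-subspaces (purely numerical). With `D = [K:ℚ]`, `g = (D-1)(d+1)+1`, `A = w g`,
`B = w d + ℓ`, `e < ℓ`, `α ≤ d + 1`, `d α + e + 1 ≤ ℓ`, `w ≥ ℓ² + ℓ (d+1) + 1`:
`(A+B) (D-1) (ℓ-e) + B D α < A D (ℓ-e)`. Proof: `A - B (D-1) = w D - (D-1) ℓ` and
`(ℓ-e) (w D - (D-1) ℓ) - (w d + ℓ) D α ≥ w D ((ℓ-e) - d α) - (D-1) ℓ² - ℓ D α ≥ w D - D ℓ² - D ℓ (d+1) > 0`. -/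
theorem pos_numeric (D d ℓ w e α : ℕ) (hD : 1 ≤ D) (hα : α ≤ d + 1)
    (h : d * α + e + 1 ≤ ℓ) (hw : ℓ ^ 2 + ℓ * (d + 1) + 1 ≤ w) :
    (w * ((D - 1) * (d + 1) + 1) + (w * d + ℓ)) * ((D - 1) * (ℓ - e)) + (w * d + ℓ) * (D * α) <
      (w * ((D - 1) * (d + 1) + 1)) * (D * (ℓ - e)) := by
  obtain ⟨D', rfl⟩ : ∃ D', D = D' + 1 := ⟨D - 1, by omega⟩
  obtain ⟨x, rfl⟩ : ∃ x, ℓ = e + x := ⟨ℓ - e, by omega⟩
  have hx : d * α + 1 ≤ x := by omega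
  have e1 : D' + 1 - 1 = D' := by omega
  have e2 : e + x - e = x := by omega
  rw [e1, e2]
  have h1 : w * (D' + 1) * (d * α + 1) ≤ w * (D' + 1) * x := Nat.mul_le_mul_left _ hx
  have h2 : D' * (e + x) * x ≤ (D' + 1) * (e + x) * (e + x) :=
    Nat.mul_le_mul (Nat.mul_le_mul_right _ (by omega)) (by omega)
  have h3 : (e + x) * (D' + 1) * α ≤ (e + x) * (D' + 1) * (d + 1) := Nat.mul_le_mul_left _ hα
  have h4 : ((e + x) ^ 2 + (e + x) * (d + 1) + 1) * (D' + 1) ≤ w * (D' + 1) :=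
    Nat.mul_le_mul_right _ hw
  nlinarith [h1, h2, h3, h4]

end Pool.Agent.LogRel
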