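import Pool.Agent.Lib_LogRel.BA
import Pool.Agent.Lib_LogRel.BB
import Pool.Agent.Lib_LogRel.BB2
import Pool.Agent.Lib_LogRel.BE1
import Pool.Agent.Lib_LogRel.BC

/-!
# Piece BE: positivity for all `ℚ`-subspaces (assembly)
-/

set_option linter.unusedSectionVars false

namespace Pool.Agent.LogRel

variable (K : IntermediateField ℚ ℂ) [FiniteDimensional ℚ K]
variable {d n ℓ : ℕ} (lam : Fin n → ℂ) (b : Fin ℓ → Fin (d + 1) → Fin n → K)

include lam b in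
/-- auxiliary: the annihilator of `⊤` -/
theorem BE_AQ_top (hcrit : ∀ A : Submodule K (Fin (d + 1) → K), A ≠ ⊥ →
      d * Module.finrank K A + Module.finrank K (Bk K lam b A) < ℓ) :
    AQ K lam b ⊤ = ⊥ := by
  obtain ⟨A, h1, h2, h3⟩ := AQ_K K lam b (⊤ : Submodule K (Fin ℓ → K))
  have hA : A = ⊥ := by
    by_contra hne
    have h4 := hcrit A hne
    have h5 : Bk K lam b A = ⊤ := top_le_iff.mp h1
    rw [h5, finrank_top, Module.finrank_fin_fun] at h4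
    omega
  rw [Submodule.restrictScalars_top] at h2
  rw [← h2, hA, Submodule.restrictScalars_bot]

/-- auxiliary: `H0` of `⊤` -/
theorem BE_H0_top : (Module.finrank ℚ K - 1) * ℓ ≤ H0 K ℓ ⊤ := by
  have h := H0_K K ℓ (⊤ : Submodule K (Fin ℓ → K))
  rw [Submodule.restrictScalars_top, finrank_top, Module.finrank_fin_fun] at h
  exact h

theorem BE_finrank (m : ℕ) : Module.finrank ℚ (Fin m → K) = Module.finrank ℚ K * m := by
  rw [← Module.finrank_mul_finrank ℚ K (Fin m → K), Module.finrank_fin_fun]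

/-- auxiliary: the numerical inequality for `K`-subspaces -/
theorem BE_K (hcrit : ∀ A : Submodule K (Fin (d + 1) → K), A ≠ ⊥ →
      d * Module.finrank K A + Module.finrank K (Bk K lam b A) < ℓ)
    (w : ℕ) (hw : ℓ ^ 2 + ℓ * (d + 1) + 1 ≤ w) (Ψ : Submodule K (Fin ℓ → K)) (hΨ : Ψ ≠ ⊤) :
    (w * ((Module.finrank ℚ K - 1) * (d + 1) + 1) + (w * d + ℓ)) *
        ((Module.finrank ℚ K - 1) * (ℓ - Module.finrank K Ψ)) +
      (w * d + ℓ) * Module.finrank ℚ (AQ K lam b (Ψ.restrictScalars ℚ)) <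
      (w * ((Module.finrank ℚ K - 1) * (d + 1) + 1)) *
        (Module.finrank ℚ K * (ℓ - Module.finrank K Ψ)) := by
  obtain ⟨A, h1, h2, h3⟩ := AQ_K K lam b Ψ
  rw [h3]
  have hα : Module.finrank K A ≤ d + 1 := by
    have := Submodule.finrank_le A
    rwa [Module.finrank_fin_fun] at this
  have hD : 1 ≤ Module.finrank ℚ K := Module.finrank_pos
  have hlt : Module.finrank K Ψ < ℓ := by
    have := Submodule.finrank_lt hΨ
    rwa [Module.finrank_fin_fun] at this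
  refine pos_numeric _ d ℓ w (Module.finrank K Ψ) (Module.finrank K A) hD hα ?_ hw
  by_cases hA : A = ⊥
  · rw [hA, finrank_bot]
    omega
  · have h4 := hcrit A hA
    have h5 : Module.finrank K Ψ ≤ Module.finrank K (Bk K lam b A) :=
      Submodule.finrank_mono h1
    omega

/-- Positivity. Let `A = w g`, `B = w d + ℓ`. Under the criterion `hcrit`, for all `ℚ`-subspaces
`Ψ ≠ ⊤`: `(A+B) ((D-1) ℓ - H0 Ψ) + B dim AQ Ψ < A (D ℓ - dim Ψ)`.

Proof: put `G Ψ = A (D ℓ - dim Ψ) - (A+B) ((D-1) ℓ - H0 Ψ) - B dim AQ Ψ ∈ ℤ`. It is submodular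
(`H0_submodular`, `AQ_supermodular`, `Submodule.finrank_sup_add_finrank_inf_eq`), invariant
(`H0_smul`, `AQ_smul`), bounded below. For a `K`-subspace `Ψ` of dimension `e` let `A'` be as in
`AQ_K`, `α = dim A'`. If `A' ≠ ⊥` the criterion gives `d α + e ≤ d α + dim (Bk A') < ℓ`; if `A' = ⊥`
and `Ψ ≠ ⊤` then `α = 0`, `e < ℓ`. In both cases `pos_numeric` gives `G Ψ > 0` (using `H0_K`,
`finrank_restrict`). If `Ψ = ⊤` then `A' = ⊥` (else `d α + ℓ < ℓ`) and `G ⊤ ≥ 0` as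
`H0 ⊤ ≥ (D-1) ℓ`. Apply `hn_abstract`. -/
theorem positivity (hcrit : ∀ A : Submodule K (Fin (d + 1) → K), A ≠ ⊥ →
      d * Module.finrank K A + Module.finrank K (Bk K lam b A) < ℓ)
    (w : ℕ) (hw : ℓ ^ 2 + ℓ * (d + 1) + 1 ≤ w) (Ψ : Submodule ℚ (Fin ℓ → K)) (hΨ : Ψ ≠ ⊤) :
    (w * ((Module.finrank ℚ K - 1) * (d + 1) + 1) + (w * d + ℓ)) *
        ((Module.finrank ℚ K - 1) * ℓ - H0 K ℓ Ψ) +
      (w * d + ℓ) * Module.finrank ℚ (AQ K lam b Ψ) <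
      (w * ((Module.finrank ℚ K - 1) * (d + 1) + 1)) *
        (Module.finrank ℚ K * ℓ - Module.finrank ℚ Ψ) := by
  obtain ⟨D, hD⟩ : ∃ D, D = Module.finrank ℚ K := ⟨_, rfl⟩
  obtain ⟨A, hA⟩ : ∃ A, A = w * ((D - 1) * (d + 1) + 1) := ⟨_, rfl⟩
  obtain ⟨B, hB⟩ : ∃ B, B = w * d + ℓ := ⟨_, rfl⟩
  have hD1 : 1 ≤ D := by rw [hD]; exact Module.finrank_pos
  have hfin : ∀ Φ : Submodule ℚ (Fin ℓ → K), Module.finrank ℚ Φ ≤ D * ℓ := by
    intro Φ
    have h1 := Submodule.finrank_le Φ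
    rwa [BE_finrank, ← hD] at h1
  have hH0 : ∀ Φ : Submodule ℚ (Fin ℓ → K), H0 K ℓ Φ ≤ (D - 1) * ℓ := by
    intro Φ
    have h1 := H0_le K ℓ Φ
    rwa [← hD] at h1
  have hAQ : ∀ Φ : Submodule ℚ (Fin ℓ → K),
      Module.finrank ℚ (AQ K lam b Φ) ≤ D * (d + 1) := by
    intro Φ
    have h1 := Submodule.finrank_le (AQ K lam b Φ)
    rwa [BE_finrank, ← hD] at h1
  let G : Submodule ℚ (Fin ℓ → K) → ℤ := fun Φ =>
    (A : ℤ) * ((D : ℤ) * ℓ - Module.finrank ℚ Φ) -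
      ((A : ℤ) + B) * (((D - 1 : ℕ) : ℤ) * ℓ - H0 K ℓ Φ) -
      (B : ℤ) * Module.finrank ℚ (AQ K lam b Φ)
  have hG : ∀ Φ, G Φ = (A : ℤ) * ((D : ℤ) * ℓ - Module.finrank ℚ Φ) -
      ((A : ℤ) + B) * (((D - 1 : ℕ) : ℤ) * ℓ - H0 K ℓ Φ) -
      (B : ℤ) * Module.finrank ℚ (AQ K lam b Φ) := fun _ => rfl
  have key : ∀ Φ : Submodule ℚ (Fin ℓ → K), Φ ≠ ⊤ → 0 < G Φ := by
    refine hn_abstract (K := K) G ?_ ?_ ?_ ?_ ?_
    · intro Φ Φ'
      have h1 : (Module.finrank ℚ ↥(Φ ⊔ Φ') : ℤ) + Module.finrank ℚ ↥(Φ ⊓ Φ') =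
          Module.finrank ℚ Φ + Module.finrank ℚ Φ' := by
        exact_mod_cast Submodule.finrank_sup_add_finrank_inf_eq Φ Φ'
      have h2 : (H0 K ℓ (Φ ⊔ Φ') : ℤ) + H0 K ℓ (Φ ⊓ Φ') ≤ H0 K ℓ Φ + H0 K ℓ Φ' := by
        exact_mod_cast H0_submodular K ℓ Φ Φ'
      have h3 : (Module.finrank ℚ (AQ K lam b Φ) : ℤ) + Module.finrank ℚ (AQ K lam b Φ') ≤
          Module.finrank ℚ (AQ K lam b (Φ ⊔ Φ')) + Module.finrank ℚ (AQ K lam b (Φ ⊓ Φ')) := by
        exact_mod_cast AQ_supermodular K lam b Φ Φ'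
      have hAB : (0 : ℤ) ≤ (A : ℤ) + B := by positivity
      have hB0 : (0 : ℤ) ≤ (B : ℤ) := by positivity
      have h2' := mul_le_mul_of_nonneg_left h2 hAB
      have h3' := mul_le_mul_of_nonneg_left h3 hB0
      have h1' : (A : ℤ) * ((Module.finrank ℚ ↥(Φ ⊔ Φ') : ℤ) + Module.finrank ℚ ↥(Φ ⊓ Φ')) =
          A * (Module.finrank ℚ Φ + Module.finrank ℚ Φ') := by rw [h1]
      rw [hG, hG, hG, hG]
      linarith
    · intro κ hκ Φ
      have h1 : Module.finrank ℚ (Φ.map (DistribSMul.toLinearMap ℚ (Fin ℓ → K) κ)) =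
          Module.finrank ℚ Φ := by
        have hinj : Function.Injective (DistribSMul.toLinearMap ℚ (Fin ℓ → K) κ) :=
          smul_right_injective (Fin ℓ → K) hκ
        exact ((Submodule.equivMapOfInjective _ hinj Φ).finrank_eq).symm
      rw [hG, hG, H0_smul K ℓ Φ κ hκ, AQ_smul K lam b Φ κ hκ, h1]
    · refine ⟨-(((A : ℤ) + B) * (((D - 1 : ℕ) : ℤ) * ℓ)) - (B : ℤ) * (D * (d + 1) : ℕ), fun Φ => ?_⟩
      have h1 : (Module.finrank ℚ Φ : ℤ) ≤ (D : ℤ) * ℓ := by exact_mod_cast hfin Φ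
      have h3 : (Module.finrank ℚ (AQ K lam b Φ) : ℤ) ≤ ((D * (d + 1) : ℕ) : ℤ) := by
        exact_mod_cast hAQ Φ
      have hA0 : (0 : ℤ) ≤ (A : ℤ) := by positivity
      have hB0 : (0 : ℤ) ≤ (B : ℤ) := by positivity
      have h4 := mul_nonneg hA0 (sub_nonneg.mpr h1)
      have h5 := mul_le_mul_of_nonneg_left h3 hB0
      have h6 : (0 : ℤ) ≤ ((A : ℤ) + B) * H0 K ℓ Φ := by positivity
      rw [hG]
      linarith
    · have h1 : (Module.finrank ℚ (⊤ : Submodule ℚ (Fin ℓ → K)) : ℤ) = (D : ℤ) * ℓ := by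
        rw [finrank_top, BE_finrank, ← hD]
        push_cast
        ring
      have h2 : (((D - 1 : ℕ) : ℤ) * ℓ) ≤ (H0 K ℓ ⊤ : ℤ) := by
        have := BE_H0_top K (ℓ := ℓ)
        rw [← hD] at this
        exact_mod_cast this
      have h3 : (Module.finrank ℚ (AQ K lam b ⊤) : ℤ) = 0 := by
        rw [BE_AQ_top K lam b hcrit, finrank_bot]
        rfl
      have hAB : (0 : ℤ) ≤ (A : ℤ) + B := by positivity
      have h4 := mul_nonneg hAB (sub_nonneg.mpr h2)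
      rw [hG, h1, h3]
      linarith
    · intro Φ hΦ hst
      obtain ⟨Ψ', hΨ'⟩ : ∃ Ψ' : Submodule K (Fin ℓ → K), Ψ'.restrictScalars ℚ = Φ := by
        refine ⟨⟨Φ.toAddSubmonoid, fun κ v hv => hst κ v hv⟩, ?_⟩
        rfl
      have hne : Ψ' ≠ ⊤ := by
        rintro rfl
        exact hΦ (by rw [← hΨ', Submodule.restrictScalars_top])
      have h1 := BE_K K lam b hcrit w hw Ψ' hne
      have h2 := H0_K K ℓ Ψ'
      have h3 := finrank_restrict K Ψ'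
      have hlt : Module.finrank K Ψ' ≤ ℓ := by
        have := Submodule.finrank_le Ψ'
        rwa [Module.finrank_fin_fun] at this
      rw [← hD, hΨ', ← hA, ← hB] at h1
      rw [← hD, hΨ'] at h2 h3
      obtain ⟨e, he⟩ : ∃ e, e = Module.finrank K Ψ' := ⟨_, rfl⟩
      rw [← he] at h1 h2 h3 hlt
      have h1' : ((A : ℤ) + B) * (((D - 1 : ℕ) : ℤ) * ((ℓ : ℤ) - e)) +
          (B : ℤ) * Module.finrank ℚ (AQ K lam b Φ) < (A : ℤ) * ((D : ℤ) * ((ℓ : ℤ) - e)) := by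
        rw [← Nat.cast_sub hlt]
        exact_mod_cast h1
      have h2' : (((D - 1 : ℕ) : ℤ) * e) ≤ (H0 K ℓ Φ : ℤ) := by exact_mod_cast h2
      have h3' : (Module.finrank ℚ Φ : ℤ) = (D : ℤ) * e := by exact_mod_cast h3
      have hAB : (0 : ℤ) ≤ (A : ℤ) + B := by positivity
      have h4 := mul_nonneg hAB (sub_nonneg.mpr h2')
      rw [hG, h3']
      linarith
  have h := key Ψ hΨ
  rw [hG] at h
  rw [← hD, ← hA, ← hB]
  zify [hfin Ψ, hH0 Ψ]
  linarith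

/-- at `⊤` -/
theorem at_top (hcrit : ∀ A : Submodule K (Fin (d + 1) → K), A ≠ ⊥ →
      d * Module.finrank K A + Module.finrank K (Bk K lam b A) < ℓ) :
    H0 K ℓ ⊤ = (Module.finrank ℚ K - 1) * ℓ ∧ AQ K lam b ⊤ = ⊥ := by
  exact ⟨le_antisymm (H0_le K ℓ ⊤) (BE_H0_top K), BE_AQ_top K lam b hcrit⟩

end Pool.Agent.LogRel
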