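import Pool.Agent.Lib_LogRel.Defs2

/-!
# Piece BF: from subgroups of `ℤ^(ℓ x D)` to `ℚ`-subspaces of `K^ℓ`
-/

set_option linter.unusedSectionVars false

namespace Pool.Agent.LogRel

variable (K : IntermediateField ℚ ℂ) [FiniteDimensional ℚ K]
variable {d n ℓ : ℕ} (lam : Fin n → ℂ) (b : Fin ℓ → Fin (d + 1) → Fin n → K)

/-- the `ℚ`-span of the image of `Φ` in `K^ℓ` -/
noncomputable def spanK (Φ : Submodule ℤ (Fin ℓ × Fin (Module.finrank ℚ K) → ℤ)) :
    Submodule ℚ (Fin ℓ → K) :=
  Submodule.span ℚ (toK K '' (Φ : Set (Fin ℓ × Fin (Module.finrank ℚ K) → ℤ)))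

/-- `toK` as a linear map over the integers -/
noncomputable def BF_lin : (Fin ℓ × Fin (Module.finrank ℚ K) → ℤ) →ₗ[ℤ] (Fin ℓ → K) where
  toFun := toK K
  map_add' s t := by
    funext q
    simp [toK, add_mul, Finset.sum_add_distrib]
  map_smul' c s := by
    funext q
    simp [toK, mul_assoc, Finset.mul_sum]

theorem BF_lin_ker : LinearMap.ker (BF_lin (ℓ := ℓ) K) = ⊥ := by
  rw [LinearMap.ker_eq_bot']
  intro s hs
  funext ⟨q, t⟩
  have h1 : ∑ t, (s (q, t) : ℚ) • om K t = 0 := by
    have h2 : toK K s q = 0 := congrFun hs q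
    unfold toK at h2
    rw [← h2]
    refine Finset.sum_congr rfl fun t _ => ?_
    rw [Algebra.smul_def]
    simp
  have h3 := Fintype.linearIndependent_iff.1 (om K).linearIndependent
    (fun t => (s (q, t) : ℚ)) h1 t
  exact_mod_cast h3

/-- `toK` is injective and additive, and maps `ℤ`-independent vectors to `ℚ`-independent vectors
(`om K` is a basis) -/
theorem finrank_spanK (Φ : Submodule ℤ (Fin ℓ × Fin (Module.finrank ℚ K) → ℤ)) :
    Module.finrank ℚ (spanK K Φ) = Module.finrank ℤ Φ := by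
  classical
  let B := Module.finBasis ℤ Φ
  let v : Fin (Module.finrank ℤ Φ) → (Fin ℓ → K) := fun i => toK K (B i)
  have hv : LinearIndependent ℤ v := by
    have h1 : LinearIndependent ℤ (fun i => ((B i : Φ) : Fin ℓ × Fin (Module.finrank ℚ K) → ℤ)) :=
      B.linearIndependent.map' Φ.subtype Φ.ker_subtype
    exact h1.map' (BF_lin K) (BF_lin_ker K)
  have hv' : LinearIndependent ℚ v := (LinearIndependent.iff_fractionRing ℤ ℚ).1 hv
  have hs : spanK K Φ = Submodule.span ℚ (Set.range v) := by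
    unfold spanK
    apply le_antisymm
    · rw [Submodule.span_le]
      rintro _ ⟨s, hs, rfl⟩
      have h2 : s = ∑ i, B.repr ⟨s, hs⟩ i • ((B i : Φ) : Fin ℓ × Fin (Module.finrank ℚ K) → ℤ) := by
        have h3 := congrArg (fun x : Φ => (x : Fin ℓ × Fin (Module.finrank ℚ K) → ℤ))
          (B.sum_repr ⟨s, hs⟩)
        simp only [Submodule.coe_sum, Submodule.coe_smul] at h3
        exact h3.symm
      have h4 : toK K s = ∑ i, B.repr ⟨s, hs⟩ i • v i := by
        have h5 := congrArg (BF_lin K) h2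
        rw [map_sum] at h5
        simp only [map_smul] at h5
        exact h5
      rw [h4]
      refine Submodule.sum_mem _ fun i _ => ?_
      rw [← Int.cast_smul_eq_zsmul ℚ]
      exact Submodule.smul_mem _ _ (Submodule.subset_span ⟨i, rfl⟩)
    · rw [Submodule.span_le]
      rintro _ ⟨i, rfl⟩
      exact Submodule.subset_span ⟨B i, (B i).2, rfl⟩
  rw [hs, finrank_span_eq_card hv', Fintype.card_fin]

theorem BF_ptU (s : Fin ℓ × Fin (Module.finrank ℚ K) → ℤ) :
    ptU (uK K ℓ) s = conj' K ℓ (toK K s) := by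
  funext p
  unfold ptU uK conj' toK
  rw [map_sum, Fintype.sum_prod_type]
  rw [Finset.sum_eq_single p.2]
  · refine Finset.sum_congr rfl fun t _ => ?_
    simp
  · intro q _ hq
    refine Finset.sum_eq_zero fun t _ => ?_
    simp [Ne.symm hq]
  · intro h
    exact absurd (Finset.mem_univ _) h

/-- `ptU (uK K ℓ) s = conj' K ℓ (toK K s)`, so both sides are dimensions of the same space (the
`ℂ`-span of the image of a set is the `ℂ`-span of the image of its `ℚ`-span) -/
theorem h0_eq (Φ : Submodule ℤ (Fin ℓ × Fin (Module.finrank ℚ K) → ℤ)) :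
    h0 (uK K ℓ) Φ = H0 K ℓ (spanK K Φ) := by
  unfold h0 H0
  have key : Submodule.span ℂ (ptU (uK K ℓ) '' (Φ : Set (Fin ℓ × Fin (Module.finrank ℚ K) → ℤ))) =
      Submodule.span ℂ (conj' K ℓ '' (spanK K Φ : Set (Fin ℓ → K))) := by
    apply le_antisymm
    · refine Submodule.span_mono ?_
      rintro _ ⟨s, hs, rfl⟩
      exact ⟨toK K s, Submodule.subset_span ⟨s, hs, rfl⟩, (BF_ptU K s).symm⟩
    · rw [Submodule.span_le]
      rintro _ ⟨β, hβ, rfl⟩
      have hβ' : β ∈ Submodule.span ℚ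
          (toK K '' (Φ : Set (Fin ℓ × Fin (Module.finrank ℚ K) → ℤ))) := hβ
      refine Submodule.span_induction (p := fun β _ => conj' K ℓ β ∈ (Submodule.span ℂ
        (ptU (uK K ℓ) '' (Φ : Set (Fin ℓ × Fin (Module.finrank ℚ K) → ℤ))) : Set _))
        ?_ ?_ ?_ ?_ hβ'
      · rintro _ ⟨s, hs, rfl⟩
        exact Submodule.subset_span ⟨s, hs, BF_ptU K s⟩
      · have h0 : conj' K ℓ (0 : Fin ℓ → K) = 0 := by
          funext p
          simp [conj']
        rw [h0]
        exact Submodule.zero_mem _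
      · intro x y _ _ hx hy
        have h1 : conj' K ℓ (x + y) = conj' K ℓ x + conj' K ℓ y := by
          funext p
          simp [conj']
        rw [h1]
        exact Submodule.add_mem _ hx hy
      · intro a x _ hx
        have h1 : conj' K ℓ (a • x) = (a : ℂ) • conj' K ℓ x := by
          funext p
          simp only [conj', Pi.smul_apply, smul_eq_mul]
          rw [Algebra.smul_def]
          simp
        rw [h1]
        exact Submodule.smul_mem _ _ hx
  rw [key]

theorem BF_tr (μ : Fin (d + 1) × Fin (Module.finrank ℚ K) → ℤ)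
    (s : Fin ℓ × Fin (Module.finrank ℚ K) → ℤ) (j : Fin n) :
    trV K (bil K b (toK K μ) (toK K s)) j =
      ∑ i, ∑ l, (μ i : ℚ) * (s l : ℚ) * Algebra.trace ℚ K (om K i.2 * om K l.2 * b l.1 i.1 j) := by
  unfold trV bil toK
  rw [map_sum, Fintype.sum_prod_type]
  refine Finset.sum_congr rfl fun i _ => ?_
  rw [map_sum]
  have h1 : ∀ t, (∑ l : Fin ℓ × Fin (Module.finrank ℚ K), (μ (i, t) : ℚ) * (s l : ℚ) *
      Algebra.trace ℚ K (om K (i, t).2 * om K l.2 * b l.1 (i, t).1 j)) =
      ∑ q, ∑ t', (μ (i, t) : ℚ) * (s (q, t') : ℚ) *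
        Algebra.trace ℚ K (om K t * om K t' * b q i j) := by
    intro t
    rw [Fintype.sum_prod_type]
  simp only [h1]
  rw [Finset.sum_comm]
  refine Finset.sum_congr rfl fun q _ => ?_
  have h2 : (∑ t, (μ (i, t) : K) * om K t) * (∑ t', (s (q, t') : K) * om K t') * b q i j =
      ∑ t, ∑ t', ((μ (i, t) : ℚ) * (s (q, t') : ℚ)) • (om K t * om K t' * b q i j) := by
    rw [Finset.sum_mul_sum, Finset.sum_mul]
    refine Finset.sum_congr rfl fun t _ => ?_
    rw [Finset.sum_mul]
    refine Finset.sum_congr rfl fun t' _ => ?_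
    rw [Algebra.smul_def]
    simp only [map_mul, map_intCast]
    ring
  rw [h2, map_sum]
  refine Finset.sum_congr rfl fun t _ => ?_
  rw [map_sum]
  refine Finset.sum_congr rfl fun t' _ => ?_
  rw [map_smul, smul_eq_mul]

theorem BF_exp (μ : Fin (d + 1) × Fin (Module.finrank ℚ K) → ℤ)
    (s : Fin ℓ × Fin (Module.finrank ℚ K) → ℤ) :
    ((∏ i, ptG (gK K lam b) s i ^ μ i : ℂˣ) : ℂ) =
      Complex.exp (∑ j, (trV K (bil K b (toK K μ) (toK K s)) j : ℂ) * lam j) := by
  have h1 : ∑ j, (trV K (bil K b (toK K μ) (toK K s)) j : ℂ) * lam j =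
      ∑ i, (μ i : ℂ) * ∑ l, (s l : ℂ) * ∑ j,
        ((Algebra.trace ℚ K (om K i.2 * om K l.2 * b l.1 i.1 j) : ℚ) : ℂ) * lam j := by
    simp only [BF_tr]
    push_cast
    simp only [Finset.mul_sum, Finset.sum_mul]
    rw [Finset.sum_comm]
    refine Finset.sum_congr rfl fun i _ => ?_
    rw [Finset.sum_comm]
    refine Finset.sum_congr rfl fun l _ => ?_
    refine Finset.sum_congr rfl fun j _ => ?_
    ring
  rw [h1, Complex.exp_sum, Units.coe_prod]
  refine Finset.prod_congr rfl fun i _ => ?_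
  rw [Units.val_zpow_eq_zpow_val, Complex.exp_int_mul]
  congr 1
  unfold ptG
  rw [Complex.exp_sum, Units.coe_prod]
  refine Finset.prod_congr rfl fun l _ => ?_
  rw [Units.val_zpow_eq_zpow_val, Complex.exp_int_mul]
  rfl

/-- The rank of the group of characters trivial on the points of `Φ` is at most
`dim_ℚ (AQ (spanK Φ))`. Proof: the map `μ ↦ a(μ) = (∑_t μ (i,t) ω_t)_i` is injective and maps
`ℤ`-independent vectors to `ℚ`-independent ones. For `μ ∈ Ann`, `s ∈ Φ`:
`1 = ∏_i (ptG s i)^{μ i} = exp (∑_j Tr ((bil a(μ) (toK s))_j) lam_j)` (expand `bil` and use linearity of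
the trace), so `∑_j Tr(..)_j lam_j ∈ 2 π i ℤ` (`Complex.exp_eq_one_iff`), hence
`trV (bil a(μ) (toK s)) ∈ PQ`; by `ℚ`-linearity in the second argument this holds on `spanK Φ`. -/
theorem ann_le (Φ : Submodule ℤ (Fin ℓ × Fin (Module.finrank ℚ K) → ℤ)) :
    Module.finrank ℤ (Ann (gK K lam b) Φ) ≤ Module.finrank ℚ (AQ K lam b (spanK K Φ)) := by
  rw [← finrank_spanK K (Ann (gK K lam b) Φ)]
  refine Submodule.finrank_mono ?_
  unfold spanK
  rw [Submodule.span_le]
  rintro _ ⟨μ, hμ, rfl⟩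
  show toK K μ ∈ AQ K lam b _
  rw [mem_AQ]
  intro β hβ
  refine Submodule.span_induction (p := fun β _ => trV K (bil K b (toK K μ) β) ∈ PQ lam)
    ?_ ?_ ?_ ?_ hβ
  · rintro _ ⟨s, hs, rfl⟩
    have h1 : ∏ i, ptG (gK K lam b) s i ^ μ i = 1 := hμ s hs
    have h2 := BF_exp K lam b μ s
    rw [h1, Units.val_one] at h2
    obtain ⟨m, hm⟩ := Complex.exp_eq_one_iff.1 h2.symm
    rw [mem_PQ]
    refine ⟨m, ?_⟩
    rw [hm]
    push_cast
    ring
  · have h0 : trV K (bil K b (toK K μ) (0 : Fin ℓ → K)) = 0 := by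
      funext j
      simp [trV, bil]
    rw [h0]
    exact Submodule.zero_mem _
  · intro x y _ _ hx hy
    have h1 : trV K (bil K b (toK K μ) (x + y)) =
        trV K (bil K b (toK K μ) x) + trV K (bil K b (toK K μ) y) := by
      funext j
      simp [trV, bil, add_mul, mul_add, Finset.sum_add_distrib]
    rw [h1]
    exact Submodule.add_mem _ hx hy
  · intro a x _ hx
    have h1 : trV K (bil K b (toK K μ) (a • x)) = a • trV K (bil K b (toK K μ) x) := by
      funext j
      simp only [trV, bil, Pi.smul_apply, smul_eq_mul]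
      rw [← smul_eq_mul, ← map_smul]
      congr 1
      rw [Finset.smul_sum]
      refine Finset.sum_congr rfl fun i _ => ?_
      rw [Finset.smul_sum]
      refine Finset.sum_congr rfl fun q _ => ?_
      rw [mul_smul_comm, smul_mul_assoc]
    rw [h1]
    exact Submodule.smul_mem _ _ hx

end Pool.Agent.LogRel
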