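import Pool.Agent.Lib_LogRel.Defs2

/-!
# Piece BG1: the analytic identity
-/

set_option linter.unusedSectionVars false

namespace Pool.Agent.LogRel

variable (K : IntermediateField ℚ ℂ) [FiniteDimensional ℚ K]
variable {d n ℓ : ℕ} (lam : Fin n → ℂ) (b : Fin ℓ → Fin (d + 1) → Fin n → K)

/-- the analytic data: exponent vectors -/
noncomputable def wvec (x : Fin (d + 1) → ℂ) :
    (Fin (d + 1) × Fin (Module.finrank ℚ K)) → (Fin d ⊕ (Emb' K × Fin ℓ)) → ℂ :=
  fun i ν => match ν with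
    | Sum.inl k => (if i.1 = Fin.castSucc k then (om K i.2 : ℂ) else 0) -
        (if i.1 = Fin.last d then (om K i.2 : ℂ) * x (Fin.castSucc k) / x (Fin.last d) else 0)
    | Sum.inr p => ∑ j, p.1.1 (om K i.2) * p.1.1 (b p.2 i.1 j) * lam j

/-- the analytic data: generators of the group of points -/
noncomputable def yvec :
    (Fin ℓ × Fin (Module.finrank ℚ K)) → (Fin d ⊕ (Emb' K × Fin ℓ)) → ℂ :=
  fun l ν => match ν with
    | Sum.inl k => ∑ j, (om K l.2 : ℂ) * (b l.1 (Fin.castSucc k) j : ℂ) * lam j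
    | Sum.inr p => if p.2 = l.1 then p.1.1 (om K l.2) else 0

/-- the part of the inclusion -/
theorem BG1_inl (x : Fin (d + 1) → ℂ) (hx : x (Fin.last d) ≠ 0)
    (hrel : ∀ q, ∑ i, ∑ j, (b q i j : ℂ) * x i * lam j = 0)
    (i : Fin (d + 1) × Fin (Module.finrank ℚ K)) (l : Fin ℓ × Fin (Module.finrank ℚ K)) :
    ∑ k : Fin d, wvec K lam b x i (Sum.inl k) * yvec K lam b l (Sum.inl k) =
      ∑ j, (om K i.2 : ℂ) * (om K l.2 : ℂ) * (b l.1 i.1 j : ℂ) * lam j := by
  obtain ⟨i1, t⟩ := i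
  obtain ⟨q, t'⟩ := l
  have hy : ∀ k : Fin d, yvec K lam b (q, t') (Sum.inl k) =
      (om K t' : ℂ) * ∑ j, (b q (Fin.castSucc k) j : ℂ) * lam j := by
    intro k
    show ∑ j, (om K t' : ℂ) * (b q (Fin.castSucc k) j : ℂ) * lam j = _
    rw [Finset.mul_sum]
    exact Finset.sum_congr rfl fun j _ => by ring
  have hw : ∀ k : Fin d, wvec K lam b x (i1, t) (Sum.inl k) =
      (if i1 = Fin.castSucc k then (om K t : ℂ) else 0) -
        (if i1 = Fin.last d then (om K t : ℂ) * x (Fin.castSucc k) / x (Fin.last d) else 0) :=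
    fun k => rfl
  have hr : ∀ i', ∑ j, (om K t : ℂ) * (om K t' : ℂ) * (b q i' j : ℂ) * lam j =
      (om K t : ℂ) * (om K t' : ℂ) * ∑ j, (b q i' j : ℂ) * lam j := by
    intro i'
    rw [Finset.mul_sum]
    exact Finset.sum_congr rfl fun j _ => by ring
  simp only [hy, hw]
  show _ = ∑ j, (om K t : ℂ) * (om K t' : ℂ) * (b q i1 j : ℂ) * lam j
  rw [hr]
  rcases Fin.eq_castSucc_or_eq_last i1 with ⟨k0, rfl⟩ | rfl
  · rw [Finset.sum_eq_single k0]
    · rw [if_pos rfl, if_neg (Fin.castSucc_lt_last k0).ne]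
      ring
    · intro k _ hk
      rw [if_neg (fun h => hk (Fin.castSucc_injective d h).symm),
        if_neg (Fin.castSucc_lt_last k0).ne]
      ring
    · intro h
      exact absurd (Finset.mem_univ _) h
  · have h1 : ∀ k : Fin d, ((if Fin.last d = Fin.castSucc k then (om K t : ℂ) else 0) -
        (if Fin.last d = Fin.last d then (om K t : ℂ) * x (Fin.castSucc k) / x (Fin.last d) else 0)) *
        ((om K t' : ℂ) * ∑ j, (b q (Fin.castSucc k) j : ℂ) * lam j) =
        -((om K t : ℂ) * (om K t' : ℂ) / x (Fin.last d)) *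
          (x (Fin.castSucc k) * ∑ j, (b q (Fin.castSucc k) j : ℂ) * lam j) := by
      intro k
      rw [if_neg (Fin.castSucc_lt_last k).ne', if_pos rfl]
      ring
    rw [Finset.sum_congr rfl fun k _ => h1 k, ← Finset.mul_sum]
    have h2 := hrel q
    have h3 : ∀ i', ∑ j, (b q i' j : ℂ) * x i' * lam j = x i' * ∑ j, (b q i' j : ℂ) * lam j := by
      intro i'
      rw [Finset.mul_sum]
      exact Finset.sum_congr rfl fun j _ => by ring
    simp only [h3] at h2
    rw [Fin.sum_univ_castSucc] at h2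
    have h4 : ∑ k : Fin d, x (Fin.castSucc k) * ∑ j, (b q (Fin.castSucc k) j : ℂ) * lam j =
        -(x (Fin.last d) * ∑ j, (b q (Fin.last d) j : ℂ) * lam j) := by
      linear_combination h2
    rw [h4]
    field_simp

/-- the part of the other embeddings -/
theorem BG1_inr [Fintype (Emb' K)] (x : Fin (d + 1) → ℂ)
    (i : Fin (d + 1) × Fin (Module.finrank ℚ K)) (l : Fin ℓ × Fin (Module.finrank ℚ K)) :
    ∑ p : Emb' K × Fin ℓ, wvec K lam b x i (Sum.inr p) * yvec K lam b l (Sum.inr p) =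
      ∑ σ : Emb' K, ∑ j, σ.1 (om K i.2 * om K l.2 * b l.1 i.1 j) * lam j := by
  rw [Fintype.sum_prod_type]
  refine Finset.sum_congr rfl fun σ _ => ?_
  rw [Finset.sum_eq_single l.1]
  · show (∑ j, σ.1 (om K i.2) * σ.1 (b l.1 i.1 j) * lam j) * (if l.1 = l.1 then σ.1 (om K l.2) else 0) = _
    rw [if_pos rfl, Finset.sum_mul]
    refine Finset.sum_congr rfl fun j _ => ?_
    rw [map_mul, map_mul]
    ring
  · intro q _ hq
    show _ * (if q = l.1 then σ.1 (om K l.2) else 0) = 0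
    rw [if_neg hq, mul_zero]
  · intro h
    exact absurd (Finset.mem_univ _) h

theorem BG1_sum {α : Type*} [Fintype α] (a : α) [Fintype {x : α // x ≠ a}] (f : α → ℂ) :
    ∑ x, f x = f a + ∑ x : {x : α // x ≠ a}, f x.1 := by
  classical
  rw [← Finset.add_sum_erase _ _ (Finset.mem_univ a)]
  congr 1
  exact Finset.sum_subtype _ (fun x => by simp) _

/-- the trace -/
theorem BG1_trace [Fintype (Emb' K)] (z : K) :
    ((Algebra.trace ℚ K z : ℚ) : ℂ) = (z : ℂ) + ∑ σ : Emb' K, σ.1 z := by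
  have h1 := trace_eq_sum_embeddings (K := ℚ) (L := K) ℂ (x := z)
  rw [eq_ratCast] at h1
  rw [h1]
  exact @BG1_sum (K →ₐ[ℚ] ℂ) _ K.val (inferInstanceAs (Fintype (Emb' K))) (fun σ => σ z)

theorem BG1_exp (z : ℂ) (hz : IsAlgebraic ℚ (Complex.exp z)) (r : ℚ) :
    IsAlgebraic ℚ (Complex.exp ((r : ℂ) * z)) := by
  apply IsAlgebraic.of_pow (n := r.den) r.pos
  rw [← Complex.exp_nat_mul]
  have h1 : (r.den : ℂ) * ((r : ℂ) * z) = (r.num : ℂ) * z := by
    have h2 : (r.den : ℂ) * (r : ℂ) = (r.num : ℂ) := by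
      have h3 : (r.den : ℚ) * r = r.num := by
        rw [mul_comm]
        exact Rat.mul_den_eq_num r
      exact_mod_cast congrArg (fun q : ℚ => (q : ℂ)) h3
    rw [← mul_assoc, h2]
  rw [h1, Complex.exp_int_mul]
  rcases Int.eq_nat_or_neg r.num with ⟨k, hk | hk⟩
  · rw [hk, zpow_natCast]
    exact hz.pow k
  · rw [hk, zpow_neg, zpow_natCast]
    exact (hz.pow k).inv

/-- The main identity: for `i = (i₁, t)`, `l = (q, t')`
`∑_ν wvec i ν * yvec l ν = ∑_j Tr(ω_t ω_t' b^q_{i₁ j}) lam_j`.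

Proof: the trace is the sum over all embeddings (`trace_eq_sum_embeddings`); the embeddings
different from the inclusion give the `Sum.inr` part. The inclusion gives
`ω_t ω_t' ∑_j b^q_{i₁ j} lam_j = ω_t ω_t' m_{i₁}`, `m_i = ∑_j b^q_{i j} lam_j`. The `Sum.inl` part is
`ω_t ω_t' ([i₁ ≠ last] m_{i₁} - [i₁ = last] (∑_{k<d} x_k m_k) / x_last)`, and the relation
`∑_i x_i m_i = 0` (times `ω_t'`) gives `- (∑_{k<d} x_k m_k)/x_last = m_last`. -/
theorem identity [Fintype (Emb' K)] (x : Fin (d + 1) → ℂ) (hx : x (Fin.last d) ≠ 0)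
    (hrel : ∀ q, ∑ i, ∑ j, (b q i j : ℂ) * x i * lam j = 0)
    (i : Fin (d + 1) × Fin (Module.finrank ℚ K)) (l : Fin ℓ × Fin (Module.finrank ℚ K)) :
    ∑ ν, wvec K lam b x i ν * yvec K lam b l ν =
      ∑ j, ((Algebra.trace ℚ K (om K i.2 * om K l.2 * b l.1 i.1 j) : ℚ) : ℂ) * lam j := by
  have h1 : ∑ ν, wvec K lam b x i ν * yvec K lam b l ν =
      ∑ k : Fin d, wvec K lam b x i (Sum.inl k) * yvec K lam b l (Sum.inl k) +
      ∑ p : Emb' K × Fin ℓ, wvec K lam b x i (Sum.inr p) * yvec K lam b l (Sum.inr p) :=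
    Fintype.sum_sum_type _
  rw [h1, BG1_inl K lam b x hx hrel, BG1_inr, Finset.sum_comm, ← Finset.sum_add_distrib]
  refine Finset.sum_congr rfl fun j _ => ?_
  rw [BG1_trace, add_mul, Finset.sum_mul]
  push_cast
  rfl

/-- exponentials of rational combinations of the `lam j` are algebraic -/
theorem exp_rat_algebraic (hexp : ∀ j, IsAlgebraic ℚ (Complex.exp (lam j))) (r : Fin n → ℚ) :
    IsAlgebraic ℚ (Complex.exp (∑ j, (r j : ℂ) * lam j)) := by
  rw [Complex.exp_sum]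
  refine Finset.prod_induction _ (fun z => IsAlgebraic ℚ z) (fun a b ha hb => ha.mul hb)
    isAlgebraic_one ?_
  intro j _
  exact BG1_exp _ (hexp j) (r j)

end Pool.Agent.LogRel
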