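import Pool.Agent.Lib_LogRel.ZL
import Pool.Agent.Lib_LogRel.BE
import Pool.Agent.Lib_LogRel.BF
import Pool.Agent.Lib_LogRel.BG1

/-!
# Piece BG: the core theorem over a number field
-/

set_option linter.unusedSectionVars false

namespace Pool.Agent.LogRel

variable (K : IntermediateField ℚ ℂ) [FiniteDimensional ℚ K]
variable {d n ℓ : ℕ} (lam : Fin n → ℂ) (b : Fin ℓ → Fin (d + 1) → Fin n → K)

/-- the number of embeddings different from the inclusion -/
theorem BG_card [Fintype (Emb' K)] : Fintype.card (Emb' K) = Module.finrank ℚ K - 1 :=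
  card_emb' K

/-- the numerical inequality behind `hcond` -/
theorem BG_num (D d ℓ w : ℕ) (hD : 1 ≤ D) (hℓ : 1 ≤ ℓ) :
    (w * ((D - 1) * (d + 1) + 1) + (w * d + ℓ)) * (d + (D - 1) * ℓ) <
      (w * ((D - 1) * (d + 1) + 1) + (w * d + ℓ) - 1) * ((D - 1) * ℓ) +
        (w * d + ℓ) * ((d + 1) * D) := by
  obtain ⟨E, rfl⟩ : ∃ E, D = E + 1 := ⟨D - 1, by omega⟩
  obtain ⟨m, rfl⟩ : ∃ m, ℓ = m + 1 := ⟨ℓ - 1, by omega⟩
  have h1 : E + 1 - 1 = E := rfl
  rw [h1]
  have h2 : w * (E * (d + 1) + 1) + (w * d + (m + 1)) - 1 = w * (E * (d + 1) + 1) + (w * d + m) := by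
    omega
  rw [h2]
  have h3 : (w * (E * (d + 1) + 1) + (w * d + m)) * (E * (m + 1)) +
        (w * d + (m + 1)) * ((d + 1) * (E + 1)) =
      (w * (E * (d + 1) + 1) + (w * d + (m + 1))) * (d + E * (m + 1)) +
        (m + 1) * (E * d + 1) := by
    ring
  rw [h3]
  have h4 : 0 < (m + 1) * (E * d + 1) := Nat.mul_pos (Nat.succ_pos _) (Nat.succ_pos _)
  omega

/-- images of elements of a number field are algebraic -/
theorem BG_alg (σ : K →ₐ[ℚ] ℂ) (z : K) : IsAlgebraic ℚ (σ z) := by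
  have h : IsAlgebraic ℚ z := Algebra.IsAlgebraic.isAlgebraic z
  exact h.algHom σ

/-- **Core theorem.** Proof: apply `lst` with `P = Emb' K × Fin ℓ`, `Q = Fin (d+1) × Fin D`,
`L = Fin ℓ × Fin D`, `N = Fin d ⊕ (Emb' K × Fin ℓ)`, `c p ν = if ν = Sum.inr p then 1 else 0`,
`w = wvec`, `y = yvec`, `u = uK K ℓ`, `γ = gK K lam b`, `a = w g`, `b = w d + ℓ` where
`g = (D-1)(d+1)+1`, `w = ℓ² + ℓ(d+1) + 1`. `hcrit` for `⊤` gives `ℓ ≥ 1`. `card N = d + (D-1) ℓ ≥ 1`.
`hcond`: `(a+b-1)(D-1)ℓ + b D (d+1) - (a+b)(d + (D-1)ℓ) = ℓ ((D-1) d + 1) > 0`. The hypothesis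
`hΦ`: let `Ψ = spanK Φ`. If `Ψ = ⊤` then by `at_top`, `h0_eq`, `ann_le`: `h0 = (D-1) ℓ = card P` and
`rank Ann = 0`, excluded. If `Ψ ≠ ⊤` use `positivity`, `h0_eq`, `finrank_spanK`, `ann_le`. -/
theorem core (hD : 2 ≤ Module.finrank ℚ K) (x : Fin (d + 1) → ℂ) (hx : x (Fin.last d) ≠ 0)
    (hexp : ∀ j, IsAlgebraic ℚ (Complex.exp (lam j)))
    (hrel : ∀ q, ∑ i, ∑ j, (b q i j : ℂ) * x i * lam j = 0)
    (hcrit : ∀ A : Submodule K (Fin (d + 1) → K), A ≠ ⊥ →
      d * Module.finrank K A + Module.finrank K (Bk K lam b A) < ℓ) : False := by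
  classical
  haveI : Fintype (K →ₐ[ℚ] ℂ) := inferInstance
  haveI : Fintype (Emb' K) := inferInstance
  have hℓ : 1 ≤ ℓ := by
    have h := hcrit ⊤ top_ne_bot
    omega
  set D := Module.finrank ℚ K with hDdef
  set w := ℓ ^ 2 + ℓ * (d + 1) + 1 with hw
  have hcardE : Fintype.card (Emb' K) = D - 1 := BG_card K
  have hcardP : Fintype.card (Emb' K × Fin ℓ) = (D - 1) * ℓ := by
    rw [Fintype.card_prod, hcardE, Fintype.card_fin]
  have hcardQ : Fintype.card (Fin (d + 1) × Fin (Module.finrank ℚ K)) = (d + 1) * D := by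
    rw [Fintype.card_prod, Fintype.card_fin, Fintype.card_fin]
  have hcardL : Fintype.card (Fin ℓ × Fin (Module.finrank ℚ K)) = D * ℓ := by
    rw [Fintype.card_prod, Fintype.card_fin, Fintype.card_fin, mul_comm]
  have hcardN : Fintype.card (Fin d ⊕ (Emb' K × Fin ℓ)) = d + (D - 1) * ℓ := by
    rw [Fintype.card_sum, hcardP, Fintype.card_fin]
  have hb1 : 1 ≤ w * d + ℓ := by omega
  have ha1 : 1 ≤ w * ((D - 1) * (d + 1) + 1) := by
    have : 0 < w * ((D - 1) * (d + 1) + 1) := Nat.mul_pos (by omega) (Nat.succ_pos _)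
    omega
  refine lst (P := Emb' K × Fin ℓ) (Q := Fin (d + 1) × Fin (Module.finrank ℚ K))
    (L := Fin ℓ × Fin (Module.finrank ℚ K)) (N := Fin d ⊕ (Emb' K × Fin ℓ))
    (fun p ν => if ν = Sum.inr p then 1 else 0) (wvec K lam b x) (yvec K lam b) (uK K ℓ)
    (gK K lam b) ?_ ?_ ?_ ?_ (w * ((D - 1) * (d + 1) + 1)) (w * d + ℓ) ha1 hb1 ?_ ?_ ?_
  · intro i l
    simp [uK, yvec]
  · intro i l
    rw [identity K lam b x hx hrel i l]
    rfl
  · intro i l
    unfold uK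
    split_ifs
    · exact BG_alg K _ _
    · exact isAlgebraic_zero
  · intro i l
    exact exp_rat_algebraic lam hexp _
  · rw [hcardN]
    have : 0 < (D - 1) * ℓ := Nat.mul_pos (by omega) (by omega)
    omega
  · rw [hcardN, hcardP, hcardQ]
    exact BG_num D d ℓ w (by omega) hℓ
  · intro Φ hΦ
    rw [hcardP] at hΦ ⊢
    rw [hcardL, ← finrank_spanK K Φ]
    rw [h0_eq K Φ] at hΦ ⊢
    have hann := ann_le K lam b Φ
    by_cases htop : spanK K Φ = ⊤
    · exfalso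
      obtain ⟨h1, h2⟩ := at_top K lam b hcrit
      rw [htop] at hΦ hann
      rw [h2] at hann
      rw [h1] at hΦ
      simp only [finrank_bot] at hann
      rcases hΦ with h | h
      · exact lt_irrefl _ h
      · omega
    · have hpos := positivity K lam b hcrit w (le_refl _) (spanK K Φ) htop
      refine lt_of_le_of_lt (Nat.add_le_add ?_ ?_) hpos
      · exact Nat.mul_le_mul_right _ (Nat.sub_le _ _)
      · exact Nat.mul_le_mul_left _ hann

end Pool.Agent.LogRel
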