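import Pool.Agent.Lib_LogRel.CA2

/-!
# Piece CA: the criterion from a minimal counterexample
-/

set_option linter.unusedSectionVars false

namespace Pool.Agent.LogRel

variable (K : IntermediateField ℚ ℂ) [FiniteDimensional ℚ K]

/-- the bilinear map `bil` as a linear map in the second variable -/
noncomputable def CA_bilR {d n ℓ : ℕ} (b : Fin ℓ → Fin (d + 1) → Fin n → K) (a : Fin (d + 1) → K) :
    (Fin ℓ → K) →ₗ[K] (Fin n → K) where
  toFun β := bil K b a β
  map_add' := by
    intro β β'
    funext j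
    simp [bil, mul_add, add_mul, Finset.sum_add_distrib]
  map_smul' := by
    intro κ β
    funext j
    simp only [bil, Pi.smul_apply, smul_eq_mul, Finset.mul_sum, RingHom.id_apply]
    refine Finset.sum_congr rfl fun i _ => Finset.sum_congr rfl fun q _ => ?_
    ring

/-- the bilinear map `bil` as a linear map in the first variable -/
noncomputable def CA_bilL {d n ℓ : ℕ} (b : Fin ℓ → Fin (d + 1) → Fin n → K) (β : Fin ℓ → K) :
    (Fin (d + 1) → K) →ₗ[K] (Fin n → K) where
  toFun a := bil K b a β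
  map_add' := by
    intro a a'
    funext j
    simp [bil, add_mul, Finset.sum_add_distrib]
  map_smul' := by
    intro κ a
    funext j
    simp only [bil, Pi.smul_apply, smul_eq_mul, Finset.mul_sum, RingHom.id_apply]
    refine Finset.sum_congr rfl fun i _ => Finset.sum_congr rfl fun q _ => ?_
    ring

theorem CA_leQb : K ≤ Qb := by
  intro z hz
  have h2 : IsIntegral ℚ (⟨z, hz⟩ : K) := IsIntegral.of_finite ℚ _
  exact mem_algebraicClosure_iff'.mpr (h2.map K.val)

/-- all elements of `PK` are multiples of one vector -/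
theorem CA_PK {n : ℕ} (lam : Fin n → ℂ) (hl : LinearIndependent ℚ lam) :
    ∃ p : Fin n → K, ∀ v ∈ PK K lam, ∃ κ : K, v = κ • p ∧
      (κ = 0 ∨ ∑ j, (p j : ℂ) * lam j ≠ 0) := by
  classical
  rw [Fintype.linearIndependent_iff] at hl
  have hl' : ∀ r : Fin n → ℚ, ∑ j, (r j : ℂ) * lam j = 0 → r = 0 := by
    intro r hr
    funext j
    refine hl r ?_ j
    rw [← hr]
    refine Finset.sum_congr rfl fun j _ => ?_
    rw [Rat.smul_def]
  by_cases h : ∃ p ∈ PQ lam, p ≠ 0
  · obtain ⟨p, ⟨t, ht⟩, hp0⟩ := h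
    have hS : ∑ j, (p j : ℂ) * lam j ≠ 0 := fun h0 => hp0 (hl' p h0)
    have ht0 : t ≠ 0 := by
      rintro rfl
      apply hS
      rw [ht]
      simp
    refine ⟨fun j => algebraMap ℚ K (p j), ?_⟩
    have hS' : ∑ j, (((algebraMap ℚ K (p j) : K)) : ℂ) * lam j ≠ 0 := by
      have : ∀ j, (((algebraMap ℚ K (p j) : K)) : ℂ) = (p j : ℂ) := by
        intro j
        simp
      simp only [this]
      exact hS
    have hle : PK K lam ≤ Submodule.span K {fun j => algebraMap ℚ K (p j)} := by
      unfold PK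
      rw [Submodule.span_le]
      rintro _ ⟨r, ⟨t', ht'⟩, rfl⟩
      have h1 : (fun j => t * r j - t' * p j) = (0 : Fin n → ℚ) := by
        apply hl'
        have : ∀ j, (((fun j => t * r j - t' * p j) j : ℚ) : ℂ) * lam j =
            (t : ℂ) * ((r j : ℂ) * lam j) - (t' : ℂ) * ((p j : ℂ) * lam j) := by
          intro j
          push_cast
          ring
        simp only [this, Finset.sum_sub_distrib, ← Finset.mul_sum, ht, ht']
        ring
      rw [SetLike.mem_coe, Submodule.mem_span_singleton]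
      refine ⟨algebraMap ℚ K (t' / t), ?_⟩
      funext j
      have h2 : t * r j - t' * p j = 0 := congrFun h1 j
      have h3 : r j = t' / t * p j := by
        field_simp
        linarith
      simp only [Pi.smul_apply, smul_eq_mul]
      rw [h3, map_mul]
    intro v hv
    have h4 := hle hv
    rw [Submodule.mem_span_singleton] at h4
    obtain ⟨κ, hκ⟩ := h4
    exact ⟨κ, hκ.symm, Or.inr hS'⟩
  · push Not at h
    refine ⟨0, ?_⟩
    intro v hv
    have hle : PK K lam ≤ ⊥ := by
      unfold PK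
      rw [Submodule.span_le]
      rintro _ ⟨r, hr, rfl⟩
      have h1 := h r hr
      subst h1
      simp only [Pi.zero_apply, map_zero, SetLike.mem_coe, Submodule.mem_bot]
      rfl
    have h5 := hle hv
    rw [Submodule.mem_bot] at h5
    exact ⟨0, by rw [h5]; simp, Or.inl rfl⟩

/-- if all `bil e_i β` vanish then `β = 0` -/
theorem CA_eq_zero {d n ℓ : ℕ} (b : Fin ℓ → Fin (d + 1) → Fin n → K)
    (hb : LinearIndependent K b) (β : Fin ℓ → K)
    (h : ∀ i, bil K b (Pi.single i 1) β = 0) : β = 0 := by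
  classical
  rw [Fintype.linearIndependent_iff] at hb
  funext q
  refine hb β ?_ q
  funext i j
  have h1 := congrFun (h i) j
  simp only [bil] at h1
  rw [Finset.sum_eq_single i] at h1
  · simp only [Pi.single_eq_same, one_mul, Pi.zero_apply] at h1
    simp only [Finset.sum_apply, Pi.smul_apply, smul_eq_mul, Pi.zero_apply]
    exact h1
  · intro i' _ hi'
    simp [Pi.single_eq_of_ne hi']
  · intro h'
    exact absurd (Finset.mem_univ _) h'

/-- the case `A = ⊤` -/
theorem CA_top {d n ℓ : ℕ} (lam : Fin n → ℂ) (hl : LinearIndependent ℚ lam)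
    (x : Fin (d + 1) → ℂ) (hx : LinearIndependent Qb x)
    (b : Fin ℓ → Fin (d + 1) → Fin n → K) (hb : LinearIndependent K b)
    (hrel : ∀ q, ∑ i, ∑ j, (b q i j : ℂ) * x i * lam j = 0) :
    Bk K lam b ⊤ = ⊥ := by
  classical
  rw [eq_bot_iff]
  intro β hβ
  rw [Submodule.mem_bot]
  apply CA_eq_zero K b hb
  obtain ⟨p, hp⟩ := CA_PK K lam hl
  have h1 : ∀ i, ∃ κ : K, bil K b (Pi.single i 1) β = κ • p ∧
      (κ = 0 ∨ ∑ j, (p j : ℂ) * lam j ≠ 0) := fun i => hp _ (hβ _ Submodule.mem_top)
  choose κ hκ hκ' using h1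
  by_cases hS : ∑ j, (p j : ℂ) * lam j = 0
  · intro i
    rcases hκ' i with h | h
    · rw [hκ i, h, zero_smul]
    · exact absurd hS h
  · have hval : ∀ i j, ((bil K b (Pi.single i 1) β j : K) : ℂ) =
        ∑ q, (β q : ℂ) * (b q i j : ℂ) := by
      intro i j
      simp only [bil]
      rw [Finset.sum_eq_single i]
      · simp only [Pi.single_eq_same, one_mul]
        push_cast
        rfl
      · intro i' _ hi'
        simp [Pi.single_eq_of_ne hi']
      · intro h'
        exact absurd (Finset.mem_univ _) h'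
    have h2 : ∑ i, x i * ∑ j, ((bil K b (Pi.single i 1) β j : K) : ℂ) * lam j = 0 := by
      have h3 : ∑ q, (β q : ℂ) * ∑ i, ∑ j, (b q i j : ℂ) * x i * lam j = 0 := by
        simp only [hrel, mul_zero, Finset.sum_const_zero]
      rw [← h3]
      simp only [hval, Finset.mul_sum, Finset.sum_mul]
      rw [Finset.sum_comm' (s := Finset.univ) (t := fun _ => Finset.univ)
        (s' := fun _ => Finset.univ) (t' := Finset.univ) (by simp)]
      rw [Finset.sum_comm]
      have : ∀ i, (∑ j, ∑ q, x i * ((β q : ℂ) * (b q i j : ℂ) * lam j)) =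
          ∑ q, ∑ j, (β q : ℂ) * ((b q i j : ℂ) * x i * lam j) := by
        intro i
        rw [Finset.sum_comm]
        refine Finset.sum_congr rfl fun q _ => Finset.sum_congr rfl fun j _ => ?_
        ring
      simp only [this]
      rw [Finset.sum_comm]
    have h4 : (∑ i, (κ i : ℂ) * x i) * ∑ j, (p j : ℂ) * lam j = 0 := by
      rw [← h2, Finset.sum_mul]
      refine Finset.sum_congr rfl fun i _ => ?_
      have : ∀ j, ((bil K b (Pi.single i 1) β j : K) : ℂ) = (κ i : ℂ) * (p j : ℂ) := by
        intro j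
        rw [hκ i]
        simp
      simp only [this]
      rw [Finset.mul_sum, Finset.mul_sum]
      refine Finset.sum_congr rfl fun j _ => ?_
      ring
    have h5 : ∑ i, (κ i : ℂ) * x i = 0 := (mul_eq_zero.mp h4).resolve_right hS
    rw [Fintype.linearIndependent_iff] at hx
    have h6 := hx (fun i => (⟨(κ i : ℂ), CA_leQb K (κ i).2⟩ : Qb)) (by
      rw [← h5]
      refine Finset.sum_congr rfl fun i _ => ?_
      rw [Algebra.smul_def]
      rfl)
    intro i
    have h7 : κ i = 0 := by
      have := congrArg (fun t : Qb => (t : ℂ)) (h6 i)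
      exact Subtype.ext this
    rw [hκ i, h7, zero_smul]

/-- the part of `Bk` which pairs to zero -/
def CA_Z {d n ℓ : ℕ} (b : Fin ℓ → Fin (d + 1) → Fin n → K)
    (A : Submodule K (Fin (d + 1) → K)) : Submodule K (Fin ℓ → K) where
  carrier := {β | ∀ a ∈ A, bil K b a β = 0}
  add_mem' := by
    intro β β' h h' a ha
    have h1 : CA_bilR K b a (β + β') = CA_bilR K b a β + CA_bilR K b a β' := map_add _ _ _
    have h2 : CA_bilR K b a β = 0 := h a ha
    have h3 : CA_bilR K b a β' = 0 := h' a ha
    rw [h2, h3, add_zero] at h1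
    exact h1
  zero_mem' := by
    intro a _
    exact map_zero (CA_bilR K b a)
  smul_mem' := by
    intro κ β h a ha
    have h1 : CA_bilR K b a (κ • β) = κ • CA_bilR K b a β := map_smul _ _ _
    have h2 : CA_bilR K b a β = 0 := h a ha
    rw [h2, smul_zero] at h1
    exact h1

/-- `dim Bk ≤ dim Z + dim A * dim PK` -/
theorem CA_Bk_le {d n ℓ : ℕ} (lam : Fin n → ℂ) (b : Fin ℓ → Fin (d + 1) → Fin n → K)
    (A : Submodule K (Fin (d + 1) → K)) :
    Module.finrank K (Bk K lam b A) ≤ Module.finrank K (CA_Z K b A) +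
      Module.finrank K A * Module.finrank K (PK K lam) := by
  classical
  have B := Module.finBasis K A
  let φ : ↥(Bk K lam b A) →ₗ[K] (Fin (Module.finrank K A) → PK K lam) :=
    LinearMap.pi (fun k => ((CA_bilR K b (B k : Fin (d + 1) → K)).comp
      (Bk K lam b A).subtype).codRestrict (PK K lam) (fun β => β.2 _ (B k).2))
  have hrn := LinearMap.finrank_range_add_finrank_ker φ
  have h1 : Module.finrank K (LinearMap.range φ) ≤
      Module.finrank K (Fin (Module.finrank K A) → PK K lam) := Submodule.finrank_le _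
  rw [Module.finrank_pi_fintype] at h1
  simp only [Finset.sum_const, Finset.card_univ, Fintype.card_fin, smul_eq_mul] at h1
  have h2 : Module.finrank K (LinearMap.ker φ) ≤ Module.finrank K (CA_Z K b A) := by
    have hmap : ∀ β : LinearMap.ker φ, ((β : ↥(Bk K lam b A)) : Fin ℓ → K) ∈ CA_Z K b A := by
      intro β a ha
      have h3 : ∀ k, CA_bilL K b ((β : ↥(Bk K lam b A)) : Fin ℓ → K)
          (B k : Fin (d + 1) → K) = 0 := by
        intro k
        have h4 := congrFun (LinearMap.mem_ker.mp β.2) k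
        exact congrArg (fun t : PK K lam => (t : Fin n → K)) h4
      have h5 : (CA_bilL K b ((β : ↥(Bk K lam b A)) : Fin ℓ → K)).comp A.subtype = 0 := by
        apply B.ext
        intro k
        exact h3 k
      exact congrArg (fun f : A →ₗ[K] (Fin n → K) => f ⟨a, ha⟩) h5
    let ψ : ↥(LinearMap.ker φ) →ₗ[K] ↥(CA_Z K b A) :=
      ((Bk K lam b A).subtype.comp (LinearMap.ker φ).subtype).codRestrict (CA_Z K b A) hmap
    refine LinearMap.finrank_le_finrank_of_injective (f := ψ) ?_
    intro β β' hββ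
    have h3 : ((β : ↥(Bk K lam b A)) : Fin ℓ → K) = ((β' : ↥(Bk K lam b A)) : Fin ℓ → K) :=
      congrArg (fun t : CA_Z K b A => (t : Fin ℓ → K)) hββ
    exact Subtype.ext (Subtype.ext h3)
  omega

/-- **The criterion.** Proof: let `a' = dim A ≥ 1`, `d' = d + 1 - a'`, `B' = Bk A`,
`Z = {β | ∀ a ∈ A, bil a β = 0} ⊆ B'`. The map `B' → Hom(A, PK)`, `β ↦ (a ↦ bil a β)` has kernel `Z`, so
`dim B' ≤ dim Z + a' * dim PK ≤ dim Z + a'` (`PK_finrank_le`). By `kernel_part`
`dim Z ≤ d' (d' - 1)`. If `d' ≥ 1`: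
`d a' + dim B' ≤ d a' + d'(d'-1) + a' = (d+1) a' + d' (d'-1)`, and with `a' = d + 1 - d'`:
`(d+1)(d+1-d') + d'(d'-1) = (d+1) d + (d+1)(1 - d') + d'(d'-1) = (d+1) d - (d'-1)(d+1-d') ≤ (d+1) d < ℓ`.
If `d' = 0` then `A = ⊤` and `B' = 0`: for `β ∈ B'` all `bil e_i β ∈ PK`; if `PK = ⊥`, `bil e_i β = 0`
for all `i`, so `β = 0` by `hb`. If `PK` is spanned by the rational vector `p` with
`∑ p_j lam_j = 2πi t`, then `bil e_i β = κ_i p`, and `hrel` gives `(∑ κ_i x_i) 2πi t = 0`; `t ≠ 0` since
the `lam_j` are linearly independent and `p ≠ 0`; so `κ = 0` by the independence of the `x_i` and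
again `β = 0`. Then `d (d+1) + 0 < ℓ`. -/
theorem crit_of_minimal {d n ℓ : ℕ} (lam : Fin n → ℂ) (hl : LinearIndependent ℚ lam)
    (hmin : ∀ d' : ℕ, d' < d + 1 → ∀ x' : Fin d' → ℂ, LinearIndependent Qb x' →
      Module.finrank Qb (Rel x' lam) ≤ d' * (d' - 1))
    (x : Fin (d + 1) → ℂ) (hx : LinearIndependent Qb x)
    (b : Fin ℓ → Fin (d + 1) → Fin n → K) (hb : LinearIndependent K b)
    (hrel : ∀ q, ∑ i, ∑ j, (b q i j : ℂ) * x i * lam j = 0) (hℓ : (d + 1) * d < ℓ)
    (A : Submodule K (Fin (d + 1) → K)) (hA : A ≠ ⊥) :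
    d * Module.finrank K A + Module.finrank K (Bk K lam b A) < ℓ := by
  have ha1 : 1 ≤ Module.finrank K A := by
    rw [Nat.one_le_iff_ne_zero]
    intro h
    exact hA (Submodule.finrank_eq_zero.mp h)
  have ha2 : Module.finrank K A ≤ d + 1 := by
    have := Submodule.finrank_le A
    simpa using this
  rcases Nat.lt_or_ge (Module.finrank K A) (d + 1) with hlt | hge
  · have h1 := CA_Bk_le K lam b A
    have h2 := PK_finrank_le K lam hl
    have h3 := kernel_part K lam hmin x hx b hb hrel A hA (CA_Z K b A) (fun β hβ => hβ)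
    have h4 : Module.finrank K A * Module.finrank K (PK K lam) ≤ Module.finrank K A := by
      calc Module.finrank K A * Module.finrank K (PK K lam) ≤ Module.finrank K A * 1 :=
            Nat.mul_le_mul_left _ h2
        _ = Module.finrank K A := mul_one _
    obtain ⟨d', hd'⟩ : ∃ d', d + 1 = Module.finrank K A + (d' + 1) :=
      ⟨d - Module.finrank K A, by omega⟩
    obtain ⟨r, hr⟩ : ∃ r, Module.finrank K A = r + 1 := ⟨Module.finrank K A - 1, by omega⟩
    have hdd : d = r + d' + 1 := by omega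
    have e1 : d + 1 - Module.finrank K A = d' + 1 := by omega
    rw [e1] at h3
    have e2 : d' + 1 - 1 = d' := by omega
    rw [e2] at h3
    have h5 : d * Module.finrank K A + Module.finrank K (Bk K lam b A) ≤
        d * (r + 1) + ((d' + 1) * d' + (r + 1)) := by
      rw [← hr]
      omega
    refine lt_of_le_of_lt h5 (lt_of_le_of_lt ?_ hℓ)
    rw [hdd]
    nlinarith [Nat.zero_le (r * d'), Nat.zero_le r, Nat.zero_le d']
  · have hAtop : A = ⊤ := by
      apply Submodule.eq_top_of_finrank_eq
      simp only [Module.finrank_fintype_fun_eq_card, Fintype.card_fin]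
      omega
    subst hAtop
    rw [CA_top K lam hl x hx b hb hrel, finrank_bot, add_zero]
    have h6 : Module.finrank K (⊤ : Submodule K (Fin (d + 1) → K)) = d + 1 := by omega
    rw [h6, mul_comm]
    exact hℓ

end Pool.Agent.LogRel
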