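import Pool.Agent.Lib_LogRel.Defs2

/-!
# Piece CA1: `PK` and linear independence
-/

set_option linter.unusedSectionVars false

namespace Pool.Agent.LogRel

variable (K : IntermediateField ℚ ℂ) [FiniteDimensional ℚ K]

private theorem CA1_PQ {n : ℕ} (lam : Fin n → ℂ) (hl : LinearIndependent ℚ lam) :
    ∃ r₀ : Fin n → ℚ, ∀ r ∈ PQ lam, ∃ a : ℚ, r = a • r₀ := by
  rw [Fintype.linearIndependent_iff] at hl
  have hz : ∀ r : Fin n → ℚ, ∑ j, (r j : ℂ) * lam j = 0 → r = 0 := by
    intro r hr
    funext j
    refine hl r ?_ j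
    rw [← hr]
    exact Finset.sum_congr rfl fun j _ => Rat.smul_def _ _
  by_cases h : ∃ r₀ : Fin n → ℚ, ∃ t₀ : ℚ, t₀ ≠ 0 ∧
      ∑ j, (r₀ j : ℂ) * lam j = 2 * Real.pi * Complex.I * t₀
  · obtain ⟨r₀, t₀, ht₀, h₀⟩ := h
    refine ⟨r₀, fun r hr => ?_⟩
    obtain ⟨t, ht⟩ := (mem_PQ lam r).1 hr
    refine ⟨t / t₀, ?_⟩
    have h1 : (fun j => t₀ * r j - t * r₀ j) = (0 : Fin n → ℚ) := by
      apply hz
      have h2 : ∀ j, (((t₀ * r j - t * r₀ j : ℚ)) : ℂ) * lam j =
          (t₀ : ℂ) * ((r j : ℂ) * lam j) - (t : ℂ) * ((r₀ j : ℂ) * lam j) := by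
        intro j
        push_cast
        ring
      rw [Finset.sum_congr rfl fun j _ => h2 j, Finset.sum_sub_distrib, ← Finset.mul_sum,
        ← Finset.mul_sum, h₀, ht]
      ring
    funext j
    have h2 := congrFun h1 j
    simp only [Pi.zero_apply] at h2
    rw [Pi.smul_apply, smul_eq_mul]
    field_simp
    linarith
  · push Not at h
    refine ⟨0, fun r hr => ⟨0, ?_⟩⟩
    obtain ⟨t, ht⟩ := (mem_PQ lam r).1 hr
    rw [zero_smul]
    apply hz
    by_cases h0 : t = 0
    · rw [ht, h0]
      simp
    · exact absurd ht (h r t h0)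

/-- `PK` has dimension at most one if the `lam j` are linearly independent over `ℚ`: if
`∑ r_j lam_j = 2πi t`, `∑ r'_j lam_j = 2πi t'` then `t' r - t r' = 0`. -/
theorem PK_finrank_le {n : ℕ} (lam : Fin n → ℂ) (hl : LinearIndependent ℚ lam) :
    Module.finrank K (PK K lam) ≤ 1 := by
  obtain ⟨r₀, hr₀⟩ := CA1_PQ lam hl
  have h1 : PK K lam ≤ Submodule.span K {fun j => algebraMap ℚ K (r₀ j)} := by
    unfold PK
    rw [Submodule.span_le]
    rintro c ⟨r, hr, rfl⟩
    obtain ⟨a, ha⟩ := hr₀ r hr
    rw [SetLike.mem_coe, Submodule.mem_span_singleton]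
    refine ⟨algebraMap ℚ K a, ?_⟩
    funext j
    rw [ha, Pi.smul_apply, Pi.smul_apply, smul_eq_mul, smul_eq_mul, map_mul]
  calc Module.finrank K (PK K lam)
      ≤ Module.finrank K (Submodule.span K {fun j => algebraMap ℚ K (r₀ j)}) :=
        Submodule.finrank_mono h1
    _ ≤ 1 := by
        refine (finrank_span_le_card _).trans ?_
        simp

/-- elements of number field vectors which are independent over `K` are independent over `Qb` -/
theorem indep_Qb {m N : ℕ} (v : Fin m → Fin N → K) (hv : LinearIndependent K v)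
    (hK : K ≤ Qb) : LinearIndependent Qb (fun k i => (IntermediateField.inclusion hK (v k i) : Qb)) := by
  classical
  have hker : LinearMap.ker (Fintype.linearCombination K v) = ⊥ := by
    rw [LinearMap.ker_eq_bot']
    intro c hc
    rw [Fintype.linearIndependent_iff] at hv
    funext i
    exact hv c hc i
  obtain ⟨g, hg⟩ := LinearMap.exists_leftInverse_of_injective _ hker
  have hg1 : ∀ k j, ∑ i, v k i * g (Pi.single i 1) j = if k = j then 1 else 0 := by
    intro k j
    have h1 : g (v k) = Pi.single k 1 := by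
      have h2 := LinearMap.congr_fun hg (Pi.single k 1)
      rw [LinearMap.comp_apply, LinearMap.id_apply, Fintype.linearCombination_apply_single,
        one_smul] at h2
      exact h2
    have h2 : v k = ∑ i, v k i • (Pi.single i (1 : K) : Fin N → K) := by
      funext i'
      rw [Finset.sum_apply]
      simp [Pi.single_apply]
    have h3 : g (v k) j = ∑ i, v k i * g (Pi.single i 1) j := by
      conv_lhs => rw [h2]
      rw [map_sum, Finset.sum_apply]
      refine Finset.sum_congr rfl fun i _ => ?_
      rw [map_smul, Pi.smul_apply, smul_eq_mul]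
    rw [← h3, h1, Pi.single_apply]
    by_cases hkj : k = j
    · subst hkj; simp
    · rw [if_neg hkj, if_neg (Ne.symm hkj)]
  rw [Fintype.linearIndependent_iff]
  intro c hc j
  set ι := IntermediateField.inclusion hK with hι
  have h1 : ∀ i, ∑ k, c k * ι (v k i) = 0 := by
    intro i
    have := congrFun hc i
    rw [Finset.sum_apply] at this
    simpa using this
  calc c j = ∑ k, c k * (if k = j then 1 else 0) := by simp
    _ = ∑ k, c k * ∑ i, ι (v k i) * ι (g (Pi.single i 1) j) := by
        refine Finset.sum_congr rfl fun k _ => ?_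
        have h2 := congrArg ι (hg1 k j)
        rw [map_sum] at h2
        simp only [map_mul] at h2
        rw [h2]
        split_ifs
        · rw [map_one]
        · rw [map_zero]
    _ = ∑ i, (∑ k, c k * ι (v k i)) * ι (g (Pi.single i 1) j) := by
        simp only [Finset.mul_sum, Finset.sum_mul]
        rw [Finset.sum_comm]
        refine Finset.sum_congr rfl fun i _ => Finset.sum_congr rfl fun k _ => ?_
        ring
    _ = 0 := by
        refine Finset.sum_eq_zero fun i _ => ?_
        rw [h1 i, zero_mul]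

end Pool.Agent.LogRel
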