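import Pool.Agent.Lib_LogRel.CA1

/-!
# Piece CA2: the part which pairs to zero
-/

set_option linter.unusedSectionVars false

namespace Pool.Agent.LogRel

variable (K : IntermediateField ℚ ℂ) [FiniteDimensional ℚ K]

theorem CA2_le_Qb : K ≤ Qb := by
  intro x hx
  have h1 : IsAlgebraic ℚ (⟨x, hx⟩ : K) := Algebra.IsAlgebraic.isAlgebraic _
  have h2 : IsAlgebraic ℚ (K.val ⟨x, hx⟩) := h1.algHom K.val
  exact mem_algebraicClosure_iff.2 h2

theorem CA2_bil {d n ℓ : ℕ} (b : Fin ℓ → Fin (d + 1) → Fin n → K) (a : Fin (d + 1) → K)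
    (β : Fin ℓ → K) (j : Fin n) : bil K b a β j = ∑ i, a i * ∑ q, β q * b q i j := by
  unfold bil
  refine Finset.sum_congr rfl fun i _ => ?_
  rw [Finset.mul_sum]
  refine Finset.sum_congr rfl fun q _ => ?_
  ring

/-- adapted coordinates of the quotient by `A` -/
theorem CA2_coord {d : ℕ} (A : Submodule K (Fin (d + 1) → K)) :
    ∃ (f : Fin (Module.finrank K ((Fin (d + 1) → K) ⧸ A)) → Fin (d + 1) → K)
      (M : Fin (d + 1) → Fin (Module.finrank K ((Fin (d + 1) → K) ⧸ A)) → K),
      (∀ i, (Pi.single i 1 : Fin (d + 1) → K) - ∑ k, M i k • f k ∈ A) ∧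
      ∀ k l, ∑ i, f k i * M i l = if k = l then 1 else 0 := by
  classical
  let g := Module.finBasis K ((Fin (d + 1) → K) ⧸ A)
  have hf : ∀ k, ∃ v : Fin (d + 1) → K, A.mkQ v = g k := fun k => A.mkQ_surjective (g k)
  choose f hf using hf
  refine ⟨f, fun i k => g.repr (A.mkQ (Pi.single i 1)) k, ?_, ?_⟩
  · intro i
    apply (Submodule.Quotient.mk_eq_zero A).1
    show A.mkQ _ = 0
    rw [map_sub, map_sum]
    simp only [map_smul, hf]
    rw [g.sum_repr, sub_self]
  · intro k l
    have h1 : g k = ∑ i, f k i • A.mkQ (Pi.single i 1) := by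
      rw [← hf k]
      conv_lhs => rw [pi_eq_sum_univ' (f k)]
      rw [map_sum]
      refine Finset.sum_congr rfl fun i _ => ?_
      rw [map_smul]
    have h2 := congrArg (fun v => g.repr v l) h1
    simp only [map_sum, map_smul, Finsupp.coe_finsetSum, Finset.sum_apply, Finsupp.smul_apply,
      smul_eq_mul, Module.Basis.repr_self] at h2
    rw [← h2, Finsupp.single_apply]

/-- The part of `Bk` which pairs to zero with `A`: let `a' = dim A`, `d' = d + 1 - a'`. Then the space
`{β | ∀ a ∈ A, bil a β = 0}` has `K`-dimension `≤ d' (d' - 1)`.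

Proof: choose a basis `f_1..f_{d+1}` of `K^{d+1}` whose last `a'` elements are a basis of `A`,
`e_i = ∑_k M_ik f_k`. Put `x'_k = ∑_i x_i M_ik` for `k ≤ d'`: these `d'` numbers are linearly
independent over `Qb` (`M` is invertible over `K ⊆ Qb`). For `β` in the space let
`c_k = bil f_k β ∈ K^n`, so `c_k = 0` for `k > d'` and `bil e_i β = ∑_{k ≤ d'} M_ik c_k`. The relation
`∑_i x_i ∑_j (bil e_i β)_j lam_j = 0` (`hrel`) becomes `∑_{k≤d'} x'_k ∑_j c_kj lam_j = 0`, i.e.
`(c_k)_{k ≤ d'} ∈ Rel x' lam`. The map `β ↦ (c_k)_{k ≤ d'}` is `K`-linear and injective (if all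
`c_k = 0` then `bil e_i β = 0` for all `i`, i.e. `∑_q β_q b^q = 0`, so `β = 0` by `hb`). `K`-independent
elements stay `Qb`-independent (`indep_Qb` or directly), so the dimension is at most
`dim (Rel x' lam) ≤ d' (d' - 1)` by `hmin` (`d' < d + 1` because `a' ≥ 1`). -/
theorem kernel_part {d n ℓ : ℕ} (lam : Fin n → ℂ)
    (hmin : ∀ d' : ℕ, d' < d + 1 → ∀ x' : Fin d' → ℂ, LinearIndependent Qb x' →
      Module.finrank Qb (Rel x' lam) ≤ d' * (d' - 1))
    (x : Fin (d + 1) → ℂ) (hx : LinearIndependent Qb x)
    (b : Fin ℓ → Fin (d + 1) → Fin n → K) (hb : LinearIndependent K b)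
    (hrel : ∀ q, ∑ i, ∑ j, (b q i j : ℂ) * x i * lam j = 0)
    (A : Submodule K (Fin (d + 1) → K)) (hA : A ≠ ⊥) (Z : Submodule K (Fin ℓ → K))
    (hZ : ∀ β ∈ Z, ∀ a ∈ A, bil K b a β = 0) :
    Module.finrank K Z ≤ (d + 1 - Module.finrank K A) * (d + 1 - Module.finrank K A - 1) := by
  classical
  have hK : K ≤ Qb := CA2_le_Qb K
  obtain ⟨f, M, hfM, hdelta⟩ := CA2_coord K A
  have hdim := A.finrank_quotient_add_finrank
  rw [Module.finrank_fintype_fun_eq_card, Fintype.card_fin] at hdim
  have hApos : 0 < Module.finrank K A := by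
    rw [Module.finrank_pos_iff]
    exact Submodule.nontrivial_iff_ne_bot.2 hA
  have hd' : d + 1 - Module.finrank K A = Module.finrank K ((Fin (d + 1) → K) ⧸ A) := by omega
  rw [hd']
  generalize hD : Module.finrank K ((Fin (d + 1) → K) ⧸ A) = D at *
  have hDlt : D < d + 1 := by omega
  -- the new numbers
  have hx' : LinearIndependent Qb (fun k : Fin D => ∑ i, x i * (M i k : ℂ)) := by
    rw [Fintype.linearIndependent_iff]
    intro q hq
    rw [Fintype.linearIndependent_iff] at hx
    have h1 : ∑ i, (∑ k, IntermediateField.inclusion hK (M i k) * q k : Qb) • x i = 0 := by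
      rw [← hq]
      simp only [Algebra.smul_def, Finset.mul_sum]
      rw [Finset.sum_comm' (t' := Finset.univ) (s' := fun _ => Finset.univ) (by simp)]
      refine Finset.sum_congr rfl fun i _ => ?_
      rw [map_sum, Finset.sum_mul]
      refine Finset.sum_congr rfl fun k _ => ?_
      rw [map_mul]
      have e1 : (algebraMap Qb ℂ) (IntermediateField.inclusion hK (M i k)) = (M i k : ℂ) := rfl
      rw [e1]
      ring
    have h2 := hx _ h1
    intro k
    have h3 : q k = ∑ i, IntermediateField.inclusion hK (f k i) *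
        ∑ l, IntermediateField.inclusion hK (M i l) * q l := by
      simp only [Finset.mul_sum]
      rw [Finset.sum_comm]
      have h4 : ∀ l, ∑ i, IntermediateField.inclusion hK (f k i) *
          (IntermediateField.inclusion hK (M i l) * q l) = (if k = l then 1 else 0) * q l := by
        intro l
        have h5 := congrArg (IntermediateField.inclusion hK) (hdelta k l)
        rw [map_sum] at h5
        simp only [← mul_assoc]
        rw [← Finset.sum_mul]
        congr 1
        simp only [map_mul] at h5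
        rw [h5]
        split_ifs
        · exact map_one _
        · exact map_zero _
      rw [Finset.sum_congr rfl (fun l _ => h4 l)]
      simp
    rw [h3]
    apply Finset.sum_eq_zero
    intro i _
    rw [h2 i, mul_zero]
  have hm := hmin D hDlt _ hx'
  refine le_trans ?_ hm
  -- the images of a basis of `Z`
  let β := Module.finBasis K Z
  have hE : ∀ γ ∈ Z, ∀ i j, ∑ q, γ q * b q i j = ∑ k, M i k * ∑ i', f k i' * ∑ q, γ q * b q i' j := by
    intro γ hγ i j
    have h1 := congrFun (hZ γ hγ _ (hfM i)) j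
    rw [CA2_bil] at h1
    have h2 : ∑ i', (((Pi.single i 1 : Fin (d + 1) → K) - ∑ k, M i k • f k) i') *
        ∑ q, γ q * b q i' j = ∑ q, γ q * b q i j - ∑ k, M i k * ∑ i', f k i' * ∑ q, γ q * b q i' j := by
      simp only [Pi.sub_apply, sub_mul, Finset.sum_sub_distrib]
      congr 1
      · rw [Finset.sum_eq_single i]
        · simp
        · intro i' _ hi'
          rw [Pi.single_eq_of_ne hi', zero_mul]
        · intro h; exact absurd (Finset.mem_univ i) h
      · simp only [Finset.sum_apply, Pi.smul_apply, smul_eq_mul, Finset.sum_mul]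
        rw [Finset.sum_comm]
        refine Finset.sum_congr rfl fun k _ => ?_
        rw [Finset.mul_sum]
        refine Finset.sum_congr rfl fun i' _ => ?_
        ring
    rw [h2] at h1
    exact sub_eq_zero.1 h1
  let T : Z →ₗ[K] (Fin D × Fin n → K) :=
    { toFun := fun γ p => ∑ i, f p.1 i * ∑ q, (γ : Fin ℓ → K) q * b q i p.2
      map_add' := by
        intro γ γ'
        funext p
        simp only [Submodule.coe_add, Pi.add_apply, add_mul, Finset.sum_add_distrib, mul_add]
      map_smul' := by
        intro c γ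
        funext p
        simp only [Submodule.coe_smul, Pi.smul_apply, smul_eq_mul, RingHom.id_apply, Finset.mul_sum]
        refine Finset.sum_congr rfl fun i _ => Finset.sum_congr rfl fun q _ => ?_
        ring }
  have hTinj : Function.Injective T := by
    rw [← LinearMap.ker_eq_bot, LinearMap.ker_eq_bot']
    intro γ hγ
    have h1 : ∀ i j, ∑ q, (γ : Fin ℓ → K) q * b q i j = 0 := by
      intro i j
      rw [hE γ γ.2 i j]
      apply Finset.sum_eq_zero
      intro k _
      have h2 := congrFun hγ (k, j)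
      have h3 : ∑ i', f k i' * ∑ q, (γ : Fin ℓ → K) q * b q i' j = 0 := h2
      rw [h3, mul_zero]
    rw [Fintype.linearIndependent_iff] at hb
    have h2 := hb (γ : Fin ℓ → K) (by
      funext i j
      rw [Finset.sum_apply, Finset.sum_apply]
      show ∑ q, (γ : Fin ℓ → K) q * b q i j = 0
      exact h1 i j)
    apply Subtype.ext
    funext q
    exact h2 q
  have hli : LinearIndependent K (fun k => T (β k)) := by
    have := β.linearIndependent.map' T (LinearMap.ker_eq_bot.2 hTinj)
    exact this
  -- over `Qb`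
  let e : Fin D × Fin n ≃ Fin (D * n) := finProdFinEquiv
  let R : (Fin D × Fin n → K) →ₗ[K] (Fin (D * n) → K) := LinearMap.funLeft K K e.symm
  have hR : Function.Injective R := by
    intro v w h
    funext p
    have := congrFun h (e p)
    simpa [R, LinearMap.funLeft_apply] using this
  have hli2 : LinearIndependent K (fun k => R (T (β k))) :=
    hli.map' R (LinearMap.ker_eq_bot.2 hR)
  have hQ := indep_Qb K _ hli2 hK
  let w : Fin (Module.finrank K Z) → Rel (fun k : Fin D => ∑ i, x i * (M i k : ℂ)) lam := fun k =>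
    ⟨fun a j => IntermediateField.inclusion hK (T (β k) (a, j)), by
      rw [mem_Rel]
      have e1 : ∀ a j, ((IntermediateField.inclusion hK (T (β k) (a, j)) : Qb) : ℂ) =
          ((T (β k) (a, j) : K) : ℂ) := fun a j => rfl
      simp only [e1]
      have e2 : ∑ a : Fin D, ∑ j, ((T (β k) (a, j) : K) : ℂ) * (∑ i, x i * (M i a : ℂ)) * lam j =
          ∑ i, ∑ j, ((∑ a, M i a * T (β k) (a, j) : K) : ℂ) * x i * lam j := by
        have e3 : ∀ i j, ((∑ a, M i a * T (β k) (a, j) : K) : ℂ) * x i * lam j =
            ∑ a, ((T (β k) (a, j) : K) : ℂ) * (x i * (M i a : ℂ)) * lam j := by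
          intro i j
          rw [IntermediateField.coe_sum, Finset.sum_mul, Finset.sum_mul]
          refine Finset.sum_congr rfl fun a _ => ?_
          rw [IntermediateField.coe_mul]
          ring
        simp only [e3, Finset.mul_sum, Finset.sum_mul]
        rw [Finset.sum_comm' (t' := Finset.univ) (s' := fun _ => Finset.univ) (by simp)]
        have e4 : ∀ j, ∑ a : Fin D, ∑ i, ((T (β k) (a, j) : K) : ℂ) * (x i * (M i a : ℂ)) * lam j =
            ∑ i, ∑ a : Fin D, ((T (β k) (a, j) : K) : ℂ) * (x i * (M i a : ℂ)) * lam j :=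
          fun j => Finset.sum_comm
        rw [Finset.sum_congr rfl (fun j _ => e4 j)]
        rw [Finset.sum_comm]
      rw [e2]
      have e5 : ∀ i j, (∑ a, M i a * T (β k) (a, j) : K) = ∑ q, ((β k : Z) : Fin ℓ → K) q * b q i j := by
        intro i j
        exact (hE _ (β k).2 i j).symm
      simp only [e5]
      have e6 : ∀ i j, ((∑ q, ((β k : Z) : Fin ℓ → K) q * b q i j : K) : ℂ) * x i * lam j =
          ∑ q, (((β k : Z) : Fin ℓ → K) q : ℂ) * ((b q i j : ℂ) * x i * lam j) := by
        intro i j
        rw [IntermediateField.coe_sum, Finset.sum_mul, Finset.sum_mul]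
        refine Finset.sum_congr rfl fun q _ => ?_
        rw [IntermediateField.coe_mul]
        ring
      simp only [e6]
      have e7 : ∑ i, ∑ j, ∑ q, (((β k : Z) : Fin ℓ → K) q : ℂ) * ((b q i j : ℂ) * x i * lam j) =
          ∑ q, (((β k : Z) : Fin ℓ → K) q : ℂ) * ∑ i, ∑ j, (b q i j : ℂ) * x i * lam j := by
        simp only [Finset.mul_sum]
        have e8 : ∀ i, ∑ j, ∑ q, (((β k : Z) : Fin ℓ → K) q : ℂ) * ((b q i j : ℂ) * x i * lam j) =
            ∑ q, ∑ j, (((β k : Z) : Fin ℓ → K) q : ℂ) * ((b q i j : ℂ) * x i * lam j) :=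
          fun i => Finset.sum_comm
        rw [Finset.sum_congr rfl (fun i _ => e8 i)]
        exact Finset.sum_comm
      rw [e7]
      apply Finset.sum_eq_zero
      intro q _
      rw [hrel q, mul_zero]⟩
  have hw : LinearIndependent Qb w := by
    let S : (Fin D → Fin n → Qb) →ₗ[Qb] (Fin (D * n) → Qb) :=
      { toFun := fun v i => v (e.symm i).1 (e.symm i).2
        map_add' := fun _ _ => rfl
        map_smul' := fun _ _ => rfl }
    apply LinearIndependent.of_comp ((S).comp (Submodule.subtype _))
    exact hQ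
  have := hw.fintype_card_le_finrank
  rwa [Fintype.card_fin] at this

end Pool.Agent.LogRel
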