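import Pool.Agent.Lib_LogRel.Defs2

/-!
# Piece CB: a number field of definition
-/

set_option linter.unusedSectionVars false

namespace Pool.Agent.LogRel

/-- Let `ℓ = dim Rel x lam`. There are a number field `K` of degree `≥ 2` and `ℓ` linearly independent
relations with coefficients in `K`.

Proof: take a basis of `Rel x lam` over `Qb` (finite dimensional, `Module.finBasis`), let `K` be
generated over `ℚ` by its finitely many coordinates and by `Complex.I` (all algebraic, so `K` is
finite dimensional; `[K:ℚ] ≥ 2` since `I ∈ K` is not rational). Linear independence over `Qb`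
implies linear independence over `K`. -/
theorem exists_field {d n : ℕ} (x : Fin d → ℂ) (lam : Fin n → ℂ) :
    ∃ K : IntermediateField ℚ ℂ, FiniteDimensional ℚ K ∧ 2 ≤ Module.finrank ℚ K ∧
      ∃ b : Fin (Module.finrank Qb (Rel x lam)) → Fin d → Fin n → K, LinearIndependent K b ∧
        ∀ q, ∑ i, ∑ j, (b q i j : ℂ) * x i * lam j = 0 := by
  classical
  let B := Module.finBasis Qb (Rel x lam)
  let e : Fin (Module.finrank Qb (Rel x lam)) → Fin d → Fin n → ℂ :=
    fun q i j => (((B q : Fin d → Fin n → Qb) i j : Qb) : ℂ)
  let S : Set ℂ := insert Complex.I (Set.range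
    (fun p : Fin (Module.finrank Qb (Rel x lam)) × Fin d × Fin n => e p.1 p.2.1 p.2.2))
  have hSfin : S.Finite := (Set.finite_range _).insert _
  have hI : IsIntegral ℚ Complex.I := by
    refine ⟨Polynomial.X ^ 2 + 1, ?_, ?_⟩
    · have : (Polynomial.X ^ 2 + 1 : Polynomial ℚ) = Polynomial.X ^ 2 + Polynomial.C 1 := by simp
      rw [this]
      exact Polynomial.monic_X_pow_add_C 1 (by norm_num)
    · simp
  have hSint : ∀ s ∈ S, IsIntegral ℚ s := by
    intro s hs
    rcases hs with rfl | ⟨p, rfl⟩
    · exact hI
    · have h1 : e p.1 p.2.1 p.2.2 ∈ Qb := ((B p.1 : Fin d → Fin n → Qb) p.2.1 p.2.2).2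
      exact (mem_algebraicClosure_iff'.mp h1)
  have : Finite S := hSfin
  let K : IntermediateField ℚ ℂ := IntermediateField.adjoin ℚ S
  have hKfd : FiniteDimensional ℚ K := IntermediateField.finiteDimensional_adjoin hSint
  have hIK : Complex.I ∈ K := IntermediateField.subset_adjoin ℚ S (Set.mem_insert _ _)
  have hK2 : 2 ≤ Module.finrank ℚ K := by
    by_contra hlt
    have hpos : 0 < Module.finrank ℚ K := Module.finrank_pos
    have h1 : Module.finrank ℚ K = 1 := by omega
    rw [IntermediateField.finrank_eq_one_iff] at h1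
    rw [h1, IntermediateField.mem_bot] at hIK
    obtain ⟨q, hq⟩ := hIK
    have := congrArg Complex.im hq
    simp at this
  have hKQb : K ≤ Qb := by
    intro z hz
    have h2 : IsIntegral ℚ (⟨z, hz⟩ : K) := IsIntegral.of_finite ℚ _
    exact mem_algebraicClosure_iff'.mpr (h2.map K.val)
  refine ⟨K, hKfd, hK2, fun q i j => ⟨e q i j, IntermediateField.subset_adjoin ℚ S
    (Set.mem_insert_of_mem _ ⟨(q, i, j), rfl⟩)⟩, ?_, ?_⟩
  · rw [Fintype.linearIndependent_iff]
    intro g hg
    have hB : LinearIndependent Qb (fun q => B q) := B.linearIndependent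
    rw [Fintype.linearIndependent_iff] at hB
    have h3 := hB (fun q => (⟨(g q : ℂ), hKQb (g q).2⟩ : Qb)) (by
      apply Subtype.ext
      funext i j
      apply Subtype.ext
      have h4 := congrFun (congrFun hg i) j
      have h5 := congrArg (fun t : K => (t : ℂ)) h4
      simp only [Finset.sum_apply, Pi.smul_apply, smul_eq_mul, Pi.zero_apply] at h5
      push_cast at h5
      simp only [Submodule.coe_sum, Submodule.coe_smul, Finset.sum_apply, Pi.smul_apply,
        smul_eq_mul, Submodule.coe_zero, Pi.zero_apply]
      push_cast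
      exact h5)
    intro q
    have h6 := h3 q
    have h7 := congrArg (fun t : Qb => (t : ℂ)) h6
    apply Subtype.ext
    exact h7
  · intro q
    exact (B q).2

end Pool.Agent.LogRel
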