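import Pool.Agent.Lib_LogRel.BG
import Pool.Agent.Lib_LogRel.CA
import Pool.Agent.Lib_LogRel.CB

/-!
# Piece CC: at most `d (d-1)` relations (assembly)
-/

set_option linter.unusedSectionVars false

namespace Pool.Agent.LogRel

/-- **Main theorem.** Let `x_1..x_d` be complex numbers linearly independent over the field of
algebraic numbers, and `lam_1..lam_n` complex numbers linearly independent over `ℚ` with algebraic
exponentials. The linear relations with algebraic coefficients between the products `x_i lam_j` form
a space of dimension at most `d (d-1)`.

Proof: strong induction on `d`; `d = 0` is trivial. For `d + 1`: if the dimension `ℓ` is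
`> (d+1) d`, take `K`, `b` from `exists_field`; `crit_of_minimal` (with the induction hypothesis)
and `core` (`x (last) ≠ 0` by independence) give a contradiction. -/
theorem main_rel {d n : ℕ} (x : Fin d → ℂ) (hx : LinearIndependent Qb x) (lam : Fin n → ℂ)
    (hl : LinearIndependent ℚ lam) (hexp : ∀ j, IsAlgebraic ℚ (Complex.exp (lam j))) :
    Module.finrank Qb (Rel x lam) ≤ d * (d - 1) := by
  induction d using Nat.strong_induction_on with
  | _ d ih =>
    rcases d with _ | d
    · have : Subsingleton (Fin 0 → Fin n → Qb) := inferInstance
      have h0 : Module.finrank Qb (Rel x lam) = 0 := Module.finrank_zero_of_subsingleton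
      omega
    · by_contra hcon
      push Not at hcon
      obtain ⟨K, hK, hD, b, hb, hrel⟩ := exists_field x lam
      have hℓ : (d + 1) * d < Module.finrank Qb (Rel x lam) := by
        simpa using hcon
      have hmin : ∀ d' : ℕ, d' < d + 1 → ∀ x' : Fin d' → ℂ, LinearIndependent Qb x' →
          Module.finrank Qb (Rel x' lam) ≤ d' * (d' - 1) := fun d' hd' x' hx' => ih d' hd' x' hx'
      exact core K lam b hD x (hx.ne_zero _) hexp hrel
        (fun A hA => crit_of_minimal K lam hl hmin x hx b hb hrel hℓ A hA)

end Pool.Agent.LogRel
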