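import Mathlib

/-!
# Piece DA: the evaluation trick
-/

set_option linter.unusedSectionVars false

namespace Pool.Agent.LogRel

/-- a finitely generated nontrivial algebra over an algebraically closed field has a point -/
theorem DA_point {k R : Type} [Field k] [IsAlgClosed k] [CommRing R] [Nontrivial R] [Algebra k R]
    [Algebra.FiniteType k R] : Nonempty (R →ₐ[k] k) := by
  obtain ⟨M, hM⟩ := Ideal.exists_maximal R
  letI : Field (R ⧸ M) := Ideal.Quotient.field M
  haveI : Algebra.FiniteType k (R ⧸ M) := inferInstance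
  haveI : Module.Finite k (R ⧸ M) := finite_of_finite_type_of_isJacobsonRing k (R ⧸ M)
  haveI : Algebra.IsIntegral k (R ⧸ M) := Algebra.IsIntegral.of_finite k (R ⧸ M)
  have hb : Function.Bijective (algebraMap k (R ⧸ M)) :=
    IsAlgClosed.algebraMap_bijective_of_isIntegral
  let e : k ≃ₐ[k] (R ⧸ M) := AlgEquiv.ofBijective (Algebra.ofId k (R ⧸ M)) hb
  exact ⟨(e.symm : (R ⧸ M) →ₐ[k] k).comp (Ideal.Quotient.mkₐ k M)⟩

/-- hyperplanes cut out by a nonzero functional -/
theorem DA_ker {k U : Type} [Field k] [AddCommGroup U] [Module k U] [FiniteDimensional k U]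
    (f : U →ₗ[k] k) (u : U) (hu : f u ≠ 0) :
    Module.finrank k (LinearMap.ker f) + 1 = Module.finrank k U := by
  have h1 := LinearMap.finrank_range_add_finrank_ker f
  have h2 : LinearMap.range f = ⊤ := by
    rw [LinearMap.range_eq_top]
    intro c
    refine ⟨(c / f u) • u, ?_⟩
    rw [map_smul, smul_eq_mul, div_mul_cancel₀ _ hu]
  rw [h2] at h1
  have h3 : Module.finrank k (⊤ : Submodule k k) = 1 := by
    rw [finrank_top]
    exact Module.finrank_self k
  omega

/-- Let `k` be algebraically closed, `E/k` a field extension, `W`, `V` finite dimensional nonzero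
`k`-subspaces of `E`. There is a hyperplane `X` of `W` with `dim (X V) + 1 ≤ dim (W V)`.

Proof: let `0 ≠ w₀ ∈ W`, `0 ≠ v₀ ∈ V` and `R = k[W, V, (w₀ v₀)⁻¹] ⊆ E`, a finitely generated
`k`-algebra. By the Nullstellensatz there is a `k`-algebra homomorphism `ε : R → k` (a maximal ideal
has residue field finite over `k`, hence equal to `k`: `finite_of_finite_type_of_isJacobsonRing`,
`IsAlgClosed.algebraMap_bijective_of_isIntegral`...). `ε(w₀) ≠ 0`, `ε(v₀) ≠ 0`. Let `X = W ⊓ ker ε`:
it has codimension one in `W`, and `X V` is contained in the hyperplane `W V ⊓ ker ε` of `W V`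
(`ε(w₀ v₀) ≠ 0`). -/
theorem eval_trick {k E : Type} [Field k] [IsAlgClosed k] [Field E] [Algebra k E]
    (W V : Submodule k E) (hW : FiniteDimensional k W) (hV : FiniteDimensional k V)
    (hW0 : W ≠ ⊥) (hV0 : V ≠ ⊥) :
    ∃ X : Submodule k E, X ≤ W ∧ Module.finrank k X + 1 = Module.finrank k W ∧
      Module.finrank k ↥(X * V) + 1 ≤ Module.finrank k ↥(W * V) := by
  obtain ⟨w₀, hw₀, hw₀'⟩ := (Submodule.ne_bot_iff W).1 hW0
  obtain ⟨v₀, hv₀, hv₀'⟩ := (Submodule.ne_bot_iff V).1 hV0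
  obtain ⟨SW, hSW⟩ := (Submodule.fg_iff_finiteDimensional W).2 hW
  obtain ⟨SV, hSV⟩ := (Submodule.fg_iff_finiteDimensional V).2 hV
  have hwv : w₀ * v₀ ≠ 0 := mul_ne_zero hw₀' hv₀'
  classical
  let S : Finset E := SW ∪ SV ∪ {(w₀ * v₀)⁻¹}
  let R : Subalgebra k E := Algebra.adjoin k (S : Set E)
  have hSR : ∀ x ∈ S, x ∈ R := fun x hx => Algebra.subset_adjoin hx
  have hWR : ∀ w ∈ W, w ∈ R := by
    intro w hw
    have : W ≤ Subalgebra.toSubmodule R := by
      rw [← hSW, Submodule.span_le]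
      intro x hx
      exact hSR x (Finset.mem_union_left _ (Finset.mem_union_left _ hx))
    exact this hw
  have hVR : ∀ v ∈ V, v ∈ R := by
    intro v hv
    have : V ≤ Subalgebra.toSubmodule R := by
      rw [← hSV, Submodule.span_le]
      intro x hx
      exact hSR x (Finset.mem_union_left _ (Finset.mem_union_right _ hx))
    exact this hv
  have hiR : (w₀ * v₀)⁻¹ ∈ R := hSR _ (Finset.mem_union_right _ (Finset.mem_singleton_self _))
  haveI : Algebra.FiniteType k R := (Subalgebra.fg_iff_finiteType R).1 ⟨S, rfl⟩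
  obtain ⟨ε⟩ := DA_point (k := k) (R := R)
  have hWV : ∀ z ∈ W * V, z ∈ R := by
    intro z hz
    have : W * V ≤ Subalgebra.toSubmodule R := by
      rw [Submodule.mul_le]
      intro m hm n hn
      exact R.mul_mem (hWR m hm) (hVR n hn)
    exact this hz
  have hmem : w₀ * v₀ ∈ W * V := Submodule.mul_mem_mul hw₀ hv₀
  have hε : ε ⟨w₀ * v₀, hWV _ hmem⟩ ≠ 0 := by
    intro h0
    have h1 : (⟨w₀ * v₀, hWV _ hmem⟩ : R) * ⟨(w₀ * v₀)⁻¹, hiR⟩ = 1 := by
      apply Subtype.ext
      exact mul_inv_cancel₀ hwv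
    have h2 := congrArg ε h1
    rw [map_mul, h0, zero_mul, map_one] at h2
    exact zero_ne_one h2
  have hεw : ε ⟨w₀, hWR _ hw₀⟩ ≠ 0 := by
    intro h0
    apply hε
    have h1 : (⟨w₀ * v₀, hWV _ hmem⟩ : R) = ⟨w₀, hWR _ hw₀⟩ * ⟨v₀, hVR _ hv₀⟩ := rfl
    rw [h1, map_mul, h0, zero_mul]
  let φ : W →ₗ[k] k := ε.toLinearMap.comp
    (LinearMap.codRestrict (Subalgebra.toSubmodule R) W.subtype (fun w => hWR _ w.2))
  let ψ : ↥(W * V) →ₗ[k] k := ε.toLinearMap.comp
    (LinearMap.codRestrict (Subalgebra.toSubmodule R) (W * V).subtype (fun w => hWV _ w.2))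
  haveI hfd : FiniteDimensional k ↥(W * V) := by
    apply (Submodule.fg_iff_finiteDimensional _).1
    exact Submodule.FG.mul ⟨SW, hSW⟩ ⟨SV, hSV⟩
  have h1 := DA_ker φ ⟨w₀, hw₀⟩ hεw
  have h2 := DA_ker ψ ⟨w₀ * v₀, hmem⟩ hε
  refine ⟨(LinearMap.ker φ).map W.subtype, ?_, ?_, ?_⟩
  · intro x hx
    obtain ⟨y, -, rfl⟩ := hx
    exact y.2
  · rw [← h1]
    congr 1
    exact Submodule.finrank_map_subtype_eq W (LinearMap.ker φ)
  · rw [← h2]
    have hle : (LinearMap.ker φ).map W.subtype * V ≤ (LinearMap.ker ψ).map (W * V).subtype := by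
      rw [Submodule.mul_le]
      intro m hm n hn
      obtain ⟨y, hy, rfl⟩ := hm
      have hyn : (y : E) * n ∈ W * V := Submodule.mul_mem_mul y.2 hn
      refine ⟨⟨(y : E) * n, hyn⟩, ?_, rfl⟩
      have hy' : ε ⟨(y : E), hWR _ y.2⟩ = 0 := hy
      show ε ⟨(y : E) * n, hWV _ hyn⟩ = 0
      have h3 : (⟨(y : E) * n, hWV _ hyn⟩ : R) = ⟨(y : E), hWR _ y.2⟩ * ⟨n, hVR _ hn⟩ := rfl
      rw [h3, map_mul, hy', zero_mul]
    haveI : FiniteDimensional k ↥((LinearMap.ker ψ).map (W * V).subtype) := by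
      apply Module.Finite.map
    have h4 := Submodule.finrank_mono hle
    have h5 : Module.finrank k ↥((LinearMap.ker ψ).map (W * V).subtype) =
        Module.finrank k (LinearMap.ker ψ) := Submodule.finrank_map_subtype_eq (W * V) (LinearMap.ker ψ)
    omega

/-- Iteration: for every `d ≤ dim W` there is `X ≤ W` of dimension `d` with
`dim (X V) + (dim W - d) ≤ dim (W V)`. -/
theorem eval_iter {k E : Type} [Field k] [IsAlgClosed k] [Field E] [Algebra k E]
    (W V : Submodule k E) (hW : FiniteDimensional k W) (hV : FiniteDimensional k V)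
    (hV0 : V ≠ ⊥) (d : ℕ) (hd : d ≤ Module.finrank k W) :
    ∃ X : Submodule k E, X ≤ W ∧ Module.finrank k X = d ∧
      Module.finrank k ↥(X * V) + (Module.finrank k W - d) ≤ Module.finrank k ↥(W * V) := by
  obtain ⟨m, hm⟩ : ∃ m, Module.finrank k W = d + m := ⟨Module.finrank k W - d, by omega⟩
  induction m generalizing W with
  | zero =>
    refine ⟨W, le_refl _, by omega, ?_⟩
    rw [hm]
    omega
  | succ m ih =>
    have hW0 : W ≠ ⊥ := by
      rintro rfl
      simp at hm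
    obtain ⟨X, hXW, hX1, hX2⟩ := eval_trick W V hW hV hW0 hV0
    have hXf : FiniteDimensional k X := Submodule.finiteDimensional_of_le hXW
    obtain ⟨Y, hYX, hY1, hY2⟩ := ih X hXf (by omega) (by omega)
    exact ⟨Y, hYX.trans hXW, hY1, by omega⟩

end Pool.Agent.LogRel
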