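import Pool.Agent.Lib_LogRel.CC
import Pool.Agent.Lib_LogRel.DA

/-!
# Piece DB: lower bounds for spaces of products
-/

set_option linter.unusedSectionVars false

namespace Pool.Agent.LogRel

/-- the space spanned by the logarithms -/
noncomputable def Vl {n : ℕ} (lam : Fin n → ℂ) : Submodule Qb ℂ := Submodule.span Qb (Set.range lam)

/-- `dim V = n` (this is Baker's theorem, the case `d = 1` of `main_rel`) -/
theorem finrank_Vl {n : ℕ} (lam : Fin n → ℂ) (hl : LinearIndependent ℚ lam)
    (hexp : ∀ j, IsAlgebraic ℚ (Complex.exp (lam j))) : Module.finrank Qb (Vl lam) = n := by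
  have hx : LinearIndependent Qb (fun _ : Fin 1 => (1 : ℂ)) := by
    rw [Fintype.linearIndependent_iff]
    intro g hg i
    simp only [Finset.univ_unique, Finset.sum_singleton] at hg
    have h1 : ((g default : Qb) : ℂ) = 0 := by
      have : g default • (1 : ℂ) = ((g default : Qb) : ℂ) := by
        rw [Algebra.smul_def, mul_one]
        rfl
      rw [← this]
      exact hg
    have h2 : g default = 0 := Subtype.ext h1
    rw [Subsingleton.elim i default]
    exact h2
  have h0 := main_rel (fun _ : Fin 1 => (1 : ℂ)) hx lam hl hexp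
  simp only [Nat.sub_self, mul_zero, Nat.le_zero] at h0
  have hbot : Rel (fun _ : Fin 1 => (1 : ℂ)) lam = ⊥ := Submodule.finrank_eq_zero.mp h0
  have hli : LinearIndependent Qb lam := by
    rw [Fintype.linearIndependent_iff]
    intro g hg j
    have hmem : (fun (_ : Fin 1) => g) ∈ Rel (fun _ : Fin 1 => (1 : ℂ)) lam := by
      rw [mem_Rel]
      simp only [Finset.univ_unique, Finset.sum_singleton, mul_one]
      rw [← hg]
      refine Finset.sum_congr rfl fun j _ => ?_
      rw [Algebra.smul_def]
      rfl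
    rw [hbot, Submodule.mem_bot] at hmem
    exact congrFun (congrFun hmem 0) j
  unfold Vl
  rw [finrank_span_eq_card hli, Fintype.card_fin]

/-- Let `X` have dimension `d`. Then `d n ≤ dim (X V) + d (d-1)`. Proof: `x` a basis of `X`; the map
`Qb^{d x n} → X * V`, `c ↦ ∑ c_ij x_i lam_j` is surjective with kernel `Rel x lam`. -/
theorem finrank_mul_Vl {n : ℕ} (lam : Fin n → ℂ) (hl : LinearIndependent ℚ lam)
    (hexp : ∀ j, IsAlgebraic ℚ (Complex.exp (lam j))) (X : Submodule Qb ℂ)
    (hX : FiniteDimensional Qb X) :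
    Module.finrank Qb X * n ≤ Module.finrank Qb ↥(X * Vl lam) +
      Module.finrank Qb X * (Module.finrank Qb X - 1) := by
  classical
  have hXb := Module.finBasis Qb X
  set d := Module.finrank Qb X with hd
  let x : Fin d → ℂ := fun i => ((hXb i : X) : ℂ)
  have hxli : LinearIndependent Qb x :=
    hXb.linearIndependent.map' X.subtype (Submodule.ker_subtype X)
  have hxspan : Submodule.span Qb (Set.range x) = X := by
    have h1 : Set.range x = X.subtype '' (Set.range hXb) := by
      rw [← Set.range_comp]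
      rfl
    rw [h1, Submodule.span_image, hXb.span_eq, Submodule.map_top, Submodule.range_subtype]
  let φ : (Fin d → Fin n → Qb) →ₗ[Qb] ℂ :=
    { toFun := fun c => ∑ i, ∑ j, (c i j : ℂ) * x i * lam j
      map_add' := by
        intro c c'
        rw [← Finset.sum_add_distrib]
        refine Finset.sum_congr rfl fun i _ => ?_
        rw [← Finset.sum_add_distrib]
        refine Finset.sum_congr rfl fun j _ => ?_
        simp only [Pi.add_apply]
        push_cast
        ring
      map_smul' := by
        intro a c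
        have key : ∀ z : ℂ, a • z = (a : ℂ) * z := fun z => Algebra.smul_def a z
        rw [RingHom.id_apply, key, Finset.mul_sum]
        refine Finset.sum_congr rfl fun i _ => ?_
        rw [Finset.mul_sum]
        refine Finset.sum_congr rfl fun j _ => ?_
        simp only [Pi.smul_apply, smul_eq_mul]
        push_cast
        ring }
  have hker : LinearMap.ker φ = Rel x lam := by
    ext c
    rw [LinearMap.mem_ker, mem_Rel]
    rfl
  have hrange : LinearMap.range φ = X * Vl lam := by
    apply le_antisymm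
    · rintro _ ⟨c, rfl⟩
      show ∑ i, ∑ j, (c i j : ℂ) * x i * lam j ∈ X * Vl lam
      refine Submodule.sum_mem _ fun i _ => Submodule.sum_mem _ fun j _ => ?_
      have h1 : (c i j : ℂ) * x i * lam j = c i j • (x i * lam j) := by
        rw [Algebra.smul_def]
        have : algebraMap Qb ℂ (c i j) = (c i j : ℂ) := rfl
        rw [this, mul_assoc]
      rw [h1]
      refine Submodule.smul_mem _ _ (Submodule.mul_mem_mul (hXb i).2 ?_)
      exact Submodule.subset_span ⟨j, rfl⟩
    · conv_lhs => rw [← hxspan]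
      unfold Vl
      rw [Submodule.span_mul_span, Submodule.span_le]
      rintro _ ⟨_, ⟨i, rfl⟩, _, ⟨j, rfl⟩, rfl⟩
      refine ⟨Pi.single i (Pi.single j 1), ?_⟩
      show ∑ i', ∑ j', (((Pi.single i (Pi.single j (1 : Qb)) : Fin d → Fin n → Qb) i' j' : Qb) : ℂ)
        * x i' * lam j' = x i * lam j
      rw [Finset.sum_eq_single i]
      · rw [Finset.sum_eq_single j]
        · simp
        · intro j' _ hj'
          rw [Pi.single_eq_same, Pi.single_eq_of_ne hj']
          simp
        · intro h
          exact absurd (Finset.mem_univ _) h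
      · intro i' _ hi'
        rw [Pi.single_eq_of_ne hi']
        simp
      · intro h
        exact absurd (Finset.mem_univ _) h
  have hrn := LinearMap.finrank_range_add_finrank_ker φ
  rw [hrange, hker] at hrn
  have hdim : Module.finrank Qb (Fin d → Fin n → Qb) = d * n := by
    rw [Module.finrank_pi_fintype]
    simp
  have hmain := main_rel x hxli lam hl hexp
  rw [hdim] at hrn
  omega

/-- For every finite dimensional `W` and every `d ≤ dim W`:
`dim W + d (n - d) ≤ dim (W V)`. Proof: `eval_iter` gives `X ≤ W` of dimension `d` with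
`dim (X V) + (dim W - d) ≤ dim (W V)`; and `dim (X V) ≥ d n - d (d-1)`. (If `n = 0` or `d > n` the
term `d (n - d)` is `0` and `dim W ≤ dim (W V)` for `V ≠ ⊥`; so assume `1 ≤ n`.) -/
theorem finrank_W_mul_Vl {n : ℕ} (hn : 1 ≤ n) (lam : Fin n → ℂ) (hl : LinearIndependent ℚ lam)
    (hexp : ∀ j, IsAlgebraic ℚ (Complex.exp (lam j))) (W : Submodule Qb ℂ)
    (hW : FiniteDimensional Qb W) (d : ℕ) (hd : d ≤ Module.finrank Qb W) :
    Module.finrank Qb W + d * (n - d) ≤ Module.finrank Qb ↥(W * Vl lam) := by
  have hV0 : Vl lam ≠ ⊥ := by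
    intro h
    have h1 := finrank_Vl lam hl hexp
    rw [h, finrank_bot] at h1
    omega
  have hVfd : FiniteDimensional Qb (Vl lam) :=
    FiniteDimensional.span_of_finite Qb (Set.finite_range lam)
  obtain ⟨v, hv, hv0⟩ := Submodule.exists_mem_ne_zero_of_ne_bot hV0
  have hacl : IsAlgClosure ℚ (algebraicClosure ℚ ℂ) := algebraicClosure.isAlgClosure ℚ ℂ
  have hac : IsAlgClosed Qb := hacl.isAlgClosed
  by_cases hdn : d ≤ n
  · obtain ⟨X, hXW, hXd, hXV⟩ := eval_iter W (Vl lam) hW hVfd hV0 d hd
    have hXfd : FiniteDimensional Qb X := Submodule.finiteDimensional_of_le hXW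
    have h2 := finrank_mul_Vl lam hl hexp X hXfd
    rw [hXd] at h2
    rcases Nat.eq_zero_or_pos d with hd0 | hdpos
    · subst hd0
      omega
    · obtain ⟨m, rfl⟩ : ∃ m, d = m + 1 := ⟨d - 1, by omega⟩
      obtain ⟨r, rfl⟩ : ∃ r, n = (m + 1) + r := ⟨n - (m + 1), by omega⟩
      have h3 : m + 1 + r - (m + 1) = r := by omega
      have h4 : m + 1 - 1 = m := by omega
      rw [h3]
      rw [h4] at h2
      have h5 : (m + 1) * (m + 1 + r) = (m + 1) * m + (m + 1) + (m + 1) * r := by ring
      rw [h5] at h2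
      omega
  · have h1 : n - d = 0 := by omega
    rw [h1, mul_zero, add_zero]
    have hWVfd : FiniteDimensional Qb ↥(W * Vl lam) := by
      have hWfg : W.FG := Module.Finite.iff_fg.mp hW
      have hVfg : (Vl lam).FG := Module.Finite.iff_fg.mp hVfd
      exact Module.Finite.iff_fg.mpr (hWfg.mul hVfg)
    let ψ : ↥W →ₗ[Qb] ↥(W * Vl lam) :=
      ((LinearMap.mulRight Qb v).comp W.subtype).codRestrict (W * Vl lam) (fun w =>
        Submodule.mul_mem_mul w.2 hv)
    refine LinearMap.finrank_le_finrank_of_injective (f := ψ) ?_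
    intro a b hab
    have h2 : (a : ℂ) * v = (b : ℂ) * v := congrArg (fun t : ↥(W * Vl lam) => (t : ℂ)) hab
    exact Subtype.ext (mul_right_cancel₀ hv0 h2)

/-- Powers: `n + (k-1) ⌊n²/4⌋ ≤ dim V^k` for `k ≥ 1`. Proof: induction with `W = V^(k-1)`,
`d = n/2 ≤ n ≤ dim W`, `d (n-d) = ⌊n²/4⌋`. -/
theorem finrank_pow_Vl {n : ℕ} (lam : Fin n → ℂ) (hl : LinearIndependent ℚ lam)
    (hexp : ∀ j, IsAlgebraic ℚ (Complex.exp (lam j))) (k : ℕ) (hk : 1 ≤ k) :
    n + (k - 1) * (n ^ 2 / 4) ≤ Module.finrank Qb ↥(Vl lam ^ k) := by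
  rcases Nat.eq_zero_or_pos n with hn0 | hn
  · subst hn0
    simp
  induction k, hk using Nat.le_induction with
  | base =>
    rw [pow_one, finrank_Vl lam hl hexp]
    simp
  | succ m hm ih =>
    have hVfd : FiniteDimensional Qb (Vl lam) :=
      FiniteDimensional.span_of_finite Qb (Set.finite_range lam)
    have hPfd : FiniteDimensional Qb ↥(Vl lam ^ m) := by
      have hVfg : (Vl lam).FG := Module.Finite.iff_fg.mp hVfd
      exact Module.Finite.iff_fg.mpr (hVfg.pow m)
    have hdle : n / 2 ≤ Module.finrank Qb ↥(Vl lam ^ m) := by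
      have : n / 2 ≤ n := Nat.div_le_self n 2
      omega
    have h1 := finrank_W_mul_Vl hn lam hl hexp (Vl lam ^ m) hPfd (n / 2) hdle
    rw [← pow_succ] at h1
    have h2 : n / 2 * (n - n / 2) = n ^ 2 / 4 := by
      rcases Nat.even_or_odd' n with ⟨r, rfl | rfl⟩
      · have e1 : 2 * r / 2 = r := by omega
        have e2 : 2 * r - r = r := by omega
        have e3 : (2 * r) ^ 2 = (r * r) * 4 := by ring
        rw [e1, e2, e3]
        omega
      · have e1 : (2 * r + 1) / 2 = r := by omega
        have e2 : 2 * r + 1 - r = r + 1 := by omega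
        have e3 : (2 * r + 1) ^ 2 = (r * (r + 1)) * 4 + 1 := by ring
        rw [e1, e2, e3]
        omega
    rw [h2] at h1
    have h3 : (m + 1 - 1) * (n ^ 2 / 4) = (m - 1) * (n ^ 2 / 4) + n ^ 2 / 4 := by
      obtain ⟨r, rfl⟩ : ∃ r, m = r + 1 := ⟨m - 1, by omega⟩
      have e1 : r + 1 + 1 - 1 = r + 1 := by omega
      have e2 : r + 1 - 1 = r := by omega
      rw [e1, e2]
      ring
    omega

end Pool.Agent.LogRel
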