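import Pool.Agent.Lib_LogRel.DB

/-!
# Piece DC: products with powers of the space of logarithms
-/

set_option linter.unusedSectionVars false

namespace Pool.Agent.LogRel

/-- Iteration of `finrank_W_mul_Vl`. -/
theorem finrank_W_mul_pow {n : ℕ} (hn : 1 ≤ n) (lam : Fin n → ℂ) (hl : LinearIndependent ℚ lam)
    (hexp : ∀ j, IsAlgebraic ℚ (Complex.exp (lam j))) (W : Submodule Qb ℂ)
    (hW : FiniteDimensional Qb W) (k e : ℕ) (he : e ≤ Module.finrank Qb W) :
    FiniteDimensional Qb ↥(W * Vl lam ^ k) ∧
    Module.finrank Qb W + k * (e * (n - e)) ≤ Module.finrank Qb ↥(W * Vl lam ^ k) := by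
  induction k with
  | zero =>
    rw [pow_zero, mul_one]
    refine ⟨hW, by simp⟩
  | succ k ih =>
    obtain ⟨hfin, hle⟩ := ih
    have heq : W * Vl lam ^ (k + 1) = (W * Vl lam ^ k) * Vl lam := by
      rw [pow_succ, mul_assoc]
    have he' : e ≤ Module.finrank Qb ↥(W * Vl lam ^ k) := by
      refine le_trans he (le_trans ?_ hle)
      exact Nat.le_add_right _ _
    have h1 := finrank_W_mul_Vl hn lam hl hexp (W * Vl lam ^ k) hfin e he'
    have hV : (Vl lam).FG := by
      unfold Vl
      exact Submodule.fg_span (Set.finite_range lam)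
    have hfin' : FiniteDimensional Qb ↥((W * Vl lam ^ k) * Vl lam) := by
      have h2 : (W * Vl lam ^ k).FG := (Submodule.fg_iff_finiteDimensional _).2 hfin
      exact (Submodule.fg_iff_finiteDimensional _).1 (h2.mul hV)
    rw [heq]
    refine ⟨hfin', ?_⟩
    calc Module.finrank Qb W + (k + 1) * (e * (n - e))
        = (Module.finrank Qb W + k * (e * (n - e))) + e * (n - e) := by ring
      _ ≤ Module.finrank Qb ↥(W * Vl lam ^ k) + e * (n - e) := Nat.add_le_add_right hle _
      _ ≤ _ := h1

end Pool.Agent.LogRel
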