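import Pool.Agent.Lib_LogRel.DC

/-!
# Piece DE: products of arbitrary spaces of linear forms in logarithms
-/

set_option linter.unusedSectionVars false

namespace Pool.Agent.LogRel

/-- the space of all linear forms in logarithms: linear combinations, with algebraic coefficients, of complex
numbers with algebraic exponential -/
noncomputable def LL : Submodule Qb ℂ := Submodule.span Qb {l : ℂ | IsAlgebraic ℚ (Complex.exp l)}

/-- a finite dimensional space of linear forms in logarithms lies in the span of finitely many logarithms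
which are linearly independent over `ℚ` -/
theorem exists_Vl (V : Submodule Qb ℂ) (hV : FiniteDimensional Qb V) (hL : V ≤ LL) :
    ∃ (N : ℕ) (lam : Fin N → ℂ), LinearIndependent ℚ lam ∧
      (∀ j, IsAlgebraic ℚ (Complex.exp (lam j))) ∧ V ≤ Vl lam := by
  classical
  have hfg : V.FG := Module.Finite.iff_fg.mp hV
  obtain ⟨s, hs⟩ := hfg
  -- finitely many logarithms
  have h1 : ∀ x ∈ s, ∃ T : Finset ℂ, (T : Set ℂ) ⊆ {l : ℂ | IsAlgebraic ℚ (Complex.exp l)} ∧
      x ∈ Submodule.span Qb (T : Set ℂ) := by
    intro x hx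
    have hx1 : x ∈ LL := hL (hs ▸ Submodule.subset_span hx)
    exact Submodule.mem_span_finite_of_mem_span hx1
  choose! T hT1 hT2 using h1
  set U : Finset ℂ := s.biUnion T with hU
  have hU1 : (U : Set ℂ) ⊆ {l : ℂ | IsAlgebraic ℚ (Complex.exp l)} := by
    intro l hl
    rw [hU, Finset.coe_biUnion] at hl
    simp only [Set.mem_iUnion] at hl
    obtain ⟨x, hx, hl⟩ := hl
    exact hT1 x hx hl
  have hU2 : V ≤ Submodule.span Qb (U : Set ℂ) := by
    rw [← hs, Submodule.span_le]
    intro x hx
    refine Submodule.span_mono ?_ (hT2 x hx)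
    intro l hl
    rw [hU, Finset.coe_biUnion]
    simp only [Set.mem_iUnion]
    exact ⟨x, hx, hl⟩
  obtain ⟨b, hb1, hb2, hb3⟩ := exists_linearIndependent ℚ (U : Set ℂ)
  have hbf : b.Finite := U.finite_toSet.subset hb1
  have hfb : Fintype b := hbf.fintype
  let e : Fin (Fintype.card b) ≃ b := (Fintype.equivFin b).symm
  refine ⟨Fintype.card b, fun j => (e j : ℂ), ?_, ?_, ?_⟩
  · exact hb3.comp e e.injective
  · intro j
    exact hU1 (hb1 (e j).2)
  · refine hU2.trans ?_
    rw [Submodule.span_le]
    intro l hl
    have h2 : l ∈ Submodule.span ℚ b := hb2 ▸ Submodule.subset_span hl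
    have h3 : Set.range (fun j => (e j : ℂ)) = b := by
      ext y
      constructor
      · rintro ⟨j, rfl⟩
        exact (e j).2
      · intro hy
        exact ⟨e.symm ⟨y, hy⟩, by simp⟩
    show l ∈ Vl _
    unfold Vl
    rw [h3]
    have h4 : Submodule.span ℚ b ≤ (Submodule.span Qb b).restrictScalars ℚ := by
      rw [Submodule.span_le]
      exact Submodule.subset_span
    exact h4 h2

/-- Let `X` have dimension `d` and let `V` be an `n`-dimensional space of linear forms in logarithms. Then
`d n ≤ dim (X V) + d (d-1)`. -/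
theorem finrank_mul_LL (X V : Submodule Qb ℂ) (hX : FiniteDimensional Qb X)
    (hV : FiniteDimensional Qb V) (hL : V ≤ LL) :
    Module.finrank Qb X * Module.finrank Qb V ≤ Module.finrank Qb ↥(X * V) +
      Module.finrank Qb X * (Module.finrank Qb X - 1) := by
  classical
  obtain ⟨N, lam, hl, hexp, hVl⟩ := exists_Vl V hV hL
  have hXb := Module.finBasis Qb X
  have hVb := Module.finBasis Qb V
  set d := Module.finrank Qb X with hd
  set n := Module.finrank Qb V with hn
  let x : Fin d → ℂ := fun i => ((hXb i : X) : ℂ)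
  let v : Fin n → ℂ := fun i => ((hVb i : V) : ℂ)
  have hxli : LinearIndependent Qb x :=
    hXb.linearIndependent.map' X.subtype (Submodule.ker_subtype X)
  have hvli : LinearIndependent Qb v :=
    hVb.linearIndependent.map' V.subtype (Submodule.ker_subtype V)
  have hxspan : Submodule.span Qb (Set.range x) = X := by
    have h1 : Set.range x = X.subtype '' (Set.range hXb) := by
      rw [← Set.range_comp]
      rfl
    rw [h1, Submodule.span_image, hXb.span_eq, Submodule.map_top, Submodule.range_subtype]
  have hvspan : Submodule.span Qb (Set.range v) = V := by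
    have h1 : Set.range v = V.subtype '' (Set.range hVb) := by
      rw [← Set.range_comp]
      rfl
    rw [h1, Submodule.span_image, hVb.span_eq, Submodule.map_top, Submodule.range_subtype]
  -- coordinates of the `v k`
  have hm : ∀ k, ∃ c : Fin N → Qb, ∑ j, c j • lam j = v k := by
    intro k
    have h1 : v k ∈ Vl lam := hVl (hVb k).2
    unfold Vl at h1
    exact (Submodule.mem_span_range_iff_exists_fun Qb).1 h1
  choose m hm using hm
  have hmli : LinearIndependent Qb m := by
    rw [Fintype.linearIndependent_iff]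
    intro g hg
    refine Fintype.linearIndependent_iff.1 hvli g ?_
    have h1 : ∀ k, g k • v k = ∑ j, (g k * m k j) • lam j := by
      intro k
      rw [← hm k, Finset.smul_sum]
      refine Finset.sum_congr rfl fun j _ => ?_
      rw [smul_smul]
    simp only [h1]
    rw [Finset.sum_comm]
    refine Finset.sum_eq_zero fun j _ => ?_
    rw [← Finset.sum_smul]
    have h2 := congrFun hg j
    simp only [Finset.sum_apply, Pi.smul_apply, smul_eq_mul, Pi.zero_apply] at h2
    rw [h2, zero_smul]
  let φ : (Fin d → Fin n → Qb) →ₗ[Qb] ℂ :=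
    { toFun := fun c => ∑ i, ∑ k, c i k • (x i * v k)
      map_add' := by
        intro c c'
        rw [← Finset.sum_add_distrib]
        refine Finset.sum_congr rfl fun i _ => ?_
        rw [← Finset.sum_add_distrib]
        refine Finset.sum_congr rfl fun j _ => ?_
        rw [Pi.add_apply, Pi.add_apply, add_smul]
      map_smul' := by
        intro a c
        rw [RingHom.id_apply, Finset.smul_sum]
        refine Finset.sum_congr rfl fun i _ => ?_
        rw [Finset.smul_sum]
        refine Finset.sum_congr rfl fun j _ => ?_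
        rw [Pi.smul_apply, Pi.smul_apply, smul_eq_mul, smul_smul] }
  have hrange : LinearMap.range φ = X * V := by
    apply le_antisymm
    · rintro _ ⟨c, rfl⟩
      show ∑ i, ∑ k, c i k • (x i * v k) ∈ X * V
      refine Submodule.sum_mem _ fun i _ => Submodule.sum_mem _ fun j _ => ?_
      exact Submodule.smul_mem _ _ (Submodule.mul_mem_mul (hXb i).2 (hVb j).2)
    · conv_lhs => rw [← hxspan, ← hvspan]
      rw [Submodule.span_mul_span, Submodule.span_le]
      rintro _ ⟨_, ⟨i, rfl⟩, _, ⟨j, rfl⟩, rfl⟩
      refine ⟨Pi.single i (Pi.single j 1), ?_⟩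
      show ∑ i', ∑ j', ((Pi.single i (Pi.single j (1 : Qb)) : Fin d → Fin n → Qb) i' j') •
        (x i' * v j') = x i * v j
      rw [Finset.sum_eq_single i]
      · rw [Finset.sum_eq_single j]
        · simp
        · intro j' _ hj'
          rw [Pi.single_eq_same, Pi.single_eq_of_ne hj']
          simp
        · intro h
          exact absurd (Finset.mem_univ _) h
      · intro i' _ hi'
        rw [Pi.single_eq_of_ne hi']
        simp
      · intro h
        exact absurd (Finset.mem_univ _) h
  -- the kernel embeds into `Rel x lam`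
  let ψ : (Fin d → Fin n → Qb) →ₗ[Qb] (Fin d → Fin N → Qb) :=
    { toFun := fun c i j => ∑ k, c i k * m k j
      map_add' := by
        intro c c'
        funext i j
        simp only [Pi.add_apply, add_mul, Finset.sum_add_distrib]
      map_smul' := by
        intro a c
        funext i j
        simp only [Pi.smul_apply, smul_eq_mul, RingHom.id_apply, Finset.mul_sum, mul_assoc] }
  have hψ : Function.Injective ψ := by
    rw [← LinearMap.ker_eq_bot, LinearMap.ker_eq_bot']
    intro c hc
    funext i
    have h1 : ∑ k, c i k • m k = 0 := by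
      funext j
      have h2 : (∑ k, c i k * m k j) = 0 := congrFun (congrFun hc i) j
      simp only [Finset.sum_apply, Pi.smul_apply, smul_eq_mul, Pi.zero_apply]
      exact h2
    have h3 := Fintype.linearIndependent_iff.1 hmli (c i) h1
    funext k
    exact h3 k
  have hker : (LinearMap.ker φ).map ψ ≤ Rel x lam := by
    rintro _ ⟨c, hc, rfl⟩
    rw [mem_Rel]
    have hc' : ∑ i, ∑ k, c i k • (x i * v k) = 0 := hc
    rw [← hc']
    refine Finset.sum_congr rfl fun i _ => ?_
    have e1 : ∀ j, (((ψ c) i j : Qb) : ℂ) * x i * lam j =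
        ∑ k, ((c i k : Qb) : ℂ) * (x i * (((m k j : Qb) : ℂ) * lam j)) := by
      intro j
      have e2 : (((ψ c) i j : Qb) : ℂ) = ∑ k, ((c i k : Qb) : ℂ) * ((m k j : Qb) : ℂ) := by
        show (((∑ k, c i k * m k j : Qb)) : ℂ) = _
        push_cast
        rfl
      rw [e2, Finset.sum_mul, Finset.sum_mul]
      refine Finset.sum_congr rfl fun k _ => ?_
      ring
    simp only [e1]
    rw [Finset.sum_comm]
    refine Finset.sum_congr rfl fun k _ => ?_
    rw [← hm k, ← Finset.mul_sum, ← Finset.mul_sum]
    have e3 : ∀ (a : Qb) (z : ℂ), a • z = (a : ℂ) * z := fun a z => Algebra.smul_def a z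
    rw [e3]
    congr 2
  have h1 : Module.finrank Qb (LinearMap.ker φ) ≤ d * (d - 1) := by
    have h2 := main_rel x hxli lam hl hexp
    have h3 : Module.finrank Qb ↥((LinearMap.ker φ).map ψ) = Module.finrank Qb (LinearMap.ker φ) :=
      (LinearEquiv.finrank_eq (Submodule.equivMapOfInjective ψ hψ (LinearMap.ker φ))).symm
    have h4 : Module.finrank Qb ↥((LinearMap.ker φ).map ψ) ≤ Module.finrank Qb (Rel x lam) :=
      Submodule.finrank_mono hker
    omega
  have hrn := LinearMap.finrank_range_add_finrank_ker φ
  rw [hrange] at hrn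
  have hdim : Module.finrank Qb (Fin d → Fin n → Qb) = d * n := by
    rw [Module.finrank_pi_fintype]
    simp
  rw [hdim] at hrn
  omega

/-- For every finite dimensional `W`, every nonzero finite dimensional space `V` of linear forms in
logarithms and every `d ≤ dim W`: `dim W + d (dim V - d) ≤ dim (W V)`. -/
theorem finrank_W_mul_LL (W V : Submodule Qb ℂ) (hW : FiniteDimensional Qb W)
    (hVfd : FiniteDimensional Qb V) (hV0 : V ≠ ⊥) (hL : V ≤ LL) (d : ℕ)
    (hd : d ≤ Module.finrank Qb W) :
    Module.finrank Qb W + d * (Module.finrank Qb V - d) ≤ Module.finrank Qb ↥(W * V) := by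
  obtain ⟨v, hv, hv0⟩ := Submodule.exists_mem_ne_zero_of_ne_bot hV0
  have hacl : IsAlgClosure ℚ (algebraicClosure ℚ ℂ) := algebraicClosure.isAlgClosure ℚ ℂ
  have hac : IsAlgClosed Qb := hacl.isAlgClosed
  by_cases hdn : d ≤ Module.finrank Qb V
  · obtain ⟨X, hXW, hXd, hXV⟩ := eval_iter W V hW hVfd hV0 d hd
    have hXfd : FiniteDimensional Qb X := Submodule.finiteDimensional_of_le hXW
    have h2 := finrank_mul_LL X V hXfd hVfd hL
    rw [hXd] at h2
    generalize Module.finrank Qb V = n at *
    rcases Nat.eq_zero_or_pos d with hd0 | hdpos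
    · subst hd0
      omega
    · obtain ⟨m, rfl⟩ : ∃ m, d = m + 1 := ⟨d - 1, by omega⟩
      obtain ⟨r, rfl⟩ : ∃ r, n = (m + 1) + r := ⟨n - (m + 1), by omega⟩
      have h3 : m + 1 + r - (m + 1) = r := by omega
      have h4 : m + 1 - 1 = m := by omega
      rw [h3]
      rw [h4] at h2
      have h5 : (m + 1) * (m + 1 + r) = (m + 1) * m + (m + 1) + (m + 1) * r := by ring
      rw [h5] at h2
      omega
  · have h1 : Module.finrank Qb V - d = 0 := by omega
    rw [h1, mul_zero, add_zero]
    have hWVfd : FiniteDimensional Qb ↥(W * V) := by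
      have hWfg : W.FG := Module.Finite.iff_fg.mp hW
      have hVfg : V.FG := Module.Finite.iff_fg.mp hVfd
      exact Module.Finite.iff_fg.mpr (hWfg.mul hVfg)
    let ψ : ↥W →ₗ[Qb] ↥(W * V) :=
      ((LinearMap.mulRight Qb v).comp W.subtype).codRestrict (W * V) (fun w =>
        Submodule.mul_mem_mul w.2 hv)
    refine LinearMap.finrank_le_finrank_of_injective (f := ψ) ?_
    intro a b hab
    have h2 : (a : ℂ) * v = (b : ℂ) * v := congrArg (fun t : ↥(W * V) => (t : ℂ)) hab
    exact Subtype.ext (mul_right_cancel₀ hv0 h2)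

/-- Products with several spaces of linear forms in logarithms. -/
theorem finrank_W_mul_prod (W : Submodule Qb ℂ) (hW : FiniteDimensional Qb W) (k : ℕ)
    (V : Fin k → Submodule Qb ℂ) (hV : ∀ i, FiniteDimensional Qb (V i)) (hV0 : ∀ i, V i ≠ ⊥)
    (hL : ∀ i, V i ≤ LL) (e : Fin k → ℕ) (he : ∀ i, e i ≤ Module.finrank Qb W) :
    FiniteDimensional Qb ↥(W * ∏ i, V i) ∧
    Module.finrank Qb W + ∑ i, e i * (Module.finrank Qb (V i) - e i) ≤
      Module.finrank Qb ↥(W * ∏ i, V i) := by
  induction k with
  | zero =>
    rw [Finset.univ_eq_empty, Finset.prod_empty, mul_one, Finset.sum_empty, add_zero]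
    exact ⟨hW, le_rfl⟩
  | succ k ih =>
    obtain ⟨hfin, hle⟩ := ih (fun i => V i.castSucc) (fun i => hV _) (fun i => hV0 _)
      (fun i => hL _) (fun i => e i.castSucc) (fun i => he _)
    rw [Fin.prod_univ_castSucc, Fin.sum_univ_castSucc, ← mul_assoc]
    have he' : e (Fin.last k) ≤ Module.finrank Qb ↥(W * ∏ i : Fin k, V i.castSucc) :=
      (he _).trans ((Nat.le_add_right _ _).trans hle)
    have h1 := finrank_W_mul_LL (W * ∏ i : Fin k, V i.castSucc) (V (Fin.last k)) hfin (hV _) (hV0 _)
      (hL _) _ he'
    refine ⟨?_, ?_⟩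
    · have h2 : (W * ∏ i : Fin k, V i.castSucc).FG := Module.Finite.iff_fg.mp hfin
      have h3 : (V (Fin.last k)).FG := Module.Finite.iff_fg.mp (hV _)
      exact Module.Finite.iff_fg.mpr (h2.mul h3)
    · omega

end Pool.Agent.LogRel
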