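import Mathlib

/-!
# Linear relations between products of logarithms (MP_1eadae_ag)

Common definitions of the zero estimate for `G_a^P x G_m^Q`.

* `P`, `Q`: finite types, indices of the additive and multiplicative coordinates;
* `L`: finite type, indices of the generators of the group of points;
* `u i l`, `γ i l`: coordinates of the generators.
-/

open MvPolynomial

set_option linter.unusedSectionVars false

namespace Pool.Agent.LogRel

section

variable {F : Type} [Field F]
variable {P Q L : Type} [Fintype P] [Fintype Q] [Fintype L]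

/-- additive coordinates of the point with parameter `s` -/
def ptU (u : P → L → F) (s : L → ℤ) : P → F := fun i => ∑ l, (s l : F) * u i l

/-- multiplicative coordinates of the point with parameter `s` -/
def ptG (γ : Q → L → Fˣ) (s : L → ℤ) : Q → Fˣ := fun i => ∏ l, γ i l ^ s l

theorem ptU_add (u : P → L → F) (s t : L → ℤ) : ptU u (s + t) = ptU u s + ptU u t := by
  funext i
  simp [ptU, add_mul, Finset.sum_add_distrib]

theorem ptU_zero (u : P → L → F) : ptU u 0 = 0 := by
  funext i
  simp [ptU]

theorem ptG_add (γ : Q → L → Fˣ) (s t : L → ℤ) : ptG γ (s + t) = ptG γ s * ptG γ t := by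
  funext i
  simp [ptG, zpow_add, Finset.prod_mul_distrib]

theorem ptG_zero (γ : Q → L → Fˣ) : ptG γ 0 = 1 := by
  funext i
  simp [ptG]

/-- translation by the point `(a, g)` on polynomials -/
noncomputable def tau (a : P → F) (g : Q → Fˣ) :
    MvPolynomial (P ⊕ Q) F →ₐ[F] MvPolynomial (P ⊕ Q) F :=
  aeval (Sum.elim (fun i => X (Sum.inl i) + C (a i)) (fun i => C ((g i : Fˣ) : F) * X (Sum.inr i)))

theorem tau_inl (a : P → F) (g : Q → Fˣ) (i : P) :
    tau a g (X (Sum.inl i)) = X (Sum.inl i) + C (a i) := by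
  simp [tau]

theorem tau_inr (a : P → F) (g : Q → Fˣ) (i : Q) :
    tau a g (X (Sum.inr i)) = C ((g i : Fˣ) : F) * X (Sum.inr i) := by
  simp [tau]

theorem tau_tau (a b : P → F) (g h : Q → Fˣ) (f : MvPolynomial (P ⊕ Q) F) :
    tau a g (tau b h f) = tau (a + b) (g * h) f := by
  have : (tau a g).comp (tau b h) = tau (a + b) (g * h) := by
    apply MvPolynomial.algHom_ext
    rintro (i | i)
    · simp [tau, add_assoc]
    · simp [tau, mul_comm, mul_left_comm]
  rw [← this]
  rfl

theorem tau_zero_one (f : MvPolynomial (P ⊕ Q) F) : tau (0 : P → F) (1 : Q → Fˣ) f = f := by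
  have : tau (0 : P → F) (1 : Q → Fˣ) = AlgHom.id F (MvPolynomial (P ⊕ Q) F) := by
    apply MvPolynomial.algHom_ext
    rintro (i | i)
    · simp [tau]
    · simp [tau]
  rw [this]
  rfl

/-- rank of the additive part of the subgroup of points with parameters in `Φ` -/
noncomputable def h0 (u : P → L → F) (Φ : Submodule ℤ (L → ℤ)) : ℕ :=
  Module.finrank F (Submodule.span F (ptU u '' (Φ : Set (L → ℤ))))

/-- the group of characters which are trivial at all points with parameters in `Φ` -/
def Ann (γ : Q → L → Fˣ) (Φ : Submodule ℤ (L → ℤ)) : Submodule ℤ (Q → ℤ) where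
  carrier := {μ | ∀ s ∈ Φ, ∏ i, ptG γ s i ^ μ i = 1}
  add_mem' := by
    intro a b ha hb s hs
    have h1 := ha s hs
    have h2 := hb s hs
    simp only [Pi.add_apply, zpow_add, Finset.prod_mul_distrib, h1, h2, mul_one]
  zero_mem' := by
    intro s _
    simp
  smul_mem' := by
    intro c μ hμ s hs
    have h1 := hμ s hs
    have h2 : ∀ i, ptG γ s i ^ ((c • μ) i) = (ptG γ s i ^ μ i) ^ c := by
      intro i
      rw [← zpow_mul, Pi.smul_apply, smul_eq_mul, mul_comm]
    simp only [h2, Finset.prod_zpow, h1, one_zpow]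

theorem mem_Ann (γ : Q → L → Fˣ) (Φ : Submodule ℤ (L → ℤ)) (μ : Q → ℤ) :
    μ ∈ Ann γ Φ ↔ ∀ s ∈ Φ, ∏ i, ptG γ s i ^ μ i = 1 := Iff.rfl

/-- a prime ideal not containing the multiplicative coordinates -/
def Torus (p : Ideal (MvPolynomial (P ⊕ Q) F)) : Prop :=
  p.IsPrime ∧ ∀ i : Q, (X (Sum.inr i) : MvPolynomial (P ⊕ Q) F) ∉ p

/-- bounds for the partial degrees -/
def DegLe (T L₀ : ℕ) (f : MvPolynomial (P ⊕ Q) F) : Prop :=
  (∀ i : P, degreeOf (Sum.inl i) f ≤ T) ∧ (∀ i : Q, degreeOf (Sum.inr i) f ≤ L₀)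

/-- polynomials with partial degrees `< A` in the additive coordinates and `< B` in the
multiplicative coordinates -/
noncomputable def box (F : Type) [Field F] (P Q : Type) (A B : ℕ) :
    Submodule F (MvPolynomial (P ⊕ Q) F) :=
  restrictSupport F {m | (∀ i : P, m (Sum.inl i) < A) ∧ (∀ i : Q, m (Sum.inr i) < B)}

/-- the Hilbert function of an ideal: dimension of the image of `box A B` modulo the ideal -/
noncomputable def Hf (I : Ideal (MvPolynomial (P ⊕ Q) F)) (A B : ℕ) : ℕ :=
  Module.finrank F ((box F P Q A B).map (Ideal.Quotient.mkₐ F I).toLinearMap)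

/-- the variables in `I0` (additive) and `J0` (multiplicative) are algebraically independent modulo
the ideal `p` -/
def Indep (p : Ideal (MvPolynomial (P ⊕ Q) F)) (I0 : Finset P) (J0 : Finset Q) : Prop :=
  ∀ f ∈ p, (∀ v ∈ f.vars, (∀ i, v = Sum.inl i → i ∈ I0) ∧ (∀ j, v = Sum.inr j → j ∈ J0)) → f = 0

end

end Pool.Agent.LogRel
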