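import Pool.Agent.Lib_LogRel.Defs

/-!
# Definitions for the number field part
-/

set_option linter.unusedSectionVars false

noncomputable section

namespace Pool.Agent.LogRel

/-- the field of algebraic numbers (inside `ℂ`) -/
abbrev Qb : IntermediateField ℚ ℂ := algebraicClosure ℚ ℂ

/-- the `Qb`-linear relations between the products `x i * l j` -/
def Rel {d n : ℕ} (x : Fin d → ℂ) (l : Fin n → ℂ) : Submodule Qb (Fin d → Fin n → Qb) where
  carrier := {c | ∑ i, ∑ j, (c i j : ℂ) * x i * l j = 0}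
  add_mem' := by
    intro c c' h h'
    have h1 : ∑ i, ∑ j, ((c i j : ℂ) * x i * l j) = 0 := h
    have h2 : ∑ i, ∑ j, ((c' i j : ℂ) * x i * l j) = 0 := h'
    show ∑ i, ∑ j, (((c + c') i j : Qb) : ℂ) * x i * l j = 0
    have : ∀ i j, (((c + c') i j : Qb) : ℂ) * x i * l j =
        (c i j : ℂ) * x i * l j + (c' i j : ℂ) * x i * l j := by
      intro i j
      simp [add_mul]
    simp only [this, Finset.sum_add_distrib, h1, h2, add_zero]
  zero_mem' := by
    show ∑ i, ∑ j, (((0 : Fin d → Fin n → Qb) i j : Qb) : ℂ) * x i * l j = 0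
    simp
  smul_mem' := by
    intro a c h
    have h1 : ∑ i, ∑ j, ((c i j : ℂ) * x i * l j) = 0 := h
    show ∑ i, ∑ j, (((a • c) i j : Qb) : ℂ) * x i * l j = 0
    have : ∀ i j, (((a • c) i j : Qb) : ℂ) * x i * l j = (a : ℂ) * ((c i j : ℂ) * x i * l j) := by
      intro i j
      simp [mul_assoc]
    simp only [this, ← Finset.mul_sum, h1, mul_zero]

theorem mem_Rel {d n : ℕ} (x : Fin d → ℂ) (l : Fin n → ℂ) (c : Fin d → Fin n → Qb) :
    c ∈ Rel x l ↔ ∑ i, ∑ j, (c i j : ℂ) * x i * l j = 0 := Iff.rfl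

variable (K : IntermediateField ℚ ℂ)

/-- rational linear combinations of the `lam j` which are rational multiples of `2 π i` -/
def PQ {n : ℕ} (lam : Fin n → ℂ) : Submodule ℚ (Fin n → ℚ) where
  carrier := {r | ∃ t : ℚ, ∑ j, (r j : ℂ) * lam j = 2 * Real.pi * Complex.I * t}
  add_mem' := by
    rintro r r' ⟨t, h⟩ ⟨t', h'⟩
    refine ⟨t + t', ?_⟩
    have : ∀ j, (((r + r') j : ℚ) : ℂ) * lam j = (r j : ℂ) * lam j + (r' j : ℂ) * lam j := by
      intro j
      simp [add_mul]
    simp only [this, Finset.sum_add_distrib, h, h']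
    push_cast
    ring
  zero_mem' := ⟨0, by simp⟩
  smul_mem' := by
    rintro a r ⟨t, h⟩
    refine ⟨a * t, ?_⟩
    have : ∀ j, (((a • r) j : ℚ) : ℂ) * lam j = (a : ℂ) * ((r j : ℂ) * lam j) := by
      intro j
      simp [mul_assoc]
    simp only [this, ← Finset.mul_sum, h]
    push_cast
    ring

theorem mem_PQ {n : ℕ} (lam : Fin n → ℂ) (r : Fin n → ℚ) :
    r ∈ PQ lam ↔ ∃ t : ℚ, ∑ j, (r j : ℂ) * lam j = 2 * Real.pi * Complex.I * t := Iff.rfl

/-- its extension to `K` -/
def PK {n : ℕ} (lam : Fin n → ℂ) : Submodule K (Fin n → K) :=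
  Submodule.span K {c | ∃ r ∈ PQ lam, c = fun j => algebraMap ℚ K (r j)}

/-- the bilinear map `K^(d+1) × K^ℓ → K^n` -/
def bil {d n ℓ : ℕ} (b : Fin ℓ → Fin (d + 1) → Fin n → K) (a : Fin (d + 1) → K) (β : Fin ℓ → K) :
    Fin n → K := fun j => ∑ i, ∑ q, a i * β q * b q i j

/-- elements of `K^ℓ` which pair with all elements of `A` to an element of `PK` -/
def Bk {d n ℓ : ℕ} (lam : Fin n → ℂ) (b : Fin ℓ → Fin (d + 1) → Fin n → K)
    (A : Submodule K (Fin (d + 1) → K)) : Submodule K (Fin ℓ → K) where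
  carrier := {β | ∀ a ∈ A, bil K b a β ∈ PK K lam}
  add_mem' := by
    intro β β' h h' a ha
    have h1 := h a ha
    have h2 := h' a ha
    have : bil K b a (β + β') = bil K b a β + bil K b a β' := by
      funext j
      simp [bil, mul_add, add_mul, Finset.sum_add_distrib]
    rw [this]
    exact Submodule.add_mem _ h1 h2
  zero_mem' := by
    intro a _
    have : bil K b a (0 : Fin ℓ → K) = 0 := by
      funext j
      simp [bil]
    rw [this]
    exact Submodule.zero_mem _
  smul_mem' := by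
    intro κ β h a ha
    have h1 := h a ha
    have : bil K b a (κ • β) = κ • bil K b a β := by
      funext j
      simp only [bil, Pi.smul_apply, smul_eq_mul, Finset.mul_sum]
      refine Finset.sum_congr rfl fun i _ => Finset.sum_congr rfl fun q _ => ?_
      ring
    rw [this]
    exact Submodule.smul_mem _ _ h1

theorem mem_Bk {d n ℓ : ℕ} (lam : Fin n → ℂ) (b : Fin ℓ → Fin (d + 1) → Fin n → K)
    (A : Submodule K (Fin (d + 1) → K)) (β : Fin ℓ → K) :
    β ∈ Bk K lam b A ↔ ∀ a ∈ A, bil K b a β ∈ PK K lam := Iff.rfl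

/-- the trace of a vector -/
def trV {n : ℕ} (v : Fin n → K) : Fin n → ℚ := fun j => Algebra.trace ℚ K (v j)

/-- elements `a` of `K^(d+1)` with `trV (bil a β) ∈ PQ` for all `β ∈ Ψ` -/
def AQ {d n ℓ : ℕ} (lam : Fin n → ℂ) (b : Fin ℓ → Fin (d + 1) → Fin n → K)
    (Ψ : Submodule ℚ (Fin ℓ → K)) : Submodule ℚ (Fin (d + 1) → K) where
  carrier := {a | ∀ β ∈ Ψ, trV K (bil K b a β) ∈ PQ lam}
  add_mem' := by
    intro a a' h h' β hβ
    have h1 := h β hβ
    have h2 := h' β hβ
    have : trV K (bil K b (a + a') β) = trV K (bil K b a β) + trV K (bil K b a' β) := by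
      funext j
      simp [trV, bil, add_mul, Finset.sum_add_distrib]
    rw [this]
    exact Submodule.add_mem _ h1 h2
  zero_mem' := by
    intro β _
    have : trV K (bil K b (0 : Fin (d + 1) → K) β) = 0 := by
      funext j
      simp [trV, bil]
    rw [this]
    exact Submodule.zero_mem _
  smul_mem' := by
    intro κ a h β hβ
    have h1 := h β hβ
    have : trV K (bil K b (κ • a) β) = κ • trV K (bil K b a β) := by
      funext j
      simp only [trV, bil, Pi.smul_apply, smul_eq_mul]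
      rw [← smul_eq_mul, ← map_smul]
      congr 1
      rw [Finset.smul_sum]
      refine Finset.sum_congr rfl fun i _ => ?_
      rw [Finset.smul_sum]
      refine Finset.sum_congr rfl fun q _ => ?_
      rw [smul_mul_assoc, smul_mul_assoc]
    rw [this]
    exact Submodule.smul_mem _ _ h1

theorem mem_AQ {d n ℓ : ℕ} (lam : Fin n → ℂ) (b : Fin ℓ → Fin (d + 1) → Fin n → K)
    (Ψ : Submodule ℚ (Fin ℓ → K)) (a : Fin (d + 1) → K) :
    a ∈ AQ K lam b Ψ ↔ ∀ β ∈ Ψ, trV K (bil K b a β) ∈ PQ lam := Iff.rfl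

/-- embeddings of `K` different from the inclusion -/
abbrev Emb' : Type := {σ : K →ₐ[ℚ] ℂ // σ ≠ K.val}

/-- the conjugates (except the identity) of the coordinates of an element of `K^ℓ` -/
def conj' (ℓ : ℕ) (β : Fin ℓ → K) : (Emb' K × Fin ℓ) → ℂ := fun p => p.1.1 (β p.2)

/-- dimension of the complex space spanned by the vectors of conjugates of elements of `Ψ` -/
def H0 (ℓ : ℕ) (Ψ : Submodule ℚ (Fin ℓ → K)) : ℕ :=
  Module.finrank ℂ (Submodule.span ℂ (conj' K ℓ '' (Ψ : Set (Fin ℓ → K))))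

/-- a basis of `K` over `ℚ` -/
def om [FiniteDimensional ℚ K] : Module.Basis (Fin (Module.finrank ℚ K)) ℚ K :=
  Module.finBasis ℚ K

/-- integer vectors to elements of `K^ℓ` -/
def toK [FiniteDimensional ℚ K] {ℓ : ℕ}
    (s : Fin ℓ × Fin (Module.finrank ℚ K) → ℤ) : Fin ℓ → K :=
  fun q => ∑ t, (s (q, t) : K) * om K t

/-- additive coordinates of the generators -/
def uK [FiniteDimensional ℚ K] (ℓ : ℕ) :
    (Emb' K × Fin ℓ) → (Fin ℓ × Fin (Module.finrank ℚ K)) → ℂ :=
  fun p l => if p.2 = l.1 then p.1.1 (om K l.2) else 0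

/-- multiplicative coordinates of the generators -/
def gK [FiniteDimensional ℚ K] {d n ℓ : ℕ} (lam : Fin n → ℂ)
    (b : Fin ℓ → Fin (d + 1) → Fin n → K) :
    (Fin (d + 1) × Fin (Module.finrank ℚ K)) → (Fin ℓ × Fin (Module.finrank ℚ K)) → ℂˣ :=
  fun i l => Units.mk0 (Complex.exp (∑ j,
    ((Algebra.trace ℚ K (om K i.2 * om K l.2 * b l.1 i.1 j) : ℚ) : ℂ) * lam j))
    (Complex.exp_ne_zero _)

end Pool.Agent.LogRel
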