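import Pool.Agent.Lib_LogRel.Defs

/-!
# Piece ZA: elementary properties of the Hilbert function `Hf`

`box F P Q A B` = polynomials all of whose exponents are `< A` in the additive variables
(`Sum.inl`) and `< B` in the multiplicative variables (`Sum.inr`); `Hf I A B` = dimension of its
image in the quotient by `I`. The variable types are finite, so `box F P Q A B` is finite
dimensional (spanned by finitely many monomials) and so are its images: prove this first
(`MvPolynomial.basisRestrictSupport`, the index set is finite).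
-/

open MvPolynomial

set_option linter.unusedSectionVars false

namespace Pool.Agent.LogRel

variable {F : Type} [Field F]
variable {P Q : Type} [Fintype P] [Fintype Q]

/-- the exponents of the box -/
def ZA_S (P Q : Type) (A B : ℕ) : Set ((P ⊕ Q) →₀ ℕ) :=
  {m | (∀ i : P, m (Sum.inl i) < A) ∧ (∀ i : Q, m (Sum.inr i) < B)}

/-- the exponents of the box as functions -/
def ZA_f (A B : ℕ) (m : ZA_S P Q A B) : (P → Fin A) × (Q → Fin B) :=
  (fun i => ⟨m.1 (Sum.inl i), m.2.1 i⟩, fun i => ⟨m.1 (Sum.inr i), m.2.2 i⟩)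

theorem ZA_f_inj (A B : ℕ) : Function.Injective (ZA_f (P := P) (Q := Q) A B) := by
  rintro ⟨m, hm⟩ ⟨m', hm'⟩ h
  rw [Subtype.mk.injEq]
  ext v
  rcases v with i | i
  · have := congrArg (fun p => ((p.1 i : Fin A) : ℕ)) h
    simpa [ZA_f] using this
  · have := congrArg (fun p => ((p.2 i : Fin B) : ℕ)) h
    simpa [ZA_f] using this

instance ZA_finite (A B : ℕ) : Finite (ZA_S P Q A B) := Finite.of_injective _ (ZA_f_inj A B)

theorem box_finite (A B : ℕ) : FiniteDimensional F (box F P Q A B) :=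
  Module.Basis.finiteDimensional_of_finite (basisRestrictSupport F (ZA_S P Q A B))

theorem mem_box (A B : ℕ) (f : MvPolynomial (P ⊕ Q) F) :
    f ∈ box F P Q A B ↔ ∀ m ∈ f.support, (∀ i : P, m (Sum.inl i) < A) ∧
      (∀ i : Q, m (Sum.inr i) < B) := Iff.rfl

theorem ZA_box_mono {A A' B B' : ℕ} (hA : A ≤ A') (hB : B ≤ B') :
    box F P Q A B ≤ box F P Q A' B' := by
  intro f hf
  rw [mem_box] at hf ⊢
  exact fun m hm => ⟨fun i => ((hf m hm).1 i).trans_le hA, fun i => ((hf m hm).2 i).trans_le hB⟩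

instance ZA_map_finite (I : Ideal (MvPolynomial (P ⊕ Q) F)) (A B : ℕ) :
    FiniteDimensional F ((box F P Q A B).map (Ideal.Quotient.mkₐ F I).toLinearMap) := by
  have := box_finite (F := F) (P := P) (Q := Q) A B
  infer_instance

/-- The image of a bigger box is bigger. -/
theorem hf_mono (I : Ideal (MvPolynomial (P ⊕ Q) F)) {A A' B B' : ℕ} (hA : A ≤ A') (hB : B ≤ B') :
    Hf I A B ≤ Hf I A' B' :=
  Submodule.finrank_mono (Submodule.map_mono (ZA_box_mono hA hB))

theorem ZA_factor {I I' : Ideal (MvPolynomial (P ⊕ Q) F)} (h : I ≤ I')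
    (V : Submodule F (MvPolynomial (P ⊕ Q) F)) :
    V.map (Ideal.Quotient.mkₐ F I').toLinearMap =
      (V.map (Ideal.Quotient.mkₐ F I).toLinearMap).map (Ideal.Quotient.factorₐ F h).toLinearMap := by
  rw [← Submodule.map_comp]
  congr 1

/-- For `I ≤ I'` the image modulo `I'` is a quotient of the image modulo `I`. -/
theorem hf_anti {I I' : Ideal (MvPolynomial (P ⊕ Q) F)} (h : I ≤ I') (A B : ℕ) :
    Hf I' A B ≤ Hf I A B := by
  unfold Hf
  rw [ZA_factor h]
  exact Submodule.finrank_map_le _ _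

/-- There are `A ^ card P * B ^ card Q` monomials in the box, so this is an upper bound for
the dimension of the image. -/
theorem hf_le (I : Ideal (MvPolynomial (P ⊕ Q) F)) (A B : ℕ) :
    Hf I A B ≤ A ^ Fintype.card P * B ^ Fintype.card Q := by
  classical
  have := box_finite (F := F) (P := P) (Q := Q) A B
  have h1 : Hf I A B ≤ Module.finrank F (box F P Q A B) := Submodule.finrank_map_le _ _
  have h2 : Module.finrank F (box F P Q A B) = Nat.card (ZA_S P Q A B) :=
    Module.finrank_eq_nat_card_basis (basisRestrictSupport F (ZA_S P Q A B))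
  have h3 : Nat.card (ZA_S P Q A B) ≤ Nat.card ((P → Fin A) × (Q → Fin B)) :=
    Nat.card_le_card_of_injective _ (ZA_f_inj A B)
  have h4 : Nat.card ((P → Fin A) × (Q → Fin B)) = A ^ Fintype.card P * B ^ Fintype.card Q := by
    rw [Nat.card_eq_fintype_card, Fintype.card_prod, Fintype.card_fun, Fintype.card_fun,
      Fintype.card_fin, Fintype.card_fin]
  omega

theorem ZA_mul_mem (T L₀ : ℕ) {g : MvPolynomial (P ⊕ Q) F} (hg : DegLe T L₀ g) {A B : ℕ}
    {f : MvPolynomial (P ⊕ Q) F} (hf : f ∈ box F P Q A B) :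
    g * f ∈ box F P Q (A + T) (B + L₀) := by
  classical
  rw [mem_box] at hf ⊢
  intro m hm
  have hm' := MvPolynomial.support_mul g f hm
  rw [Finset.mem_add] at hm'
  obtain ⟨a, ha, b, hb, rfl⟩ := hm'
  have h1 := hf b hb
  refine ⟨fun i => ?_, fun i => ?_⟩
  · have h2 := (monomial_le_degreeOf (Sum.inl i) ha).trans (hg.1 i)
    have h3 := h1.1 i
    rw [Finsupp.add_apply]
    omega
  · have h2 := (monomial_le_degreeOf (Sum.inr i) ha).trans (hg.2 i)
    have h3 := h1.2 i
    rw [Finsupp.add_apply]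
    omega

/-- MAIN STEP. Let `g` have partial degrees `≤ T`, `≤ L₀`, be a nonzerodivisor modulo `I`, and let
`I'` contain `I` and `g`. Then `Hf I' (A+T) (B+L₀) + Hf I A B ≤ Hf I (A+T) (B+L₀)`.

Proof: let `V = box (A+T) (B+L₀)`, `W = box A B`; `g * W ⊆ V` (exponents add:
`e < A`, `e' ≤ T` gives `e + e' < A + T`; use `MvPolynomial.degreeOf_mul_le` or the support of
a product). Let `V̄ , W̄` be the images modulo `I`. Multiplication by `g` induces an injective linear
map `W̄ → V̄` (injective because `g * f ∈ I → f ∈ I`), so its image `g W̄` has dimension `Hf I A B`.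
The image of `V` modulo `I'` is a quotient of `V̄ / g W̄`, because `g * W ⊆ I'`: i.e. the natural map
`V̄ → V mod I'` is surjective with kernel containing `g W̄`. Rank nullity gives the claim. -/
theorem hf_step (T L₀ : ℕ) (I I' : Ideal (MvPolynomial (P ⊕ Q) F)) (g : MvPolynomial (P ⊕ Q) F)
    (hg : DegLe T L₀ g) (hnz : ∀ f, g * f ∈ I → f ∈ I) (hI : I ≤ I') (hgI : g ∈ I') (A B : ℕ) :
    Hf I' (A + T) (B + L₀) + Hf I A B ≤ Hf I (A + T) (B + L₀) := by
  obtain ⟨V, hV⟩ : ∃ V, V = (box F P Q (A + T) (B + L₀)).map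
    (Ideal.Quotient.mkₐ F I).toLinearMap := ⟨_, rfl⟩
  obtain ⟨W, hW⟩ : ∃ W, W = (box F P Q A B).map (Ideal.Quotient.mkₐ F I).toLinearMap := ⟨_, rfl⟩
  have hVf : FiniteDimensional F V := by rw [hV]; infer_instance
  have hWf : FiniteDimensional F W := by rw [hW]; infer_instance
  obtain ⟨φ, hφ⟩ : ∃ φ : (MvPolynomial (P ⊕ Q) F ⧸ I) →ₗ[F] (MvPolynomial (P ⊕ Q) F ⧸ I'),
    φ = (Ideal.Quotient.factorₐ F hI).toLinearMap := ⟨_, rfl⟩
  have h1 : Hf I' (A + T) (B + L₀) = Module.finrank F (V.map φ) := by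
    unfold Hf
    rw [ZA_factor hI, hV, hφ]
  have h2 : Hf I (A + T) (B + L₀) = Module.finrank F V := by rw [hV]; rfl
  have h3 : Hf I A B = Module.finrank F W := by rw [hW]; rfl
  -- multiplication by `g`
  obtain ⟨μ, hμ⟩ : ∃ μ : (MvPolynomial (P ⊕ Q) F ⧸ I) →ₗ[F] (MvPolynomial (P ⊕ Q) F ⧸ I),
    μ = LinearMap.mulLeft F (Ideal.Quotient.mk I g) := ⟨_, rfl⟩
  have hμi : Function.Injective μ := by
    rw [← LinearMap.ker_eq_bot, LinearMap.ker_eq_bot']
    intro y hy
    obtain ⟨f, rfl⟩ := Ideal.Quotient.mk_surjective y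
    rw [hμ, LinearMap.mulLeft_apply, ← map_mul, Ideal.Quotient.eq_zero_iff_mem] at hy
    rw [Ideal.Quotient.eq_zero_iff_mem]
    exact hnz f hy
  have hμV : W.map μ ≤ V := by
    rw [hW, hV, Submodule.map_le_iff_le_comap]
    rintro y ⟨f, hf, rfl⟩
    rw [Submodule.mem_comap, hμ]
    refine ⟨g * f, ZA_mul_mem T L₀ hg hf, ?_⟩
    show Ideal.Quotient.mk I (g * f) = Ideal.Quotient.mk I g * Ideal.Quotient.mk I f
    rw [map_mul]
  have hμφ : ∀ y, φ (μ y) = 0 := by
    intro y
    obtain ⟨f, rfl⟩ := Ideal.Quotient.mk_surjective y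
    rw [hμ, LinearMap.mulLeft_apply, ← map_mul, hφ]
    show Ideal.Quotient.mk I' (g * f) = 0
    rw [Ideal.Quotient.eq_zero_iff_mem]
    exact Ideal.mul_mem_right _ _ hgI
  -- rank nullity
  have h4 := LinearMap.finrank_range_add_finrank_ker (φ.domRestrict V)
  have h5 : LinearMap.range (φ.domRestrict V) = V.map φ := LinearMap.range_domRestrict _ _
  have h6 : Module.finrank F W ≤ Module.finrank F (LinearMap.ker (φ.domRestrict V)) := by
    have hmem : ∀ y : W, (⟨μ y, hμV ⟨y, y.2, rfl⟩⟩ : V) ∈ LinearMap.ker (φ.domRestrict V) := by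
      intro y
      rw [LinearMap.mem_ker]
      exact hμφ y
    let j : W →ₗ[F] LinearMap.ker (φ.domRestrict V) :=
      { toFun := fun y => ⟨⟨μ y, hμV ⟨y, y.2, rfl⟩⟩, hmem y⟩
        map_add' := by
          intro a b
          ext
          simp
        map_smul' := by
          intro a b
          ext
          simp }
    refine LinearMap.finrank_le_finrank_of_injective (f := j) ?_
    intro a b hab
    have h7 := congrArg (fun y : LinearMap.ker (φ.domRestrict V) => ((y : V) :
      MvPolynomial (P ⊕ Q) F ⧸ I)) hab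
    exact Subtype.ext (hμi h7)
  rw [h5] at h4
  omega

end Pool.Agent.LogRel
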