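import Mathlib

/-!
# Piece ZB: two elementary lemmas on natural numbers
-/

namespace Pool.Agent.LogRel

/-- Averaging. From `H' (k+1) + H k ≤ H (k+1)` for all `k` and `H'` monotone:
`t * H' t ≤ ∑_{k = t}^{2t-1} H' (k+1) ≤ ∑_{k=t}^{2t-1} (H (k+1) - H k) = H (2t) - H t ≤ H (2t)`. -/
theorem averaging (H H' : ℕ → ℕ) (hmono : Monotone H') (h : ∀ k, H' (k + 1) + H k ≤ H (k + 1))
    (t : ℕ) : t * H' t ≤ H (2 * t) := by
  have key : ∀ j : ℕ, j * H' t + H t ≤ H (t + j) := by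
    intro j
    induction j with
    | zero => simp
    | succ j ih =>
      have h1 := h (t + j)
      have h2 : H' t ≤ H' (t + j + 1) := hmono (by omega)
      have h3 : (j + 1) * H' t = j * H' t + H' t := by ring
      have h4 : t + (j + 1) = t + j + 1 := by omega
      rw [h3, h4]
      omega
  have h1 := key t
  have h2 : 2 * t = t + t := by omega
  rw [h2]
  omega

/-- Limit. If `D₀ * t^k * (t+e)^h ≤ D₁ * (t+e)^N` for all `t ≥ 1`, and `N ≤ k + h`, then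
`D₀ ≤ D₁`. Proof: otherwise `D₁ + 1 ≤ D₀`, and `D₀ t^k (t+e)^h ≤ D₁ (t+e)^N ≤ D₁ (t+e)^(k+h)`
gives `(D₁+1) t^k ≤ D₁ (t+e)^k` for all `t ≥ 1`, i.e. `(1+1/D₁) ≤ (1+e/t)^k` (`D₁ > 0`; the case
`D₁ = 0` is clear); the right side tends to `1` as `t → ∞`, contradiction. -/
theorem limit_le (D₀ D₁ k h N e : ℕ) (hN : N ≤ k + h)
    (H : ∀ t, 1 ≤ t → D₀ * t ^ k * (t + e) ^ h ≤ D₁ * (t + e) ^ N) : D₀ ≤ D₁ := by
  by_contra hlt
  push Not at hlt
  have hD : D₁ + 1 ≤ D₀ := hlt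
  have h1 : ∀ t : ℕ, 1 ≤ t → (D₁ + 1) * t ^ k ≤ D₁ * (t + e) ^ k := by
    intro t ht
    have hpos : 0 < (t + e) ^ h := by positivity
    have h2 : D₁ * (t + e) ^ N ≤ D₁ * (t + e) ^ (k + h) :=
      Nat.mul_le_mul_left _ (Nat.pow_le_pow_right (by omega) hN)
    have h3 : (D₁ + 1) * t ^ k * (t + e) ^ h ≤ D₀ * t ^ k * (t + e) ^ h :=
      Nat.mul_le_mul_right _ (Nat.mul_le_mul_right _ hD)
    have h4 : (D₁ + 1) * t ^ k * (t + e) ^ h ≤ D₁ * (t + e) ^ k * (t + e) ^ h := by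
      calc (D₁ + 1) * t ^ k * (t + e) ^ h ≤ D₁ * (t + e) ^ (k + h) := h3.trans ((H t ht).trans h2)
        _ = D₁ * (t + e) ^ k * (t + e) ^ h := by rw [pow_add]; ring
    exact Nat.le_of_mul_le_mul_right h4 hpos
  have h2 : ∀ t : ℕ, 1 ≤ t → ((D₁ : ℝ) + 1) ≤ D₁ * (1 + e / t) ^ k := by
    intro t ht
    have h3 := h1 t ht
    have ht0 : (0 : ℝ) < t := by exact_mod_cast ht
    have h4 : ((D₁ : ℝ) + 1) * (t : ℝ) ^ k ≤ D₁ * ((t : ℝ) + e) ^ k := by exact_mod_cast h3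
    have h5 : (1 + (e : ℝ) / t) = ((t : ℝ) + e) / t := by field_simp
    rw [h5, div_pow, mul_div_assoc', le_div_iff₀ (by positivity)]
    exact h4
  have h3 : Filter.Tendsto (fun t : ℕ => (D₁ : ℝ) * (1 + (e : ℝ) / t) ^ k) Filter.atTop
      (nhds ((D₁ : ℝ) * (1 + 0) ^ k)) := by
    refine Filter.Tendsto.const_mul _ (Filter.Tendsto.pow (Filter.Tendsto.add
      tendsto_const_nhds ?_) k)
    exact tendsto_const_div_atTop_nhds_zero_nat (e : ℝ)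
  have h4 : ((D₁ : ℝ) + 1) ≤ (D₁ : ℝ) * (1 + 0) ^ k :=
    ge_of_tendsto h3 (Filter.eventually_atTop.2 ⟨1, fun t ht => h2 t ht⟩)
  rw [add_zero, one_pow, mul_one] at h4
  linarith

end Pool.Agent.LogRel
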