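import Pool.Agent.Lib_LogRel.Defs

/-!
# Piece ZC: choice of an element outside finitely many primes
-/

open MvPolynomial

set_option linter.unusedSectionVars false

namespace Pool.Agent.LogRel

variable {F : Type} [Field F]

/-- Let `F` be infinite, `G` a subset of the commutative `F`-algebra `R`, and `s` a finite set of
ideals none of which contains `G`. Then some element of the `F`-span of `G` lies in no ideal of `s`.

Proof: for `q ∈ s` the subspace `span G ⊓ q` of `span G` is proper; a vector space over an infinite
field is not a finite union of proper subspaces (`Subspace.biUnion_ne_univ_of_top_notMem` or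
`Subspace.exists_eq_top_of_iUnion_eq_univ` in `Mathlib.GroupTheory.CosetCover`). -/
theorem exists_mem_span_notMem [Infinite F] {R : Type} [CommRing R] [Algebra F R] (G : Set R)
    (s : Finset (Ideal R)) (h : ∀ q ∈ s, ¬ G ⊆ (q : Set R)) :
    ∃ g ∈ Submodule.span F G, ∀ q ∈ s, g ∉ q := by
  by_contra hcon
  push Not at hcon
  obtain ⟨q, hq⟩ := Subspace.exists_eq_top_of_iUnion_eq_univ (k := F)
    (E := Submodule.span F G) (ι := s)
    (p := fun q => (Submodule.restrictScalars F (q : Ideal R)).comap (Submodule.span F G).subtype)
    (by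
      rw [Set.eq_univ_iff_forall]
      rintro ⟨g, hg⟩
      obtain ⟨q, hq, hgq⟩ := hcon g hg
      rw [Set.mem_iUnion]
      exact ⟨⟨q, hq⟩, hgq⟩)
  apply h q q.2
  intro g hg
  have h1 : (⟨g, Submodule.subset_span hg⟩ : Submodule.span F G) ∈
      (Submodule.restrictScalars F (q : Ideal R)).comap (Submodule.span F G).subtype := by
    rw [hq]
    exact Submodule.mem_top
  exact h1

/-- An element of the span of polynomials with bounded partial degrees has bounded partial
degrees. -/
theorem degLe_of_mem_span {P Q : Type} [Fintype P] [Fintype Q] (T L₀ : ℕ)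
    (G : Set (MvPolynomial (P ⊕ Q) F)) (hG : ∀ g ∈ G, DegLe T L₀ g)
    (g : MvPolynomial (P ⊕ Q) F) (hg : g ∈ Submodule.span F G) : DegLe T L₀ g := by
  induction hg using Submodule.span_induction with
  | mem x hx => exact hG x hx
  | zero => exact ⟨fun i => by simp, fun i => by simp⟩
  | add x y _ _ hx hy =>
    exact ⟨fun i => (degreeOf_add_le _ _ _).trans (max_le (hx.1 i) (hy.1 i)),
      fun i => (degreeOf_add_le _ _ _).trans (max_le (hx.2 i) (hy.2 i))⟩
  | smul a x _ hx =>
    rw [MvPolynomial.smul_eq_C_mul]
    exact ⟨fun i => (degreeOf_C_mul_le _ _ _).trans (hx.1 i),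
      fun i => (degreeOf_C_mul_le _ _ _).trans (hx.2 i)⟩

end Pool.Agent.LogRel
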