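import Pool.Agent.Lib_LogRel.ZA
import Pool.Agent.Lib_LogRel.ZB
import Pool.Agent.Lib_LogRel.ZC

/-!
# Piece ZD: upper bound for the Hilbert function (Bezout type estimate by averaging)
-/

open MvPolynomial

set_option linter.unusedSectionVars false

namespace Pool.Agent.LogRel

variable {F : Type} [Field F]
variable {P Q : Type} [Fintype P] [Fintype Q]

/-- For a set `gs` of polynomials: intersection of all minimal primes of `(gs)` of torus type. -/
noncomputable def Isat (gs : Set (MvPolynomial (P ⊕ Q) F)) : Ideal (MvPolynomial (P ⊕ Q) F) :=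
  sInf {q | q ∈ (Ideal.span gs).minimalPrimes ∧ Torus q}

/-- every torus type prime containing `gs` contains `Isat gs` (it contains a minimal prime of
`(gs)`, `Ideal.exists_minimalPrimes_le`, which is of torus type too) -/
theorem isat_le (gs : Set (MvPolynomial (P ⊕ Q) F)) (p : Ideal (MvPolynomial (P ⊕ Q) F))
    (hp : Torus p) (h : gs ⊆ (p : Set _)) : Isat gs ≤ p := by
  have := hp.1
  have hspan : Ideal.span gs ≤ p := Ideal.span_le.2 h
  obtain ⟨q, hq, hqp⟩ := Ideal.exists_minimalPrimes_le hspan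
  refine le_trans (sInf_le ⟨hq, hq.1.1, fun i hi => hp.2 i (hqp hi)⟩) hqp

/-- Step. Let `gs` be a finite set of elements with `card gs ≤ i < h`, let `G` be a set such that
every torus type prime containing `G` has height `≥ h`. Then there is `g ∈ span G` which is a
nonzerodivisor modulo `Isat gs`.

Proof: the ring is noetherian, so `(Ideal.span gs).minimalPrimes` is finite
(`Ideal.finite_minimalPrimes_of_isNoetherianRing`); each of them has height
`≤ card gs ≤ i < h` by Krull's height theorem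
(`Ideal.height_le_card_of_mem_minimalPrimes_span_finset`), so the torus type ones do not contain
`G`. Take `g` from `exists_mem_span_notMem` outside all torus type minimal primes `q`. If
`g * f ∈ Isat gs` then `g * f ∈ q`, `g ∉ q`, so `f ∈ q` for all these `q`. -/
theorem exists_next [Infinite F] (gs : Finset (MvPolynomial (P ⊕ Q) F))
    (G : Set (MvPolynomial (P ⊕ Q) F)) (h : ℕ) (hcard : gs.card < h)
    (hh : ∀ p : Ideal (MvPolynomial (P ⊕ Q) F), Torus p → G ⊆ (p : Set _) → (h : ℕ∞) ≤ p.height) :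
    ∃ g ∈ Submodule.span F G, ∀ f, g * f ∈ Isat (gs : Set (MvPolynomial (P ⊕ Q) F)) →
      f ∈ Isat (gs : Set (MvPolynomial (P ⊕ Q) F)) := by
  classical
  have : IsNoetherianRing (MvPolynomial (P ⊕ Q) F) := inferInstance
  have hfin : {q | q ∈ (Ideal.span (gs : Set (MvPolynomial (P ⊕ Q) F))).minimalPrimes ∧
      Torus q}.Finite :=
    (Ideal.finite_minimalPrimes_of_isNoetherianRing _ _).subset fun q hq => hq.1
  obtain ⟨g, hg, hgq⟩ := exists_mem_span_notMem (F := F) G hfin.toFinset (by
    intro q hq hGq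
    rw [Set.Finite.mem_toFinset] at hq
    have h1 : q.height ≤ (gs.card : ℕ∞) :=
      Ideal.height_le_card_of_mem_minimalPrimes_span_finset hq.1
    have h2 := (hh q hq.2 hGq).trans h1
    have h3 : h ≤ gs.card := by exact_mod_cast h2
    omega)
  refine ⟨g, hg, fun f hf => ?_⟩
  unfold Isat at hf ⊢
  rw [Ideal.mem_sInf] at hf ⊢
  intro q hq
  have h1 := hf hq
  have : q.IsPrime := hq.2.1
  rcases Ideal.IsPrime.mem_or_mem hq.2.1 h1 with h2 | h2
  · exact absurd h2 (hgq q (by rw [Set.Finite.mem_toFinset]; exact hq))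
  · exact h2

/-- Upper bound. Let `G` be a set of polynomials of partial degrees `≤ T`, `≤ L₀` such that every
torus type prime containing `G` has height `≥ h`. Then there is an ideal `I`, contained in every
torus type prime which contains `G`, with
`t^h * Hf I (T*t) (L₀*t) ≤ 2^(N*h) * t^N * (T^p * L₀^q)` for all `t ≥ 1` (`N = p + q`).

Proof: by induction on `i ≤ h` there is a finite set `gs ⊆ span G` with `card gs ≤ i` and
`t^i * Hf (Isat gs) (T*t) (L₀*t) ≤ 2^(N*i) * t^N * (T^p L₀^q)` for all `t ≥ 1`. For `i = 0` take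
`gs = ∅` and `hf_le`. Step: take `g` from `exists_next` and `gs' = insert g gs`. Then
`I = Isat gs ≤ I' = Isat gs'` (every `q` in the definition of `I'` is of torus type and contains
`gs`, use `isat_le`) and `g ∈ I'`; `g` has partial degrees `≤ T`, `≤ L₀`
(`degLe_of_mem_span`). `hf_step` with `A = T*k`, `B = L₀*k` gives
`H' (k+1) + H k ≤ H (k+1)`, `H k = Hf I (T*k) (L₀*k)`, `H' k = Hf I' (T*k) (L₀*k)`; `H'` is
monotone (`hf_mono`), so `t * H' t ≤ H (2t)` by `averaging`, and
`t^(i+1) H' t ≤ t^i H (2t) ≤ (2t)^i H (2t) ≤ 2^(N i) (2t)^N T^p L₀^q`. At the end `I = Isat gs`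
works: `G ⊆ p` implies `gs ⊆ p`. -/
theorem hf_upper [Infinite F] (T L₀ : ℕ) (G : Set (MvPolynomial (P ⊕ Q) F))
    (hG : ∀ g ∈ G, DegLe T L₀ g) (h : ℕ)
    (hh : ∀ p : Ideal (MvPolynomial (P ⊕ Q) F), Torus p → G ⊆ (p : Set _) → (h : ℕ∞) ≤ p.height) :
    ∃ I : Ideal (MvPolynomial (P ⊕ Q) F), (∀ p : Ideal (MvPolynomial (P ⊕ Q) F), Torus p →
      G ⊆ (p : Set _) → I ≤ p) ∧ ∀ t : ℕ, 1 ≤ t →
        t ^ h * Hf I (T * t) (L₀ * t) ≤ 2 ^ ((Fintype.card P + Fintype.card Q) * h) *
          t ^ (Fintype.card P + Fintype.card Q) * (T ^ Fintype.card P * L₀ ^ Fintype.card Q) := by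
  classical
  have key : ∀ i : ℕ, i ≤ h → ∃ gs : Finset (MvPolynomial (P ⊕ Q) F),
      (gs : Set (MvPolynomial (P ⊕ Q) F)) ⊆ Submodule.span F G ∧ gs.card ≤ i ∧
      ∀ t : ℕ, 1 ≤ t →
        t ^ i * Hf (Isat (gs : Set (MvPolynomial (P ⊕ Q) F))) (T * t) (L₀ * t) ≤
          2 ^ ((Fintype.card P + Fintype.card Q) * i) *
          t ^ (Fintype.card P + Fintype.card Q) * (T ^ Fintype.card P * L₀ ^ Fintype.card Q) := by
    intro i
    induction i with
    | zero =>
      intro _
      refine ⟨∅, by simp, by simp, fun t _ => ?_⟩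
      have h1 := hf_le (Isat ((∅ : Finset (MvPolynomial (P ⊕ Q) F)) :
        Set (MvPolynomial (P ⊕ Q) F))) (T * t) (L₀ * t)
      calc t ^ 0 * Hf (Isat ((∅ : Finset (MvPolynomial (P ⊕ Q) F)) :
            Set (MvPolynomial (P ⊕ Q) F))) (T * t) (L₀ * t)
          = Hf (Isat ((∅ : Finset (MvPolynomial (P ⊕ Q) F)) :
            Set (MvPolynomial (P ⊕ Q) F))) (T * t) (L₀ * t) := by rw [pow_zero, one_mul]
        _ ≤ (T * t) ^ Fintype.card P * (L₀ * t) ^ Fintype.card Q := h1
        _ = 2 ^ ((Fintype.card P + Fintype.card Q) * 0) *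
          t ^ (Fintype.card P + Fintype.card Q) *
          (T ^ Fintype.card P * L₀ ^ Fintype.card Q) := by
            rw [mul_zero, pow_zero, one_mul, mul_pow, mul_pow, pow_add]
            ring
    | succ i ih =>
      intro hi
      obtain ⟨gs, hgs, hcard, hbound⟩ := ih (by omega)
      obtain ⟨g, hg, hnz⟩ := exists_next gs G h (by omega) hh
      have hdeg : DegLe T L₀ g := degLe_of_mem_span T L₀ G hG g hg
      have hle : Isat (gs : Set (MvPolynomial (P ⊕ Q) F)) ≤
          Isat ((insert g gs : Finset (MvPolynomial (P ⊕ Q) F)) :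
            Set (MvPolynomial (P ⊕ Q) F)) := by
        refine le_sInf fun q hq => isat_le _ q hq.2 ?_
        intro x hx
        exact hq.1.1.2 (Ideal.subset_span (by
          rw [Finset.coe_insert]; exact Set.mem_insert_of_mem _ hx))
      have hmem : g ∈ Isat ((insert g gs : Finset (MvPolynomial (P ⊕ Q) F)) :
            Set (MvPolynomial (P ⊕ Q) F)) := by
        unfold Isat
        rw [Ideal.mem_sInf]
        intro q hq
        exact hq.1.1.2 (Ideal.subset_span (by
          rw [Finset.coe_insert]; exact Set.mem_insert _ _))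
      refine ⟨insert g gs, ?_, ?_, fun t ht => ?_⟩
      · rw [Finset.coe_insert]
        exact Set.insert_subset hg hgs
      · exact (Finset.card_insert_le _ _).trans (by omega)
      · obtain ⟨I, hI⟩ : ∃ I, I = Isat (gs : Set (MvPolynomial (P ⊕ Q) F)) := ⟨_, rfl⟩
        obtain ⟨I', hI'⟩ : ∃ I', I' = Isat ((insert g gs : Finset (MvPolynomial (P ⊕ Q) F)) :
            Set (MvPolynomial (P ⊕ Q) F)) := ⟨_, rfl⟩
        rw [← hI] at hnz hle hbound
        rw [← hI'] at hle hmem ⊢
        have hav := averaging (fun k => Hf I (T * k) (L₀ * k)) (fun k => Hf I' (T * k) (L₀ * k))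
          (fun a b hab => hf_mono I' (Nat.mul_le_mul_left _ hab) (Nat.mul_le_mul_left _ hab))
          (fun k => by
            have := hf_step T L₀ I I' g hdeg hnz hle hmem (T * k) (L₀ * k)
            simpa only [Nat.mul_succ] using this) t
        have hb2 := hbound (2 * t) (by omega)
        obtain ⟨N, hN⟩ : ∃ N, N = Fintype.card P + Fintype.card Q := ⟨_, rfl⟩
        obtain ⟨D, hD⟩ : ∃ D, D = T ^ Fintype.card P * L₀ ^ Fintype.card Q := ⟨_, rfl⟩
        rw [← hN, ← hD] at hb2 ⊢
        calc t ^ (i + 1) * Hf I' (T * t) (L₀ * t)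
            = t ^ i * (t * Hf I' (T * t) (L₀ * t)) := by ring
          _ ≤ t ^ i * Hf I (T * (2 * t)) (L₀ * (2 * t)) := Nat.mul_le_mul_left _ hav
          _ ≤ (2 * t) ^ i * Hf I (T * (2 * t)) (L₀ * (2 * t)) :=
              Nat.mul_le_mul_right _ (Nat.pow_le_pow_left (by omega) _)
          _ ≤ 2 ^ (N * i) * (2 * t) ^ N * D := hb2
          _ = 2 ^ (N * (i + 1)) * t ^ N * D := by
              rw [mul_pow, mul_add, mul_one, pow_add]
              ring
  obtain ⟨gs, hgs, _, hb⟩ := key h le_rfl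
  refine ⟨Isat (gs : Set (MvPolynomial (P ⊕ Q) F)), fun p hp hGp => ?_, hb⟩
  refine isat_le _ p hp (hgs.trans ?_)
  intro x hx
  have h1 : Submodule.span F G ≤ p.restrictScalars F := Submodule.span_le.2 hGp
  exact h1 hx

end Pool.Agent.LogRel
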