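import Pool.Agent.Lib_LogRel.ZA

/-!
# Piece ZE: lower bound for the Hilbert function of an ideal contained in many primes
-/

open MvPolynomial
open scoped Pointwise

set_option linter.unusedSectionVars false

namespace Pool.Agent.LogRel

variable {F : Type} [Field F]
variable {P Q : Type} [Fintype P] [Fintype Q]

open Classical in
/-- the exponent of a monomial in the variables of `I0`, `J0` -/
noncomputable def ZE_ex (I0 : Finset P) (J0 : Finset Q) (A B : ℕ) (ab : (I0 → Fin A) × (J0 → Fin B)) :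
    P ⊕ Q →₀ ℕ :=
  Finsupp.equivFunOnFinite.symm (Sum.elim (fun i => if h : i ∈ I0 then (ab.1 ⟨i, h⟩ : ℕ) else 0)
    (fun j => if h : j ∈ J0 then (ab.2 ⟨j, h⟩ : ℕ) else 0))

theorem ZE_ex_inl (I0 : Finset P) (J0 : Finset Q) (A B : ℕ) (ab : (I0 → Fin A) × (J0 → Fin B))
    (i : P) (h : i ∈ I0) : ZE_ex I0 J0 A B ab (Sum.inl i) = ab.1 ⟨i, h⟩ := by
  simp [ZE_ex, h]

theorem ZE_ex_inr (I0 : Finset P) (J0 : Finset Q) (A B : ℕ) (ab : (I0 → Fin A) × (J0 → Fin B))
    (j : Q) (h : j ∈ J0) : ZE_ex I0 J0 A B ab (Sum.inr j) = ab.2 ⟨j, h⟩ := by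
  simp [ZE_ex, h]

theorem ZE_ex_inl' (I0 : Finset P) (J0 : Finset Q) (A B : ℕ) (ab : (I0 → Fin A) × (J0 → Fin B))
    (i : P) (h : i ∉ I0) : ZE_ex I0 J0 A B ab (Sum.inl i) = 0 := by
  simp [ZE_ex, h]

theorem ZE_ex_inr' (I0 : Finset P) (J0 : Finset Q) (A B : ℕ) (ab : (I0 → Fin A) × (J0 → Fin B))
    (j : Q) (h : j ∉ J0) : ZE_ex I0 J0 A B ab (Sum.inr j) = 0 := by
  simp [ZE_ex, h]

theorem ZE_ex_inj (I0 : Finset P) (J0 : Finset Q) (A B : ℕ) :
    Function.Injective (ZE_ex I0 J0 A B) := by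
  rintro ⟨a, b⟩ ⟨a', b'⟩ h
  refine Prod.ext ?_ ?_
  · funext ⟨i, hi⟩
    have h1 := DFunLike.congr_fun h (Sum.inl i)
    rw [ZE_ex_inl _ _ _ _ _ _ hi, ZE_ex_inl _ _ _ _ _ _ hi] at h1
    exact Fin.ext h1
  · funext ⟨j, hj⟩
    have h1 := DFunLike.congr_fun h (Sum.inr j)
    rw [ZE_ex_inr _ _ _ _ _ _ hj, ZE_ex_inr _ _ _ _ _ _ hj] at h1
    exact Fin.ext h1

/-- elements in the intersection of the other primes -/
theorem ZE_sep (ps : Finset (Ideal (MvPolynomial (P ⊕ Q) F))) (hprime : ∀ p ∈ ps, p.IsPrime)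
    (hinc : ∀ p ∈ ps, ∀ q ∈ ps, p ≤ q → p = q) :
    ∃ f : Ideal (MvPolynomial (P ⊕ Q) F) → MvPolynomial (P ⊕ Q) F,
      (∀ p ∈ ps, f p ∉ p) ∧ ∀ p ∈ ps, ∀ q ∈ ps, q ≠ p → f p ∈ q := by
  classical
  have h : ∀ p : Ideal (MvPolynomial (P ⊕ Q) F), ∃ x : MvPolynomial (P ⊕ Q) F,
      p ∈ ps → (x ∉ p ∧ ∀ q ∈ ps, q ≠ p → x ∈ q) := by
    intro p
    by_cases hp : p ∈ ps
    · have h1 : ¬ (ps.erase p).inf id ≤ p := by
        intro hle
        rw [Ideal.IsPrime.inf_le' (hprime p hp)] at hle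
        obtain ⟨q, hq, hqp⟩ := hle
        rw [Finset.mem_erase] at hq
        exact hq.1 (hinc q hq.2 p hp hqp)
      obtain ⟨x, hx, hxp⟩ := SetLike.not_le_iff_exists.1 h1
      refine ⟨x, fun _ => ⟨hxp, fun q hq hqp => ?_⟩⟩
      have h2 : (ps.erase p).inf id ≤ q := Finset.inf_le (f := id) (Finset.mem_erase.2 ⟨hqp, hq⟩)
      exact h2 hx
    · exact ⟨0, fun h => absurd h hp⟩
  choose f hf using h
  exact ⟨f, fun p hp => (hf p hp).1, fun p hp => (hf p hp).2⟩

/-- Let `ps` be a finite set of pairwise incomparable primes, all containing `I`, such that the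
variables in `I0`, `J0` are algebraically independent modulo each of them. Then there is `e` with
`card ps * (A^|I0| * B^|J0|) ≤ Hf I (A+e) (B+e)` for all `A`, `B`.

Proof: for each `p ∈ ps` there is `f p` in the intersection of the other primes of `ps` but not in
`p` (product of elements of the other primes outside `p`;
`Ideal.IsPrime.prod_le` or `Ideal.exists_...`). Choose `e` such that all `f p ∈ box e e`. Let `W` be
the span of the monomials in the variables of `I0`, `J0` with exponents `< A`, `< B`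
(`A^|I0| * B^|J0|` monomials). The linear map from `⊕_p W` to the image of `box (A+e) (B+e)` modulo
`I`, `(w_p) ↦ ∑ f p * w_p mod I`, is injective: if `∑ f p * w_p ∈ I` then for each `p` modulo `p` all
other terms vanish, so `f p * w_p ∈ p`, `w_p ∈ p`, hence `w_p = 0` by `Indep`. Compare dimensions. -/
theorem hf_lower (ps : Finset (Ideal (MvPolynomial (P ⊕ Q) F))) (hprime : ∀ p ∈ ps, p.IsPrime)
    (hinc : ∀ p ∈ ps, ∀ q ∈ ps, p ≤ q → p = q) (I : Ideal (MvPolynomial (P ⊕ Q) F))
    (hI : ∀ p ∈ ps, I ≤ p) (I0 : Finset P) (J0 : Finset Q) (hind : ∀ p ∈ ps, Indep p I0 J0) :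
    ∃ e : ℕ, ∀ A B : ℕ, ps.card * (A ^ I0.card * B ^ J0.card) ≤ Hf I (A + e) (B + e) := by
  classical
  obtain ⟨f, hf1, hf2⟩ := ZE_sep ps hprime hinc
  refine ⟨ps.sup (fun p => (f p).totalDegree) + 1, fun A B => ?_⟩
  set e : ℕ := ps.sup (fun p => (f p).totalDegree) + 1 with he
  have hfe : ∀ p ∈ ps, ∀ m ∈ (f p).support, ∀ v, m v < e := by
    intro p hp m hm v
    have h1 : m v ≤ (f p).totalDegree :=
      (monomial_le_degreeOf v hm).trans (degreeOf_le_totalDegree _ _)
    have h2 : (f p).totalDegree ≤ ps.sup (fun p => (f p).totalDegree) :=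
      Finset.le_sup (f := fun p => (f p).totalDegree) hp
    omega
  have := box_finite (F := F) (P := P) (Q := Q) (A + e) (B + e)
  -- the products are in the box
  have hbox : ∀ p ∈ ps, ∀ ab : (I0 → Fin A) × (J0 → Fin B),
      f p * monomial (ZE_ex I0 J0 A B ab) 1 ∈ box F P Q (A + e) (B + e) := by
    intro p hp ab
    rw [mem_box]
    intro m hm
    have h1 : m ∈ (f p).support + (monomial (ZE_ex I0 J0 A B ab) (1 : F)).support :=
      support_mul _ _ hm
    rw [Finset.mem_add] at h1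
    obtain ⟨m1, hm1, m2, hm2, rfl⟩ := h1
    have h2 : m2 = ZE_ex I0 J0 A B ab := by
      have := support_monomial_subset hm2
      simpa using this
    subst h2
    constructor
    · intro i
      have h3 := hfe p hp m1 hm1 (Sum.inl i)
      by_cases hi : i ∈ I0
      · have h4 := (ab.1 ⟨i, hi⟩).isLt
        rw [Finsupp.add_apply, ZE_ex_inl _ _ _ _ _ _ hi]
        omega
      · rw [Finsupp.add_apply, ZE_ex_inl' _ _ _ _ _ _ hi]
        omega
    · intro j
      have h3 := hfe p hp m1 hm1 (Sum.inr j)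
      by_cases hj : j ∈ J0
      · have h4 := (ab.2 ⟨j, hj⟩).isLt
        rw [Finsupp.add_apply, ZE_ex_inr _ _ _ _ _ _ hj]
        omega
      · rw [Finsupp.add_apply, ZE_ex_inr' _ _ _ _ _ _ hj]
        omega
  -- the family
  let v : (ps × ((I0 → Fin A) × (J0 → Fin B))) →
      ((box F P Q (A + e) (B + e)).map (Ideal.Quotient.mkₐ F I).toLinearMap) := fun x =>
    ⟨(Ideal.Quotient.mkₐ F I).toLinearMap (f x.1.1 * monomial (ZE_ex I0 J0 A B x.2) 1),
      Submodule.mem_map_of_mem (hbox x.1.1 x.1.2 x.2)⟩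
  have hv : LinearIndependent F v := by
    rw [Fintype.linearIndependent_iff]
    intro g hg
    -- the coefficients as polynomials
    let w : ps → MvPolynomial (P ⊕ Q) F := fun p => ∑ ab, monomial (ZE_ex I0 J0 A B ab) (g (p, ab))
    have h1 : ∑ p, f p.1 * w p ∈ I := by
      rw [← Ideal.Quotient.eq_zero_iff_mem]
      have h2 := congrArg Subtype.val hg
      rw [← Submodule.subtype_apply, map_sum] at h2
      have h3 : Ideal.Quotient.mk I (∑ p, f p.1 * w p) =
          ∑ x : ps × ((I0 → Fin A) × (J0 → Fin B)),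
            ((box F P Q (A + e) (B + e)).map (Ideal.Quotient.mkₐ F I).toLinearMap).subtype
              (g x • v x) := by
        rw [Fintype.sum_prod_type, map_sum]
        refine Finset.sum_congr rfl fun p _ => ?_
        rw [Finset.mul_sum, map_sum]
        refine Finset.sum_congr rfl fun ab _ => ?_
        rw [map_smul]
        show _ = g (p, ab) • (Ideal.Quotient.mkₐ F I) (f p.1 * monomial (ZE_ex I0 J0 A B ab) 1)
        rw [← map_smul, ← mul_smul_comm, smul_monomial, smul_eq_mul, mul_one]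
        rfl
      rw [h3, h2]
      rfl
    have h4 : ∀ p : ps, w p = 0 := by
      intro p
      have := hprime p.1 p.2
      have h5 : ∑ q, f q.1 * w q ∈ p.1 := hI p.1 p.2 h1
      have h6 : ∑ q ∈ Finset.univ.erase p, f q.1 * w q ∈ p.1 := by
        apply Ideal.sum_mem
        intro q hq
        rw [Finset.mem_erase] at hq
        apply Ideal.mul_mem_right
        exact hf2 q.1 q.2 p.1 p.2 (fun h => hq.1 (Subtype.ext h.symm))
      rw [← Finset.add_sum_erase _ _ (Finset.mem_univ p)] at h5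
      have h7 : f p.1 * w p ∈ p.1 := (Ideal.add_mem_iff_left _ h6).1 h5
      have h8 : w p ∈ p.1 := by
        rcases (hprime p.1 p.2).mem_or_mem h7 with h | h
        · exact absurd h (hf1 p.1 p.2)
        · exact h
      apply hind p.1 p.2 (w p) h8
      intro x hx
      rw [mem_vars_iff_mem_support] at hx
      obtain ⟨m, hm, hxm⟩ := hx
      have h9 : ∃ ab, m = ZE_ex I0 J0 A B ab := by
        have h10 := support_sum hm
        rw [Finset.mem_biUnion] at h10
        obtain ⟨ab, _, h11⟩ := h10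
        have := support_monomial_subset h11
        exact ⟨ab, by simpa using this⟩
      obtain ⟨ab, rfl⟩ := h9
      rw [Finsupp.mem_support_iff] at hxm
      constructor
      · rintro i rfl
        by_contra hi
        exact hxm (ZE_ex_inl' _ _ _ _ _ _ hi)
      · rintro j rfl
        by_contra hj
        exact hxm (ZE_ex_inr' _ _ _ _ _ _ hj)
    rintro ⟨p, ab⟩
    have h5 := congrArg (coeff (ZE_ex I0 J0 A B ab)) (h4 p)
    simp only [w, coeff_sum, coeff_monomial, coeff_zero] at h5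
    rw [Finset.sum_eq_single ab] at h5
    · simpa using h5
    · intro ab' _ hne
      rw [if_neg]
      intro h
      exact hne (ZE_ex_inj _ _ _ _ h)
    · intro h
      exact absurd (Finset.mem_univ _) h
  have hc := hv.fintype_card_le_finrank
  rw [Fintype.card_prod, Fintype.card_prod, Fintype.card_fun, Fintype.card_fun, Fintype.card_fin,
    Fintype.card_fin, Fintype.card_coe, Fintype.card_coe, Fintype.card_coe] at hc
  exact hc

end Pool.Agent.LogRel
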