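import Pool.Agent.Lib_LogRel.ZD
import Pool.Agent.Lib_LogRel.ZE

/-!
# Piece ZF: counting primes of minimal height
-/

open MvPolynomial

set_option linter.unusedSectionVars false

namespace Pool.Agent.LogRel

variable {F : Type} [Field F]
variable {P Q : Type} [Fintype P] [Fintype Q]

/-- Counting lemma. Let `G` be a set of polynomials of partial degrees `≤ T`, `≤ L₀`
(`1 ≤ L₀`, `1 ≤ T`) such that every torus type prime containing `G` has height `≥ h`; let `ps` be a
finite set of torus type primes of height `h` containing `G`, such that the variables in `I0`, `J0`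
are independent modulo each of them, with `N ≤ |I0| + |J0| + h`. Then
`card ps * (T^|I0| * L₀^|J0|) ≤ 2^(N h) * (T^p * L₀^q)`.

Proof: `I` from `hf_upper`, `e` from `hf_lower` (two primes `p ≤ q` of the same finite height are
equal: `Ideal.height_strict_mono_of_isPrime`). For `t ≥ 1`: `T t + e ≤ T (t+e)` and
`L₀ t + e ≤ L₀ (t+e)`, so (with `k = |I0| + |J0|`)
`card ps * T^|I0| L₀^|J0| * t^k * (t+e)^h ≤ (t+e)^h Hf I (T(t+e)) (L₀(t+e))
≤ 2^(N h) (t+e)^N T^p L₀^q`; apply `limit_le`. -/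
theorem counting [Infinite F] (T L₀ : ℕ) (hT : 1 ≤ T) (hL : 1 ≤ L₀)
    (G : Set (MvPolynomial (P ⊕ Q) F)) (hG : ∀ g ∈ G, DegLe T L₀ g) (h : ℕ)
    (hh : ∀ p : Ideal (MvPolynomial (P ⊕ Q) F), Torus p → G ⊆ (p : Set _) → (h : ℕ∞) ≤ p.height)
    (ps : Finset (Ideal (MvPolynomial (P ⊕ Q) F))) (hps : ∀ p ∈ ps, Torus p ∧ G ⊆ (p : Set _) ∧
      p.height = h) (I0 : Finset P) (J0 : Finset Q) (hind : ∀ p ∈ ps, Indep p I0 J0)
    (hcard : Fintype.card P + Fintype.card Q ≤ I0.card + J0.card + h) :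
    ps.card * (T ^ I0.card * L₀ ^ J0.card) ≤ 2 ^ ((Fintype.card P + Fintype.card Q) * h) *
      (T ^ Fintype.card P * L₀ ^ Fintype.card Q) := by
  obtain ⟨I, hI, hub⟩ := hf_upper T L₀ G hG h hh
  have hinc : ∀ p ∈ ps, ∀ q ∈ ps, p ≤ q → p = q := by
    intro p hp q hq hpq
    by_contra hne
    have hlt : p < q := lt_of_le_of_ne hpq hne
    have hpp : p.IsPrime := (hps p hp).1.1
    have hqq : q.IsPrime := (hps q hq).1.1
    have hfin : p.FiniteHeight := by
      rw [Ideal.finiteHeight_iff]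
      right
      rw [(hps p hp).2.2]
      exact ENat.coe_ne_top h
    have h1 := Ideal.height_strict_mono_of_isPrime hlt
    rw [(hps p hp).2.2, (hps q hq).2.2] at h1
    exact lt_irrefl _ h1
  obtain ⟨e, he⟩ := hf_lower ps (fun p hp => (hps p hp).1.1) hinc I
    (fun p hp => hI p (hps p hp).1 (hps p hp).2.1) I0 J0 hind
  refine limit_le _ _ (I0.card + J0.card) h (Fintype.card P + Fintype.card Q) e hcard ?_
  intro t ht
  have h1 := he (T * t) (L₀ * t)
  have h2 : Hf I (T * t + e) (L₀ * t + e) ≤ Hf I (T * (t + e)) (L₀ * (t + e)) := by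
    apply hf_mono
    · nlinarith
    · nlinarith
  have h3 := hub (t + e) (by omega)
  calc ps.card * (T ^ I0.card * L₀ ^ J0.card) * t ^ (I0.card + J0.card) * (t + e) ^ h
      = ps.card * ((T * t) ^ I0.card * (L₀ * t) ^ J0.card) * (t + e) ^ h := by
        rw [mul_pow, mul_pow, pow_add]; ring
    _ ≤ Hf I (T * (t + e)) (L₀ * (t + e)) * (t + e) ^ h := Nat.mul_le_mul_right _ (h1.trans h2)
    _ = (t + e) ^ h * Hf I (T * (t + e)) (L₀ * (t + e)) := mul_comm _ _
    _ ≤ _ := h3
    _ = _ := by ring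

end Pool.Agent.LogRel
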