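import Pool.Agent.Lib_LogRel.ZG0

/-!
# Piece ZG2: strictness
-/

open MvPolynomial

set_option linter.unusedSectionVars false

namespace Pool.Agent.LogRel

variable {F : Type} [Field F] {σ : Type} [Fintype σ] [DecidableEq σ]

/-- polynomials as polynomials in the variable `y` with coefficients in `MvPolynomial σ F` -/
noncomputable def yExp (F : Type) [Field F] {σ : Type} [DecidableEq σ] (y : σ) :
    MvPolynomial σ F →ₐ[F] Polynomial (MvPolynomial σ F) :=
  aeval (fun i => if i = y then Polynomial.X else Polynomial.C (X i))

theorem yExp_eval (y : σ) (f : MvPolynomial σ F) :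
    (yExp F y f).eval (X y) = f := by
  have : (Polynomial.evalRingHom (X y : MvPolynomial σ F)).comp (yExp F y).toRingHom =
      RingHom.id _ := by
    apply MvPolynomial.ringHom_ext
    · intro r
      simp [yExp, IsScalarTower.algebraMap_apply F (MvPolynomial σ F)
        (Polynomial (MvPolynomial σ F)), MvPolynomial.algebraMap_eq]
    · intro i
      by_cases h : i = y
      · simp [yExp, h]
      · simp [yExp, h]
  exact congrArg (fun g : MvPolynomial σ F →+* MvPolynomial σ F => g f) this

theorem yExp_of_notMem (y : σ) (g : MvPolynomial σ F) (hg : y ∉ g.vars) :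
    yExp F y g = Polynomial.C g := by
  have h1 : (yExp F y).toRingHom g = (Polynomial.C : _ →+* Polynomial (MvPolynomial σ F)) g := by
    apply MvPolynomial.hom_congr_vars (f₁ := (yExp F y).toRingHom)
      (f₂ := (Polynomial.C : _ →+* Polynomial (MvPolynomial σ F)))
    · ext r
      simp [yExp, IsScalarTower.algebraMap_apply F (MvPolynomial σ F)
        (Polynomial (MvPolynomial σ F)), MvPolynomial.algebraMap_eq]
    · intro i hi _
      have : i ≠ y := fun h => hg (h ▸ hi)
      simp [yExp, this]
    · rfl
  exact h1

theorem yExp_coeff_vars (y : σ) (S : Finset σ) (f : MvPolynomial σ F) (hf : f.vars ⊆ insert y S)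
    (k : ℕ) : ((yExp F y f).coeff k).vars ⊆ S := by
  have hmem : f ∈ Algebra.adjoin F ((X : σ → MvPolynomial σ F) '' ((insert y S : Finset σ) : Set σ)) := by
    rw [← supported_eq_adjoin_X, mem_supported]
    exact_mod_cast hf
  have key : ∀ k, (yExp F y f).coeff k ∈ supported F (S : Set σ) := by
    clear hf
    induction hmem using Algebra.adjoin_induction with
    | mem g hg =>
      obtain ⟨i, hi, rfl⟩ := hg
      intro k
      by_cases h : i = y
      · simp only [yExp, aeval_X, h, if_true, Polynomial.coeff_X]
        split
        · exact one_mem _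
        · exact zero_mem _
      · have hiS : i ∈ S := by
          have := Finset.mem_insert.1 (Finset.mem_coe.1 hi)
          tauto
        simp only [yExp, aeval_X, h, if_false, Polynomial.coeff_C]
        split
        · exact X_mem_supported.2 (by exact_mod_cast hiS)
        · exact zero_mem _
    | algebraMap r =>
      intro k
      rw [AlgHom.commutes, IsScalarTower.algebraMap_apply F (MvPolynomial σ F)
        (Polynomial (MvPolynomial σ F)), Polynomial.algebraMap_apply, Polynomial.coeff_C]
      split
      · exact Subalgebra.algebraMap_mem _ r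
      · exact zero_mem _
    | add a b _ _ ha hb =>
      intro k
      rw [map_add, Polynomial.coeff_add]
      exact add_mem (ha k) (hb k)
    | mul a b _ _ ha hb =>
      intro k
      rw [map_mul, Polynomial.coeff_mul]
      exact sum_mem fun c _ => mul_mem (ha _) (hb _)
  have := mem_supported.1 (key k)
  exact_mod_cast this

/-- If `y ∉ S'`, `S ⊆ S'`, `f ∈ p` is a nonzero polynomial with variables in `insert y S`, and
`IndS p S`, then `f ∉ restrS p S'`.

Proof: write `f = ∑_k c_k y^k` with `c_k` polynomials in the variables of `S`, not all zero. If `f` were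
in `restrS p S'`, then, `y ∉ S'`, all its coefficients `c_k` with respect to `y` would be in `p` (take
the coefficients with respect to `y` in `f = ∑ a_i g_i`, `g_i ∈ p` not involving `y`), so `c_k = 0` by
`IndS p S`, contradiction. -/
theorem notMem_restrS (p : Ideal (MvPolynomial σ F)) (S S' : Finset σ) (hSS : S ⊆ S') (y : σ)
    (hy : y ∉ S') (hS : IndS p S) (f : MvPolynomial σ F) (hf : f ∈ p) (hf0 : f ≠ 0)
    (hvars : f.vars ⊆ insert y S) : f ∉ restrS p S' := by
  intro hmem
  have h1 : ∀ g ∈ restrS p S', ∀ k, (yExp F y g).coeff k ∈ p := by
    intro g hg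
    unfold restrS at hg
    induction hg using Submodule.span_induction with
    | mem g hg =>
      intro k
      rw [yExp_of_notMem y g (fun h => hy (hg.2 h)), Polynomial.coeff_C]
      split
      · exact hg.1
      · exact zero_mem _
    | zero =>
      intro k
      simp
    | add a b _ _ ha hb =>
      intro k
      rw [map_add, Polynomial.coeff_add]
      exact add_mem (ha k) (hb k)
    | smul a g _ hg =>
      intro k
      rw [smul_eq_mul, map_mul, Polynomial.coeff_mul]
      exact sum_mem fun c _ => Ideal.mul_mem_left _ _ (hg _)
  have h2 : yExp F y f = 0 := by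
    ext1 k
    rw [Polynomial.coeff_zero]
    exact hS _ (h1 f hmem k) (yExp_coeff_vars y S f hvars k)
  apply hf0
  rw [← yExp_eval y f, h2, Polynomial.eval_zero]

end Pool.Agent.LogRel
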