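import Pool.Agent.Lib_LogRel.ZG1
import Pool.Agent.Lib_LogRel.ZG2

/-!
# Piece ZG: height and algebraically independent variables
-/

open MvPolynomial

set_option linter.unusedSectionVars false

namespace Pool.Agent.LogRel

variable {F : Type} [Field F] {σ : Type} [Fintype σ] [DecidableEq σ]

theorem restrS_mono (p : Ideal (MvPolynomial σ F)) {S S' : Finset σ} (h : S ⊆ S') :
    restrS p S ≤ restrS p S' :=
  Ideal.span_mono fun _ hf => ⟨hf.1, hf.2.trans h⟩

/-- Let `p` be prime and `S₀` independent modulo `p`. There is `S ⊇ S₀`, independent modulo `p`, with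
`card σ ≤ card S + height p`.

Proof: take a maximal `S ⊇ S₀` with `IndS p S` (finite type). Let `y_1, …, y_M` be the elements
outside `S` and `S_j = S ∪ {y_1..y_j}`. By maximality there is a nonzero `f_j ∈ p` with variables in
`insert y_{j+1} S`. The ideals `restrS p S_j` are prime (`restrS_isPrime`), increasing, and
`f_j ∈ restrS p S_{j+1}`, `f_j ∉ restrS p S_j` (`notMem_restrS`). So the chain
`restrS p S_0 < restrS p S_1 < … < restrS p S_M = p` is strict and `height p ≥ M`
(`Ideal.height_add_one_le_of_lt_of_isPrime`; do an induction on `card (univ \ S')` or over a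
`Finset.induction` for the statement `card S' ≤ card S + height (restrS p S')`, `S ⊆ S'`). -/
theorem exists_indep (p : Ideal (MvPolynomial σ F)) (hp : p.IsPrime) (S₀ : Finset σ)
    (h₀ : IndS p S₀) : ∃ S : Finset σ, S₀ ⊆ S ∧ IndS p S ∧
      (Fintype.card σ : ℕ∞) ≤ (S.card : ℕ∞) + p.height := by
  classical
  -- a maximal independent set
  obtain ⟨S, hS, hmax⟩ := Finset.exists_max_image
    (Finset.univ.filter fun S : Finset σ => S₀ ⊆ S ∧ IndS p S) Finset.card
    ⟨S₀, by simp [h₀]⟩
  rw [Finset.mem_filter] at hS
  obtain ⟨-, hS0, hSi⟩ := hS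
  refine ⟨S, hS0, hSi, ?_⟩
  have hdep : ∀ y, y ∉ S → ∃ f ∈ p, f ≠ 0 ∧ f.vars ⊆ insert y S := by
    intro y hy
    by_contra hcon
    push Not at hcon
    have h1 : IndS p (insert y S) := by
      intro f hf hv
      by_contra h0
      exact hcon f hf h0 hv
    have h2 := hmax (insert y S) (by
      rw [Finset.mem_filter]
      exact ⟨Finset.mem_univ _, hS0.trans (Finset.subset_insert _ _), h1⟩)
    rw [Finset.card_insert_of_notMem hy] at h2
    omega
  have hchain : ∀ R : Finset σ, Disjoint R S →
      (R.card : ℕ∞) ≤ (restrS p (R ∪ S)).height := by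
    intro R
    induction R using Finset.induction_on with
    | empty => intro _; simp
    | insert y R hyR ih =>
      intro hdis
      rw [Finset.disjoint_insert_left] at hdis
      have h1 := ih hdis.2
      haveI := restrS_isPrime p hp (R ∪ S)
      haveI := restrS_isPrime p hp (insert y R ∪ S)
      have hyRS : y ∉ R ∪ S := by
        rw [Finset.mem_union]
        tauto
      have hlt : restrS p (R ∪ S) < restrS p (insert y R ∪ S) := by
        refine lt_of_le_of_ne (restrS_mono p (by
          intro i hi
          rw [Finset.mem_union] at hi ⊢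
          rcases hi with hi | hi
          · exact Or.inl (Finset.mem_insert_of_mem hi)
          · exact Or.inr hi)) ?_
        intro heq
        obtain ⟨f, hf, hf0, hv⟩ := hdep y hdis.1
        apply notMem_restrS p S (R ∪ S) Finset.subset_union_right y hyRS hSi f hf hf0 hv
        rw [heq]
        refine Ideal.subset_span ⟨hf, hv.trans ?_⟩
        intro i hi
        rw [Finset.mem_insert] at hi
        rw [Finset.mem_union, Finset.mem_insert]
        tauto
      have h2 := Ideal.height_add_one_le_of_lt_of_isPrime hlt
      rw [Finset.card_insert_of_notMem hyR]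
      push_cast
      exact (add_le_add_left h1 1).trans h2
  have h3 := hchain (Finset.univ \ S) Finset.sdiff_disjoint
  have h4 : restrS p ((Finset.univ \ S) ∪ S) ≤ p := by
    unfold restrS
    rw [Ideal.span_le]
    intro f hf
    exact hf.1
  have h5 : (Finset.univ \ S).card + S.card = Fintype.card σ := by
    rw [Finset.card_sdiff_add_card_eq_card (Finset.subset_univ S), Finset.card_univ]
  calc (Fintype.card σ : ℕ∞) = ((Finset.univ \ S).card : ℕ∞) + (S.card : ℕ∞) := by
        rw [← h5]; push_cast; rfl
    _ ≤ p.height + (S.card : ℕ∞) := by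
        gcongr
        exact h3.trans (Ideal.height_mono h4)
    _ = (S.card : ℕ∞) + p.height := add_comm _ _

end Pool.Agent.LogRel
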