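import Mathlib

/-!
# Definitions for piece ZG
-/

open MvPolynomial

set_option linter.unusedSectionVars false

namespace Pool.Agent.LogRel

variable {F : Type} [Field F] {σ : Type} [Fintype σ] [DecidableEq σ]

/-- `p` contains no nonzero polynomial in the variables of `S` -/
def IndS (p : Ideal (MvPolynomial σ F)) (S : Finset σ) : Prop :=
  ∀ f ∈ p, f.vars ⊆ S → f = 0

/-- the ideal generated by the elements of `p` which are polynomials in the variables of `S` -/
noncomputable def restrS (p : Ideal (MvPolynomial σ F)) (S : Finset σ) :
    Ideal (MvPolynomial σ F) :=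
  Ideal.span {f | f ∈ p ∧ f.vars ⊆ S}

end Pool.Agent.LogRel
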