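import Pool.Agent.Lib_LogRel.ZG0

/-!
# Piece ZG1: the restricted ideals are prime
-/

open MvPolynomial

set_option linter.unusedSectionVars false

namespace Pool.Agent.LogRel

variable {F : Type} [Field F] {σ : Type} [Fintype σ] [DecidableEq σ]

/-- the extension of a prime ideal to a polynomial ring is prime -/
theorem isPrime_map_C_mv {A τ : Type} [CommRing A] (P : Ideal A) (hP : P.IsPrime) :
    (Ideal.map (C : A →+* MvPolynomial τ A) P).IsPrime := by
  have : IsDomain (A ⧸ P) := (Ideal.Quotient.isDomain_iff_prime P).2 hP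
  have : IsDomain (MvPolynomial τ (A ⧸ P)) := inferInstance
  have h2 : IsDomain (MvPolynomial τ A ⧸ (Ideal.map (C : A →+* MvPolynomial τ A) P)) :=
    MulEquiv.isDomain (MvPolynomial τ (A ⧸ P))
      (MvPolynomial.quotientEquivQuotientMvPolynomial (σ := τ) P).symm.toMulEquiv
  exact (Ideal.Quotient.isDomain_iff_prime _).1 h2

/-- `restrS p S` is prime if `p` is.

Proof: `MvPolynomial σ F` is (isomorphic to) the polynomial ring in the variables outside `S` over
`A = F[S]` (`MvPolynomial.sumAlgEquiv` after `σ ≃ S ⊕ Sᶜ`), and `restrS p S` is the extension of the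
prime ideal `p ∩ A`: the extension of a prime `P` of `A` to `A[Y]` is prime (the quotient is
`(A/P)[Y]`, `MvPolynomial.quotientEquivQuotientMvPolynomial`). Alternative (elementary): a
polynomial `f = ∑_m f_m Y^m` (`f_m ∈ F[S]`, `Y` the variables outside `S`) lies in `restrS p S` iff
all `f_m ∈ p`; order the monomials `Y^m` linearly (e.g. `MonomialOrder.lex`) and for
`f * g ∈ restrS` with `f, g ∉ restrS` consider the largest `m`, `m'` with `f_m ∉ p`, `g_m' ∉ p`: the
coefficient of `Y^(m+m')` in `f * g` is `f_m g_m'` plus elements of `p`. -/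
theorem restrS_isPrime (p : Ideal (MvPolynomial σ F)) (hp : p.IsPrime) (S : Finset σ) :
    (restrS p S).IsPrime := by
  classical
  let ι : MvPolynomial {x // x ∈ S} F →ₐ[F] MvPolynomial σ F := rename Subtype.val
  let p₀ : Ideal (MvPolynomial {x // x ∈ S} F) := Ideal.comap ι p
  have hp₀ : p₀.IsPrime := Ideal.comap_isPrime ι p
  let ψ : MvPolynomial σ F →ₐ[F] MvPolynomial {x // x ∉ S} (MvPolynomial {x // x ∈ S} F) :=
    aeval (fun i => if h : i ∈ S then C (X ⟨i, h⟩) else X ⟨i, h⟩)
  let χ : MvPolynomial {x // x ∉ S} (MvPolynomial {x // x ∈ S} F) →+* MvPolynomial σ F :=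
    eval₂Hom ι.toRingHom (fun i => X i.1)
  have hχψ : ∀ f, χ (ψ f) = f := by
    intro f
    have : χ.comp ψ.toRingHom = RingHom.id _ := by
      apply MvPolynomial.ringHom_ext
      · intro r
        simp [χ, ψ, ι, MvPolynomial.algebraMap_eq, IsScalarTower.algebraMap_apply F
          (MvPolynomial {x // x ∈ S} F) (MvPolynomial {x // x ∉ S} (MvPolynomial {x // x ∈ S} F))]
      · intro i
        by_cases h : i ∈ S
        · simp [χ, ψ, ι, h]
        · simp [χ, ψ, h]
    exact congrArg (fun g : MvPolynomial σ F →+* MvPolynomial σ F => g f) this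
  have hψι : ∀ g, ψ (ι g) = C g := by
    intro g
    have : ψ.toRingHom.comp ι.toRingHom = C := by
      apply MvPolynomial.ringHom_ext
      · intro r
        simp [ψ, ι, MvPolynomial.algebraMap_eq, IsScalarTower.algebraMap_apply F
          (MvPolynomial {x // x ∈ S} F) (MvPolynomial {x // x ∉ S} (MvPolynomial {x // x ∈ S} F))]
      · intro i
        have := i.2
        simp [ψ, ι]
    exact congrArg (fun h : MvPolynomial {x // x ∈ S} F →+* _ => h g) this
  have hkey : restrS p S = Ideal.comap ψ (Ideal.map
      (C : MvPolynomial {x // x ∈ S} F →+* MvPolynomial {x // x ∉ S} _) p₀) := by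
    apply le_antisymm
    · unfold restrS
      rw [Ideal.span_le]
      rintro f ⟨hf, hv⟩
      obtain ⟨g, rfl⟩ := exists_rename_eq_of_vars_subset_range f
        (Subtype.val : {x // x ∈ S} → σ) Subtype.val_injective (by
          rw [Subtype.range_val]
          intro i hi
          exact hv hi)
      have h3 : ψ (ι g) ∈ Ideal.map
          (C : MvPolynomial {x // x ∈ S} F →+* MvPolynomial {x // x ∉ S} _) p₀ := by
        rw [hψι]
        exact Ideal.mem_map_of_mem _ hf
      exact h3
    · intro f hf
      have h1 : χ (ψ f) ∈ Ideal.map χ (Ideal.map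
        (C : MvPolynomial {x // x ∈ S} F →+* MvPolynomial {x // x ∉ S} _) p₀) :=
        Ideal.mem_map_of_mem _ hf
      rw [hχψ, Ideal.map_map] at h1
      have h2 : χ.comp C = ι.toRingHom := by
        refine RingHom.ext fun g => ?_
        simp [χ]
      rw [h2] at h1
      refine Ideal.map_le_iff_le_comap.2 ?_ h1
      intro g hg
      refine Ideal.subset_span ⟨hg, ?_⟩
      intro i hi
      have := vars_rename (Subtype.val : {x // x ∈ S} → σ) g hi
      obtain ⟨j, -, rfl⟩ := Finset.mem_image.1 this
      exact j.2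
  rw [hkey]
  have := isPrime_map_C_mv (τ := {x // x ∉ S}) p₀ hp₀
  exact Ideal.comap_isPrime ψ _

end Pool.Agent.LogRel
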