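import Pool.Agent.Lib_LogRel.Defs

/-!
# Piece ZH: variables which are independent modulo a stable prime
-/

open MvPolynomial

set_option linter.unusedSectionVars false

namespace Pool.Agent.LogRel

section aux

variable {F : Type} [Field F] {P Q : Type} [Fintype P] [Fintype Q]

/-- all monomials have degree `< n - k` -/
def ZH_D (k n : ℕ) (b : MvPolynomial P F) : Prop := ∀ κ, coeff κ b ≠ 0 → κ.degree + k < n

theorem ZH_D_add {k n : ℕ} {b c : MvPolynomial P F} (hb : ZH_D k n b) (hc : ZH_D k n c) :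
    ZH_D k n (b + c) := by
  intro κ h
  rw [coeff_add] at h
  by_cases h1 : coeff κ b = 0
  · rw [h1, zero_add] at h
    exact hc κ h
  · exact hb κ h1

theorem ZH_D_zero (k n : ℕ) : ZH_D k n (0 : MvPolynomial P F) := fun κ h => absurd (coeff_zero κ) h

theorem ZH_D_C_mul {k n : ℕ} {b : MvPolynomial P F} (c : F) (hb : ZH_D k n b) :
    ZH_D k n (C c * b) := by
  intro κ h
  rw [coeff_C_mul] at h
  exact hb κ (right_ne_zero_of_mul h)

theorem ZH_D_mul_X {k n : ℕ} {b : MvPolynomial P F} (i : P) (hb : ZH_D k n b) :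
    ZH_D k (n + 1) (b * X i) := by
  classical
  intro κ h
  rw [coeff_mul_X'] at h
  split_ifs at h with hi
  · have h1 := hb _ h
    have h2 : κ = (κ - Finsupp.single i 1) + Finsupp.single i 1 := by
      rw [tsub_add_cancel_of_le]
      rw [Finsupp.single_le_iff]
      exact Nat.one_le_iff_ne_zero.2 (Finsupp.mem_support_iff.1 hi)
    have h3 : κ.degree = (κ - Finsupp.single i 1).degree + 1 := by
      conv_lhs => rw [h2]
      rw [map_add, Finsupp.degree_single]
    omega
  · exact absurd rfl h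

theorem ZH_D_mono {k n k' n' : ℕ} {b : MvPolynomial P F} (h : n + k' ≤ n' + k)
    (hb : ZH_D k n b) : ZH_D k' n' b := by
  intro κ hκ
  have := hb κ hκ
  omega

theorem ZH_D_sum {k n : ℕ} {ι : Type} (s : Finset ι) (f : ι → MvPolynomial P F)
    (h : ∀ i ∈ s, ZH_D k n (f i)) : ZH_D k n (∑ i ∈ s, f i) := by
  classical
  induction s using Finset.induction_on with
  | empty => rw [Finset.sum_empty]; exact ZH_D_zero _ _
  | insert a s ha ih =>
    rw [Finset.sum_insert ha]
    exact ZH_D_add (h a (Finset.mem_insert_self _ _)) (ih fun i hi => h i (Finset.mem_insert_of_mem hi))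

/-- translation -/
noncomputable def ZH_T (a : P → F) : MvPolynomial P F →ₐ[F] MvPolynomial P F :=
  aeval (fun i => X i + C (a i))

/-- derivative in a direction -/
noncomputable def ZH_d (a : P → F) (b : MvPolynomial P F) : MvPolynomial P F :=
  ∑ i, C (a i) * pderiv i b

theorem ZH_d_mul_X (a : P → F) (b : MvPolynomial P F) (i : P) :
    ZH_d a (b * X i) = ZH_d a b * X i + C (a i) * b := by
  classical
  unfold ZH_d
  have h1 : ∀ j, C (a j) * pderiv j (b * X i) =
      C (a j) * pderiv j b * X i + (if j = i then C (a i) * b else 0) := by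
    intro j
    rw [pderiv_mul]
    by_cases hj : j = i
    · subst hj
      rw [pderiv_X_self, if_pos rfl]
      ring
    · rw [pderiv_X_of_ne (Ne.symm hj), if_neg hj]
      ring
  rw [Finset.sum_congr rfl fun j _ => h1 j, Finset.sum_add_distrib, ← Finset.sum_mul]
  congr 1
  rw [Finset.sum_ite_eq' Finset.univ i, if_pos (Finset.mem_univ _)]

theorem ZH_mono (a : P → F) : ∀ (n : ℕ) (κ : P →₀ ℕ) (c : F), κ.degree = n →
    ZH_D 0 n (ZH_T a (monomial κ c) - monomial κ c) ∧
    ZH_D 1 n (ZH_T a (monomial κ c) - monomial κ c - ZH_d a (monomial κ c)) := by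
  classical
  intro n
  induction n with
  | zero =>
    intro κ c hκ
    rw [Finsupp.degree_eq_zero_iff] at hκ
    subst hκ
    have h1 : (monomial (0 : P →₀ ℕ) c : MvPolynomial P F) = C c := rfl
    have h2 : ZH_T a (C c) = C c := by
      unfold ZH_T
      rw [aeval_C]
      rfl
    have h3 : ZH_d a (C c) = 0 := by
      unfold ZH_d
      refine Finset.sum_eq_zero fun i _ => ?_
      rw [pderiv_C, mul_zero]
    rw [h1, h2, h3, sub_self, sub_zero]
    exact ⟨ZH_D_zero _ _, ZH_D_zero _ _⟩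
  | succ n ih =>
    intro κ c hκ
    have hne : κ ≠ 0 := by
      rintro rfl
      rw [map_zero] at hκ
      omega
    obtain ⟨i, hi⟩ := Finsupp.ne_iff.1 hne
    have h2 : κ = (κ - Finsupp.single i 1) + Finsupp.single i 1 := by
      rw [tsub_add_cancel_of_le]
      rw [Finsupp.single_le_iff]
      exact Nat.one_le_iff_ne_zero.2 hi
    have h3 : κ.degree = (κ - Finsupp.single i 1).degree + 1 := by
      conv_lhs => rw [h2]
      rw [map_add, Finsupp.degree_single]
    have h4 : (κ - Finsupp.single i 1).degree = n := by omega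
    have h5 : (monomial κ c : MvPolynomial P F) = monomial (κ - Finsupp.single i 1) c * X i := by
      conv_lhs => rw [h2]
      rw [monomial_add_single, pow_one]
    obtain ⟨i1, i2⟩ := ih (κ - Finsupp.single i 1) c h4
    have i0 : ZH_D 0 (n + 1) (monomial (κ - Finsupp.single i 1) c : MvPolynomial P F) := by
      intro κ' h'
      rw [coeff_monomial] at h'
      split_ifs at h' with h6
      · rw [← h6, h4]
        omega
      · exact absurd rfl h'
    have h6 : ZH_T a (X i : MvPolynomial P F) = X i + C (a i) := by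
      unfold ZH_T
      rw [aeval_X]
    rw [h5]
    generalize (monomial (κ - Finsupp.single i 1) c : MvPolynomial P F) = b at i1 i2 i0
    rw [map_mul, h6, ZH_d_mul_X]
    constructor
    · have e : ZH_T a b * (X i + C (a i)) - b * X i =
          (ZH_T a b - b) * X i + C (a i) * (ZH_T a b - b) + C (a i) * b := by ring
      rw [e]
      exact ZH_D_add (ZH_D_add (ZH_D_mul_X i i1) (ZH_D_C_mul _ (ZH_D_mono (by omega) i1)))
        (ZH_D_C_mul _ i0)
    · have e : ZH_T a b * (X i + C (a i)) - b * X i - (ZH_d a b * X i + C (a i) * b) =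
          (ZH_T a b - b - ZH_d a b) * X i + C (a i) * (ZH_T a b - b) := by ring
      rw [e]
      exact ZH_D_add (ZH_D_mul_X i i2) (ZH_D_C_mul _ (ZH_D_mono (by omega) i1))

theorem ZH_d_add (a : P → F) (b c : MvPolynomial P F) : ZH_d a (b + c) = ZH_d a b + ZH_d a c := by
  unfold ZH_d
  rw [← Finset.sum_add_distrib]
  refine Finset.sum_congr rfl fun i _ => ?_
  rw [map_add, mul_add]

theorem ZH_d_sum (a : P → F) {ι : Type} (s : Finset ι) (f : ι → MvPolynomial P F) :
    ZH_d a (∑ i ∈ s, f i) = ∑ i ∈ s, ZH_d a (f i) := by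
  classical
  induction s using Finset.induction_on with
  | empty =>
    rw [Finset.sum_empty, Finset.sum_empty]
    unfold ZH_d
    refine Finset.sum_eq_zero fun i _ => ?_
    rw [map_zero, mul_zero]
  | insert a s ha ih => rw [Finset.sum_insert ha, Finset.sum_insert ha, ZH_d_add, ih]

theorem ZH_trans (a : P → F) {n : ℕ} {b : MvPolynomial P F} (hb : ZH_D 0 n b) :
    ZH_D 1 n (ZH_T a b - b) ∧ ZH_D 2 n (ZH_T a b - b - ZH_d a b) := by
  have h1 : ZH_T a b - b = ∑ κ ∈ b.support,
      (ZH_T a (monomial κ (coeff κ b)) - monomial κ (coeff κ b)) := by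
    rw [Finset.sum_sub_distrib, ← map_sum, ← as_sum]
  have h2 : ZH_d a b = ∑ κ ∈ b.support, ZH_d a (monomial κ (coeff κ b)) := by
    rw [← ZH_d_sum, ← as_sum]
  have h0 : ∀ κ ∈ b.support, κ.degree + 1 ≤ n := by
    intro κ hκ
    have := hb κ (mem_support_iff.1 hκ)
    omega
  constructor
  · rw [h1]
    refine ZH_D_sum _ _ fun κ hκ => ?_
    have := h0 κ hκ
    exact ZH_D_mono (by omega) (ZH_mono a κ.degree κ (coeff κ b) rfl).1
  · rw [h2, h1, ← Finset.sum_sub_distrib]
    refine ZH_D_sum _ _ fun κ hκ => ?_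
    have := h0 κ hκ
    exact ZH_D_mono (by omega) (ZH_mono a κ.degree κ (coeff κ b) rfl).2

/-- `1 + ` the total degree, `0` for the zero polynomial -/
noncomputable def ZH_wt (b : MvPolynomial P F) : ℕ := b.support.sup (fun κ => κ.degree + 1)

theorem ZH_wt_le {b : MvPolynomial P F} {n : ℕ} : ZH_wt b ≤ n ↔ ZH_D 0 n b := by
  unfold ZH_wt
  rw [Finset.sup_le_iff]
  constructor
  · intro h κ hκ
    have := h κ (mem_support_iff.2 hκ)
    omega
  · intro h κ hκ
    have := h κ (mem_support_iff.1 hκ)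
    omega

theorem ZH_D_wt (b : MvPolynomial P F) : ZH_D 0 (ZH_wt b) b := ZH_wt_le.1 le_rfl

theorem ZH_wt_zero : ZH_wt (0 : MvPolynomial P F) = 0 := by
  have := ZH_wt_le.2 (ZH_D_zero (P := P) (F := F) 0 0)
  omega

theorem ZH_wt_pos {b : MvPolynomial P F} (hb : b ≠ 0) : 0 < ZH_wt b := by
  obtain ⟨κ, hκ⟩ := ne_zero_iff.1 hb
  have := ZH_D_wt b κ hκ
  omega

/-- an invariant polynomial is constant -/
theorem ZH_const [CharZero F] {ι : Type} (a : ι → P → F)
    (ha : ∀ c : P → F, (∀ s, ∑ i, c i * a s i = 0) → c = 0) {b : MvPolynomial P F} (hb : b ≠ 0)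
    (hinv : ∀ s, ZH_T (a s) b = b) : ∃ c : F, c ≠ 0 ∧ b = C c := by
  classical
  have hle : ∀ κ, coeff κ b ≠ 0 → κ = 0 := by
    by_contra hcon
    push Not at hcon
    obtain ⟨κ₁, hκ₁, hne₁⟩ := hcon
    -- a monomial of maximal degree
    have hsup : b.support.Nonempty := support_nonempty.2 hb
    obtain ⟨κ, hκ, hmax⟩ := Finset.exists_max_image b.support (fun κ => κ.degree) hsup
    have hκ0 : κ ≠ 0 := by
      rintro rfl
      have h1 := hmax κ₁ (mem_support_iff.2 hκ₁)
      rw [map_zero] at h1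
      apply hne₁
      rw [← Finsupp.degree_eq_zero_iff]
      omega
    obtain ⟨i, hi⟩ := Finsupp.ne_iff.1 hκ0
    have h2 : κ = (κ - Finsupp.single i 1) + Finsupp.single i 1 := by
      rw [tsub_add_cancel_of_le]
      rw [Finsupp.single_le_iff]
      exact Nat.one_le_iff_ne_zero.2 hi
    have h3 : κ.degree = (κ - Finsupp.single i 1).degree + 1 := by
      conv_lhs => rw [h2]
      rw [map_add, Finsupp.degree_single]
    obtain ⟨ν, hν⟩ : ∃ ν, ν = κ - Finsupp.single i 1 := ⟨_, rfl⟩
    rw [← hν] at h2 h3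
    have hD : ZH_D 0 (κ.degree + 1) b := by
      intro κ' h'
      have := hmax κ' (mem_support_iff.2 h')
      omega
    have hc : (fun j => coeff ν (pderiv j b)) = 0 := by
      apply ha
      intro s
      by_contra hne
      have h4 := (ZH_trans (a s) hD).2
      rw [hinv s, sub_self, zero_sub] at h4
      have h5 := h4 ν (by
        rw [coeff_neg]
        unfold ZH_d
        rw [coeff_sum]
        intro h0
        apply hne
        rw [neg_eq_zero] at h0
        rw [← h0]
        refine Finset.sum_congr rfl fun j _ => ?_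
        rw [coeff_C_mul, mul_comm])
      omega
    have h6 := congrFun hc i
    simp only [Pi.zero_apply] at h6
    rw [coeff_pderiv, ← h2] at h6
    have h7 : ((ν i : F) + 1) ≠ 0 := by exact_mod_cast Nat.succ_ne_zero (ν i)
    have h8 := (mul_eq_zero.1 h6).resolve_right h7
    exact (mem_support_iff.1 hκ) h8
  have h1 : b = C (coeff 0 b) := by
    ext κ
    rw [coeff_C]
    split_ifs with h
    · rw [← h]
    · by_contra hne
      exact h (hle κ hne).symm
  refine ⟨coeff 0 b, ?_, h1⟩
  intro h0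
  rw [h0, C_0] at h1
  exact hb h1

/-- polynomials in the multiplicative variables with coefficients in the additive polynomials -/
noncomputable def ZH_E : MvPolynomial (P ⊕ Q) F ≃ₐ[F] MvPolynomial Q (MvPolynomial P F) :=
  (renameEquiv F (Equiv.sumComm P Q)).trans (sumAlgEquiv F Q P)

theorem ZH_E_C (c : F) : ZH_E (C c : MvPolynomial (P ⊕ Q) F) = C (C c) := by
  unfold ZH_E
  simp

theorem ZH_E_inl (i : P) : ZH_E (X (Sum.inl i) : MvPolynomial (P ⊕ Q) F) = C (X i) := by
  unfold ZH_E
  simp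

theorem ZH_E_inr (i : Q) : ZH_E (X (Sum.inr i) : MvPolynomial (P ⊕ Q) F) = X i := by
  unfold ZH_E
  simp

theorem ZH_coeff_tau (a : P → F) (g : Q → Fˣ) (f : MvPolynomial (P ⊕ Q) F) :
    ∀ μ : Q →₀ ℕ, coeff μ (ZH_E (tau a g f)) =
      C (∏ j, ((g j : Fˣ) : F) ^ μ j) * ZH_T a (coeff μ (ZH_E f)) := by
  classical
  induction f using MvPolynomial.induction_on with
  | C c =>
    intro μ
    have h1 : tau a g (C c) = C c := by
      unfold tau
      rw [aeval_C]
      rfl
    rw [h1, ZH_E_C, coeff_C]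
    split_ifs with h
    · subst h
      have h2 : ZH_T a (C c) = C c := by
        unfold ZH_T
        rw [aeval_C]
        rfl
      rw [h2]
      simp
    · rw [map_zero, mul_zero]
  | add p q hp hq =>
    intro μ
    rw [map_add, map_add, map_add, coeff_add, coeff_add, hp μ, hq μ, map_add, mul_add]
  | mul_X p n hp =>
    intro μ
    rcases n with i | j
    · rw [map_mul, map_mul, map_mul, tau_inl, map_add, ZH_E_inl, ZH_E_C, ← C_add, mul_comm _ (C _),
        mul_comm _ (C _), coeff_C_mul, coeff_C_mul, hp μ, map_mul]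
      have h6 : ZH_T a (X i : MvPolynomial P F) = X i + C (a i) := by
        unfold ZH_T
        rw [aeval_X]
      rw [h6]
      ring
    · rw [map_mul, map_mul, map_mul, tau_inr, map_mul, ZH_E_inr, ZH_E_C, ← mul_assoc, coeff_mul_X',
        coeff_mul_X']
      split_ifs with h
      · rw [mul_comm _ (C _), coeff_C_mul, hp]
        have h2 : μ = (μ - Finsupp.single j 1) + Finsupp.single j 1 := by
          rw [tsub_add_cancel_of_le]
          rw [Finsupp.single_le_iff]
          exact Nat.one_le_iff_ne_zero.2 (Finsupp.mem_support_iff.1 h)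
        obtain ⟨ν, hν⟩ : ∃ ν : Q →₀ ℕ, ν = μ - Finsupp.single j 1 := ⟨_, rfl⟩
        rw [← hν] at h2 ⊢
        have h3 : ∏ k, ((g k : Fˣ) : F) ^ μ k =
            (∏ k, ((g k : Fˣ) : F) ^ ν k) * ((g j : Fˣ) : F) := by
          conv_lhs => rw [h2]
          simp only [Finsupp.add_apply, pow_add, Finset.prod_mul_distrib]
          congr 1
          rw [Finset.prod_eq_single j]
          · rw [Finsupp.single_eq_same, pow_one]
          · intro k _ hk
            rw [Finsupp.single_eq_of_ne hk, pow_zero]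
          · intro hj
            exact absurd (Finset.mem_univ _) hj
        rw [h3, C_mul]
        ring
      · rw [map_zero, mul_zero]

/-- the case of all variables -/
theorem ZH_main [CharZero F] {ι : Type} (a : ι → P → F) (g : ι → Q → Fˣ)
    (p : Ideal (MvPolynomial (P ⊕ Q) F)) (hp : Torus p)
    (hstab : ∀ s, ∀ f ∈ p, tau (a s) (g s) f ∈ p)
    (hI : ∀ c : P → F, (∀ s, ∑ i, c i * a s i = 0) → c = 0)
    (hJ : ∀ μ : Q → ℤ, (∀ s, ∏ i, g s i ^ μ i = 1) → μ = 0) : ∀ f ∈ p, f = 0 := by
  classical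
  by_contra hcon
  push Not at hcon
  -- the measure
  obtain ⟨w, hw⟩ : ∃ w : MvPolynomial (P ⊕ Q) F → ℕ, w = fun f =>
    ∑ μ ∈ (ZH_E f).support, ZH_wt (coeff μ (ZH_E f)) := ⟨_, rfl⟩
  have hex : ∃ n, ∃ f, f ∈ p ∧ f ≠ 0 ∧ w f = n := by
    obtain ⟨f, hf, hf0⟩ := hcon
    exact ⟨w f, f, hf, hf0, rfl⟩
  obtain ⟨f, hf, hf0, hfn⟩ := Nat.find_spec hex
  have hmin : ∀ f', f' ∈ p → w f' < w f → f' = 0 := by
    intro f' hf' hlt
    by_contra hne
    rw [hfn] at hlt
    exact Nat.find_min hex hlt ⟨f', hf', hne, rfl⟩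
  obtain ⟨q, hq⟩ : ∃ q, q = ZH_E f := ⟨_, rfl⟩
  have hq0 : q ≠ 0 := by
    rw [hq]
    intro h
    exact hf0 ((map_eq_zero_iff _ ZH_E.injective).1 h)
  have key : ∀ s, ∀ μ₀ ∈ q.support, ∀ μ, 
      C (∏ j, ((g s j : Fˣ) : F) ^ μ j) * ZH_T (a s) (coeff μ q) =
        C (∏ j, ((g s j : Fˣ) : F) ^ μ₀ j) * coeff μ q := by
    intro s μ₀ hμ₀
    obtain ⟨f', hf'⟩ : ∃ f', f' = tau (a s) (g s) f - C (∏ j, ((g s j : Fˣ) : F) ^ μ₀ j) * f :=
      ⟨_, rfl⟩
    have hf'p : f' ∈ p := by
      rw [hf']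
      exact p.sub_mem (hstab s f hf) (p.mul_mem_left _ hf)
    have hco : ∀ μ, coeff μ (ZH_E f') = C (∏ j, ((g s j : Fˣ) : F) ^ μ j) *
        ZH_T (a s) (coeff μ q) - C (∏ j, ((g s j : Fˣ) : F) ^ μ₀ j) * coeff μ q := by
      intro μ
      rw [hf', map_sub, coeff_sub, ZH_coeff_tau, map_mul, ZH_E_C, coeff_C_mul, ← hq]
    have hco' : ∀ μ, coeff μ (ZH_E f') = C (∏ j, ((g s j : Fˣ) : F) ^ μ j) *
        (ZH_T (a s) (coeff μ q) - coeff μ q) + C ((∏ j, ((g s j : Fˣ) : F) ^ μ j) -
          ∏ j, ((g s j : Fˣ) : F) ^ μ₀ j) * coeff μ q := by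
      intro μ
      rw [hco, C_sub]
      ring
    have hsub : (ZH_E f').support ⊆ q.support := by
      intro μ hμ
      rw [mem_support_iff] at hμ ⊢
      intro h
      apply hμ
      rw [hco, h, map_zero, mul_zero, mul_zero, sub_zero]
    have hwf' : w f' = ∑ μ ∈ q.support, ZH_wt (coeff μ (ZH_E f')) := by
      rw [hw]
      refine Finset.sum_subset hsub fun μ _ hμ => ?_
      rw [notMem_support_iff.1 hμ, ZH_wt_zero]
    have hwf : w f = ∑ μ ∈ q.support, ZH_wt (coeff μ q) := by
      rw [hw, hq]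
    have hlt : w f' < w f := by
      rw [hwf', hwf]
      refine Finset.sum_lt_sum (fun μ _ => ?_) ⟨μ₀, hμ₀, ?_⟩
      · rw [ZH_wt_le, hco']
        exact ZH_D_add (ZH_D_C_mul _ (ZH_D_mono (by omega) (ZH_trans (a s) (ZH_D_wt _)).1))
          (ZH_D_C_mul _ (ZH_D_wt _))
      · have h1 := hco' μ₀
        rw [sub_self, C_0, zero_mul, add_zero] at h1
        have h2 := ZH_wt_pos (mem_support_iff.1 hμ₀)
        have h3 : ZH_wt (coeff μ₀ (ZH_E f')) ≤ ZH_wt (coeff μ₀ q) - 1 := by
          rw [ZH_wt_le, h1]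
          exact ZH_D_C_mul _ (ZH_D_mono (by omega) (ZH_trans (a s) (ZH_D_wt _)).1)
        omega
    have h0 := hmin f' hf'p hlt
    intro μ
    have h1 := hco μ
    rw [h0, map_zero, coeff_zero] at h1
    exact (sub_eq_zero.1 h1.symm)
  obtain ⟨μ₀, hμ₀⟩ := support_nonempty.2 hq0
  have hgne : ∀ s (μ : Q →₀ ℕ), (∏ j, ((g s j : Fˣ) : F) ^ μ j) ≠ 0 := fun s μ =>
    Finset.prod_ne_zero_iff.2 fun j _ => pow_ne_zero _ (Units.ne_zero _)
  have hinv : ∀ s, ∀ μ ∈ q.support, ZH_T (a s) (coeff μ q) = coeff μ q := by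
    intro s μ hμ
    have h1 := key s μ hμ μ
    exact mul_left_cancel₀ (by
      rw [Ne, C_eq_zero]
      exact hgne s μ) h1
  have huniq : ∀ μ ∈ q.support, μ = μ₀ := by
    intro μ hμ
    have h1 : ∀ s, (∏ j, ((g s j : Fˣ) : F) ^ μ j) = ∏ j, ((g s j : Fˣ) : F) ^ μ₀ j := by
      intro s
      have h2 := key s μ₀ hμ₀ μ
      rw [hinv s μ hμ] at h2
      exact C_injective _ _ (mul_right_cancel₀ (mem_support_iff.1 hμ) h2)
    have h3 := hJ (fun j => (μ j : ℤ) - (μ₀ j : ℤ)) (by
      intro s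
      have h4 : (∏ j, (g s j) ^ μ j) = ∏ j, (g s j) ^ μ₀ j := by
        ext
        push_cast
        exact h1 s
      simp only [zpow_sub, zpow_natCast, Finset.prod_mul_distrib, Finset.prod_inv_distrib]
      rw [h4, mul_inv_cancel])
    ext j
    have := congrFun h3 j
    simp only [Pi.zero_apply] at this
    omega
  obtain ⟨c, hc, hbc⟩ := ZH_const a hI (mem_support_iff.1 hμ₀) fun s => hinv s μ₀ hμ₀
  have hqm : q = monomial μ₀ (C c) := by
    ext1 μ
    rw [coeff_monomial]
    split_ifs with h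
    · rw [← h, hbc]
    · by_contra hne
      exact h (huniq μ (mem_support_iff.2 hne)).symm
  have hff : f = C c * ∏ j, X (Sum.inr j) ^ μ₀ j := by
    apply ZH_E.injective
    rw [← hq, hqm, map_mul, ZH_E_C, map_prod, monomial_eq]
    congr 1
    rw [Finsupp.prod_fintype _ _ (fun _ => pow_zero _)]
    refine Finset.prod_congr rfl fun j _ => ?_
    rw [map_pow, ZH_E_inr]
  have hprime := hp.1
  rw [hff] at hf
  rcases hprime.mem_or_mem hf with h | h
  · apply hprime.ne_top
    rw [Ideal.eq_top_iff_one]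
    have h2 := p.mul_mem_left (C c⁻¹) h
    rw [← C_mul, inv_mul_cancel₀ hc, C_1] at h2
    exact h2
  · rw [hprime.prod_mem_iff] at h
    obtain ⟨j, _, hj⟩ := h
    exact hp.2 j (hprime.mem_of_pow_mem _ hj)

end aux

variable {F : Type} [Field F] [CharZero F]
variable {P Q L : Type} [Fintype P] [Fintype Q] [Fintype L]

/-- Let `p` be a torus type prime which is stable under the translations by the points with
parameter in the subgroup `Φ`. Let `I0` be a set of additive coordinates which are linearly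
independent on these points, and `J0` a set of multiplicative coordinates which are multiplicatively
independent on these points. Then the variables in `I0`, `J0` are algebraically independent
modulo `p`.

Proof. Suppose there is a nonzero `f ∈ p` in the variables of `I0`, `J0`. Write
`f = ∑_{μ ∈ M} f_μ(U) X^μ`, `f_μ ≠ 0` polynomials in the additive variables of `I0`, `M` a finite set of
exponents supported in `J0`. Choose `f` with `card M` minimal, then `μ₀ ∈ M` and `f` with
`totalDegree f_{μ₀}` minimal. For `s ∈ Φ` with point `(a, g)`: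
`f' = tau a g f - g^{μ₀} f = ∑_μ (g^μ f_μ(U + a) - g^{μ₀} f_μ(U)) X^μ` is in `p`, has the same kind of
variables, its `M'` is contained in `M` and the coefficient at `μ₀` is
`g^{μ₀} (f_{μ₀}(U+a) - f_{μ₀}(U))` of smaller total degree or zero. By minimality `f' = 0` (for all
`s ∈ Φ`). (i) If `M` contains `μ₁ ≠ μ₀`: `g^{μ₁} f_{μ₁}(U+a) = g^{μ₀} f_{μ₁}(U)`; compare the top
degree homogeneous parts: `g^{μ₁} = g^{μ₀}` for all `s ∈ Φ`, so `μ₁ - μ₀ ∈ Ann γ Φ` is supported in
`J0`, so it is `0`, contradiction. (ii) So `f = f_{μ₀}(U) X^{μ₀} ∈ p`, hence `f_{μ₀}(U) ∈ p` (torus type), and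
`f_{μ₀}(U + a) = f_{μ₀}(U)` for all `s ∈ Φ`. Since the vectors `(a_i)_{i ∈ I0}`, `s ∈ Φ`, span `F^{I0}`
(by `hI0`) and the characteristic is zero, `f_{μ₀}` is constant: (invariance under `n • a`, all
`n ∈ ℕ`, gives invariance under `t • a` for all `t`, hence zero derivative in the direction `a`;
so all partial derivatives vanish). A nonzero constant in `p` is a contradiction.

Any other proof is fine, e.g. with the linear independence of the functions
`s ↦ (ptU u s)^κ (ptG γ s)^μ` on `Φ`. -/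
theorem indep_of_stable (u : P → L → F) (γ : Q → L → Fˣ) (Φ : Submodule ℤ (L → ℤ))
    (p : Ideal (MvPolynomial (P ⊕ Q) F)) (hp : Torus p)
    (hstab : ∀ s ∈ Φ, ∀ f ∈ p, tau (ptU u s) (ptG γ s) f ∈ p) (I0 : Finset P) (J0 : Finset Q)
    (hI0 : ∀ c : P → F, (∀ i, i ∉ I0 → c i = 0) → (∀ s ∈ Φ, ∑ i, c i * ptU u s i = 0) → c = 0)
    (hJ0 : ∀ μ ∈ Ann γ Φ, (∀ i, i ∉ J0 → μ i = 0) → μ = 0) : Indep p I0 J0 := by
  classical
  intro f hf hv
  obtain ⟨r, hr⟩ : ∃ r : I0 ⊕ J0 → P ⊕ Q, r = Sum.map (fun i => i.1) (fun j => j.1) := ⟨_, rfl⟩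
  have hrinj : Function.Injective r := by
    rw [hr]
    exact Subtype.val_injective.sumMap Subtype.val_injective
  obtain ⟨f', rfl⟩ := exists_rename_eq_of_vars_subset_range f r hrinj (by
    intro v hvv
    obtain ⟨h1, h2⟩ := hv v hvv
    rcases v with i | j
    · exact ⟨Sum.inl ⟨i, h1 i rfl⟩, by rw [hr]; rfl⟩
    · exact ⟨Sum.inr ⟨j, h2 j rfl⟩, by rw [hr]; rfl⟩)
  have hp1 := hp.1
  have hcomm : ∀ (s : Φ) (h : MvPolynomial (I0 ⊕ J0) F),
      rename r (tau (fun i => ptU u s.1 i.1) (fun j => ptG γ s.1 j.1) h) =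
        tau (ptU u s.1) (ptG γ s.1) (rename r h) := by
    intro s h
    have : (rename r).comp (tau (fun i : I0 => ptU u s.1 i.1) (fun j : J0 => ptG γ s.1 j.1)) =
        (tau (ptU u s.1) (ptG γ s.1)).comp (rename r) := by
      apply MvPolynomial.algHom_ext
      rintro (i | j)
      · rw [AlgHom.comp_apply, AlgHom.comp_apply, tau_inl, map_add, rename_X, rename_C, hr]
        exact (tau_inl _ _ _).symm
      · rw [AlgHom.comp_apply, AlgHom.comp_apply, tau_inr, map_mul, rename_X, rename_C, hr]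
        exact (tau_inr _ _ _).symm
    exact congrArg (fun φ => φ h) this
  have hmain := ZH_main (F := F) (P := I0) (Q := J0) (ι := Φ) (fun s i => ptU u s.1 i.1)
    (fun s j => ptG γ s.1 j.1) (p.comap (rename r)) (by
      refine ⟨Ideal.comap_isPrime _ _, fun j => ?_⟩
      rw [Ideal.mem_comap, rename_X, hr]
      exact hp.2 j.1) (by
      intro s h hh
      rw [Ideal.mem_comap] at hh ⊢
      rw [hcomm]
      exact hstab s.1 s.2 _ hh) (by
      intro c hc
      have h1 := hI0 (fun i => if h : i ∈ I0 then c ⟨i, h⟩ else 0) (fun i hi => dif_neg hi) (by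
        intro s hs
        refine Eq.trans ?_ (hc ⟨s, hs⟩)
        rw [← Finset.sum_subset (Finset.subset_univ I0) (by
          intro i _ hi
          rw [dif_neg hi, zero_mul]), ← Finset.sum_attach]
        refine Finset.sum_congr rfl fun i _ => ?_
        rw [dif_pos i.2])
      funext i
      have h3 := congrFun h1 i.1
      rw [dif_pos i.2] at h3
      exact h3) (by
      intro μ hμ
      have h1 := hJ0 (fun j => if h : j ∈ J0 then μ ⟨j, h⟩ else 0) (by
        rw [mem_Ann]
        intro s hs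
        refine Eq.trans ?_ (hμ ⟨s, hs⟩)
        rw [← Finset.prod_subset (Finset.subset_univ J0) (by
          intro i _ hi
          rw [dif_neg hi, zpow_zero]), ← Finset.prod_attach]
        refine Finset.prod_congr rfl fun i _ => ?_
        rw [dif_pos i.2]) (fun i hi => dif_neg hi)
      funext i
      have h3 := congrFun h1 i.1
      rw [dif_pos i.2] at h3
      exact h3)
  rw [hmain f' (Ideal.mem_comap.2 hf), map_zero]

end Pool.Agent.LogRel
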