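import Mathlib

/-!
# Piece ZI: choice of coordinates
-/

set_option linter.unusedSectionVars false

namespace Pool.Agent.LogRel

variable {σ : Type} [Fintype σ] [DecidableEq σ]

/-- A subspace `A` of `K^σ` has a complement spanned by coordinate vectors: there is a set `J` of
coordinates, `card J = card σ - dim A`, such that no nonzero element of `A` is supported in `J`.

Proof: take `J` maximal with `A ∩ K^J = 0`. Then for each `i ∉ J` there is an element of `A` of the
form `e_i + (K^J)`, so `A + K^J = K^σ`, and the sum is direct. -/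
theorem coord_field {K : Type} [Field K] (A : Submodule K (σ → K)) :
    ∃ J : Finset σ, J.card + Module.finrank K A = Fintype.card σ ∧
      ∀ v ∈ A, (∀ i, i ∉ J → v i = 0) → v = 0 := by
  obtain ⟨κ, a, ha, hspan, hli⟩ := exists_linearIndependent' K
    (fun i : σ => A.mkQ (Pi.single i (1 : K)))
  have : Finite κ := Finite.of_injective a ha
  have := Fintype.ofFinite κ
  have htop : Submodule.span K (Set.range (fun i : σ => A.mkQ (Pi.single i (1 : K)))) = ⊤ := by
    have h1 : Set.range (fun i : σ => A.mkQ (Pi.single i (1 : K)))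
        = A.mkQ '' Set.range (fun i : σ => (Pi.single i (1 : K) : σ → K)) := by
      rw [← Set.range_comp]
      rfl
    have h2 : Submodule.span K (Set.range (fun i : σ => (Pi.single i (1 : K) : σ → K))) = ⊤ := by
      have h3 := (Pi.basisFun K σ).span_eq
      have h4 : (⇑(Pi.basisFun K σ)) = fun i : σ => (Pi.single i (1 : K) : σ → K) := by
        funext i
        exact Pi.basisFun_apply K σ i
      rwa [h4] at h3
    rw [h1, Submodule.span_image, h2, Submodule.map_top, Submodule.range_mkQ]
  rw [htop] at hspan
  have hcard : Fintype.card κ = Module.finrank K ((σ → K) ⧸ A) := by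
    have h1 := finrank_span_eq_card hli
    rw [hspan, finrank_top] at h1
    exact h1.symm
  have hdim : Module.finrank K ((σ → K) ⧸ A) + Module.finrank K A = Fintype.card σ := by
    rw [Submodule.finrank_quotient_add_finrank, Module.finrank_fintype_fun_eq_card]
  refine ⟨Finset.univ.image a, ?_, ?_⟩
  · rw [Finset.card_image_of_injective _ ha, Finset.card_univ, hcard, hdim]
  · intro v hv hs
    have h0 : A.mkQ v = 0 := by
      rw [Submodule.mkQ_apply, Submodule.Quotient.mk_eq_zero]
      exact hv
    have hv' : v = ∑ i : σ, v i • (Pi.single i (1 : K) : σ → K) := by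
      funext j
      rw [Finset.sum_apply]
      simp [Pi.single_apply]
    have h1 : A.mkQ v = ∑ k : κ, v (a k) • (A.mkQ (Pi.single (a k) (1 : K))) := by
      conv_lhs => rw [hv']
      rw [map_sum]
      have h2 : ∑ k : κ, v (a k) • (A.mkQ (Pi.single (a k) (1 : K)))
          = ∑ i ∈ Finset.univ.image a, v i • (A.mkQ (Pi.single i (1 : K))) := by
        rw [Finset.sum_image (fun x _ y _ h => ha h)]
      rw [h2]
      symm
      rw [← Finset.sum_subset (Finset.subset_univ (Finset.univ.image a))]
      · refine Finset.sum_congr rfl (fun i _ => ?_)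
        rw [map_smul]
      · intro i _ hi
        rw [hs i hi, zero_smul, map_zero]
    rw [h0] at h1
    have h3 := (Fintype.linearIndependent_iff.1 hli) (fun k => v (a k)) h1.symm
    funext i
    by_cases hi : i ∈ Finset.univ.image a
    · obtain ⟨k, _, rfl⟩ := Finset.mem_image.1 hi
      exact h3 k
    · exact hs i hi

/-- Dual form: for a set `W` of vectors there is a set `I0` of `dim span W` coordinates such that no
nonzero linear form supported in `I0` vanishes on `W`.
Proof: `coord_field` for the annihilator `{c | ∀ w ∈ W, ∑ c i * w i = 0}`, which has dimension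
`card σ - dim span W`. -/
theorem coord_dual {K : Type} [Field K] (W : Set (σ → K)) :
    ∃ I0 : Finset σ, I0.card = Module.finrank K (Submodule.span K W) ∧
      ∀ c : σ → K, (∀ i, i ∉ I0 → c i = 0) → (∀ w ∈ W, ∑ i, c i * w i = 0) → c = 0 := by
  let e := dotProductEquiv K σ
  obtain ⟨J, hJ, hJ'⟩ := coord_field
    ((Submodule.span K W).dualAnnihilator.map (e.symm : Module.Dual K (σ → K) →ₗ[K] (σ → K)))
  have h1 := Subspace.finrank_add_finrank_dualAnnihilator_eq (Submodule.span K W)
  rw [Module.finrank_fintype_fun_eq_card] at h1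
  have h2 : Module.finrank K ((Submodule.span K W).dualAnnihilator.map
      (e.symm : Module.Dual K (σ → K) →ₗ[K] (σ → K)))
      = Module.finrank K (Submodule.span K W).dualAnnihilator :=
    LinearEquiv.finrank_map_eq e.symm _
  rw [h2] at hJ
  refine ⟨J, by omega, fun c hc hw => hJ' c ?_ hc⟩
  refine ⟨e c, ?_, e.symm_apply_apply c⟩
  rw [SetLike.mem_coe, Submodule.mem_dualAnnihilator]
  intro w hw'
  have h3 : Submodule.span K W ≤ LinearMap.ker (e c) := by
    rw [Submodule.span_le]
    intro x hx
    rw [SetLike.mem_coe, LinearMap.mem_ker]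
    exact hw x hx
  exact h3 hw'

/-- The same for subgroups of `ℤ^σ`.
Proof: as for fields, or apply `coord_field` with `K = ℚ` to the `ℚ`-span of the image of `A`, whose
dimension is the rank of `A`. -/
theorem coord_int (A : Submodule ℤ (σ → ℤ)) :
    ∃ J : Finset σ, J.card + Module.finrank ℤ A = Fintype.card σ ∧
      ∀ v ∈ A, (∀ i, i ∉ J → v i = 0) → v = 0 := by
  obtain ⟨n, b⟩ := Submodule.basisOfPid (Pi.basisFun ℤ σ) A
  let φ : (σ → ℤ) →ₗ[ℤ] (σ → ℚ) :=
    { toFun := fun v i => (v i : ℚ)
      map_add' := fun v w => by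
        funext i
        simp
      map_smul' := fun c v => by
        funext i
        simp }
  have hφ : Function.Injective φ := by
    intro v w h
    funext i
    have h1 : ((v i : ℤ) : ℚ) = ((w i : ℤ) : ℚ) := congrFun h i
    exact_mod_cast h1
  have hli : LinearIndependent ℤ (fun k : Fin n => φ (b k : σ → ℤ)) := by
    have h1 : LinearIndependent ℤ (fun k : Fin n => (b k : σ → ℤ)) :=
      b.linearIndependent.map' A.subtype (Submodule.ker_subtype A)
    exact h1.map' φ (LinearMap.ker_eq_bot.2 hφ)
  have hli' : LinearIndependent ℚ (fun k : Fin n => φ (b k : σ → ℤ)) :=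
    (LinearIndependent.iff_fractionRing ℤ ℚ).1 hli
  obtain ⟨J, hJ, hJ'⟩ := coord_field
    (Submodule.span ℚ (Set.range (fun k : Fin n => φ (b k : σ → ℤ))))
  rw [finrank_span_eq_card hli'] at hJ
  refine ⟨J, ?_, fun v hv hs => ?_⟩
  · rw [Module.finrank_eq_card_basis b]
    exact hJ
  · have h1 : φ v ∈ Submodule.span ℚ (Set.range (fun k : Fin n => φ (b k : σ → ℤ))) := by
      have h2 : v = ∑ k, (b.repr ⟨v, hv⟩ k) • (b k : σ → ℤ) := by
        have h3 := congrArg (fun x : A => (x : σ → ℤ)) (b.sum_repr ⟨v, hv⟩)
        simp only [Submodule.coe_sum, Submodule.coe_smul] at h3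
        exact h3.symm
      rw [h2, map_sum]
      refine Submodule.sum_mem _ (fun k _ => ?_)
      rw [map_zsmul]
      have h4 : (b.repr ⟨v, hv⟩ k) • φ (b k : σ → ℤ)
          = ((b.repr ⟨v, hv⟩ k : ℤ) : ℚ) • φ (b k : σ → ℤ) := by
        rw [Int.cast_smul_eq_zsmul]
      rw [h4]
      exact Submodule.smul_mem _ _ (Submodule.subset_span ⟨k, rfl⟩)
    have h5 := hJ' (φ v) h1 (fun i hi => by
      change ((v i : ℤ) : ℚ) = 0
      rw [hs i hi]
      norm_num)
    exact hφ (by rw [h5, map_zero])

end Pool.Agent.LogRel
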