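import Pool.Agent.Lib_LogRel.Defs
import Pool.Agent.Lib_LogRel.ZI

/-!
# Piece ZJ: number of translates
-/

open MvPolynomial

set_option linter.unusedSectionVars false

namespace Pool.Agent.LogRel

variable {F : Type} [Field F]
variable {P Q L : Type} [Fintype P] [Fintype Q] [Fintype L] [DecidableEq L]

theorem ZJ_comp (u : P → L → F) (γ : Q → L → Fˣ) (p : Ideal (MvPolynomial (P ⊕ Q) F))
    (s t : L → ℤ) : Ideal.comap (tau (ptU u s) (ptG γ s))
      (Ideal.comap (tau (ptU u t) (ptG γ t)) p) =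
        Ideal.comap (tau (ptU u (t + s)) (ptG γ (t + s))) p := by
  ext f
  rw [Ideal.mem_comap, Ideal.mem_comap, Ideal.mem_comap, tau_tau, ptU_add, ptG_add]

theorem ZJ_zero (u : P → L → F) (γ : Q → L → Fˣ) (p : Ideal (MvPolynomial (P ⊕ Q) F)) :
    Ideal.comap (tau (ptU u (0 : L → ℤ)) (ptG γ (0 : L → ℤ))) p = p := by
  ext f
  rw [Ideal.mem_comap, ptU_zero, ptG_zero, tau_zero_one]

theorem ZJ_sub (u : P → L → F) (γ : Q → L → Fˣ) (p : Ideal (MvPolynomial (P ⊕ Q) F))
    {s t : L → ℤ} (h : Ideal.comap (tau (ptU u s) (ptG γ s)) p =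
      Ideal.comap (tau (ptU u t) (ptG γ t)) p) :
    Ideal.comap (tau (ptU u (s - t)) (ptG γ (s - t))) p = p := by
  rw [sub_eq_add_neg, ← ZJ_comp, h, ZJ_comp, add_neg_cancel, ZJ_zero]

theorem ZJ_add (u : P → L → F) (γ : Q → L → Fˣ) (p : Ideal (MvPolynomial (P ⊕ Q) F))
    {s t : L → ℤ} (hs : Ideal.comap (tau (ptU u s) (ptG γ s)) p = p)
    (ht : Ideal.comap (tau (ptU u t) (ptG γ t)) p = p) :
    Ideal.comap (tau (ptU u (s + t)) (ptG γ (s + t))) p = p := by
  rw [← ZJ_comp, hs, ht]

theorem ZJ_smul (u : P → L → F) (γ : Q → L → Fˣ) (p : Ideal (MvPolynomial (P ⊕ Q) F))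
    (c : ℤ) {s : L → ℤ} (hs : Ideal.comap (tau (ptU u s) (ptG γ s)) p = p) :
    Ideal.comap (tau (ptU u (c • s)) (ptG γ (c • s))) p = p := by
  have hneg : Ideal.comap (tau (ptU u (-s)) (ptG γ (-s))) p = p := by
    have h := ZJ_sub u γ p (s := 0) (t := s) (by rw [hs, ZJ_zero])
    rwa [zero_sub] at h
  induction c using Int.induction_on with
  | zero => rw [zero_smul, ZJ_zero]
  | succ n ih => rw [add_smul, one_smul]; exact ZJ_add u γ p ih hs
  | pred n ih => rw [sub_smul, one_smul, sub_eq_add_neg]; exact ZJ_add u γ p ih hneg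

/-- the stabiliser of an ideal under translations, as a subgroup of `ℤ^L` -/
def Stab (u : P → L → F) (γ : Q → L → Fˣ) (p : Ideal (MvPolynomial (P ⊕ Q) F)) :
    Submodule ℤ (L → ℤ) where
  carrier := {s | Ideal.comap (tau (ptU u s) (ptG γ s)) p = p}
  add_mem' := by
    intro s t hs ht
    exact ZJ_add u γ p hs ht
  zero_mem' := by
    exact ZJ_zero u γ p
  smul_mem' := by
    intro c s hs
    exact ZJ_smul u γ p c hs

theorem mem_Stab (u : P → L → F) (γ : Q → L → Fˣ) (p : Ideal (MvPolynomial (P ⊕ Q) F))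
    (s : L → ℤ) : s ∈ Stab u γ p ↔ Ideal.comap (tau (ptU u s) (ptG γ s)) p = p := Iff.rfl

/-- Translates `comap (tau_s) p` and `comap (tau_t) p` are equal only if `s - t` is in the
stabiliser (`tau_s ∘ tau_t = tau_{s+t}`, all `tau_s` are bijective). Hence the number of different
translates with parameters `s ∈ {0..S}^L` is at least `(S+1)^(card L - rank Stab)`: by `coord_int`
there is `J ⊆ L` with `card J = card L - rank` such that no nonzero element of the stabiliser is
supported in `J`; the translates by the `(S+1)^(card J)` parameters supported in `J` are different. -/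
theorem translates (u : P → L → F) (γ : Q → L → Fˣ) (p : Ideal (MvPolynomial (P ⊕ Q) F))
    (S : ℕ) : ∃ T : Finset (L → ℤ), (∀ s ∈ T, ∀ l, 0 ≤ s l ∧ s l ≤ S) ∧
      (S + 1) ^ (Fintype.card L - Module.finrank ℤ (Stab u γ p)) ≤ T.card ∧
      ∀ s ∈ T, ∀ t ∈ T, Ideal.comap (tau (ptU u s) (ptG γ s)) p =
        Ideal.comap (tau (ptU u t) (ptG γ t)) p → s = t := by
  obtain ⟨J, hJ, hJ2⟩ := coord_int (Stab u γ p)
  have hcard : Fintype.card L - Module.finrank ℤ (Stab u γ p) = J.card := by omega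
  refine ⟨Fintype.piFinset (fun l => if l ∈ J then Finset.Icc (0 : ℤ) S else {0}), ?_, ?_, ?_⟩
  · intro s hs l
    rw [Fintype.mem_piFinset] at hs
    have h := hs l
    by_cases hl : l ∈ J
    · rw [if_pos hl, Finset.mem_Icc] at h
      exact h
    · rw [if_neg hl, Finset.mem_singleton] at h
      rw [h]
      exact ⟨le_rfl, Int.natCast_nonneg S⟩
  · rw [hcard, Fintype.card_piFinset]
    have h : ∀ l : L, (if l ∈ J then Finset.Icc (0 : ℤ) S else {0}).card =
        if l ∈ J then S + 1 else 1 := by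
      intro l
      by_cases hl : l ∈ J
      · rw [if_pos hl, if_pos hl, Int.card_Icc]
        omega
      · rw [if_neg hl, if_neg hl, Finset.card_singleton]
    rw [Finset.prod_congr rfl (fun l _ => h l), Finset.prod_ite_mem, Finset.univ_inter,
      Finset.prod_const]
  · intro s hs t ht hst
    rw [Fintype.mem_piFinset] at hs ht
    have h1 : s - t ∈ Stab u γ p := ZJ_sub u γ p hst
    have h2 := hJ2 (s - t) h1 (by
      intro l hl
      have hs' := hs l
      have ht' := ht l
      rw [if_neg hl, Finset.mem_singleton] at hs' ht'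
      rw [Pi.sub_apply, hs', ht', sub_zero])
    exact sub_eq_zero.1 h2

end Pool.Agent.LogRel
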