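import Pool.Agent.Lib_LogRel.Defs

/-!
# Piece ZK1: properties of translations
-/

open MvPolynomial

set_option linter.unusedSectionVars false

namespace Pool.Agent.LogRel

variable {F : Type} [Field F] [CharZero F]
variable {P Q L : Type} [Fintype P] [Fintype Q] [Fintype L] [DecidableEq P] [DecidableEq Q]
  [DecidableEq L]

/-- partial degrees of the images of the variables -/
theorem ZK1_degreeOf_tau_X (a : P → F) (g : Q → Fˣ) (v w : P ⊕ Q) :
    degreeOf v (tau a g (X w)) ≤ if v = w then 1 else 0 := by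
  rcases w with i | i
  · rw [tau_inl]
    refine (degreeOf_add_le _ _ _).trans ?_
    rw [degreeOf_C, degreeOf_X]
    simp
  · rw [tau_inr]
    refine (degreeOf_C_mul_le _ _ _).trans ?_
    rw [degreeOf_X]

/-- translations do not increase the partial degrees -/
theorem ZK1_degreeOf_tau_le (a : P → F) (g : Q → Fˣ) (v : P ⊕ Q)
    (f : MvPolynomial (P ⊕ Q) F) : degreeOf v (tau a g f) ≤ degreeOf v f := by
  have h1 : tau a g f = ∑ m ∈ f.support,
      C (coeff m f) * ∏ w ∈ m.support, tau a g (X w) ^ m w := by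
    conv_lhs => rw [f.as_sum]
    rw [map_sum]
    refine Finset.sum_congr rfl fun m _ => ?_
    rw [monomial_eq, map_mul, Finsupp.prod, map_prod]
    congr 1
    · exact (tau a g).commutes (coeff m f)
    · exact Finset.prod_congr rfl fun w _ => map_pow _ _ _
  rw [h1]
  refine (degreeOf_sum_le _ _ _).trans ?_
  refine Finset.sup_le fun m hm => ?_
  refine (degreeOf_C_mul_le _ _ _).trans ?_
  refine (degreeOf_prod_le _ _ _).trans ?_
  have h2 : ∀ w ∈ m.support, degreeOf v (tau a g (X w) ^ m w) ≤ if v = w then m v else 0 := by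
    intro w _
    refine (degreeOf_pow_le _ _ _).trans ?_
    have h3 := ZK1_degreeOf_tau_X a g v w
    split_ifs at h3 ⊢ with h
    · subst h
      calc m v * degreeOf v (tau a g (X v)) ≤ m v * 1 := Nat.mul_le_mul_left _ h3
        _ = m v := mul_one _
    · rw [Nat.le_zero.1 h3, mul_zero]
  refine (Finset.sum_le_sum h2).trans ?_
  rw [Finset.sum_ite_eq]
  split_ifs with h
  · exact monomial_le_degreeOf v hm
  · exact Nat.zero_le _

/-- translations preserve the bounds for the partial degrees -/
theorem degLe_tau (T L₀ : ℕ) (a : P → F) (g : Q → Fˣ) (f : MvPolynomial (P ⊕ Q) F)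
    (hf : DegLe T L₀ f) : DegLe T L₀ (tau a g f) :=
  ⟨fun i => (ZK1_degreeOf_tau_le a g _ f).trans (hf.1 i),
    fun i => (ZK1_degreeOf_tau_le a g _ f).trans (hf.2 i)⟩

/-- translations as automorphisms -/
noncomputable def ZK1_equiv (a : P → F) (g : Q → Fˣ) :
    MvPolynomial (P ⊕ Q) F ≃+* MvPolynomial (P ⊕ Q) F where
  toFun := tau a g
  invFun := tau (-a) g⁻¹
  left_inv f := by
    rw [tau_tau, neg_add_cancel, inv_mul_cancel, tau_zero_one]
  right_inv f := by
    rw [tau_tau, add_neg_cancel, mul_inv_cancel, tau_zero_one]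
  map_mul' := map_mul _
  map_add' := map_add _

/-- translations preserve heights, primes and torus type -/
theorem comap_tau (a : P → F) (g : Q → Fˣ) (p : Ideal (MvPolynomial (P ⊕ Q) F)) (hp : Torus p) :
    Torus (Ideal.comap (tau a g) p) ∧ (Ideal.comap (tau a g) p).height = p.height := by
  refine ⟨⟨?_, ?_⟩, ?_⟩
  · have := hp.1
    exact Ideal.comap_isPrime _ _
  · intro i hi
    rw [Ideal.mem_comap, tau_inr] at hi
    refine hp.2 i ?_
    have h1 : (X (Sum.inr i) : MvPolynomial (P ⊕ Q) F) =
        C (((g i)⁻¹ : Fˣ) : F) * (C ((g i : Fˣ) : F) * X (Sum.inr i)) := by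
      rw [← mul_assoc, ← C_mul, Units.inv_mul, C_1, one_mul]
    rw [h1]
    exact Ideal.mul_mem_left _ _ hi
  · exact RingEquiv.height_comap (ZK1_equiv a g) p

end Pool.Agent.LogRel
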