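import Pool.Agent.Lib_LogRel.Defs

/-!
# Piece ZK2: pigeonhole for heights
-/

open MvPolynomial

set_option linter.unusedSectionVars false

namespace Pool.Agent.LogRel

variable {F : Type} [Field F] [CharZero F]
variable {P Q L : Type} [Fintype P] [Fintype Q] [Fintype L] [DecidableEq P] [DecidableEq Q]
  [DecidableEq L]

/-- the maximal ideal of the point `(0, 1)` -/
noncomputable def ZK2_m0 (F : Type) [Field F] (P Q : Type) : Ideal (MvPolynomial (P ⊕ Q) F) :=
  RingHom.ker (eval (Sum.elim (fun _ : P => (0 : F)) (fun _ : Q => (1 : F))))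

theorem ZK2_torus : Torus (ZK2_m0 F P Q) := by
  refine ⟨RingHom.ker_isPrime _, fun i hi => ?_⟩
  unfold ZK2_m0 at hi
  rw [RingHom.mem_ker, eval_X, Sum.elim_inr] at hi
  exact one_ne_zero hi

theorem ZK2_eval_tau (a : P → F) (g : Q → Fˣ) (f : MvPolynomial (P ⊕ Q) F) :
    eval (Sum.elim (fun _ : P => (0 : F)) (fun _ : Q => (1 : F))) (tau a g f) =
      eval (Sum.elim a (fun i => ((g i : Fˣ) : F))) f := by
  have h : (aeval (Sum.elim (fun _ : P => (0 : F)) (fun _ : Q => (1 : F)))).comp (tau a g) =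
      (aeval (Sum.elim a (fun i => ((g i : Fˣ) : F))) : MvPolynomial (P ⊕ Q) F →ₐ[F] F) := by
    apply MvPolynomial.algHom_ext
    rintro (i | i)
    · simp [tau]
    · simp [tau]
  have h2 := congrArg (fun φ : MvPolynomial (P ⊕ Q) F →ₐ[F] F => φ f) h
  simp only [AlgHom.comp_apply] at h2
  exact h2

theorem ZK2_height : (ZK2_m0 F P Q).height ≤ ((Fintype.card P + Fintype.card Q : ℕ) : ℕ∞) := by
  have hp : (ZK2_m0 F P Q).IsPrime := (ZK2_torus (F := F) (P := P) (Q := Q)).1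
  have h1 := Ideal.height_le_ringKrullDim_of_ne_top hp.ne_top
  rw [MvPolynomial.ringKrullDim_of_isNoetherianRing, ringKrullDim_eq_zero_of_field, zero_add,
    Nat.card_eq_fintype_card, Fintype.card_sum] at h1
  exact_mod_cast h1

/-- A monotone-type pigeonhole: there is `j < N` and a torus type prime `p` containing all
translates `tau_s f`, `s ∈ {0..(j+1)S}^L`, such that every torus type prime containing all
translates `tau_s f`, `s ∈ {0..jS}^L` has height `≥ height p`, and `1 ≤ height p ≤ N`.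

Proof: for `j ≤ N = card P + card Q` let `η j` be the minimal height of a torus type prime
containing `G j = {tau_s f | s ∈ {0..jS}^L}`. The maximal ideal of the point `(0, 1)` is one (it
contains `tau_s f` because `f` vanishes at the point with parameter `s`); heights are `≤ N` (Krull
dimension of the polynomial ring) and `≥ 1` since `f ≠ 0`. `η` is monotone, `1 ≤ η 0`, `η N ≤ N`, so
`η j = η (j+1)` for some `j < N`. -/
theorem pigeon (u : P → L → F) (γ : Q → L → Fˣ) (S : ℕ) (f : MvPolynomial (P ⊕ Q) F) (hf : f ≠ 0)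
    (hvan : ∀ s : L → ℤ, (∀ l, 0 ≤ s l ∧ s l ≤ (Fintype.card P + Fintype.card Q) * S) →
      eval (Sum.elim (ptU u s) (fun i => ((ptG γ s i : Fˣ) : F))) f = 0) :
    ∃ (j : ℕ) (p : Ideal (MvPolynomial (P ⊕ Q) F)) (h : ℕ), Torus p ∧ p.height = h ∧ 1 ≤ h ∧
      (∀ s : L → ℤ, (∀ l, 0 ≤ s l ∧ s l ≤ (j + 1) * S) → tau (ptU u s) (ptG γ s) f ∈ p) ∧
      ∀ q : Ideal (MvPolynomial (P ⊕ Q) F), Torus q →
        (∀ s : L → ℤ, (∀ l, 0 ≤ s l ∧ s l ≤ j * S) → tau (ptU u s) (ptG γ s) f ∈ q) →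
        (h : ℕ∞) ≤ q.height := by
  classical
  -- the translates
  let T : ℕ → Ideal (MvPolynomial (P ⊕ Q) F) → Prop := fun j p =>
    Torus p ∧ ∀ s : L → ℤ, (∀ l, 0 ≤ s l ∧ s l ≤ (j : ℤ) * S) → tau (ptU u s) (ptG γ s) f ∈ p
  let A : ℕ → Set ℕ := fun j => {h | ∃ p, T j p ∧ p.height = (h : ℕ∞)}
  obtain ⟨N, hN⟩ : ∃ N : ℕ, N = Fintype.card P + Fintype.card Q := ⟨_, rfl⟩
  have hTmono : ∀ {i j : ℕ} {p : Ideal (MvPolynomial (P ⊕ Q) F)}, i ≤ j → T j p → T i p := by
    intro i j p hij hp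
    refine ⟨hp.1, fun s hs => hp.2 s (fun l => ⟨(hs l).1, (hs l).2.trans ?_⟩)⟩
    exact mul_le_mul_of_nonneg_right (by exact_mod_cast hij) (Int.natCast_nonneg S)
  have hT0 : T N (ZK2_m0 F P Q) := by
    refine ⟨ZK2_torus, fun s hs => ?_⟩
    have h := hvan s (fun l => ⟨(hs l).1, by
      have h2 := (hs l).2
      rw [hN] at h2
      push_cast at h2
      exact h2⟩)
    unfold ZK2_m0
    rw [RingHom.mem_ker, ZK2_eval_tau]
    exact h
  -- the height of the point
  obtain ⟨h0, hh0, hh0N⟩ : ∃ h0 : ℕ, (ZK2_m0 F P Q).height = (h0 : ℕ∞) ∧ h0 ≤ N := by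
    have h1 := ZK2_height (F := F) (P := P) (Q := Q)
    rw [← hN] at h1
    obtain ⟨h0, hh0⟩ := ENat.ne_top_iff_exists.mp (ne_top_of_le_ne_top (ENat.natCast_ne_top N) h1)
    refine ⟨h0, hh0.symm, ?_⟩
    rw [← hh0] at h1
    exact_mod_cast h1
  have hAne : ∀ j : ℕ, j ≤ N → (A j).Nonempty := fun j hj => ⟨h0, _, hTmono hj hT0, hh0⟩
  have hle : ∀ j : ℕ, j ≤ N → sInf (A j) ≤ N := fun j hj =>
    (Nat.sInf_le (show h0 ∈ A j from ⟨_, hTmono hj hT0, hh0⟩)).trans hh0N
  have hmono : ∀ j : ℕ, j + 1 ≤ N → sInf (A j) ≤ sInf (A (j + 1)) := by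
    intro j hj
    obtain ⟨p, hp, hp2⟩ := Nat.sInf_mem (hAne (j + 1) hj)
    exact Nat.sInf_le (show sInf (A (j + 1)) ∈ A j from ⟨p, hTmono (Nat.le_succ j) hp, hp2⟩)
  have hone : 1 ≤ sInf (A 0) := by
    obtain ⟨p, hp, hp2⟩ := Nat.sInf_mem (hAne 0 (Nat.zero_le N))
    by_contra hlt
    have h0' : sInf (A 0) = 0 := by omega
    rw [h0', Nat.cast_zero, Ideal.height_eq_zero_iff_eq_bot] at hp2
    have h3 := hp.2 0 (fun l => ⟨le_rfl, by simp⟩)
    rw [ptU_zero, ptG_zero, tau_zero_one, hp2, Ideal.mem_bot] at h3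
    exact hf h3
  -- pigeonhole
  obtain ⟨j, hjN, hj⟩ : ∃ j : ℕ, j + 1 ≤ N ∧ sInf (A (j + 1)) ≤ sInf (A j) := by
    by_contra hcon
    push Not at hcon
    have h4 : ∀ j : ℕ, j ≤ N → j + 1 ≤ sInf (A j) := by
      intro j
      induction j with
      | zero => exact fun _ => hone
      | succ j ih =>
        intro hj
        have h5 := ih (by omega)
        have h6 := hcon j hj
        omega
    have h7 := h4 N le_rfl
    have h8 := hle N le_rfl
    omega
  obtain ⟨p, hp, hp2⟩ := Nat.sInf_mem (hAne (j + 1) hjN)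
  have heq : sInf (A j) = sInf (A (j + 1)) := le_antisymm (hmono j hjN) hj
  have hge1 : ∀ i : ℕ, i ≤ N → 1 ≤ sInf (A i) := by
    intro i
    induction i with
    | zero => exact fun _ => hone
    | succ i ih => exact fun hi => (ih (by omega)).trans (hmono i hi)
  refine ⟨j, p, sInf (A (j + 1)), hp.1, hp2, hge1 _ hjN, fun s hs => hp.2 s (fun l => ?_), ?_⟩
  · refine ⟨(hs l).1, ?_⟩
    have h9 := (hs l).2
    push_cast
    exact h9
  · intro q hq hq2
    by_cases hqt : q.height = ⊤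
    · rw [hqt]
      exact le_top
    · obtain ⟨n, hn⟩ := ENat.ne_top_iff_exists.mp hqt
      rw [← hn, ← heq]
      have h10 : sInf (A j) ≤ n := Nat.sInf_le (show n ∈ A j from ⟨q, ⟨hq, hq2⟩, hn.symm⟩)
      exact_mod_cast h10

end Pool.Agent.LogRel
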