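import Pool.Agent.Lib_LogRel.ZF
import Pool.Agent.Lib_LogRel.ZG
import Pool.Agent.Lib_LogRel.ZH
import Pool.Agent.Lib_LogRel.ZI
import Pool.Agent.Lib_LogRel.ZJ
import Pool.Agent.Lib_LogRel.ZK1
import Pool.Agent.Lib_LogRel.ZK2

/-!
# Piece ZK: the zero estimate (assembly)
-/

open MvPolynomial

set_option linter.unusedSectionVars false

namespace Pool.Agent.LogRel

section aux

variable {F : Type} [Field F] {P Q : Type} [Fintype P] [Fintype Q] [DecidableEq P] [DecidableEq Q]

/-- translations preserve the set of variables -/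
theorem ZK_supp (a : P → F) (g : Q → Fˣ) (S : Set (P ⊕ Q)) {f : MvPolynomial (P ⊕ Q) F}
    (hf : f ∈ supported F S) : tau a g f ∈ supported F S := by
  have h1 : supported F S ≤ (supported F S).comap (tau a g) := by
    conv_lhs => rw [supported_eq_adjoin_X]
    rw [Algebra.adjoin_le_iff]
    rintro _ ⟨v, hv, rfl⟩
    show tau a g (X v) ∈ supported F S
    rcases v with i | i
    · rw [tau_inl]
      exact add_mem (Algebra.subset_adjoin ⟨_, hv, rfl⟩) ((supported F S).algebraMap_mem _)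
    · rw [tau_inr]
      exact mul_mem ((supported F S).algebraMap_mem _) (Algebra.subset_adjoin ⟨_, hv, rfl⟩)
  exact h1 hf

theorem ZK_indS (p : Ideal (MvPolynomial (P ⊕ Q) F)) (I0 : Finset P) (J0 : Finset Q) :
    IndS p (I0.disjSum J0) ↔ Indep p I0 J0 := by
  constructor
  · intro h f hf hv
    refine h f hf fun v hvv => ?_
    obtain ⟨h1, h2⟩ := hv v hvv
    rcases v with i | i
    · exact Finset.inl_mem_disjSum.2 (h1 i rfl)
    · exact Finset.inr_mem_disjSum.2 (h2 i rfl)
  · intro h f hf hv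
    refine h f hf fun v hvv => ⟨fun i hi => ?_, fun i hi => ?_⟩
    · have h1 := hv hvv
      rw [hi] at h1
      exact Finset.inl_mem_disjSum.1 h1
    · have h1 := hv hvv
      rw [hi] at h1
      exact Finset.inr_mem_disjSum.1 h1

/-- independence modulo translates -/
theorem ZK_indep_comap (a : P → F) (g : Q → Fˣ) (p : Ideal (MvPolynomial (P ⊕ Q) F))
    (I0 : Finset P) (J0 : Finset Q) (h : Indep p I0 J0) :
    Indep (Ideal.comap (tau a g) p) I0 J0 := by
  rw [← ZK_indS] at h ⊢
  intro f hf hv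
  have h1 : f ∈ supported F ((I0.disjSum J0 : Finset (P ⊕ Q)) : Set (P ⊕ Q)) := by
    rw [mem_supported]
    exact_mod_cast hv
  have h2 := ZK_supp a g _ h1
  rw [mem_supported] at h2
  have h3 := h (tau a g f) (Ideal.mem_comap.1 hf) (by exact_mod_cast h2)
  have h4 := tau_tau (-a) a g⁻¹ g f
  rw [h3, map_zero, neg_add_cancel, inv_mul_cancel, tau_zero_one] at h4
  exact h4.symm

theorem ZK_height_le (p : Ideal (MvPolynomial (P ⊕ Q) F)) (hp : p.IsPrime) :
    p.height ≤ ((Fintype.card P + Fintype.card Q : ℕ) : ℕ∞) := by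
  have h1 := Ideal.height_le_ringKrullDim_of_ne_top hp.ne_top
  rw [MvPolynomial.ringKrullDim_of_isNoetherianRing, ringKrullDim_eq_zero_of_field, zero_add,
    Nat.card_eq_fintype_card, Fintype.card_sum] at h1
  exact_mod_cast h1

end aux

variable {F : Type} [Field F] [CharZero F]
variable {P Q L : Type} [Fintype P] [Fintype Q] [Fintype L] [DecidableEq P] [DecidableEq Q]
  [DecidableEq L]

/-- **Zero estimate** for `G_a^P x G_m^Q`. Let `f ≠ 0` have partial degrees `≤ T` (additive) and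
`≤ L₀` (multiplicative), `1 ≤ L₀`, `1 ≤ T`, and let `f` vanish at all points with parameters
`s ∈ {0..N S}^L`, `N = card P + card Q`. Then there is a subgroup `Φ` of `ℤ^L` with
`(h0 Φ, rank Ann Φ) ≠ (card P, 0)` and
`(S+1)^(card L - rank Φ) * T^(h0 Φ) ≤ 2^(N²) * T^(card P) * L₀^(rank Ann Φ)`.

Proof: `j, p, h` from `pigeon`, `Φ = Stab u γ p`. Let `I0`, `J0` be as in `coord_dual`
(`card I0 = h0 Φ`) and `coord_int` for `A = Ann γ Φ` (`card J0 + rank Ann Φ = card Q`). By
`indep_of_stable` the variables in `I0`, `J0` are independent modulo `p`. If `h0 Φ = card P` and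
`rank Ann Φ = 0` then all variables are independent, `p = 0`, contradicting `1 ≤ h`. By
`exists_indep` there are `I1 ⊇ I0`, `J1 ⊇ J0` still independent with `N ≤ |I1| + |J1| + h`. Let `ps` be
the set of the translates `comap (tau_s) p`, `s ∈ T'`, `T'` from `translates`. They are torus type
primes of height `h` (`comap_tau`), they contain `G = {tau_s f | s ∈ {0..jS}^L}` (`tau_s tau_t = tau_{s+t}`), and
the variables in `I1`, `J1` are independent modulo each (translations are bijections of the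
polynomials in these variables: if `f' ∈ comap tau p` then `tau f' ∈ p` has the same variables). By
`counting`: `card ps * T^|I1| * L₀^|J1| ≤ 2^(N h) T^p L₀^q`, and `h ≤ N` (Krull dimension). Since
`|I1| ≥ |I0| = h0 Φ` and `|J1| ≥ |J0|`: `T^|I1| L₀^|J1| ≥ T^|I0| L₀^|J0|`; divide by `L₀^|J0|`. -/
theorem zero_estimate (u : P → L → F) (γ : Q → L → Fˣ) (T L₀ S : ℕ) (hL : 1 ≤ L₀) (hT : 1 ≤ T)
    (f : MvPolynomial (P ⊕ Q) F) (hf : f ≠ 0) (hdeg : DegLe T L₀ f)
    (hvan : ∀ s : L → ℤ, (∀ l, 0 ≤ s l ∧ s l ≤ (Fintype.card P + Fintype.card Q) * S) →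
      eval (Sum.elim (ptU u s) (fun i => ((ptG γ s i : Fˣ) : F))) f = 0) :
    ∃ Φ : Submodule ℤ (L → ℤ),
      (h0 u Φ < Fintype.card P ∨ 0 < Module.finrank ℤ (Ann γ Φ)) ∧
      (S + 1) ^ (Fintype.card L - Module.finrank ℤ Φ) * T ^ (h0 u Φ) ≤
        2 ^ ((Fintype.card P + Fintype.card Q) * (Fintype.card P + Fintype.card Q)) *
          T ^ (Fintype.card P) * L₀ ^ (Module.finrank ℤ (Ann γ Φ)) := by
  classical
  obtain ⟨j, p, h, hpT, hph, hh1, hcont, hmin⟩ := pigeon u γ S f hf hvan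
  obtain ⟨Φ, hΦ⟩ : ∃ Φ, Φ = Stab u γ p := ⟨_, rfl⟩
  obtain ⟨I0, hI0card, hI0⟩ := coord_dual (ptU u '' (Φ : Set (L → ℤ)))
  obtain ⟨J0, hJ0card, hJ0⟩ := coord_int (Ann γ Φ)
  have hh0 : h0 u Φ = I0.card := by
    unfold h0
    exact hI0card.symm
  have hind0 : Indep p I0 J0 := by
    refine indep_of_stable u γ Φ p hpT ?_ I0 J0 ?_ hJ0
    · intro s hs g hg
      rw [hΦ, mem_Stab] at hs
      rw [← hs] at hg
      exact Ideal.mem_comap.1 hg
    · intro c hc hcs
      refine hI0 c hc ?_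
      rintro w ⟨s, hs, rfl⟩
      exact hcs s hs
  obtain ⟨S₁, hS₀, hS₁, hS₁card⟩ := exists_indep p hpT.1 (I0.disjSum J0) ((ZK_indS p I0 J0).2 hind0)
  obtain ⟨I1, hI1⟩ : ∃ I1, I1 = S₁.toLeft := ⟨_, rfl⟩
  obtain ⟨J1, hJ1⟩ : ∃ J1, J1 = S₁.toRight := ⟨_, rfl⟩
  have hS₁' : S₁ = I1.disjSum J1 := by rw [hI1, hJ1, Finset.toLeft_disjSum_toRight]
  rw [hS₁'] at hS₀ hS₁ hS₁card
  have hind1 : Indep p I1 J1 := (ZK_indS p I1 J1).1 hS₁
  have hI01 : I0.card ≤ I1.card := Finset.card_le_card fun i hi =>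
    Finset.inl_mem_disjSum.1 (hS₀ (Finset.inl_mem_disjSum.2 hi))
  have hJ01 : J0.card ≤ J1.card := Finset.card_le_card fun i hi =>
    Finset.inr_mem_disjSum.1 (hS₀ (Finset.inr_mem_disjSum.2 hi))
  have hcard : Fintype.card P + Fintype.card Q ≤ I1.card + J1.card + h := by
    rw [hph, Finset.card_disjSum, Fintype.card_sum] at hS₁card
    exact_mod_cast hS₁card
  have hhN : h ≤ Fintype.card P + Fintype.card Q := by
    have h1 := ZK_height_le p hpT.1
    rw [hph] at h1
    exact_mod_cast h1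
  obtain ⟨T', hT'1, hT'2, hT'3⟩ := translates u γ p S
  obtain ⟨ps, hps⟩ : ∃ ps, ps = T'.image fun s => Ideal.comap (tau (ptU u s) (ptG γ s)) p :=
    ⟨_, rfl⟩
  have hpscard : ps.card = T'.card := by
    rw [hps]
    exact Finset.card_image_of_injOn fun s hs t ht hst => hT'3 s hs t ht hst
  have hcount := counting T L₀ hT hL
    {g | ∃ s : L → ℤ, (∀ l, 0 ≤ s l ∧ s l ≤ j * S) ∧ g = tau (ptU u s) (ptG γ s) f} (by
      rintro g ⟨s, _, rfl⟩
      exact degLe_tau T L₀ _ _ f hdeg) h (by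
      intro q hq hsub
      exact hmin q hq fun s hs => hsub ⟨s, hs, rfl⟩) ps (by
      intro q hq
      rw [hps, Finset.mem_image] at hq
      obtain ⟨s, hs, rfl⟩ := hq
      obtain ⟨h1, h2⟩ := comap_tau (ptU u s) (ptG γ s) p hpT
      refine ⟨h1, ?_, by rw [h2, hph]⟩
      rintro g ⟨t, ht, rfl⟩
      show tau (ptU u t) (ptG γ t) f ∈ Ideal.comap (tau (ptU u s) (ptG γ s)) p
      rw [Ideal.mem_comap, tau_tau, ← ptU_add, ← ptG_add]
      refine hcont _ fun l => ?_
      have h3 := hT'1 s hs l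
      have h4 := ht l
      rw [Pi.add_apply]
      constructor
      · exact add_nonneg h3.1 h4.1
      · have h5 : ((j : ℤ) + 1) * S = S + j * S := by ring
        rw [h5]
        exact add_le_add h3.2 h4.2) I1 J1 (by
      intro q hq
      rw [hps, Finset.mem_image] at hq
      obtain ⟨s, hs, rfl⟩ := hq
      exact ZK_indep_comap _ _ p I1 J1 hind1) hcard
  refine ⟨Φ, ?_, ?_⟩
  · by_contra hcon
    push Not at hcon
    obtain ⟨hc1, hc2⟩ := hcon
    have hI : I0 = Finset.univ := by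
      rw [← Finset.card_eq_iff_eq_univ]
      exact le_antisymm (Finset.card_le_univ _) (by rw [← hh0]; exact hc1)
    have hJ : J0 = Finset.univ := by
      rw [← Finset.card_eq_iff_eq_univ]
      omega
    have hbot : p = ⊥ := by
      rw [eq_bot_iff]
      intro g hg
      rw [Ideal.mem_bot]
      refine hind0 g hg fun v _ => ⟨fun i _ => ?_, fun i _ => ?_⟩
      · rw [hI]
        exact Finset.mem_univ _
      · rw [hJ]
        exact Finset.mem_univ _
    have h1 : p.height = 0 := by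
      rw [hbot]
      exact Ideal.height_bot
    rw [hph] at h1
    have h2 : h = 0 := by exact_mod_cast h1
    omega
  · have hL0 : 0 < L₀ ^ J0.card := Nat.pow_pos (by omega)
    refine Nat.le_of_mul_le_mul_right ?_ hL0
    rw [hh0]
    calc (S + 1) ^ (Fintype.card L - Module.finrank ℤ Φ) * T ^ I0.card * L₀ ^ J0.card
        = (S + 1) ^ (Fintype.card L - Module.finrank ℤ Φ) * (T ^ I0.card * L₀ ^ J0.card) := by ring
      _ ≤ ps.card * (T ^ I1.card * L₀ ^ J1.card) := by
          rw [hpscard]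
          refine Nat.mul_le_mul ?_ (Nat.mul_le_mul (Nat.pow_le_pow_right hT hI01)
            (Nat.pow_le_pow_right hL hJ01))
          rw [hΦ]
          exact hT'2
      _ ≤ 2 ^ ((Fintype.card P + Fintype.card Q) * h) *
          (T ^ Fintype.card P * L₀ ^ Fintype.card Q) := hcount
      _ ≤ 2 ^ ((Fintype.card P + Fintype.card Q) * (Fintype.card P + Fintype.card Q)) *
          (T ^ Fintype.card P * L₀ ^ Fintype.card Q) := by
          refine Nat.mul_le_mul_right _ (Nat.pow_le_pow_right (by norm_num) ?_)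
          exact Nat.mul_le_mul_left _ hhN
      _ = _ := by
          rw [← hJ0card, pow_add]
          ring

end Pool.Agent.LogRel
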