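import Pool.Agent.Lib_LogRel.ZK
import Pool.Agent.Lib_LogRel.AJ

/-!
# Piece ZL: linear subgroup theorem for `G_a^P x G_m^Q` (assembly)
-/

open MvPolynomial

set_option linter.unusedSectionVars false

namespace Pool.Agent.LogRel

variable {P Q L N : Type} [Fintype P] [Fintype Q] [Fintype L] [Fintype N] [DecidableEq P]
  [DecidableEq Q] [DecidableEq L]

/-- Linear subgroup theorem (of Waldschmidt), form used here.

Proof: `M = card P + card Q` (`≥ 1` by `hcond`). Let `m` be large (`m ≥ m₀` from `aux_poly`,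
`m > 2^(M²)`, `m ≥ 1`), `T = m^(a+b-1)`, `L₀ = m^b`, `S = m^a`, `f` from `aux_poly` (partial degrees
`≤ T`, `≤ L₀`). By `zero_estimate` there is `Φ` with
`(S+1)^(card L - rank Φ) T^(h0) ≤ 2^(M²) T^p L₀^r`, `r = rank (Ann Φ)`; `T^p = T^(p-h0) T^h0`
(`h0 ≤ p`), so `m^(a (card L - rank Φ)) ≤ 2^(M²) m^((a+b-1)(p-h0) + b r)`. By `hΦ` the exponent on the
left is at least one more than the exponent on the right, so `m ≤ 2^(M²)`, contradiction. -/
theorem lst (c : P → N → ℂ) (w : Q → N → ℂ) (y : L → N → ℂ) (u : P → L → ℂ)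
    (γ : Q → L → ℂˣ) (hu : ∀ i l, u i l = ∑ ν, c i ν * y l ν)
    (hγ : ∀ i l, ((γ i l : ℂˣ) : ℂ) = Complex.exp (∑ ν, w i ν * y l ν))
    (hua : ∀ i l, IsAlgebraic ℚ (u i l)) (hγa : ∀ i l, IsAlgebraic ℚ ((γ i l : ℂˣ) : ℂ))
    (a b : ℕ) (ha : 1 ≤ a) (hb : 1 ≤ b) (hN : 1 ≤ Fintype.card N)
    (hcond : (a + b) * Fintype.card N < (a + b - 1) * Fintype.card P + b * Fintype.card Q)
    (hΦ : ∀ Φ : Submodule ℤ (L → ℤ),
      (h0 u Φ < Fintype.card P ∨ 0 < Module.finrank ℤ (Ann γ Φ)) →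
      (a + b - 1) * (Fintype.card P - h0 u Φ) + b * Module.finrank ℤ (Ann γ Φ) <
        a * (Fintype.card L - Module.finrank ℤ Φ)) : False := by
  have hM : 1 ≤ Fintype.card P + Fintype.card Q := by
    by_contra h
    have h1 : Fintype.card P = 0 := by omega
    have h2 : Fintype.card Q = 0 := by omega
    rw [h1, h2] at hcond
    omega
  obtain ⟨m₀, hm₀⟩ := aux_poly c w y u γ hu hγ hua hγa a b (Fintype.card P + Fintype.card Q)
    ha hb hM hN hcond
  obtain ⟨m, hmm, hm2⟩ : ∃ m : ℕ, m₀ ≤ m ∧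
      2 ^ ((Fintype.card P + Fintype.card Q) * (Fintype.card P + Fintype.card Q)) < m :=
    ⟨max m₀ (2 ^ ((Fintype.card P + Fintype.card Q) * (Fintype.card P + Fintype.card Q)) + 1),
      le_max_left _ _, lt_of_lt_of_le (Nat.lt_succ_self _) (le_max_right _ _)⟩
  have hm1 : 1 ≤ m := lt_of_le_of_lt (Nat.zero_le _) hm2
  obtain ⟨f, hfb, hf0, hfv⟩ := hm₀ m hmm
  have hdeg : DegLe (m ^ (a + b - 1)) (m ^ b) f := by
    have hsub : (f.support : Set ((P ⊕ Q) →₀ ℕ)) ⊆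
        {t | (∀ i : P, t (Sum.inl i) < m ^ (a + b - 1)) ∧ (∀ i : Q, t (Sum.inr i) < m ^ b)} :=
      (mem_restrictSupport_iff ℂ).1 hfb
    constructor
    · intro i
      rw [degreeOf_le_iff]
      intro t ht
      exact ((hsub ht).1 i).le
    · intro i
      rw [degreeOf_le_iff]
      intro t ht
      exact ((hsub ht).2 i).le
  have hTpos : 1 ≤ m ^ (a + b - 1) := Nat.one_le_pow _ _ hm1
  have hLpos : 1 ≤ m ^ b := Nat.one_le_pow _ _ hm1
  obtain ⟨Φ, hΦ1, hΦ2⟩ := zero_estimate u γ (m ^ (a + b - 1)) (m ^ b) (m ^ a) hLpos hTpos f hf0 hdeg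
    (by
      intro s hs
      refine hfv s ?_
      intro l
      refine ⟨(hs l).1, ?_⟩
      have h := (hs l).2
      push_cast at h ⊢
      exact h)
  have hlt := hΦ Φ hΦ1
  have hh0 : h0 u Φ ≤ Fintype.card P := by
    have h := Submodule.finrank_le (Submodule.span ℂ (ptU u '' (Φ : Set (L → ℤ))))
    rw [Module.finrank_fintype_fun_eq_card] at h
    exact h
  have hTsplit : (m ^ (a + b - 1)) ^ (Fintype.card P) =
      (m ^ (a + b - 1)) ^ (Fintype.card P - h0 u Φ) * (m ^ (a + b - 1)) ^ (h0 u Φ) := by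
    rw [← pow_add, Nat.sub_add_cancel hh0]
  have hT0 : 0 < (m ^ (a + b - 1)) ^ (h0 u Φ) := pow_pos hTpos _
  have h3 : (m ^ a + 1) ^ (Fintype.card L - Module.finrank ℤ Φ) ≤
      2 ^ ((Fintype.card P + Fintype.card Q) * (Fintype.card P + Fintype.card Q)) *
        (m ^ (a + b - 1)) ^ (Fintype.card P - h0 u Φ) * (m ^ b) ^ (Module.finrank ℤ (Ann γ Φ)) := by
    refine Nat.le_of_mul_le_mul_right ?_ hT0
    refine hΦ2.trans (le_of_eq ?_)
    rw [hTsplit]
    ring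
  have h4 : m ^ (a * (Fintype.card L - Module.finrank ℤ Φ)) ≤
      (m ^ a + 1) ^ (Fintype.card L - Module.finrank ℤ Φ) := by
    rw [pow_mul]
    exact Nat.pow_le_pow_left (Nat.le_succ _) _
  have h5 : (m ^ (a + b - 1)) ^ (Fintype.card P - h0 u Φ) * (m ^ b) ^ (Module.finrank ℤ (Ann γ Φ)) =
      m ^ ((a + b - 1) * (Fintype.card P - h0 u Φ) + b * Module.finrank ℤ (Ann γ Φ)) := by
    rw [pow_add, pow_mul, pow_mul]
  have h6 : m ^ ((a + b - 1) * (Fintype.card P - h0 u Φ) + b * Module.finrank ℤ (Ann γ Φ) + 1) ≤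
      m ^ (a * (Fintype.card L - Module.finrank ℤ Φ)) := Nat.pow_le_pow_right hm1 hlt
  have h7 : m * m ^ ((a + b - 1) * (Fintype.card P - h0 u Φ) + b * Module.finrank ℤ (Ann γ Φ)) ≤
      2 ^ ((Fintype.card P + Fintype.card Q) * (Fintype.card P + Fintype.card Q)) *
        m ^ ((a + b - 1) * (Fintype.card P - h0 u Φ) + b * Module.finrank ℤ (Ann γ Φ)) := by
    rw [← pow_succ', ← h5, ← mul_assoc]
    exact h6.trans (h4.trans h3)
  have h8 : m ≤ 2 ^ ((Fintype.card P + Fintype.card Q) * (Fintype.card P + Fintype.card Q)) :=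
    Nat.le_of_mul_le_mul_right h7 (pow_pos hm1 _)
  exact absurd h8 (not_le.2 hm2)

end Pool.Agent.LogRel
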